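import Pool.Agent.Work.MP_a2bf38_gt.Z.Defs

/-!
# The setup of a Kähler-Ricci flow whose limit class is semi-ample
-/

open scoped ContDiff ENNReal ComplexOrder Topology
open Set MeasureTheory Filter Pool.Agent.ToricKRF Pool.Agent.ToricKRF.G Pool.Agent.KRFS
  Pool.Agent.KRFF Pool.Agent.KRFG Pool.Agent.KRFE

namespace Pool.Agent.KRFZ

/-- A Kähler-Ricci flow whose limit class is the pull-back of a Kähler class under a map `f : M → Z`
with connected fibres.  The charts of `M` have the ball of radius `10` in their target, the unit balls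
cover `M`, and the charts and the embeddings of `Z` are bi-Lipschitz.  The fibres are covered by
sheeted curves (`curv`), and `loj` is the Łojasiewicz inequality of the fibre product. -/
structure Semi (n N : ℕ) (M Z : Type) [MetricSpace M] [MetricSpace Z] (κ P : Type) (T : ℝ)
    extends Flow n M κ T where
  hT : 0 < T
  S : P → Set Z
  q : P → Z → Cn N
  f : M → Z
  K : P → Cn N → ℝ
  target : ∀ c, {x | nsq x < 100} ⊆ (e c).target
  cover : ∀ p, ∃ c, p ∈ (e c).source ∧ nsq (e c p) ≤ 1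
  Θ_eq : ∀ c x, Θ c x = ψ c (0, x) + T * Real.log (Ω c x)
  emb : IsEmb e S q f
  pull : IsPull e S q f T ψ Ω K
  lipM : ∃ C, 0 < C ∧ ∀ c x x', nsq x ≤ 81 → nsq x' ≤ 81 →
    dist ((e c).symm x) ((e c).symm x') ^ 2 ≤ C * nsq (x - x') ∧
      nsq (x - x') ≤ C * dist ((e c).symm x) ((e c).symm x') ^ 2
  lipZ : ∃ C, 0 < C ∧ ∀ j, ∀ z ∈ S j, ∀ z' ∈ S j, nsq (q j z) ≤ 81 → nsq (q j z') ≤ 81 →
    dist z z' ^ 2 ≤ C * nsq (q j z - q j z') ∧ nsq (q j z - q j z') ≤ C * dist z z' ^ 2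
  conn : ∀ z, IsPreconnected (f ⁻¹' {z})
  curv : ∃ (D₀ : ℕ) (C α : ℝ), 0 ≤ C ∧ 0 < α ∧ ∀ z l, 1 ≤ l → ∃ A : Finset M, A.card ≤ D₀ ∧
    (∀ p ∈ A, f p = z) ∧ ∀ p, f p = z → ∃ (D : ℕ) (γ : ℂ → Fin D → M) (ρ : M → ℝ) (s₀ s₁ : ℂ),
      D ≤ D₀ ∧ ‖s₀‖ ≤ 1 ∧ ‖s₁‖ ≤ 1 ∧ (∀ i, γ s₀ i ∈ A) ∧ (∃ i, γ s₁ i = p) ∧
      IsCurve e ψ (f ⁻¹' {z}) C l α γ ρ s₀ s₁
  loj : ∃ Λ, 1 ≤ Λ ∧ LojAt f Λ

section

variable {n N : ℕ} {M Z : Type} [MetricSpace M] [MetricSpace Z] {κ P : Type} {T : ℝ}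
  (F : Semi n N M Z κ P T)

/-- the local potential of `θ_t = (1 - t/T) ω(0) + (t/T) θ`, `φ + th = ψ(t)` -/
noncomputable def Semi.th (t : ℝ) (c : κ) (x : Cn n) : ℝ :=
  F.ψ c (0, x) + t * Real.log (F.Ω c x)

/-- the regularization of `φ(t)` at the scale `exp (-l)`, in the chart `c` -/
noncomputable def Semi.U (t : ℝ) (c : κ) (l : ℝ) (x : Cn n) : ℝ :=
  supB (fun x => F.ψ c (t, x)) x (Real.exp (-l)) - F.th t c x

/-- the maximum of the regularization on the fibre over `z` -/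
noncomputable def Semi.mm (t : ℝ) (z : Z) (l : ℝ) : ℝ :=
  sSup {r | ∃ c p, p ∈ (F.e c).source ∧ nsq (F.e c p) ≤ 9 ∧ F.f p = z ∧
    r = F.U t c l (F.e c p)}

/-- `mm (l/2) - mm l + (T - t) l + exp (-l/2)` -/
noncomputable def Semi.A (t : ℝ) (z : Z) (l : ℝ) : ℝ :=
  F.mm t z (l / 2) - F.mm t z l + (T - t) * l + Real.exp (-(l / 2))

/-- `A + mm - U ≥ A > 0` -/
noncomputable def Semi.G (t : ℝ) (z : Z) (c : κ) (l : ℝ) (x : Cn n) : ℝ :=
  F.A t z l + F.mm t z l - F.U t c l x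

/-- the coordinates of `f p` -/
def Semi.y (j : P) (p : M) : Cn N := F.q j (F.f p)

/-- the part of `M` over the ball of radius `9` of the chart `j` of `Z` -/
def Semi.V (j : P) : Set M := {p | F.f p ∈ F.S j ∧ nsq (F.y j p) < 81}

/-- `h` is holomorphic on `V j` -/
def Semi.Hol (j : P) (h : M → ℂ) : Prop :=
  ∀ c, NF.HolC (fun x => h ((F.e c).symm x)) {x | x ∈ (F.e c).target ∧ (F.e c).symm x ∈ F.V j}

/-- `φ + K_j ∘ F_j` -/
noncomputable def Semi.pK (t : ℝ) (j : P) (p : M) : ℝ := F.Phi t p + F.K j (F.y j p)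

/-- the functions `h` of norm at most `1` -/
def Semi.Adm [MeasurableSpace M] (μ : Measure M) (t p : ℝ) (j : P) (h : M → ℂ) : Prop :=
  F.Hol j h ∧ ∫⁻ x in F.V j, ENNReal.ofReal (‖h x‖ ^ 2 * Real.exp (-(p * F.pK t j x))) ∂μ ≤ 1

/-- `(1/p) log |h|^2 - K_j ∘ F_j` -/
noncomputable def Semi.val (p : ℝ) (j : P) (h : M → ℂ) (x : M) : ℝ :=
  1 / p * Real.log (‖h x‖ ^ 2) - F.K j (F.y j x)

/-- `dbar χ (v)` -/
noncomputable def dbv {n : ℕ} (χ : Cn n → ℂ) (v x : Cn n) : ℂ :=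
  (fderiv ℝ χ x v + Complex.I * fderiv ℝ χ x (J v)) / 2

end

end Pool.Agent.KRFZ
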