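import Pool.Agent.Work.MP_a2bf38_gt.K.Setup
import Pool.Agent.Work.MP_a2bf38_gt.I.NatFlow
import Pool.Agent.Work.MP_a2bf38_gt.E.SupReg

/-!
# Holomorphic maps with arbitrary singular fibres

`f : M → Z` is a map from a compact complex manifold onto a space `Z` with local embeddings `q j` in
`ℂ^N`, such that `q j ∘ f` is holomorphic.
-/

open scoped ContDiff ENNReal ComplexOrder Topology
open Set MeasureTheory Filter Pool.Agent.ToricKRF Pool.Agent.ToricKRF.G Pool.Agent.KRFS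
  Pool.Agent.KRFF Pool.Agent.KRFG

namespace Pool.Agent.KRFZ

/-- The map `g` is holomorphic on the open set `U` of `ℂ`. -/
structure HolD {n : ℕ} (g : ℂ → Cn n) (U : Set ℂ) : Prop where
  smooth : ContDiffOn ℝ ∞ g U
  holo : ∀ s ∈ U, fderiv ℝ g s Complex.I = J (fderiv ℝ g s 1)

/-- `f : M → Z` is continuous and onto; `q j` is an embedding of the open set `S j` of `Z` in the ball
of radius `10` of `ℂ^N`, with closed image, and `q j ∘ f` is holomorphic.  The parts `|q j| ≤ 1` of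
the sets `S j` cover `Z`. -/
structure IsEmb {M Z : Type} [TopologicalSpace M] [TopologicalSpace Z] {n N : ℕ} {κ P : Type}
    (e : κ → OpenPartialHomeomorph M (Cn n)) (S : P → Set Z) (q : P → Z → Cn N) (f : M → Z) :
    Prop where
  cont : Continuous f
  surj : Function.Surjective f
  isOpen : ∀ j, IsOpen (S j)
  qcont : ∀ j, ContinuousOn (q j) (S j)
  inj : ∀ j, InjOn (q j) (S j)
  lt : ∀ j, ∀ z ∈ S j, nsq (q j z) < 100
  compact : ∀ j, ∀ R < 100, IsCompact {z | z ∈ S j ∧ nsq (q j z) ≤ R}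
  cover : ∀ z, ∃ j, z ∈ S j ∧ nsq (q j z) ≤ 1
  holo : ∀ c j, HolOn (fun x => q j (f ((e c).symm x)))
    {x | x ∈ (e c).target ∧ f ((e c).symm x) ∈ S j}

/-- The limit class is the pull-back of a Kähler class of `Z`, with the local potentials
`K j ∘ q j`: there is a volume form `Ω` on `M` with `ω(0) + T i ∂ ∂bar log Ω = f^* i ∂ ∂bar K j ∘ q j`;
the differences of the local potentials are locally real parts of functions `G` such that `G ∘ f` is
holomorphic. -/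
structure IsPull {M Z : Type} [TopologicalSpace M] [TopologicalSpace Z] {n N : ℕ} {κ P : Type}
    (e : κ → OpenPartialHomeomorph M (Cn n)) (S : P → Set Z) (q : P → Z → Cn N) (f : M → Z)
    (T : ℝ) (ψ : κ → ℝ × Cn n → ℝ) (Ω : κ → Cn n → ℝ) (K : P → Cn N → ℝ) : Prop where
  smooth : ∀ j, ContDiffOn ℝ ∞ (K j) {y | nsq y < 100}
  psh : ∀ j y, nsq y < 100 → ∀ u, u ≠ 0 → 0 < levz (K j) u y
  eq : ∀ c j, ∀ x ∈ (e c).target, f ((e c).symm x) ∈ S j → ∀ u,
    lev (ψ c) u (0, x) + T * levz (fun x => Real.log (Ω c x)) u x =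
      levz (fun x => K j (q j (f ((e c).symm x)))) u x
  compat : ∀ i j z, z ∈ S i → z ∈ S j → ∃ (U : Set Z) (G : Z → ℂ), IsOpen U ∧ z ∈ U ∧
    U ⊆ S i ∩ S j ∧
    (∀ c, NF.HolC (fun x => G (f ((e c).symm x))) {x | x ∈ (e c).target ∧ f ((e c).symm x) ∈ U}) ∧
    ∀ z' ∈ U, K i (q i z') - K j (q j z') = (G z').re

/-- The unordered `D`-tuple `γ s` of points of `A` depends holomorphically on `s ∈ ℂ`.  It is
continuous, Hölder continuous at `s₀` and `s₁`, off a closed discrete set it is locally given by `D`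
holomorphic sections `g i`, and `i ∂ ∂bar (C log (1 + |s|^2) + ρ (g i))` is at least the pull-back of
the Kähler form `i ∂ ∂bar ψ(0)` under the sections.  The Hölder constant is `exp (C l)` and
`|ρ| ≤ C l`; the curves of a fibre are used at the scale `exp (-l)` and may depend on `l`. -/
structure IsCurve {M : Type} [MetricSpace M] {n : ℕ} {κ : Type}
    (e : κ → OpenPartialHomeomorph M (Cn n)) (ψ : κ → ℝ × Cn n → ℝ) (A : Set M) (C l α : ℝ)
    {D : ℕ} (γ : ℂ → Fin D → M) (ρ : M → ℝ) (s₀ s₁ : ℂ) : Prop where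
  mem : ∀ s i, γ s i ∈ A
  cont : ∀ s, ∀ ε > 0, ∀ᶠ s' in 𝓝 s, ∃ σ : Equiv.Perm (Fin D), ∀ i, dist (γ s' (σ i)) (γ s i) ≤ ε
  holder : ∀ s₂, s₂ = s₀ ∨ s₂ = s₁ → ∀ s, ‖s - s₂‖ ≤ 1 →
    ∃ σ : Equiv.Perm (Fin D), ∀ i, dist (γ s (σ i)) (γ s₂ i) ≤ Real.exp (C * l) * ‖s - s₂‖ ^ α
  rho_cont : ContinuousOn ρ A
  rho_bound : ∀ p ∈ A, |ρ p| ≤ C * l
  sect : ∃ E : Set ℂ, (∀ s, ∃ r > 0, ∀ s' ∈ E, s' ≠ s → r ≤ ‖s' - s‖) ∧ ∀ s ∉ E,
    ∃ (r : ℝ) (c : Fin D → κ) (g : Fin D → ℂ → Cn n), 0 < r ∧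
      (∀ i, HolD (g i) (Metric.ball s r)) ∧
      (∀ i, ∀ s' ∈ Metric.ball s r, g i s' ∈ (e (c i)).target) ∧
      (∀ s' ∈ Metric.ball s r, ∃ σ : Equiv.Perm (Fin D), ∀ i,
        γ s' (σ i) = (e (c i)).symm (g i s')) ∧
      (∀ i, ContDiffOn ℝ ∞ (fun s' => ρ ((e (c i)).symm (g i s'))) (Metric.ball s r)) ∧
      ∀ i, ∀ s' ∈ Metric.ball s r, 4 * lev (ψ (c i)) (fderiv ℝ (g i) s' 1) (0, g i s') ≤
        lapC (fun s' => C * Real.log (1 + ‖s'‖ ^ 2) + ρ ((e (c i)).symm (g i s'))) s'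

/-- The Łojasiewicz inequality for the map `(x, x') ↦ f x - f x'` with the zero set
`{(x, x') | f x = f x'}`. -/
def LojAt {M Z : Type} [MetricSpace M] [MetricSpace Z] (f : M → Z) (Λ : ℝ) : Prop :=
  ∀ l x x', 1 ≤ l → dist (f x) (f x') ≤ Real.exp (-(Λ * l)) →
    ∃ x₁ x₁', f x₁ = f x₁' ∧ dist x x₁ ≤ Real.exp (-l) ∧ dist x' x₁' ≤ Real.exp (-l)

/-- `μ` is the measure on `M` with the densities `w c`. -/
def HasDens {M : Type} [TopologicalSpace M] [MeasurableSpace M] {n : ℕ} {κ : Type}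
    (e : κ → OpenPartialHomeomorph M (Cn n)) (w : κ → Cn n → ℝ) (μ : Measure M) : Prop :=
  ∀ c, μ.restrict (e c).source = Measure.map (e c).symm
    ((volume.restrict (e c).target).withDensity fun x => ENNReal.ofReal (w c x))

end Pool.Agent.KRFZ
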