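import Pool.Agent.Work.MP_a2bf38_gt.I.NatDefs
import Pool.Agent.Work.MP_a2bf38_gt.I.NatFlow
import Pool.Agent.Work.MP_a2bf38_gt.Z.Defs

/-!
# Semi-ample limit classes

`M` is a complex manifold with the charts `e c` and `Z` is a space with local embeddings `q j` into
`ℂ^N`.  The limit class is the pull-back of a Kähler class of `Z` under a map `f : M → Z`.
-/

open scoped ContDiff ENNReal ComplexOrder Topology
open Set Filter Pool.Agent.ToricKRF Pool.Agent.ToricKRF.G Pool.Agent.KRFS Pool.Agent.KRFF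

namespace Pool.Agent.KRFZ

/-- The coordinates `a` are, near every point of `S`, Lipschitz equivalent to the distance. -/
def IsLip {X : Type} [MetricSpace X] {n : ℕ} (a : X → Cn n) (S : Set X) : Prop :=
  ∀ p ∈ S, ∃ C : ℝ, 0 < C ∧ ∀ᶠ x : X × X in 𝓝 (p, p),
    dist (a x.1) (a x.2) ≤ C * dist x.1 x.2 ∧ dist x.1 x.2 ≤ C * dist (a x.1) (a x.2)

section

variable {Z : Type} [MetricSpace Z] {N : ℕ} {P : Type}

/-- A Kähler form on the space `Z`: `q j : U j → ℂ^N` are local embeddings of `Z`, with values in the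
open sets `O j`, and `K j` are smooth strictly plurisubharmonic functions on `O j` such that
`K j ∘ q j - K i ∘ q i` is locally the real part of a holomorphic function of `q i`. -/
structure IsKahlerSpace (U : P → Set Z) (q : P → Z → Cn N) (O : P → Set (Cn N))
    (K : P → Cn N → ℝ) : Prop where
  isOpen : ∀ j, IsOpen (U j)
  cover : ∀ z, ∃ j, z ∈ U j
  lip : ∀ j, IsLip (q j) (U j)
  isOpen' : ∀ j, IsOpen (O j)
  mem : ∀ j, ∀ z ∈ U j, q j z ∈ O j
  smooth : ∀ j, ContDiffOn ℝ ∞ (K j) (O j)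
  psh : ∀ j, ∀ y ∈ O j, ∀ u, u ≠ 0 → 0 < levz (K j) u y
  compat : ∀ i j, ∀ z ∈ U i ∩ U j, ∃ (S : Set (Cn N)) (G : Cn N → ℂ), IsOpen S ∧ q i z ∈ S ∧
    NF.HolC G S ∧ ∀ᶠ z' in 𝓝 z, K j (q j z') - K i (q i z') = (G (q i z')).re

end

section

variable {M Z : Type} [MetricSpace M] [MetricSpace Z] {n N : ℕ} {κ P : Type}
  (e : κ → OpenPartialHomeomorph M (Cn n)) (U : P → Set Z) (q : P → Z → Cn N) (f : M → Z)

/-- the domain of `f` in the chart `e c` and the coordinates `q j` -/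
def fdom (c : κ) (j : P) : Set (Cn n) := {x | x ∈ (e c).target ∧ f ((e c).symm x) ∈ U j}

/-- `f` in the chart `e c` and the coordinates `q j` -/
def fmap (c : κ) (j : P) (x : Cn n) : Cn N := q j (f ((e c).symm x))

/-- `f : M → Z` is holomorphic and onto, with connected fibres. -/
structure IsHolConn : Prop where
  cont : Continuous f
  surj : Function.Surjective f
  holo : ∀ c j, HolOn (fmap e q f c j) (fdom e U f c j)
  connected : ∀ z, IsPreconnected (f ⁻¹' {z})

/-- The limit class `[ω(0)] - 2πT c_1(M)` is the pull-back under `f` of the class of the Kähler form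
`i ∂ ∂bar K` of `Z`: there is a volume form `Ω` on `M` with
`ω(0) + T i ∂ ∂bar log Ω = i ∂ ∂bar (K ∘ f)`. -/
structure IsSemiampleLimit (T : ℝ) (ψ : κ → ℝ × Cn n → ℝ) (Ω : κ → Cn n → ℝ)
    (K : P → Cn N → ℝ) : Prop where
  volume : IsVolume e ψ Ω
  eq : ∀ c j, ∀ z ∈ fdom e U f c j, ∀ u,
    lev (ψ c) u (0, z) + T * levz (fun z => Real.log (Ω c z)) u z =
      levz (fun z => K j (fmap e q f c j z)) u z

/-- The Łojasiewicz inequality for `f (x) - f (x')`: two points of `M` are close to two points of one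
fibre of `f`, at distance at most a power of the distance of their images. -/
def IsLoj : Prop := ∃ C a : ℝ, 0 < C ∧ 0 < a ∧ ∀ x x' : M, ∃ x₁ x₁' : M, f x₁ = f x₁' ∧
  dist x x₁ ≤ C * dist (f x) (f x') ^ a ∧ dist x' x₁' ≤ C * dist (f x) (f x') ^ a

/-- The fibres of `f` are covered by algebraic curves of bounded degree: every fibre has a set `A` of
at most `D₀` points such that every point `p` of the fibre is joined to points of `A` by a sheeted
holomorphic curve `γ` in the fibre, a family of `D ≤ D₀` points which depends on `s ∈ ℂ`.  Along the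
curve the Kähler form `ω(0)` is at most `i ∂ ∂bar (C log (1 + |s|^2) + ρ)`, see `IsCurve`.  The
curves may depend on the scale `exp (-l)`. -/
def HasCurves (ψ : κ → ℝ × Cn n → ℝ) : Prop := ∃ (D₀ : ℕ) (C α : ℝ), 0 ≤ C ∧ 0 < α ∧ ∀ z l,
  1 ≤ l → ∃ A : Finset M, A.card ≤ D₀ ∧ (∀ p ∈ A, f p = z) ∧ ∀ p, f p = z →
    ∃ (D : ℕ) (γ : ℂ → Fin D → M) (ρ : M → ℝ) (s₀ s₁ : ℂ), D ≤ D₀ ∧ ‖s₀‖ ≤ 1 ∧ ‖s₁‖ ≤ 1 ∧
      (∀ i, γ s₀ i ∈ A) ∧ (∃ i, γ s₁ i = p) ∧ IsCurve e ψ (f ⁻¹' {z}) C l α γ ρ s₀ s₁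

end

end Pool.Agent.KRFZ
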