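import Pool.Agent.Work.MP_a2bf38_gt.Z.Defs
import Pool.Agent.Work.MP_a2bf38_gt.Q.MeasEx
import Pool.Agent.Work.MP_a2bf38_gt.Q.Meas
import Pool.Agent.Work.MP_a2bf38_gt.I.AbpLin
import Pool.Agent.Work.MP_a2bf38_gt.I.FBound

/-!
# The volume form `Ω` has the densities `Ω c`: change of charts and the measure
-/

open scoped ContDiff ENNReal ComplexOrder Topology
open Set MeasureTheory Filter Pool.Agent.ToricKRF Pool.Agent.ToricKRF.G Pool.Agent.KRFS
  Pool.Agent.KRFF Pool.Agent.KRFG

namespace Pool.Agent.KRFZ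

/-- the real determinant of a complex linear map -/
theorem abs_det_eq {n : ℕ} (L : Cn n →L[ℝ] Cn n) (hL : ∀ u, L (J u) = J (L u)) :
    |L.det| = Complex.normSq
      (Matrix.of fun k a => cc (L ((Pi.single k 1, 0) : Cn n)) a).det := by
  set B : Matrix (Fin n) (Fin n) ℂ := Matrix.of fun k a => cc (L ((Pi.single k 1, 0) : Cn n)) a
    with hB
  set b : Module.Basis (Fin n ⊕ Fin n) ℝ (Cn n) := (Pi.basisFun ℝ (Fin n)).prod
    (Pi.basisFun ℝ (Fin n)) with hb
  have h1 : LinearMap.toMatrix b b (L : Cn n →ₗ[ℝ] Cn n) = realify B.transpose := by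
    ext i k
    have hJ : ∀ k, L ((0, Pi.single k 1) : Cn n) = J (L ((Pi.single k 1, 0) : Cn n)) := by
      intro k
      rw [← hL]
      congr 1
      ext j <;> simp [J]
    rcases i with i | i <;> rcases k with k | k
    · simp [LinearMap.toMatrix_apply, hb, realify, hB, cc]
    · simp [LinearMap.toMatrix_apply, hb, realify, hB, cc, hJ]
      simp [J]
    · simp [LinearMap.toMatrix_apply, hb, realify, hB, cc]
    · simp only [LinearMap.toMatrix_apply, hb, realify, hB]
      simp [cc, hJ, J]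
  have h2 : L.det = (realify B.transpose).det := by
    rw [← h1, LinearMap.det_toMatrix]
  rw [h2, det_realify, Matrix.det_transpose, abs_of_nonneg (Complex.normSq_nonneg _)]

section

variable {n : ℕ} {M : Type} [TopologicalSpace M] {κ : Type} {T : ℝ} (F : Flow n M κ T)

/-- The densities `Ω c` under changes of charts. -/
theorem Omega_compat (hT : 0 < T) (c c' : κ) : ∀ z ∈ dom F.e c c',
    F.Ω c z = |(fderiv ℝ (tr F.e c c') z).det| * F.Ω c' (tr F.e c c' z) := by
  intro z hz
  have hz' : tr F.e c c' z ∈ (F.e c').target := (F.e c').map_source hz.2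
  have h0 : (0 : ℝ) ∈ Ico 0 T := ⟨le_rfl, hT⟩
  obtain ⟨U, hU, hsub, hs⟩ := F.krf.smooth c
  obtain ⟨U', hU', hsub', hs'⟩ := F.krf.smooth c'
  have hL : ∀ u, fderiv ℝ (tr F.e c c') z (J u) = J (fderiv ℝ (tr F.e c c') z u) :=
    fun u => (F.atlas.holo c c').2 z hz u
  have h1 := Bd.det_transform hU hs hU' hs' (hsub ⟨h0, hz.1⟩) (hsub' ⟨h0, hz'⟩)
    (fderiv ℝ (tr F.e c c') z) hL (F.krf.compat c c' 0 h0 z hz)
  have h2 := F.vol.compat c c' z hz
  have h3 : 0 < (cHess (F.ψ c') (0, tr F.e c c' z)).det.re :=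
    det_re_pos (F.krf.pos c' 0 h0 _ hz')
  rw [h1, ← abs_det_eq _ hL] at h2
  refine mul_right_cancel₀ h3.ne' ?_
  rw [h2]
  ring

/-- the charts of `M`, the volume form `Ω` and the metric `ω(0)` -/
theorem l2d_flow (hT : 0 < T) : KRFQ.L2D F.e univ F.Ω (fun c z => F.ψ c (0, z)) where
  sub := fun _ _ _ => mem_univ _
  cover := fun p _ => F.atlas.cover p
  holo := F.atlas.holo
  w_smooth := F.vol.smooth
  w_pos := F.vol.pos
  w_compat := Omega_compat F hT
  w_lev := by
    intro c c' z hz u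
    have hz' : tr F.e c c' z ∈ (F.e c').target := (F.e c').map_source hz.2
    have key : ∀ (c : κ) (z : Cn n), z ∈ (F.e c).target → ∀ u,
        levz (fun x => -Real.log (F.Ω c x)) u z =
          -levz (fun x => Real.log (F.Ω c x)) u z := by
      intro c z hz u
      have h1 : ContDiffAt ℝ 2 (fun x => Real.log (F.Ω c x)) z :=
        ((((F.vol.smooth c).contDiffAt ((F.e c).open_target.mem_nhds hz))).log
          (F.vol.pos c z hz).ne').of_le (WithTop.coe_le_coe.2 le_top)
      have h2 := Bd.levz_const_mul (-1) h1 u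
      simpa using h2
    rw [key c z hz.1, key c' _ hz', Bd.levz_logOmega_transform F hT hz]
  g_smooth := fun c => Bd.smooth_psi0 F hT c
  g_pos := by
    intro c z hz u hu
    rw [Bd.levz_psi0 F hT hz]
    exact Bd.lev_psi_pos F ⟨le_rfl, hT⟩ hz hu
  g_compat := by
    intro c c' z hz u
    rw [Bd.levz_psi0 F hT hz.1,
      Bd.levz_psi0 F hT (z := tr F.e c c' z) ((F.e c').map_source hz.2)]
    exact F.krf.compat c c' 0 ⟨le_rfl, hT⟩ z hz u

/-- the measure of the volume form `Ω` -/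
theorem exists_hasDens [MeasurableSpace M] [BorelSpace M] [Countable κ] (hT : 0 < T) :
    ∃ μ : Measure M, HasDens F.e F.Ω μ := by
  rcases isEmpty_or_nonempty κ with hκ | hκ
  · exact ⟨0, fun c => isEmptyElim c⟩
  · obtain ⟨s, hs⟩ := exists_surjective_nat κ
    obtain ⟨μ, -, hμ⟩ := KRFQ.exists_measure (e := F.e) s (V := univ)
      (eq_comm.1 (eq_univ_of_forall fun p => by
        obtain ⟨c, hc⟩ := F.atlas.cover p
        obtain ⟨i, rfl⟩ := hs c
        exact mem_iUnion.2 ⟨i, hc⟩)) (fun _ _ _ => mem_univ _) F.atlas.holo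
      (w := F.Ω) (Omega_compat F hT)
    exact ⟨μ, hμ⟩

theorem isDens_of_hasDens [MeasurableSpace M] {μ : Measure M} (hμ : HasDens F.e F.Ω μ) :
    KRFQ.IsDens F.e F.Ω μ := ⟨hμ⟩

/-- the volume of `M` is finite -/
theorem measure_lt_top_of_hasDens [MeasurableSpace M] [BorelSpace M] [CompactSpace M]
    (hT : 0 < T) {μ : Measure M} (hμ : HasDens F.e F.Ω μ) : μ univ < ⊤ :=
  (isDens_of_hasDens F hμ).measure_lt_top (l2d_flow F hT) isCompact_univ subset_rfl

end

end Pool.Agent.KRFZ
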