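import Pool.Agent.Work.MP_a2bf38_gt.Q.Exh
import Pool.Agent.Work.MP_a2bf38_gt.Q.Meas
import Pool.Agent.Work.MP_a2bf38_gt.Q.MeasEx

/-!
# Weights: the metric data and the measure with a weight `exp (-ρ)`
-/

open scoped ContDiff ENNReal ComplexOrder Topology
open Set MeasureTheory Filter Pool.Agent.ToricKRF Pool.Agent.ToricKRF.G Pool.Agent.KRFS

namespace Pool.Agent.KRFQ

section

variable {M : Type} [TopologicalSpace M] {n : ℕ} {κ : Type}
  {e : κ → OpenPartialHomeomorph M (Cn n)} {V : Set M} {w g : κ → Cn n → ℝ}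

/-- The densities may be multiplied by `exp (-ρ)`. -/
theorem L2D.mul_exp (h : L2D e V w g) {ρ : M → ℝ}
    (hρ : ∀ c, ContDiffOn ℝ ∞ (pb e c ρ) (e c).target) :
    L2D e V (fun c z => w c z * Real.exp (-pb e c ρ z)) g where
  sub := h.sub
  cover := h.cover
  holo := h.holo
  w_smooth := fun c => (h.w_smooth c).mul (hρ c).neg.exp
  w_pos := fun c z hz => mul_pos (h.w_pos c z hz) (Real.exp_pos _)
  w_compat := fun c c' z hz => by
    rw [h.w_compat c c' z hz, pb_tr ρ hz]
    ring
  w_lev := fun c c' z hz u => by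
    have key : ∀ c, ∀ z ∈ (e c).target, ∀ u,
        levz (fun x => -Real.log (w c x * Real.exp (-pb e c ρ x))) u z =
          levz (fun x => -Real.log (w c x)) u z + levz (pb e c ρ) u z := by
      intro c z hz u
      have h1 : (fun x => -Real.log (w c x * Real.exp (-pb e c ρ x))) =ᶠ[𝓝 z]
          fun x => -Real.log (w c x) + pb e c ρ x := by
        filter_upwards [(e c).open_target.mem_nhds hz] with x hx
        rw [Real.log_mul (h.w_pos c x hx).ne' (Real.exp_pos _).ne', Real.log_exp]
        ring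
      have h2 : ContDiffAt ℝ 2 (fun x => -Real.log (w c x)) z :=
        ((((h.w_smooth c).contDiffAt ((e c).open_target.mem_nhds hz)).log
          (h.w_pos c z hz).ne').neg).of_le two_le_infty
      have h3 : ContDiffAt ℝ 2 (pb e c ρ) z :=
        ((hρ c).contDiffAt ((e c).open_target.mem_nhds hz)).of_le two_le_infty
      rw [Bd.levz_congr h1, Bd.levz_add h2 h3]
    rw [key c z hz.1 u, key c' _ (tr_mem_target hz) _, h.w_lev c c' z hz u,
      levz_pb h.holo hρ c c' hz u]
  g_smooth := h.g_smooth
  g_pos := h.g_pos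
  g_compat := h.g_compat

end

section

variable {M : Type} [TopologicalSpace M] [MeasurableSpace M] [BorelSpace M] {n : ℕ} {κ : Type}
  {e : κ → OpenPartialHomeomorph M (Cn n)} {w : κ → Cn n → ℝ} {μ : Measure M}

/-- Integrals over a subset of a chart. -/
theorem lintegral_chart (hμ : IsDens e w μ) {c : κ} (hw : ContinuousOn (w c) (e c).target)
    {X : Set M} (hX : MeasurableSet X) (hXs : X ⊆ (e c).source) {f : M → ℝ≥0∞}
    (hf : AEMeasurable f (μ.restrict X)) :
    ∫⁻ p in X, f p ∂μ = ∫⁻ z in (e c).target, ENNReal.ofReal (w c z) *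
      X.indicator f ((e c).symm z) := by
  have hS := (e c).open_source.measurableSet
  have h1 : ∫⁻ p in X, f p ∂μ = ∫⁻ p, X.indicator f p ∂(μ.restrict (e c).source) := by
    rw [lintegral_indicator hX, Measure.restrict_restrict hX, inter_eq_left.2 hXs]
  have h2 : AEMeasurable (X.indicator f) (μ.restrict (e c).source) := by
    rw [aemeasurable_indicator_iff hX, Measure.restrict_restrict hX, inter_eq_left.2 hXs]
    exact hf
  have hm : AEMeasurable (fun z => ENNReal.ofReal (w c z)) (volume.restrict (e c).target) :=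
    (hw.aemeasurable (e c).open_target.measurableSet).ennreal_ofReal
  rw [h1]
  rw [hμ.eq c] at h2 ⊢
  rw [lintegral_map' h2 (aemeasurable_symm c _)]
  rw [lintegral_withDensity_eq_lintegral_mul₀' hm]
  · rfl
  · exact h2.comp_aemeasurable (aemeasurable_symm c _)

/-- The measure with a weight on an open set. -/
theorem IsDens.weight (hμ : IsDens e w μ) (hw : ∀ c, ContinuousOn (w c) (e c).target)
    (hw0 : ∀ c, ∀ z ∈ (e c).target, 0 ≤ w c z) {V : Set M} (hV : IsOpen V) {ρ : M → ℝ}
    (hρ : ContinuousOn ρ V) :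
    IsDens (rs e hV) (fun c z => w c z * Real.exp (-pb e c ρ z))
      ((μ.restrict V).withDensity fun p => ENNReal.ofReal (Real.exp (-ρ p))) := by
  refine ⟨fun c => Measure.ext fun A hA => ?_⟩
  change _ = nu (rs e hV) (fun c z => w c z * Real.exp (-pb e c ρ z)) c A
  have hS : MeasurableSet (rs e hV c).source := (rs e hV c).open_source.measurableSet
  have hX : MeasurableSet (A ∩ (rs e hV c).source) := hA.inter hS
  have hsrc : (rs e hV c).source = (e c).source ∩ V := rs_source hV c
  have hXV : A ∩ (rs e hV c).source ⊆ V := fun p hp => by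
    rw [hsrc] at hp
    exact hp.2.2
  have hXs : A ∩ (rs e hV c).source ⊆ (e c).source := fun p hp => by
    rw [hsrc] at hp
    exact hp.2.1
  have hf : AEMeasurable (fun p => ENNReal.ofReal (Real.exp (-ρ p)))
      (μ.restrict (A ∩ (rs e hV c).source)) :=
    (((hρ.neg.rexp).aemeasurable hV.measurableSet).ennreal_ofReal).mono_measure
      (Measure.restrict_mono hXV le_rfl)
  rw [Measure.restrict_apply hA, withDensity_apply _ hX, Measure.restrict_restrict hX,
    inter_eq_left.2 hXV, lintegral_chart hμ (hw c) hX hXs hf, nu_apply _ _ hA]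
  have hT : MeasurableSet ((rs e hV c).symm ⁻¹' A ∩ (rs e hV c).target) :=
    measurableSet_symm_preimage c hA
  have hsub : (rs e hV c).symm ⁻¹' A ∩ (rs e hV c).target ⊆ (e c).target := fun z hz =>
    rs_target_sub hV c hz.2
  rw [← inter_eq_left.2 hsub, ← Measure.restrict_restrict hT, ← lintegral_indicator hT]
  refine setLIntegral_congr_fun (e c).open_target.measurableSet fun z hz => ?_
  by_cases hzA : z ∈ (rs e hV c).symm ⁻¹' A ∩ (rs e hV c).target
  · have h1 : (e c).symm z ∈ A ∩ (rs e hV c).source := ⟨hzA.1, (rs e hV c).map_target hzA.2⟩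
    rw [indicator_of_mem hzA, indicator_of_mem h1, ENNReal.ofReal_mul (hw0 c z hz)]
    rfl
  · have h1 : (e c).symm z ∉ A ∩ (rs e hV c).source := by
      rintro ⟨h2, h3⟩
      rw [hsrc] at h3
      exact hzA ⟨h2, (mem_rs_target hV c).2 ⟨hz, h3.2⟩⟩
    rw [indicator_of_notMem hzA, indicator_of_notMem h1, mul_zero]

end

end Pool.Agent.KRFQ
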