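import Pool.Agent.Work.MP_a2bf38_gt.Z.Setup
import Pool.Agent.Work.MP_a2bf38_gt.I.NatFlow

/-!
# Curves and the Łojasiewicz inequality in the refined charts
-/

open scoped ContDiff ENNReal ComplexOrder Topology
open Set MeasureTheory Filter Pool.Agent.ToricKRF Pool.Agent.ToricKRF.G Pool.Agent.KRFS
  Pool.Agent.KRFF Pool.Agent.KRFG

namespace Pool.Agent.KRFZ

section HolD

variable {n m : ℕ}

theorem HolD.comp {H : Cn n → Cn m} {S : Set (Cn n)} (hS : IsOpen S) (hH : HolOn H S)
    {g : ℂ → Cn n} {U : Set ℂ} (hU : IsOpen U) (hg : HolD g U) (h : MapsTo g U S) :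
    HolD (fun s => H (g s)) U := by
  refine ⟨hH.1.comp hg.smooth h, fun s hs => ?_⟩
  have h1 : fderiv ℝ (fun s => H (g s)) s = (fderiv ℝ H (g s)).comp (fderiv ℝ g s) :=
    fderiv_comp s (NF.diffAt hS hH.1 (h hs)) (NF.diffAt hU hg.smooth hs)
  rw [h1, ContinuousLinearMap.comp_apply, ContinuousLinearMap.comp_apply, hg.holo s hs,
    hH.2 _ (h hs)]

theorem HolD.congr {g g' : ℂ → Cn n} {U : Set ℂ} (hU : IsOpen U) (hg : HolD g U)
    (h : EqOn g' g U) : HolD g' U := by
  refine ⟨hg.smooth.congr h, fun s hs => ?_⟩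
  have h1 : g' =ᶠ[𝓝 s] g := by
    filter_upwards [hU.mem_nhds hs] with x hx
    exact h hx
  rw [h1.fderiv_eq]
  exact hg.holo s hs

theorem HolD.mono {g : ℂ → Cn n} {U U' : Set ℂ} (hg : HolD g U) (h : U' ⊆ U) : HolD g U' :=
  ⟨hg.smooth.mono h, fun s hs => hg.holo s (h hs)⟩

end HolD

theorem lapC_congr {G G' : ℂ → ℝ} {s : ℂ} (h : G =ᶠ[𝓝 s] G') : lapC G s = lapC G' s := by
  unfold lapC
  rw [LC.D_D_congr _ _ h, LC.D_D_congr _ _ h]

section Refine

variable {M : Type} [MetricSpace M] {n : ℕ} {κ κ' : Type}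
  {e : κ → OpenPartialHomeomorph M (Cn n)} {e' : κ' → OpenPartialHomeomorph M (Cn n)}
  {σ : κ' → κ} {T : ℝ} {ψ : κ → ℝ × Cn n → ℝ}

/-- one section in the new charts -/
theorem sect_refine (he : IsAtlas e) (hψ : IsKRF e T ψ) (hT : 0 < T) (h : IsRefinement e e' σ)
    {s : ℂ} {r : ℝ} {c : κ} {c' : κ'} {g : ℂ → Cn n} (hg : HolD g (Metric.ball s r))
    (hm : ∀ s' ∈ Metric.ball s r, g s' ∈ (e c).target)
    (hm' : ∀ s' ∈ Metric.ball s r, (e c).symm (g s') ∈ (e' c').source) :
    HolD (fun s' => e' c' ((e c).symm (g s'))) (Metric.ball s r) ∧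
      ∀ s' ∈ Metric.ball s r,
        lev (newψ e e' σ ψ c') (fderiv ℝ (fun s' => e' c' ((e c).symm (g s'))) s' 1)
          (0, e' c' ((e c).symm (g s'))) = lev (ψ c) (fderiv ℝ g s' 1) (0, g s') := by
  have hB : IsOpen (Metric.ball s r) := Metric.isOpen_ball
  have hd : ∀ s' ∈ Metric.ball s r, g s' ∈ dom e c (σ c') := fun s' hs' =>
    ⟨hm s' hs', h.sub c' (hm' s' hs')⟩
  have h1 : HolD (fun s' => tr e c (σ c') (g s')) (Metric.ball s r) :=
    HolD.comp (isOpen_dom _ _) (he.holo _ _) hB hg hd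
  have hsymm : ∀ s' ∈ Metric.ball s r,
      (e (σ c')).symm (tr e c (σ c') (g s')) = (e c).symm (g s') := fun s' hs' =>
    (e (σ c')).left_inv (hd s' hs').2
  have h2 : HolD (fun s' => e' c' ((e (σ c')).symm (tr e c (σ c') (g s')))) (Metric.ball s r) := by
    refine HolD.comp (isOpen_dom' c') (h.holo' c') hB h1 fun s' hs' => ?_
    refine ⟨(e (σ c')).map_source (hd s' hs').2, ?_⟩
    rw [hsymm s' hs']
    exact hm' s' hs'
  have h3 : HolD (fun s' => e' c' ((e c).symm (g s'))) (Metric.ball s r) := by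
    refine HolD.congr hB h2 fun s' hs' => ?_
    simp only [hsymm s' hs']
  refine ⟨h3, fun s' hs' => ?_⟩
  have ht : (0 : ℝ) ∈ Ico 0 T := ⟨le_rfl, hT⟩
  have hw : e' c' ((e c).symm (g s')) ∈ (e' c').target := (e' c').map_source (hm' s' hs')
  have hg1 : gmap e e' σ c' (e' c' ((e c).symm (g s'))) = tr e c (σ c') (g s') := by
    rw [gmap_apply (hm' s' hs')]
    rfl
  have h4 : fderiv ℝ (gmap e e' σ c') (e' c' ((e c).symm (g s')))
      (fderiv ℝ (fun s' => e' c' ((e c).symm (g s'))) s' 1) =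
      fderiv ℝ (tr e c (σ c')) (g s') (fderiv ℝ g s' 1) := by
    have d1 : DifferentiableAt ℝ (fun s' => e' c' ((e c).symm (g s'))) s' :=
      NF.diffAt hB h3.smooth hs'
    have d2 : DifferentiableAt ℝ (gmap e e' σ c') (e' c' ((e c).symm (g s'))) :=
      NF.diffAt (e' c').open_target (gmap_holo h c').1 hw
    have d3 : DifferentiableAt ℝ g s' := NF.diffAt hB hg.smooth hs'
    have d4 : DifferentiableAt ℝ (tr e c (σ c')) (g s') :=
      NF.diffAt (isOpen_dom _ _) (he.holo _ _).1 (hd s' hs')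
    have e1 : fderiv ℝ (fun s' => gmap e e' σ c' (e' c' ((e c).symm (g s')))) s' =
        (fderiv ℝ (gmap e e' σ c') (e' c' ((e c).symm (g s')))).comp
          (fderiv ℝ (fun s' => e' c' ((e c).symm (g s'))) s') :=
      (HasFDerivAt.comp (g := gmap e e' σ c') (f := fun s' => e' c' ((e c).symm (g s'))) s'
        d2.hasFDerivAt d1.hasFDerivAt).fderiv
    have e2 : fderiv ℝ (fun s' => tr e c (σ c') (g s')) s' =
        (fderiv ℝ (tr e c (σ c')) (g s')).comp (fderiv ℝ g s') := fderiv_comp s' d4 d3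
    have e3 : (fun s' => gmap e e' σ c' (e' c' ((e c).symm (g s')))) =ᶠ[𝓝 s']
        fun s' => tr e c (σ c') (g s') := by
      filter_upwards [hB.mem_nhds hs'] with x hx
      rw [gmap_apply (hm' x hx)]
      rfl
    rw [e3.fderiv_eq, e2] at e1
    exact (congrArg (fun L : ℂ →L[ℝ] Cn n => L 1) e1).symm
  rw [refine_lev hψ h ht hw, h4, hg1]
  exact (hψ.compat c (σ c') 0 ht _ (hd s' hs') _).symm

/-- a curve in the new charts -/
theorem IsCurve.refine (he : IsAtlas e) (hψ : IsKRF e T ψ) (hT : 0 < T)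
    (h : IsRefinement e e' σ) {A : Set M} {C l α : ℝ} {D : ℕ} {γ : ℂ → Fin D → M}
    {ρ : M → ℝ} {s₀ s₁ : ℂ} (hc : IsCurve e ψ A C l α γ ρ s₀ s₁) :
    IsCurve e' (newψ e e' σ ψ) A C l α γ ρ s₀ s₁ where
  mem := hc.mem
  cont := hc.cont
  holder := hc.holder
  rho_cont := hc.rho_cont
  rho_bound := hc.rho_bound
  sect := by
    obtain ⟨E, hE, hs⟩ := hc.sect
    refine ⟨E, hE, fun s hsE => ?_⟩
    obtain ⟨r, c, g, hr, hg, hm, hγ, hρ, hle⟩ := hs s hsE
    choose c' hc' using fun i => h.cover ((e (c i)).symm (g i s))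
    have hev : ∀ᶠ s' in 𝓝 s, ∀ i, (e (c i)).symm (g i s') ∈ (e' (c' i)).source := by
      rw [Filter.eventually_all]
      intro i
      have hsb : s ∈ Metric.ball s r := Metric.mem_ball_self hr
      have h1 : ContinuousAt (g i) s :=
        (hg i).smooth.continuousOn.continuousAt (Metric.isOpen_ball.mem_nhds hsb)
      have h2 : ContinuousAt (e (c i)).symm (g i s) :=
        (e (c i)).symm.continuousAt (by simpa using hm i s hsb)
      exact (ContinuousAt.comp (f := g i) h2 h1).eventually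
        ((e' (c' i)).open_source.mem_nhds (hc' i))
    obtain ⟨r', hr', hb⟩ := Metric.eventually_nhds_iff_ball.1 hev
    have hsub : Metric.ball s (min r r') ⊆ Metric.ball s r :=
      Metric.ball_subset_ball (min_le_left _ _)
    have hsub' : ∀ s' ∈ Metric.ball s (min r r'), ∀ i,
        (e (c i)).symm (g i s') ∈ (e' (c' i)).source := fun s' hs' =>
      hb s' (Metric.ball_subset_ball (min_le_right _ _) hs')
    have key := fun i => sect_refine (σ := σ) he hψ hT h (c := c i) (c' := c' i)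
      ((hg i).mono hsub) (fun s' hs' => hm i s' (hsub hs')) (fun s' hs' => hsub' s' hs' i)
    refine ⟨min r r', c', fun i s' => e' (c' i) ((e (c i)).symm (g i s')), lt_min hr hr',
      fun i => (key i).1, fun i s' hs' => (e' (c' i)).map_source (hsub' s' hs' i),
      fun s' hs' => ?_, fun i => ?_, fun i s' hs' => ?_⟩
    · obtain ⟨τ, hτ⟩ := hγ s' (hsub hs')
      refine ⟨τ, fun i => ?_⟩
      rw [hτ i, (e' (c' i)).left_inv (hsub' s' hs' i)]
    · refine ((hρ i).mono hsub).congr fun s' hs' => ?_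
      simp only [(e' (c' i)).left_inv (hsub' s' hs' i)]
    · rw [(key i).2 s' hs']
      refine (hle i s' (hsub hs')).trans (le_of_eq ?_)
      refine lapC_congr ?_
      filter_upwards [Metric.isOpen_ball.mem_nhds hs'] with x hx
      rw [(e' (c' i)).left_inv (hsub' x hx i)]

end Refine

/-- a Łojasiewicz inequality with exponent `a` -/
theorem lojAt_of {M Z : Type} [MetricSpace M] [MetricSpace Z] {f : M → Z} {C a : ℝ} (hC : 0 < C)
    (ha : 0 < a) (h : ∀ x x' : M, ∃ x₁ x₁' : M, f x₁ = f x₁' ∧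
      dist x x₁ ≤ C * dist (f x) (f x') ^ a ∧ dist x' x₁' ≤ C * dist (f x) (f x') ^ a) :
    ∃ Λ, 1 ≤ Λ ∧ LojAt f Λ := by
  refine ⟨max 1 ((1 + |Real.log C|) / a), le_max_left _ _, fun l x x' hl hd => ?_⟩
  obtain ⟨x₁, x₁', h1, h2, h3⟩ := h x x'
  set L : ℝ := max 1 ((1 + |Real.log C|) / a) with hL
  have hLa : 1 + |Real.log C| ≤ L * a := by
    have h4 : (1 + |Real.log C|) / a ≤ L := le_max_right _ _
    rwa [div_le_iff₀ ha] at h4
  have key : C * dist (f x) (f x') ^ a ≤ Real.exp (-l) := by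
    have h4 : dist (f x) (f x') ^ a ≤ Real.exp (-(L * l)) ^ a :=
      Real.rpow_le_rpow dist_nonneg hd ha.le
    have h5 : Real.exp (-(L * l)) ^ a = Real.exp (-(L * l) * a) := by
      rw [← Real.exp_mul]
    have h6 : C = Real.exp (Real.log C) := (Real.exp_log hC).symm
    calc C * dist (f x) (f x') ^ a ≤ C * Real.exp (-(L * l) * a) := by
          rw [← h5]
          exact mul_le_mul_of_nonneg_left h4 hC.le
      _ = Real.exp (Real.log C + -(L * l) * a) := by
          rw [Real.exp_add, ← h6]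
      _ ≤ Real.exp (-l) := by
          apply Real.exp_le_exp.2
          have h7 : (1 + |Real.log C|) * l ≤ L * a * l :=
            mul_le_mul_of_nonneg_right hLa (by linarith)
          have h8 : |Real.log C| * 1 ≤ |Real.log C| * l :=
            mul_le_mul_of_nonneg_left hl (abs_nonneg _)
          have h9 := le_abs_self (Real.log C)
          nlinarith
  exact ⟨x₁, x₁', h1, h2.trans key, h3.trans key⟩

end Pool.Agent.KRFZ
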