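import Pool.Agent.Work.MP_a2bf38_gt.Z.NatM

/-!
# Unit embeddings of a compact space with a Kähler form
-/

open scoped ContDiff ENNReal ComplexOrder Topology
open Set Filter Pool.Agent.ToricKRF Pool.Agent.ToricKRF.G Pool.Agent.KRFS Pool.Agent.KRFF

namespace Pool.Agent.KRFZ

namespace NZ

section

variable {Z : Type} {N : ℕ} {P : Type}

/-- the scaled coordinates with centre `z₀` and radius `r` -/
noncomputable def sc (q : P → Z → Cn N) (j : P) (r : ℝ) (z₀ z : Z) : Cn N :=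
  r⁻¹ • (q j z - q j z₀)

theorem add_smul_sc (q : P → Z → Cn N) (j : P) {r : ℝ} (hr : r ≠ 0) (z₀ z : Z) :
    q j z₀ + r • sc q j r z₀ z = q j z := by
  rw [sc, smul_smul, mul_inv_cancel₀ hr, one_smul, add_sub_cancel]

theorem sc_sub_sc (q : P → Z → Cn N) (j : P) (r : ℝ) (z₀ z z' : Z) :
    sc q j r z₀ z - sc q j r z₀ z' = r⁻¹ • (q j z - q j z') := by
  rw [sc, sc, ← smul_sub, sub_sub_sub_cancel_right]

end

variable {Z : Type} [MetricSpace Z] {N : ℕ} {P : Type}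

/-- a unit embedding with centre `z₀` -/
structure Data (U : P → Set Z) (q : P → Z → Cn N) (O : P → Set (Cn N)) (z₀ : Z) where
  j : P
  r : ℝ
  C : ℝ
  S : Set Z
  r_pos : 0 < r
  C_pos : 0 < C
  isOpen : IsOpen S
  mem : z₀ ∈ S
  sub : S ⊆ U j
  cont : ContinuousOn (q j) S
  lip : ∀ x ∈ S, ∀ x' ∈ S,
    dist (q j x) (q j x') ≤ C * dist x x' ∧ dist x x' ≤ C * dist (q j x) (q j x')
  lt : ∀ x ∈ S, nsq (sc q j r z₀ x) < 100
  compact : ∀ R < 100, IsCompact {x | x ∈ S ∧ nsq (sc q j r z₀ x) ≤ R}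
  ball : ∀ y, nsq y < 100 → q j z₀ + r • y ∈ O j

theorem exists_data [CompactSpace Z] {U : P → Set Z} {q : P → Z → Cn N} {O : P → Set (Cn N)}
    {K : P → Cn N → ℝ} (h : IsKahlerSpace U q O K) (z₀ : Z) : Nonempty (Data U q O z₀) := by
  obtain ⟨j, hz⟩ := h.cover z₀
  obtain ⟨C, hC, hev⟩ := h.lip j z₀ hz
  rw [nhds_prod_eq, Filter.eventually_prod_self_iff'] at hev
  obtain ⟨V, hV, hVl⟩ := hev
  obtain ⟨ρ, hρ, hball⟩ := Metric.mem_nhds_iff.1
    (Filter.inter_mem hV ((h.isOpen j).mem_nhds hz))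
  obtain ⟨δ, hδ, hO⟩ := Metric.mem_nhds_iff.1 ((h.isOpen' j).mem_nhds (h.mem j z₀ hz))
  set r : ℝ := min (δ / 20) (ρ / (40 * C)) with hr
  have hr0 : 0 < r := lt_min (by positivity) (by positivity)
  have hr1 : 10 * r < δ := by
    have := min_le_left (δ / 20) (ρ / (40 * C))
    rw [← hr] at this
    linarith
  have hr2 : C * (10 * r) ≤ ρ / 4 := by
    have := min_le_right (δ / 20) (ρ / (40 * C))
    rw [← hr] at this
    have h2 : C * (10 * r) ≤ C * (10 * (ρ / (40 * C))) := by gcongr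
    have h3 : C * (10 * (ρ / (40 * C))) = ρ / 4 := by
      field_simp
      norm_num
    linarith
  have hlip : ∀ x ∈ Metric.ball z₀ ρ, ∀ x' ∈ Metric.ball z₀ ρ,
      dist (q j x) (q j x') ≤ C * dist x x' ∧ dist x x' ≤ C * dist (q j x) (q j x') :=
    fun x hx x' hx' => hVl x (hball hx).1 x' (hball hx').1
  have hcont : ContinuousOn (q j) (Metric.ball z₀ ρ) := by
    have h1 : LipschitzOnWith C.toNNReal (q j) (Metric.ball z₀ ρ) :=
      LipschitzOnWith.of_dist_le_mul fun x hx y hy => by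
        rw [Real.coe_toNNReal _ hC.le]
        exact (hlip x hx y hy).1
    exact h1.continuousOn
  have hz0 : z₀ ∈ Metric.ball z₀ ρ := Metric.mem_ball_self hρ
  -- the scaled condition
  have hsc : ∀ x R, nsq (sc q j r z₀ x) ≤ R ↔ nsq (q j x - q j z₀) ≤ R * r ^ 2 := by
    intro x R
    rw [sc, NM.nsq_smul, inv_pow, inv_mul_le_iff₀ (by positivity), mul_comm]
  have hsc' : ∀ x R, nsq (sc q j r z₀ x) < R ↔ nsq (q j x - q j z₀) < R * r ^ 2 := by
    intro x R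
    rw [sc, NM.nsq_smul, inv_pow, inv_mul_lt_iff₀ (by positivity), mul_comm]
  have hnear : ∀ x ∈ Metric.ball z₀ ρ, nsq (q j x - q j z₀) < 100 * r ^ 2 →
      x ∈ Metric.closedBall z₀ (ρ / 2) := by
    intro x hx hx2
    have h1 := (hlip x hx z₀ hz0).2
    have h2 : dist (q j x) (q j z₀) ≤ 10 * r := by
      rw [dist_eq_norm]
      refine Pool.Agent.KRFG.norm_le_of_nsq_le (by positivity) ?_
      calc nsq (q j x - q j z₀) ≤ 100 * r ^ 2 := hx2.le
        _ = (10 * r) ^ 2 := by ring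
    rw [Metric.mem_closedBall]
    have h3 : C * dist (q j x) (q j z₀) ≤ C * (10 * r) := by gcongr
    linarith
  have hsub : Metric.closedBall z₀ (ρ / 2) ⊆ Metric.ball z₀ ρ :=
    Metric.closedBall_subset_ball (by linarith)
  refine ⟨⟨j, r, C, {x | x ∈ Metric.ball z₀ ρ ∧ nsq (sc q j r z₀ x) < 100}, hr0, hC, ?_, ?_, ?_,
    ?_, ?_, fun x hx => hx.2, ?_, ?_⟩⟩
  · have h1 : IsOpen {y : Cn N | nsq (r⁻¹ • (y - q j z₀)) < 100} :=
      isOpen_lt (NM.continuous_nsq.comp (by fun_prop)) continuous_const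
    exact hcont.isOpen_inter_preimage Metric.isOpen_ball h1
  · refine ⟨hz0, ?_⟩
    rw [sc, sub_self, smul_zero]
    simp [nsq]
  · exact fun x hx => (hball hx.1).2
  · exact hcont.mono fun x hx => hx.1
  · exact fun x hx x' hx' => hlip x hx.1 x' hx'.1
  · intro R hR
    have h1 : IsClosed {y : Cn N | nsq (r⁻¹ • (y - q j z₀)) ≤ R} :=
      isClosed_le (NM.continuous_nsq.comp (by fun_prop)) continuous_const
    have h2 : IsClosed (Metric.closedBall z₀ (ρ / 2) ∩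
        (q j) ⁻¹' {y : Cn N | nsq (r⁻¹ • (y - q j z₀)) ≤ R}) :=
      (hcont.mono hsub).preimage_isClosed_of_isClosed Metric.isClosed_closedBall h1
    convert h2.isCompact using 1
    ext x
    constructor
    · rintro ⟨⟨hx1, hx2⟩, hx3⟩
      exact ⟨hnear x hx1 ((hsc' x 100).1 hx2), hx3⟩
    · rintro ⟨hx1, hx3⟩
      have hx3' : nsq (sc q j r z₀ x) ≤ R := hx3
      exact ⟨⟨hsub hx1, hx3'.trans_lt hR⟩, hx3'⟩
  · intro y hy
    refine hO ?_
    rw [Metric.mem_ball, dist_eq_norm, add_sub_cancel_left]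
    refine lt_of_le_of_lt (Pool.Agent.KRFG.norm_le_of_nsq_le (r := 10 * r) (by positivity) ?_) hr1
    rw [NM.nsq_smul]
    nlinarith [pow_pos hr0 2]

theorem levz_affine {K : Cn N → ℝ} {O : Set (Cn N)} (hO : IsOpen O) (hK : ContDiffOn ℝ ∞ K O)
    (y₀ : Cn N) (r : ℝ) {y : Cn N} (hy : y₀ + r • y ∈ O) (u : Cn N) :
    levz (fun y => K (y₀ + r • y)) u y = levz K (r • u) (y₀ + r • y) := by
  have h := levz_comp hO hK isOpen_univ (NT.hol_scale r y₀ univ) (mem_univ y) hy u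
  rw [h]
  congr 1
  rw [fderiv_const_add]
  have h2 : fderiv ℝ (fun z : Cn N => r • z) y = r • ContinuousLinearMap.id ℝ (Cn N) :=
    (r • ContinuousLinearMap.id ℝ (Cn N)).fderiv
  rw [h2]
  simp

theorem holC_affine_neg {G : Cn N → ℂ} {S : Set (Cn N)} (hS : IsOpen S) (hG : NF.HolC G S)
    (y₀ : Cn N) (r : ℝ) :
    IsOpen {y : Cn N | y₀ + r • y ∈ S} ∧
      NF.HolC (fun y => -G (y₀ + r • y)) {y : Cn N | y₀ + r • y ∈ S} := by
  have hc : Continuous fun y : Cn N => y₀ + r • y := by fun_prop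
  refine ⟨hS.preimage hc, ?_, ?_⟩
  · have h0 : ContDiffOn ℝ ∞ (fun y : Cn N => y₀ + r • y) {y : Cn N | y₀ + r • y ∈ S} := by
      fun_prop
    exact (hG.1.comp h0 fun y hy => hy).neg
  · intro y hy u
    have h1 : HasFDerivAt (fun y : Cn N => y₀ + r • y) (r • ContinuousLinearMap.id ℝ (Cn N)) y :=
      (r • ContinuousLinearMap.id ℝ (Cn N)).hasFDerivAt.const_add y₀
    have h2 : HasFDerivAt (fun y : Cn N => -G (y₀ + r • y))
        (-((fderiv ℝ G (y₀ + r • y)).comp (r • ContinuousLinearMap.id ℝ (Cn N)))) y :=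
      ((NF.diffAt hS hG.1 hy).hasFDerivAt.comp y h1).neg
    rw [h2.fderiv]
    simp only [neg_apply, ContinuousLinearMap.comp_apply,
      smul_apply, ContinuousLinearMap.id_apply]
    rw [← NT.J_smul', hG.2 _ hy]
    ring

end NZ

open NM NZ

variable {Z : Type} [MetricSpace Z] [CompactSpace Z] {N : ℕ} {P : Type}
  {U : P → Set Z} {q : P → Z → Cn N} {O : P → Set (Cn N)} {K : P → Cn N → ℝ}

/-- **Unit embeddings.** A compact space with a Kähler form is covered by finitely many open sets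
`S j`, embedded in the ball of radius `10` by the scaled coordinates `r⁻¹ (q - q (z₀))`. -/
theorem exists_unit_embeddings (h : IsKahlerSpace U q O K) :
    ∃ (P' : Type) (_ : Fintype P') (sig : P' → P) (z₀ : P' → Z) (r : P' → ℝ) (S : P' → Set Z)
      (q' : P' → Z → Cn N) (K' : P' → Cn N → ℝ),
      (∀ j, 0 < r j) ∧ (∀ j, IsOpen (S j)) ∧ (∀ j, S j ⊆ U (sig j)) ∧
      (∀ j z, q' j z = (r j)⁻¹ • (q (sig j) z - q (sig j) (z₀ j))) ∧
      (∀ j z, q (sig j) (z₀ j) + r j • q' j z = q (sig j) z) ∧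
      (∀ j y, K' j y = K (sig j) (q (sig j) (z₀ j) + r j • y)) ∧
      (∀ j, ContinuousOn (q' j) (S j)) ∧ (∀ j, InjOn (q' j) (S j)) ∧
      (∀ j, ∀ z ∈ S j, nsq (q' j z) < 100) ∧
      (∀ j, ∀ R < 100, IsCompact {z | z ∈ S j ∧ nsq (q' j z) ≤ R}) ∧
      (∀ z, ∃ j, z ∈ S j ∧ nsq (q' j z) ≤ 1) ∧
      (∃ C, 0 < C ∧ ∀ j, ∀ z ∈ S j, ∀ z' ∈ S j, nsq (q' j z) ≤ 81 → nsq (q' j z') ≤ 81 →
        dist z z' ^ 2 ≤ C * nsq (q' j z - q' j z') ∧
          nsq (q' j z - q' j z') ≤ C * dist z z' ^ 2) ∧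
      (∀ j, ∀ y, nsq y < 100 → q (sig j) (z₀ j) + r j • y ∈ O (sig j)) ∧
      (∀ j, ContDiffOn ℝ ∞ (K' j) {y | nsq y < 100}) ∧
      (∀ j y, nsq y < 100 → ∀ u, u ≠ 0 → 0 < levz (K' j) u y) ∧
      ∀ i j z, z ∈ S i → z ∈ S j → ∃ (W : Set Z) (A : Set (Cn N)) (G : Cn N → ℂ),
        IsOpen W ∧ z ∈ W ∧ W ⊆ S i ∩ S j ∧ IsOpen A ∧ NF.HolC G A ∧ (∀ z' ∈ W, q' i z' ∈ A) ∧
        ∀ z' ∈ W, K' i (q' i z') - K' j (q' j z') = (G (q' i z')).re := by
  classical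
  have D : ∀ z : Z, Data U q O z := fun z => (exists_data h z).some
  set V : Z → Set Z := fun z =>
    (D z).S ∩ (q (D z).j) ⁻¹' {y | nsq ((D z).r⁻¹ • (y - q (D z).j z)) < 1} with hV
  have hVo : ∀ z, IsOpen (V z) := fun z => (D z).cont.isOpen_inter_preimage (D z).isOpen
    (isOpen_lt (NM.continuous_nsq.comp (by fun_prop)) continuous_const)
  have hpV : ∀ z, z ∈ V z := fun z => ⟨(D z).mem, by
    show nsq ((D z).r⁻¹ • (q (D z).j z - q (D z).j z)) < 1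
    rw [sub_self, smul_zero]
    simp [nsq]⟩
  obtain ⟨t, ht⟩ := isCompact_univ.elim_finite_subcover V hVo
    (fun p _ => mem_iUnion.2 ⟨p, hpV p⟩)
  -- one constant
  set B : Z → ℝ := fun z => (2 * N + 1) * (D z).C ^ 2 * ((D z).r ^ 2 + ((D z).r⁻¹) ^ 2) with hB
  have hB0 : ∀ z, 0 ≤ B z := fun z => by
    have := (D z).C_pos
    positivity
  set C : ℝ := (∑ z ∈ t, B z) + 1 with hCdef
  have hC0 : 0 < C := by
    have : 0 ≤ ∑ z ∈ t, B z := Finset.sum_nonneg fun z _ => hB0 z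
    rw [hCdef]
    linarith
  have hCle : ∀ z ∈ t, B z ≤ C := by
    intro z hz
    have := Finset.single_le_sum (f := B) (fun z _ => hB0 z) hz
    rw [hCdef]
    linarith
  refine ⟨{z : Z // z ∈ t}, inferInstance, fun c => (D c.1).j, fun c => c.1, fun c => (D c.1).r,
    fun c => (D c.1).S, fun c => sc q (D c.1).j (D c.1).r c.1,
    fun c y => K (D c.1).j (q (D c.1).j c.1 + (D c.1).r • y), fun c => (D c.1).r_pos,
    fun c => (D c.1).isOpen, fun c => (D c.1).sub, fun c z => rfl,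
    fun c z => add_smul_sc q _ (D c.1).r_pos.ne' _ _, fun c y => rfl, ?_, ?_,
    fun c => (D c.1).lt, fun c => (D c.1).compact, ?_, ⟨C, hC0, ?_⟩,
    fun c => (D c.1).ball, ?_, ?_, ?_⟩
  · intro c
    have h1 : ContinuousOn (fun z => q (D c.1).j z - q (D c.1).j c.1) (D c.1).S :=
      (D c.1).cont.sub continuousOn_const
    exact h1.const_smul ((D c.1).r⁻¹)
  · intro c z hz z' hz' hzz
    have hzz' : sc q (D c.1).j (D c.1).r c.1 z = sc q (D c.1).j (D c.1).r c.1 z' := hzz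
    have h1 : q (D c.1).j z = q (D c.1).j z' := by
      rw [← add_smul_sc q (D c.1).j (D c.1).r_pos.ne' c.1 z, hzz',
        add_smul_sc q (D c.1).j (D c.1).r_pos.ne' c.1 z']
    have h2 := ((D c.1).lip z hz z' hz').2
    rw [h1, dist_self, mul_zero] at h2
    exact dist_le_zero.1 h2
  · intro z
    obtain ⟨c, hc, hz⟩ := mem_iUnion₂.1 (ht (mem_univ z))
    exact ⟨⟨c, hc⟩, hz.1, (show nsq ((D c).r⁻¹ • (q (D c).j z - q (D c).j c)) < 1 from hz.2).le⟩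
  · intro c z hz z' hz' _ _
    have h1 := (D c.1).lip z hz z' hz'
    have hr := (D c.1).r_pos
    have hC := (D c.1).C_pos
    have hBc := hCle c.1 c.2
    set v : Cn N := q (D c.1).j z - q (D c.1).j z' with hv
    have e1 : dist (q (D c.1).j z) (q (D c.1).j z') = ‖v‖ := by rw [dist_eq_norm, hv]
    rw [e1] at h1
    rw [sc_sub_sc, ← hv, NM.nsq_smul]
    have h2 : ‖v‖ ^ 2 ≤ nsq v := Pool.Agent.KRFF.Ex.norm_sq_le N _
    have h3 : nsq v ≤ 2 * N * ‖v‖ ^ 2 := NM.nsq_le_norm _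
    have h4 : dist z z' ^ 2 ≤ (D c.1).C ^ 2 * ‖v‖ ^ 2 := by
      rw [← mul_pow]
      exact pow_le_pow_left₀ dist_nonneg h1.2 2
    have h5 : ‖v‖ ^ 2 ≤ (D c.1).C ^ 2 * dist z z' ^ 2 := by
      rw [← mul_pow]
      exact pow_le_pow_left₀ (norm_nonneg _) h1.1 2
    have hN : (0 : ℝ) ≤ N := Nat.cast_nonneg N
    have h6 : 0 ≤ nsq v := le_trans (sq_nonneg _) h2
    have hrr : (D c.1).r ^ 2 * ((D c.1).r⁻¹) ^ 2 = 1 := by
      rw [← mul_pow, mul_inv_cancel₀ hr.ne', one_pow]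
    constructor
    · have h7 : (D c.1).C ^ 2 * (D c.1).r ^ 2 ≤ C := by
        refine le_trans ?_ hBc
        rw [hB]
        have : 0 ≤ (D c.1).C ^ 2 * (D c.1).r ^ 2 := by positivity
        have h8 : 0 ≤ 2 * N * ((D c.1).C ^ 2 * (D c.1).r ^ 2) := by positivity
        have h9 : 0 ≤ (2 * N + 1) * (D c.1).C ^ 2 * ((D c.1).r⁻¹) ^ 2 := by positivity
        calc (D c.1).C ^ 2 * (D c.1).r ^ 2 ≤ (D c.1).C ^ 2 * (D c.1).r ^ 2 +
              2 * N * ((D c.1).C ^ 2 * (D c.1).r ^ 2) +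
              (2 * N + 1) * (D c.1).C ^ 2 * ((D c.1).r⁻¹) ^ 2 := by linarith
          _ = (2 * N + 1) * (D c.1).C ^ 2 * ((D c.1).r ^ 2 + ((D c.1).r⁻¹) ^ 2) := by ring
      have h8 : 0 ≤ ((D c.1).r⁻¹) ^ 2 * nsq v := by positivity
      calc dist z z' ^ 2 ≤ (D c.1).C ^ 2 * ‖v‖ ^ 2 := h4
        _ ≤ (D c.1).C ^ 2 * nsq v := by gcongr
        _ = (D c.1).C ^ 2 * nsq v * ((D c.1).r ^ 2 * ((D c.1).r⁻¹) ^ 2) := by rw [hrr, mul_one]
        _ = (D c.1).C ^ 2 * (D c.1).r ^ 2 * (((D c.1).r⁻¹) ^ 2 * nsq v) := by ring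
        _ ≤ C * (((D c.1).r⁻¹) ^ 2 * nsq v) := mul_le_mul_of_nonneg_right h7 h8
    · have h7 : ((D c.1).r⁻¹) ^ 2 * (2 * N) * (D c.1).C ^ 2 ≤ C := by
        refine le_trans ?_ hBc
        rw [hB]
        have h8 : 0 ≤ ((D c.1).r⁻¹) ^ 2 * (D c.1).C ^ 2 := by positivity
        have h9 : 0 ≤ (2 * N + 1) * (D c.1).C ^ 2 * (D c.1).r ^ 2 := by positivity
        calc ((D c.1).r⁻¹) ^ 2 * (2 * N) * (D c.1).C ^ 2 ≤
              ((D c.1).r⁻¹) ^ 2 * (2 * N) * (D c.1).C ^ 2 + ((D c.1).r⁻¹) ^ 2 * (D c.1).C ^ 2 +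
              (2 * N + 1) * (D c.1).C ^ 2 * (D c.1).r ^ 2 := by linarith
          _ = (2 * N + 1) * (D c.1).C ^ 2 * ((D c.1).r ^ 2 + ((D c.1).r⁻¹) ^ 2) := by ring
      calc ((D c.1).r⁻¹) ^ 2 * nsq v ≤ ((D c.1).r⁻¹) ^ 2 * (2 * N * ‖v‖ ^ 2) := by gcongr
        _ ≤ ((D c.1).r⁻¹) ^ 2 * (2 * N * ((D c.1).C ^ 2 * dist z z' ^ 2)) := by gcongr
        _ = ((D c.1).r⁻¹) ^ 2 * (2 * N) * (D c.1).C ^ 2 * dist z z' ^ 2 := by ring
        _ ≤ C * dist z z' ^ 2 := mul_le_mul_of_nonneg_right h7 (sq_nonneg _)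
  · intro c
    exact (h.smooth (D c.1).j).comp (by fun_prop) fun y hy => (D c.1).ball y hy
  · intro c y hy u hu
    have h1 := (D c.1).ball y hy
    show 0 < levz (fun y => K (D c.1).j (q (D c.1).j c.1 + (D c.1).r • y)) u y
    rw [levz_affine (h.isOpen' _) (h.smooth _) _ _ h1 u]
    exact h.psh _ _ h1 _ (smul_ne_zero (D c.1).r_pos.ne' hu)
  · intro a b z hza hzb
    obtain ⟨A, G, hA, hqA, hG, hev⟩ := h.compat (D a.1).j (D b.1).j z
      ⟨(D a.1).sub hza, (D b.1).sub hzb⟩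
    obtain ⟨hA', hG'⟩ := holC_affine_neg hA hG (q (D a.1).j a.1) (D a.1).r
    have hSab : (D a.1).S ∩ (D b.1).S ∈ 𝓝 z :=
      ((D a.1).isOpen.inter (D b.1).isOpen).mem_nhds ⟨hza, hzb⟩
    have hq : ∀ᶠ z' in 𝓝 z, q (D a.1).j z' ∈ A :=
      (((D a.1).cont.continuousAt ((D a.1).isOpen.mem_nhds hza)).eventually (hA.mem_nhds hqA))
    obtain ⟨W, hW, hWo, hzW⟩ := mem_nhds_iff.1 ((hev.and hq).and hSab)
    refine ⟨W, {y | q (D a.1).j a.1 + (D a.1).r • y ∈ A},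
      fun y => -G (q (D a.1).j a.1 + (D a.1).r • y), hWo, hzW, fun z' hz' => (hW hz').2, hA', hG',
      fun z' hz' => ?_, fun z' hz' => ?_⟩
    · show q (D a.1).j a.1 + (D a.1).r • sc q (D a.1).j (D a.1).r a.1 z' ∈ A
      rw [add_smul_sc q _ (D a.1).r_pos.ne']
      exact (hW hz').1.2
    · show K (D a.1).j (q (D a.1).j a.1 + (D a.1).r • sc q (D a.1).j (D a.1).r a.1 z') -
        K (D b.1).j (q (D b.1).j b.1 + (D b.1).r • sc q (D b.1).j (D b.1).r b.1 z') =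
        (-G (q (D a.1).j a.1 + (D a.1).r • sc q (D a.1).j (D a.1).r a.1 z')).re
      rw [add_smul_sc q _ (D a.1).r_pos.ne', add_smul_sc q _ (D b.1).r_pos.ne', Complex.neg_re,
        ← (hW hz').1.1]
      ring

end Pool.Agent.KRFZ
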