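import Pool.Agent.Work.MP_a2bf38_gt.Z.NatDefs

/-!
# Metrics which are Lipschitz equivalent to given local coordinates
-/

open scoped ContDiff ENNReal ComplexOrder Topology
open Set Filter Pool.Agent.ToricKRF Pool.Agent.ToricKRF.G Pool.Agent.KRFS Pool.Agent.KRFF

namespace Pool.Agent.KRFZ

/-- Coordinates `a c : V c → ℂ^n` on open sets `V c` of a space, which are embeddings and locally
Lipschitz equivalent to each other. -/
structure IsCoord {X : Type} [TopologicalSpace X] {n : ℕ} {κ : Type} (V : κ → Set X)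
    (a : κ → X → Cn n) : Prop where
  isOpen : ∀ c, IsOpen (V c)
  cover : ∀ p, ∃ c, p ∈ V c
  cont : ∀ c, ContinuousOn (a c) (V c)
  inj : ∀ c, InjOn (a c) (V c)
  nhds : ∀ c, ∀ p ∈ V c, ∀ W ∈ 𝓝 p, ∃ ε > 0, ∀ p' ∈ V c, dist (a c p') (a c p) < ε → p' ∈ W
  lip : ∀ c c', ∀ p ∈ V c, p ∈ V c' → ∃ C, 0 < C ∧ ∀ᶠ x : X × X in 𝓝 (p, p),
    dist (a c' x.1) (a c' x.2) ≤ C * dist (a c x.1) (a c x.2)

namespace Tp

variable {X : Type} {n : ℕ}

/-- a cut-off function -/
noncomputable def bmp (r s : ℝ) : ℝ := max 0 (min 1 (2 - s / r))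

theorem bmp_one {r s : ℝ} (hr : 0 < r) (h : s ≤ r) : bmp r s = 1 := by
  have : s / r ≤ 1 := by rwa [div_le_one hr]
  rw [bmp, min_eq_left (by linarith), max_eq_right zero_le_one]

theorem bmp_zero {r s : ℝ} (hr : 0 < r) (h : 2 * r ≤ s) : bmp r s = 0 := by
  have : 2 ≤ s / r := by rwa [le_div_iff₀ hr]
  rw [bmp, max_eq_left]
  exact (min_le_right _ _).trans (by linarith)

theorem bmp_abs (r s : ℝ) : |bmp r s| ≤ 1 := by
  rw [bmp, abs_of_nonneg (le_max_left _ _)]
  exact max_le zero_le_one (min_le_left _ _)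

theorem bmp_lip {r : ℝ} (hr : 0 < r) (s s' : ℝ) : |bmp r s - bmp r s'| ≤ |s - s'| / r := by
  have h1 : |bmp r s - bmp r s'| ≤ |(2 - s / r) - (2 - s' / r)| := by
    unfold bmp
    refine (abs_max_sub_max_le_max _ _ _ _).trans (max_le (by simp) ?_)
    exact (abs_min_sub_min_le_max _ _ _ _).trans (max_le (by simp) le_rfl)
  refine h1.trans (le_of_eq ?_)
  rw [show (2 - s / r) - (2 - s' / r) = -((s - s') / r) by ring, abs_neg, abs_div, abs_of_pos hr]

open Classical in
/-- `(b, b (a - a p))` with a cut-off function `b` at `p` -/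
noncomputable def phi (V : Set X) (a : X → Cn n) (y : Cn n) (r : ℝ) (z : X) : ℝ × Cn n :=
  if z ∈ V then (bmp r (dist (a z) y), bmp r (dist (a z) y) • (a z - y)) else 0

theorem phi_lip {V : Set X} {a : X → Cn n} {y : Cn n} {r : ℝ} (hr : 0 < r) {z z' : X}
    (hz : z ∈ V) (hz' : z' ∈ V) {R : ℝ} (hR : dist (a z') y ≤ R) :
    dist (phi V a y r z) (phi V a y r z') ≤ (1 + (1 + R) / r) * dist (a z) (a z') := by
  have hR0 : 0 ≤ R := dist_nonneg.trans hR
  have h1 : |bmp r (dist (a z) y) - bmp r (dist (a z') y)| ≤ dist (a z) (a z') / r := by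
    refine (bmp_lip hr _ _).trans ?_
    gcongr
    exact abs_dist_sub_le _ _ _
  have hd : 0 ≤ dist (a z) (a z') := dist_nonneg
  have h0 : dist (a z) (a z') / r ≤ (1 + (1 + R) / r) * dist (a z) (a z') := by
    have : (1 + (1 + R) / r) * dist (a z) (a z') =
        dist (a z) (a z') + dist (a z) (a z') / r + R / r * dist (a z) (a z') := by
      field_simp
      ring
    rw [this]
    have : 0 ≤ R / r * dist (a z) (a z') := by positivity
    linarith
  rw [phi, phi, if_pos hz, if_pos hz', Prod.dist_eq]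
  refine max_le ?_ ?_
  · exact (le_of_eq (Real.dist_eq _ _)).trans (h1.trans h0)
  · rw [dist_eq_norm]
    have h2 : bmp r (dist (a z) y) • (a z - y) - bmp r (dist (a z') y) • (a z' - y) =
        bmp r (dist (a z) y) • (a z - a z') +
          (bmp r (dist (a z) y) - bmp r (dist (a z') y)) • (a z' - y) := by
      module
    rw [h2]
    refine (norm_add_le _ _).trans ?_
    rw [norm_smul, norm_smul, Real.norm_eq_abs, Real.norm_eq_abs, ← dist_eq_norm, ← dist_eq_norm]
    calc |bmp r (dist (a z) y)| * dist (a z) (a z') +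
          |bmp r (dist (a z) y) - bmp r (dist (a z') y)| * dist (a z') y
        ≤ 1 * dist (a z) (a z') + dist (a z) (a z') / r * R := by
          gcongr
          exact bmp_abs _ _
      _ ≤ _ := by
          have : (1 + (1 + R) / r) * dist (a z) (a z') =
              dist (a z) (a z') + dist (a z) (a z') / r + R / r * dist (a z) (a z') := by
            field_simp
            ring
          rw [this, one_mul, div_mul_comm]
          have : 0 ≤ dist (a z) (a z') / r := by positivity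
          linarith

theorem phi_of_le {V : Set X} {a : X → Cn n} {y : Cn n} {r : ℝ} (hr : 0 < r) {z : X} (hz : z ∈ V)
    (h : dist (a z) y ≤ r) : phi V a y r z = (1, a z - y) := by
  rw [phi, if_pos hz, bmp_one hr h, one_smul]

theorem phi_of_ge {V : Set X} {a : X → Cn n} {y : Cn n} {r : ℝ} (hr : 0 < r) {z : X}
    (h : z ∈ V → 2 * r ≤ dist (a z) y) : phi V a y r z = 0 := by
  by_cases hz : z ∈ V
  · rw [phi, if_pos hz, bmp_zero hr (h hz), zero_smul]
    rfl
  · rw [phi, if_neg hz]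

end Tp

open Tp

variable {X : Type} [t : TopologicalSpace X] [CompactSpace X] [T2Space X] {n : ℕ} {κ : Type}
  {V : κ → Set X} {a : κ → X → Cn n}

/-- a small ball in the coordinates around `p` -/
theorem IsCoord.exists_radius (h : IsCoord V a) {c : κ} {p : X} (hp : p ∈ V c) :
    ∃ r > 0, IsClosed {z | z ∈ V c ∧ dist (a c z) (a c p) ≤ 2 * r} := by
  obtain ⟨W, hW, hWV, hWc⟩ := LocallyCompactSpace.local_compact_nhds p (V c)
    ((h.isOpen c).mem_nhds hp)
  obtain ⟨ε, hε, hεW⟩ := h.nhds c p hp W hW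
  refine ⟨ε / 3, by positivity, ?_⟩
  have h1 : {z | z ∈ V c ∧ dist (a c z) (a c p) ≤ 2 * (ε / 3)} =
      W ∩ (a c) ⁻¹' (Metric.closedBall (a c p) (2 * (ε / 3))) := by
    ext z
    constructor
    · rintro ⟨h1, h2⟩
      exact ⟨hεW z h1 (h2.trans_lt (by linarith)), h2⟩
    · rintro ⟨h1, h2⟩
      exact ⟨hWV h1, h2⟩
  rw [h1]
  exact ((h.cont c).mono hWV).preimage_isClosed_of_isClosed hWc.isClosed Metric.isClosed_closedBall

theorem IsCoord.exists_metric (h : IsCoord V a) : ∃ m : MetricSpace X,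
    m.toPseudoMetricSpace.toUniformSpace.toTopologicalSpace = t ∧
      ∀ c, @IsLip X m n (a c) (V c) := by
  have h1 : ∀ p, ∃ c, ∃ r > 0, p ∈ V c ∧
      IsClosed {z | z ∈ V c ∧ dist (a c z) (a c p) ≤ 2 * r} := fun p => by
    obtain ⟨c, hc⟩ := h.cover p
    obtain ⟨r, hr, hcl⟩ := h.exists_radius hc
    exact ⟨c, r, hr, hc, hcl⟩
  choose c r hr hc hcl using h1
  have hN : ∀ p, {z | z ∈ V (c p) ∧ dist (a (c p) z) (a (c p) p) < r p} ∈ 𝓝 p := fun p => by
    have h2 : ContinuousAt (a (c p)) p :=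
      (h.cont (c p)).continuousAt ((h.isOpen _).mem_nhds (hc p))
    filter_upwards [(h.isOpen _).mem_nhds (hc p), h2 (Metric.ball_mem_nhds _ (hr p))] with z hz hz'
    exact ⟨hz, hz'⟩
  obtain ⟨s, -, hs⟩ := isCompact_univ.elim_nhds_subcover _ fun p _ => hN p
  set Φ : X → s → ℝ × Cn n := fun z p => phi (V (c p)) (a (c p)) (a (c p) p) (r p) z with hΦ
  -- the maps are Lipschitz in the coordinates
  have hup : ∀ c' z, z ∈ V c' → ∃ C, 0 < C ∧ ∀ᶠ x : X × X in 𝓝 (z, z),
      dist (Φ x.1) (Φ x.2) ≤ C * dist (a c' x.1) (a c' x.2) := by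
    intro c' z hz
    have h2 : ∀ p : s, ∃ C, 0 < C ∧ ∀ᶠ x : X × X in 𝓝 (z, z),
        dist (Φ x.1 p) (Φ x.2 p) ≤ C * dist (a c' x.1) (a c' x.2) := by
      intro p
      by_cases hzp : z ∈ V (c p)
      · obtain ⟨C, hC, hlip⟩ := h.lip c' (c p) z hz hzp
        set R := dist (a (c p) z) (a (c p) p) + 1 with hR
        have hR0 : 0 < R := by positivity
        refine ⟨(1 + (1 + R) / r p) * C, by have := hr p; positivity, ?_⟩
        have h3 : ∀ᶠ x : X in 𝓝 z, x ∈ V (c p) ∧ dist (a (c p) x) (a (c p) p) ≤ R := by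
          have h4 : ContinuousAt (fun x => dist (a (c p) x) (a (c p) p)) z :=
            ((h.cont (c p)).continuousAt ((h.isOpen _).mem_nhds hzp)).dist continuousAt_const
          filter_upwards [(h.isOpen _).mem_nhds hzp,
            h4.eventually (gt_mem_nhds (show dist (a (c p) z) (a (c p) p) < R by simp [hR]))]
            with x hx hx'
          exact ⟨hx, hx'.le⟩
        rw [nhds_prod_eq] at hlip ⊢
        filter_upwards [hlip, h3.prod_mk h3] with x hx hx'
        have hd : 0 ≤ 1 + (1 + R) / r p := by have := hr p; positivity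
        refine (phi_lip (hr p) hx'.1.1 hx'.2.1 hx'.2.2).trans ?_
        rw [mul_assoc]
        exact mul_le_mul_of_nonneg_left hx hd
      · refine ⟨1, one_pos, ?_⟩
        have h3 : ∀ᶠ x in 𝓝 z, Φ x p = 0 := by
          have h4 : z ∈ {z | z ∈ V (c p) ∧ dist (a (c p) z) (a (c p) p) ≤ 2 * r p}ᶜ :=
            fun h' => hzp h'.1
          filter_upwards [(hcl p).isOpen_compl.mem_nhds h4] with x hx
          refine phi_of_ge (hr p) fun hxV => ?_
          by_contra h5
          exact hx ⟨hxV, (not_le.1 h5).le⟩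
        rw [nhds_prod_eq]
        filter_upwards [h3.prod_mk h3] with x hx
        rw [hx.1, hx.2, dist_self, one_mul]
        exact dist_nonneg
    choose C hC hCe using h2
    refine ⟨1 + ∑ p, C p, by have : 0 ≤ ∑ p, C p := Finset.sum_nonneg fun p _ => (hC p).le
                             linarith, ?_⟩
    filter_upwards [eventually_all.2 hCe] with x hx
    have h0 : 0 ≤ (1 + ∑ p, C p) * dist (a c' x.1) (a c' x.2) := by
      have : 0 ≤ ∑ p, C p := Finset.sum_nonneg fun p _ => (hC p).le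
      positivity
    refine (dist_pi_le_iff h0).2 fun p => (hx p).trans ?_
    gcongr
    have := Finset.single_le_sum (f := C) (fun p _ => (hC p).le) (Finset.mem_univ p)
    linarith
  have hcov : ∀ z, ∃ p : s, z ∈ V (c p) ∧ dist (a (c p) z) (a (c p) p) < r p := by
    intro z
    obtain ⟨p, hp, hz⟩ := mem_iUnion₂.1 (hs (mem_univ z))
    exact ⟨⟨p, hp⟩, hz⟩
  have hcont : Continuous Φ := by
    rw [continuous_iff_continuousAt]
    intro z
    obtain ⟨c', hc'⟩ := h.cover z
    obtain ⟨C, hC, hlip⟩ := hup c' z hc'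
    have h3 : ContinuousAt (a c') z := (h.cont c').continuousAt ((h.isOpen _).mem_nhds hc')
    have h4 : Tendsto (fun x : X => (x, z)) (𝓝 z) (𝓝 (z, z)) :=
      (continuous_id.prodMk continuous_const).tendsto' _ _ rfl
    rw [ContinuousAt, tendsto_iff_dist_tendsto_zero]
    have h5 : Tendsto (fun x => C * dist (a c' x) (a c' z)) (𝓝 z) (𝓝 0) := by
      have := (tendsto_iff_dist_tendsto_zero.1 h3).const_mul C
      rwa [mul_zero] at this
    exact squeeze_zero' (Eventually.of_forall fun _ => dist_nonneg) (h4.eventually hlip) h5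
  have hinj : Function.Injective Φ := by
    intro z z' hzz
    obtain ⟨p, hp, hd⟩ := hcov z
    have h3 : Φ z p = (1, a (c p) z - a (c p) p) := phi_of_le (hr p) hp hd.le
    have h4 : Φ z' p = (1, a (c p) z - a (c p) p) := by rw [← hzz, h3]
    by_cases hz' : z' ∈ V (c p)
    · have h5 : Φ z' p = (bmp (r p) (dist (a (c p) z') (a (c p) p)),
          bmp (r p) (dist (a (c p) z') (a (c p) p)) • (a (c p) z' - a (c p) p)) := if_pos hz'
      rw [h5, Prod.mk.injEq] at h4
      have h6 := h4.2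
      rw [h4.1, one_smul] at h6
      exact (h.inj _ hz' hp (sub_left_injective h6)).symm
    · have h5 : Φ z' p = 0 := if_neg hz'
      rw [h5] at h4
      exact absurd (congrArg Prod.fst h4) zero_ne_one
  have hemb : Topology.IsEmbedding Φ := (hcont.isClosedEmbedding hinj).isEmbedding
  refine ⟨hemb.comapMetricSpace Φ, rfl, fun c' z hz => ?_⟩
  obtain ⟨C, hC, hlip⟩ := hup c' z hz
  obtain ⟨p, hp, hd⟩ := hcov z
  obtain ⟨C', hC', hlip'⟩ := h.lip (c p) c' z hp hz
  have h3 : ∀ᶠ x : X in 𝓝 z, x ∈ V (c p) ∧ dist (a (c p) x) (a (c p) p) < r p := by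
    have h4 : ContinuousAt (fun x => dist (a (c p) x) (a (c p) p)) z :=
      ((h.cont (c p)).continuousAt ((h.isOpen _).mem_nhds hp)).dist continuousAt_const
    filter_upwards [(h.isOpen _).mem_nhds hp, h4.eventually (gt_mem_nhds hd)] with x hx hx'
    exact ⟨hx, hx'⟩
  have h3' : ∀ᶠ x : X × X in 𝓝 (z, z), (x.1 ∈ V (c p) ∧ dist (a (c p) x.1) (a (c p) p) < r p) ∧
      x.2 ∈ V (c p) ∧ dist (a (c p) x.2) (a (c p) p) < r p := by
    rw [nhds_prod_eq]
    exact h3.prod_mk h3
  refine ⟨max C C', lt_max_of_lt_left hC, ?_⟩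
  filter_upwards [hlip, hlip', h3'] with x hx hx' hx3
  refine ⟨hx'.trans ?_, hx.trans ?_⟩
  · have h5 : dist (a (c p) x.1) (a (c p) x.2) ≤ dist (Φ x.1) (Φ x.2) := by
      refine le_trans ?_ (dist_le_pi_dist _ _ p)
      have h6 : Φ x.1 p = (1, a (c p) x.1 - a (c p) p) := phi_of_le (hr p) hx3.1.1 hx3.1.2.le
      have h7 : Φ x.2 p = (1, a (c p) x.2 - a (c p) p) := phi_of_le (hr p) hx3.2.1 hx3.2.2.le
      rw [h6, h7]
      exact le_trans (le_of_eq (dist_sub_right (a (c p) x.1) (a (c p) x.2) (a (c p) p)).symm)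
        (le_max_right (dist (1 : ℝ) 1) _)
    exact mul_le_mul (le_max_right _ _) h5 dist_nonneg (hC'.le.trans (le_max_right _ _))
  · exact mul_le_mul_of_nonneg_right (le_max_left _ _) dist_nonneg

end Pool.Agent.KRFZ
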