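import Pool.Agent.Work.MP_a2bf38_gt.Z.NatMain
import Pool.Agent.Work.MP_a2bf38_gt.Ko.Main
import Pool.Agent.Work.MP_a2bf38_gt.Ch.Main

/-!
# The diameter bound for all semi-ample limit classes
-/

open scoped ContDiff ENNReal ComplexOrder Topology
open Set Filter Pool.Agent.ToricKRF Pool.Agent.ToricKRF.G Pool.Agent.KRFS Pool.Agent.KRFF

namespace Pool.Agent.KRFZ

section

variable {M Z : Type} [MetricSpace M] [MetricSpace Z]
  {n N : ℕ} {κ P : Type} {e : κ → OpenPartialHomeomorph M (Cn n)} {U : P → Set Z}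
  {q : P → Z → Cn N} {O : P → Set (Cn N)} {K : P → Cn N → ℝ} {f : M → Z} {T : ℝ}
  {ψ : κ → ℝ × Cn n → ℝ} {Ω : κ → Cn n → ℝ}

theorem geoData_of (hT : 0 < T) (he : IsAtlas e) (hl : ∀ c, IsLip (e c) (e c).source)
    (hZ : IsKahlerSpace U q O K) (hf : IsHolConn e U q f) (hψ : IsKRF e T ψ) :
    KRFW.GeoData e U q f ψ where
  atlas := he
  lip := hl
  isOpen := hZ.isOpen
  cover := hZ.cover
  qlip := hZ.lip
  cont := hf.cont
  holo := hf.holo
  smooth := fun c => by
    obtain ⟨S, hS, hsub, hs⟩ := hψ.smooth c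
    refine ⟨S, hS, fun x hx => hsub ⟨?_, hx.2⟩, hs⟩
    rw [mem_singleton_iff.1 hx.1]
    exact ⟨le_rfl, hT⟩

/-- Locally over `Z` the fibres of `f` are embedded in projective spaces as zero sets of forms. -/
theorem isLocProj_of_limit [CompactSpace M] (hT : 0 < T) (he : IsAtlas e)
    (hl : ∀ c, IsLip (e c) (e c).source) (hZ : IsKahlerSpace U q O K) (hf : IsHolConn e U q f)
    (hψ : IsKRF e T ψ) (hlim : IsSemiampleLimit e U q f T ψ Ω K) : IsLocProj e U q f := by
  intro z
  obtain ⟨S, L, ι, hS, hz, hι⟩ := KRFKo.exists_embOver hT he hZ hf hψ hlim z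
  obtain ⟨S', d, hS', hz', hp⟩ :=
    KRFCh.exists_isProjOver (geoData_of hT he hl hZ hf hψ) hι hS hz
  exact ⟨S', L, ι, d, hS', hz', hp⟩

/-- The diameter of `(M, ω(t))` is bounded if the limit class is the pull-back of a Kähler class
under a holomorphic map with connected fibres. -/
theorem diam_bounded_semiample [CompactSpace M] [ConnectedSpace M] (he : IsAtlas e)
    (hl : ∀ c, IsLip (e c) (e c).source) (hZ : IsKahlerSpace U q O K) (hf : IsHolConn e U q f)
    (hψ : IsKRF e T ψ) (hlim : IsSemiampleLimit e U q f T ψ Ω K) :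
    ⨆ t ∈ Ico 0 T, rdiam e ψ t < ⊤ := by
  by_cases hT : 0 < T
  swap
  · have : Ico (0 : ℝ) T = ∅ := Ico_eq_empty hT
    simp [this]
  exact diam_bounded_of_locProj he hl hZ hf (isLocProj_of_limit hT he hl hZ hf hψ hlim) hψ hlim

end

end Pool.Agent.KRFZ
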