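import Pool.Agent.Work.MP_a2bf38_gt.Z.Setup
import Pool.Agent.Work.MP_a2bf38_gt.X.RegHad
import Pool.Agent.Work.MP_a2bf38_gt.V.Main
import Pool.Agent.Work.MP_a2bf38_gt.L.BallM
import Pool.Agent.Work.MP_a2bf38_gt.I.ABP2
import Pool.Agent.Work.MP_a2bf38_gt.K.Base

/-!
# The regularization of the potential in the charts of `M`

`U t c l x = sup_{|w| ≤ 1} ψ_c (t, x + e^{-l} w) - th_c (t, x)`.
-/

open scoped ContDiff ENNReal ComplexOrder Topology
open Set MeasureTheory Filter Pool.Agent.ToricKRF Pool.Agent.ToricKRF.G Pool.Agent.KRFS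
  Pool.Agent.KRFF Pool.Agent.KRFG Pool.Agent.KRFE

namespace Pool.Agent.KRFZ

set_option linter.unusedSectionVars false

namespace Reg

open KRFE.SupReg

variable {m : ℕ}

theorem nsq_eq' (z : Cn m) : nsq z = ∑ i, (z.1 i ^ 2 + z.2 i ^ 2) := by
  simp only [nsq, dotProduct, ← Finset.sum_add_distrib]
  exact Finset.sum_congr rfl fun i _ => by ring

theorem convex_nsq (r : ℝ) : Convex ℝ {x : Cn m | nsq x ≤ r} := by
  intro x hx y hy s t hs ht hst
  have hx' : nsq x ≤ r := hx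
  have hy' : nsq y ≤ r := hy
  show nsq (s • x + t • y) ≤ r
  have h1 : nsq (s • x + t • y) ≤ s * nsq x + t * nsq y := by
    rw [nsq_eq', nsq_eq', nsq_eq', Finset.mul_sum, Finset.mul_sum, ← Finset.sum_add_distrib]
    refine Finset.sum_le_sum fun i _ => ?_
    simp only [Prod.fst_add, Prod.snd_add, Pi.add_apply, Prod.smul_fst, Prod.smul_snd,
      Pi.smul_apply, smul_eq_mul]
    have key : ∀ a b : ℝ, (s * a + t * b) ^ 2 ≤ s * a ^ 2 + t * b ^ 2 := by
      intro a b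
      have h3 : s * a ^ 2 + t * b ^ 2 - (s * a + t * b) ^ 2 = s * t * (a - b) ^ 2 := by
        have : t = 1 - s := by linarith
        rw [this]
        ring
      have := mul_nonneg (mul_nonneg hs ht) (sq_nonneg (a - b))
      linarith
    have h4 := key (x.1 i) (y.1 i)
    have h5 := key (x.2 i) (y.2 i)
    linarith
  calc nsq (s • x + t • y) ≤ s * nsq x + t * nsq y := h1
    _ ≤ s * r + t * r := by gcongr
    _ = r := by rw [← add_mul, hst, one_mul]

theorem isCompact_le {r : ℝ} (hr : 0 < r) : IsCompact {z : Cn m | nsq z ≤ r} := by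
  have h := isCompact_nsq_sub (n := m) 0 (Real.sqrt_pos.2 hr)
  simp only [sub_zero, Real.sq_sqrt hr.le] at h
  exact h

theorem nsq_add_le {x w : Cn m} {a b : ℝ} (ha : 0 ≤ a) (hb : 0 ≤ b) (hx : nsq x ≤ a ^ 2)
    (hw : nsq w ≤ b ^ 2) : nsq (x + w) ≤ (a + b) ^ 2 := by
  have h1 : nsq (x + w) = nsq x + 2 * ABP.ip x w + nsq w := by
    simp only [nsq, ABP.ip, Prod.fst_add, Prod.snd_add, dotProduct, Pi.add_apply,
      ← Finset.sum_add_distrib, Finset.mul_sum]
    refine Finset.sum_congr rfl fun i _ => ?_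
    ring
  have h2 := ABP.ip_sq_le x w
  have h3 : ABP.ip x w ≤ a * b := by
    refine (abs_le_of_sq_le_sq' ?_ (by positivity)).2
    calc ABP.ip x w ^ 2 ≤ nsq x * nsq w := h2
      _ ≤ a ^ 2 * b ^ 2 := mul_le_mul hx hw (SupReg.nsq_nonneg w) (by positivity)
      _ = (a * b) ^ 2 := by ring
  rw [h1]
  nlinarith

/-- the closed balls of radius `r ≤ ρ` around the points of the ball of radius `4` -/
theorem cball_sub {x : Cn m} (hx : nsq x ≤ 16) {r ρ : ℝ} (hr : 0 ≤ r) (h : r ≤ ρ) :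
    cball x r ⊆ {y : Cn m | nsq y ≤ (4 + ρ) ^ 2} := by
  intro y hy
  have hy' : nsq (y - x) ≤ r ^ 2 := hy
  have h1 := nsq_add_le (x := x) (w := y - x) (a := 4) (b := r) (by norm_num) hr
    (by norm_num; exact hx) hy'
  rw [add_sub_cancel] at h1
  refine h1.trans ?_
  exact pow_le_pow_left₀ (by positivity) (by linarith) 2

theorem isOpen_lt (r : ℝ) : IsOpen {z : Cn m | nsq z < r} :=
  _root_.isOpen_lt SupReg.continuous_nsq continuous_const

theorem norm_le {x : Cn m} {r : ℝ} (hr : 0 ≤ r) (h : nsq x ≤ r ^ 2) : ‖x‖ ≤ r :=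
  (norm_le_sqrt_nsq x).trans ((Real.sqrt_le_sqrt h).trans (le_of_eq (Real.sqrt_sq hr)))

/-- a smooth function is Lipschitz on the ball of radius `5` -/
theorem lip {f : Cn m → ℝ} (hf : ContDiffOn ℝ ∞ f {z | nsq z < 100}) : ∃ L : ℝ, 0 ≤ L ∧
    ∀ x y : Cn m, nsq x ≤ 25 → nsq y ≤ 25 → |f y - f x| ≤ L * ‖y - x‖ := by
  have hU := isOpen_lt (m := m) 100
  have hsub : {z : Cn m | nsq z ≤ 25} ⊆ {z | nsq z < 100} := fun z hz =>
    lt_of_le_of_lt (show nsq z ≤ 25 from hz) (by norm_num)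
  have hfd : ContinuousOn (fun x => ‖fderiv ℝ f x‖) {z : Cn m | nsq z ≤ 25} :=
    (((contDiffOn_infty_iff_fderiv_of_isOpen hU).1 hf).2.continuousOn.mono hsub).norm
  obtain ⟨C, hC⟩ := (isCompact_le (m := m) (r := 25) (by norm_num)).bddAbove_image hfd
  refine ⟨max C 0, le_max_right _ _, fun x y hx hy => ?_⟩
  rw [← Real.norm_eq_abs]
  refine (convex_nsq (m := m) 25).norm_image_sub_le_of_norm_fderiv_le (𝕜 := ℝ) (f := f)
    (fun z hz => ?_) (fun z hz => ?_) hx hy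
  · exact (hf.differentiableOn (by simp)).differentiableAt (hU.mem_nhds (hsub hz))
  · exact (hC (mem_image_of_mem _ hz)).trans (le_max_left _ _)

end Reg

section

open KRFE.SupReg

variable {n N : ℕ} {M Z : Type} [MetricSpace M] [MetricSpace Z] {κ P : Type} {T : ℝ}
  (F : Semi n N M Z κ P T)

namespace Reg

/-- the ball of radius `10` -/
def BB (n : ℕ) : Set (Cn n) := {z | nsq z < 100}

theorem isOpen_BB : IsOpen (BB n) := isOpen_lt 100

theorem sub_target (c : κ) : BB n ⊆ (F.e c).target := F.target c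

theorem le_sub_BB {r : ℝ} (hr : r < 100) : {z : Cn n | nsq z ≤ r} ⊆ BB n := fun _ hz =>
  lt_of_le_of_lt hz hr

theorem psi_smooth {t : ℝ} (ht : t ∈ Ico 0 T) (c : κ) :
    ContDiffOn ℝ ∞ (fun x => F.ψ c (t, x)) (F.e c).target := by
  obtain ⟨U, hU, hsub, hψ⟩ := F.krf.smooth c
  exact hψ.comp (contDiff_const.prodMk contDiff_id).contDiffOn fun x hx => hsub ⟨ht, hx⟩

theorem psi_psh {t : ℝ} (ht : t ∈ Ico 0 T) (c : κ) : PshC (fun x => F.ψ c (t, x)) (BB n) := by
  obtain ⟨U, hU, hsub, hψ⟩ := F.krf.smooth c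
  refine KRFH.BallM.pshC_of_levz isOpen_BB ((psi_smooth F ht c).mono (sub_target F c))
    fun z hz u => ?_
  rw [levz_slice hU hψ (hsub ⟨ht, sub_target F c hz⟩)]
  exact F.toFlow.lev_nonneg ht (sub_target F c hz) u

theorem logO_smooth (c : κ) : ContDiffOn ℝ ∞ (fun x => Real.log (F.Ω c x)) (F.e c).target :=
  (F.vol.smooth c).log fun x hx => (F.vol.pos c x hx).ne'

theorem th_smooth (hT : 0 < T) (t : ℝ) (c : κ) : ContDiffOn ℝ ∞ (F.th t c) (F.e c).target :=
  (psi_smooth F ⟨le_rfl, hT⟩ c).add (contDiffOn_const.mul (logO_smooth F c))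

theorem pos_T {t : ℝ} (ht : t ∈ Ico 0 T) : 0 < T := ht.1.trans_lt ht.2

theorem cball_sub_BB {x : Cn n} (hx : nsq x ≤ 16) {r : ℝ} (hr : 0 ≤ r) (h : r ≤ 5) :
    cball x r ⊆ BB n :=
  (cball_sub hx hr h).trans (le_sub_BB (by norm_num))

theorem exp_neg_le {l : ℝ} (hl : 0 ≤ l) : Real.exp (-l) ≤ 1 := Real.exp_le_one_iff.2 (by linarith)

/-- finitely many positive numbers -/
theorem exists_pos_le {ι : Type*} [Finite ι] {f : ι → ℝ} (hf : ∀ i, 0 < f i) :
    ∃ c > 0, ∀ i, c ≤ f i := by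
  have := Fintype.ofFinite ι
  have h0 : 0 ≤ ∑ i, (f i)⁻¹ := Finset.sum_nonneg fun i _ => (inv_pos.2 (hf i)).le
  refine ⟨(∑ i, (f i)⁻¹ + 1)⁻¹, by positivity, fun i => ?_⟩
  rw [inv_le_comm₀ (by positivity) (hf i)]
  have := Finset.single_le_sum (f := fun i => (f i)⁻¹) (fun i _ => (inv_pos.2 (hf i)).le)
    (Finset.mem_univ i)
  linarith

/-- `φ = ψ - th` in the charts -/
theorem Phi_eq_th {t : ℝ} (ht : t ∈ Ico 0 T) {c : κ} {p : M} (hp : p ∈ (F.e c).source) :
    F.Phi t p = F.ψ c (t, F.e c p) - F.th t c (F.e c p) := by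
  rw [F.toFlow.Phi_eq ht hp]
  simp only [Flow.phi, Semi.th]
  ring

/-- uniform Lipschitz constant of `th` -/
theorem th_lip [Finite κ] : ∃ L : ℝ, 0 ≤ L ∧ ∀ t ∈ Ico 0 T, ∀ (c : κ) (x y : Cn n), nsq x ≤ 25 →
    nsq y ≤ 25 → |F.th t c y - F.th t c x| ≤ L * ‖y - x‖ := by
  by_cases hT : 0 < T
  swap
  · exact ⟨0, le_rfl, fun t ht => absurd (pos_T ht) hT⟩
  choose L₁ hL₁ h₁ using fun c => lip ((psi_smooth F ⟨le_rfl, hT⟩ c).mono (sub_target F c))
  choose L₂ hL₂ h₂ using fun c => lip ((logO_smooth F c).mono (sub_target F c))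
  obtain ⟨B₁, hB₁⟩ := Finite.exists_le L₁
  obtain ⟨B₂, hB₂⟩ := Finite.exists_le L₂
  refine ⟨|B₁| + T * |B₂|, by positivity, fun t ht c x y hx hy => ?_⟩
  have e : F.th t c y - F.th t c x = (F.ψ c (0, y) - F.ψ c (0, x)) +
      t * (Real.log (F.Ω c y) - Real.log (F.Ω c x)) := by
    simp only [Semi.th]
    ring
  rw [e]
  have k1 := h₁ c x y hx hy
  have k2 := h₂ c x y hx hy
  have n0 := norm_nonneg (y - x)
  calc _ ≤ |F.ψ c (0, y) - F.ψ c (0, x)| + |t * (Real.log (F.Ω c y) - Real.log (F.Ω c x))| :=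
        abs_add_le _ _
    _ ≤ |B₁| * ‖y - x‖ + T * (|B₂| * ‖y - x‖) := by
        rw [abs_mul, abs_of_nonneg ht.1]
        refine add_le_add (k1.trans ?_) (mul_le_mul ht.2.le (k2.trans ?_) (abs_nonneg _) hT.le)
        · exact mul_le_mul_of_nonneg_right ((hB₁ c).trans (le_abs_self _)) n0
        · exact mul_le_mul_of_nonneg_right ((hB₂ c).trans (le_abs_self _)) n0
    _ = _ := by ring

/-- the points near a point of the ball of radius `4` of a chart are in the ball of radius `5` -/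
theorem near [CompactSpace M] [Finite κ] : ∃ δ > 0, ∀ (c : κ) (p q : M), p ∈ (F.e c).source →
    nsq (F.e c p) ≤ 16 → dist p q < δ → q ∈ (F.e c).source ∧ nsq (F.e c q) ≤ 25 := by
  have h : ∀ c : κ, ∃ δ > 0, ∀ (p q : M), p ∈ (F.e c).source →
      nsq (F.e c p) ≤ 16 → dist p q < δ → q ∈ (F.e c).source ∧ nsq (F.e c q) ≤ 25 := by
    intro c
    have hsub : {z : Cn n | nsq z ≤ 16} ⊆ (F.e c).target :=
      (le_sub_BB (by norm_num)).trans (sub_target F c)
    have hK : IsCompact ((F.e c).symm '' {z : Cn n | nsq z ≤ 16}) :=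
      (isCompact_le (by norm_num)).image_of_continuousOn ((F.e c).continuousOn_symm.mono hsub)
    have hO : IsOpen ((F.e c).source ∩ F.e c ⁻¹' {z | nsq z < 25}) :=
      (F.e c).isOpen_inter_preimage (isOpen_lt 25)
    obtain ⟨δ, hδ, hδO⟩ := hK.exists_thickening_subset_open hO (by
      rintro _ ⟨z, hz, rfl⟩
      refine ⟨(F.e c).map_target (hsub hz), ?_⟩
      rw [mem_preimage, (F.e c).right_inv (hsub hz)]
      exact lt_of_le_of_lt (show nsq z ≤ 16 from hz) (by norm_num))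
    refine ⟨δ, hδ, fun p q hp hx hd => ?_⟩
    have h1 : q ∈ Metric.thickening δ ((F.e c).symm '' {z : Cn n | nsq z ≤ 16}) := by
      rw [Metric.mem_thickening_iff]
      refine ⟨p, ⟨F.e c p, hx, (F.e c).left_inv hp⟩, ?_⟩
      rw [dist_comm]
      exact hd
    have h2 := hδO h1
    exact ⟨h2.1, le_of_lt h2.2⟩
  choose δ hδ h' using h
  obtain ⟨δ', hδ', hle⟩ := exists_pos_le hδ
  exact ⟨δ', hδ', fun c p q hp hx hd => h' c p q hp hx (hd.trans_le (hle c))⟩

end Reg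

open Reg

section
variable [CompactSpace M] [Finite κ] [Finite P]

theorem Semi.U_bound : ∃ C, 0 ≤ C ∧ ∀ t ∈ Ico 0 T, ∀ c x l, nsq x ≤ 16 → 0 ≤ l →
    |F.U t c l x| ≤ C := by
  by_cases hT : 0 < T
  swap
  · exact ⟨0, le_rfl, fun t ht => absurd (pos_T ht) hT⟩
  have h : ∀ c, ∃ C, 0 ≤ C ∧ ∀ t ∈ Ico 0 T, ∀ x l, nsq x ≤ 16 → 0 ≤ l → |F.U t c l x| ≤ C := by
    intro c
    have hcp : IsCompact {z : Cn n | nsq z ≤ 25} := isCompact_le (by norm_num)
    have hsub : {z : Cn n | nsq z ≤ 25} ⊆ (F.e c).target :=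
      (le_sub_BB (by norm_num)).trans (sub_target F c)
    obtain ⟨C₁, hC₁, h₁⟩ := F.toFlow.psi_bound hT c hcp hsub
    obtain ⟨C₂, h₂⟩ := hcp.exists_bound_of_continuousOn ((logO_smooth F c).continuousOn.mono hsub)
    refine ⟨C₁ + (C₁ + T * |C₂|), by positivity, fun t ht x l hx hl => ?_⟩
    have hx25 : nsq x ≤ 25 := hx.trans (by norm_num)
    have hcb : cball x (Real.exp (-l)) ⊆ {y : Cn n | nsq y ≤ 25} := by
      have := cball_sub hx (Real.exp_pos (-l)).le (exp_neg_le hl)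
      norm_num at this
      exact this
    have k1 : |supB (fun x => F.ψ c (t, x)) x (Real.exp (-l))| ≤ C₁ := by
      rw [abs_le]
      constructor
      · exact (abs_le.1 (h₁ t ht x hx25)).1.trans (SupReg.le_self (psi_psh F ht c).1
          (cball_sub_BB hx (Real.exp_pos (-l)).le ((exp_neg_le hl).trans (by norm_num))))
      · exact SupReg.supB_le fun w hw =>
          (abs_le.1 (h₁ t ht _ (hcb (SupReg.mem_cball hw)))).2
    have k2 : |F.th t c x| ≤ C₁ + T * |C₂| := by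
      have := h₂ x hx25
      rw [Real.norm_eq_abs] at this
      simp only [Semi.th]
      refine (abs_add_le _ _).trans (add_le_add (h₁ 0 ⟨le_rfl, hT⟩ x hx25) ?_)
      rw [abs_mul, abs_of_nonneg ht.1]
      exact mul_le_mul ht.2.le (this.trans (le_abs_self _)) (abs_nonneg _) hT.le
    exact (abs_sub _ _).trans (add_le_add k1 k2)
  choose C hC h' using h
  obtain ⟨B, hB⟩ := Finite.exists_le C
  exact ⟨|B|, abs_nonneg _, fun t ht c x l hx hl =>
    (h' c t ht x l hx hl).trans ((hB c).trans (le_abs_self _))⟩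

theorem Semi.U_anti {t : ℝ} (ht : t ∈ Ico 0 T) {c : κ} {x : Cn n} (hx : nsq x ≤ 16) {l l' : ℝ}
    (hl : 0 ≤ l) (h : l ≤ l') : F.U t c l' x ≤ F.U t c l x := by
  refine sub_le_sub_right (SupReg.supB_mono (psi_psh F ht c).1 (Real.exp_pos _)
    (Real.exp_le_exp.2 (by linarith)) ?_) _
  exact cball_sub_BB hx (Real.exp_pos _).le ((exp_neg_le hl).trans (by norm_num))

/-- Hadamard's three balls theorem (`X/RegHad.lean`) -/
theorem Semi.U_convex {t : ℝ} (ht : t ∈ Ico 0 T) {c : κ} {x : Cn n} (hx : nsq x ≤ 16)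
    {l₁ l₂ lam : ℝ} (h₁ : 0 ≤ l₁) (h₂ : l₁ ≤ l₂) (hlam : lam ∈ Icc (0 : ℝ) 1) :
    F.U t c ((1 - lam) * l₁ + lam * l₂) x ≤ (1 - lam) * F.U t c l₁ x + lam * F.U t c l₂ x := by
  rcases h₂.eq_or_lt with h | h
  · subst h
    have e : (1 - lam) * l₁ + lam * l₁ = l₁ := by ring
    rw [e]
    exact le_of_eq (by ring)
  set l := (1 - lam) * l₁ + lam * l₂ with hl
  have hl1 : l₁ ≤ l := by
    have : l - l₁ = lam * (l₂ - l₁) := by rw [hl]; ring
    nlinarith [hlam.1, hlam.2]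
  have hl2 : l ≤ l₂ := by
    have : l₂ - l = (1 - lam) * (l₂ - l₁) := by rw [hl]; ring
    nlinarith [hlam.1, hlam.2]
  have hcont := (psi_psh F ht c).1
  have hcb : ∀ r, 0 ≤ r → r ≤ Real.exp (-l₁) → cball x r ⊆ BB n := fun r hr hr1 =>
    cball_sub_BB hx hr ((hr1.trans (exp_neg_le h₁)).trans (by norm_num))
  set A := supB (fun x => F.ψ c (t, x)) x (Real.exp (-l₂)) with hA
  set B := supB (fun x => F.ψ c (t, x)) x (Real.exp (-l₁)) with hB
  have hAB : A ≤ B := SupReg.supB_mono hcont (Real.exp_pos _)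
    (Real.exp_le_exp.2 (by linarith)) (hcb _ (Real.exp_pos _).le le_rfl)
  have hsup : supB (fun x => F.ψ c (t, x)) x (Real.exp (-l)) ≤ (1 - lam) * B + lam * A := by
    refine SupReg.supB_le fun w hw => ?_
    have key := KRFX.RegK.three_balls isOpen_BB (psi_psh F ht c) (y := x)
      (r := Real.exp (-l₂)) (R := Real.exp (-l₁)) (A := A) (B := B) (Real.exp_pos _)
      (Real.exp_lt_exp.2 (by linarith))
      (fun y hy => hcb _ (Real.exp_pos _).le le_rfl hy)
      (fun y hy => SupReg.le_supB_of_mem hcont (Real.exp_pos _)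
        (hcb _ (Real.exp_pos _).le (Real.exp_le_exp.2 (by linarith))) hy)
      (fun y hy => SupReg.le_supB_of_mem hcont (Real.exp_pos _)
        (hcb _ (Real.exp_pos _).le le_rfl) hy) hAB
      (x := x + Real.exp (-l) • w) (t := Real.exp (-l))
      (Real.exp_le_exp.2 (by linarith)) (Real.exp_le_exp.2 (by linarith))
      (SupReg.mem_cball hw)
    refine key.trans (le_of_eq ?_)
    rw [← Real.exp_sub, ← Real.exp_sub, Real.log_exp, Real.log_exp]
    have e1 : -l - -l₂ = (1 - lam) * (l₂ - l₁) := by rw [hl]; ring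
    have e2 : -l₁ - -l₂ = l₂ - l₁ := by ring
    rw [e1, e2, mul_div_cancel_right₀ _ (sub_pos.2 h).ne']
    ring
  have e : ∀ l, F.U t c l x = supB (fun x => F.ψ c (t, x)) x (Real.exp (-l)) - F.th t c x :=
    fun _ => rfl
  rw [e, e, e]
  linarith

theorem Semi.Phi_le_U {t : ℝ} (ht : t ∈ Ico 0 T) {c : κ} {p : M} (hp : p ∈ (F.e c).source)
    (hx : nsq (F.e c p) ≤ 16) {l : ℝ} (hl : 0 ≤ l) : F.Phi t p ≤ F.U t c l (F.e c p) := by
  rw [Phi_eq_th F ht hp]
  refine sub_le_sub_right (SupReg.le_self (psi_psh F ht c).1 ?_) _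
  exact cball_sub_BB hx (Real.exp_pos _).le ((exp_neg_le hl).trans (by norm_num))

theorem Semi.Phi_le_U_near : ∃ C a, 0 ≤ C ∧ 0 ≤ a ∧ ∀ t ∈ Ico 0 T, ∀ c p p' l,
    p ∈ (F.e c).source → nsq (F.e c p) ≤ 16 → a ≤ l → dist p p' ≤ Real.exp (-l) →
    F.Phi t p' ≤ F.U t c (l - a) (F.e c p) + C * Real.exp (-l) := by
  obtain ⟨L, hL, hlip⟩ := th_lip F
  obtain ⟨δ, hδ, hnear⟩ := near F
  obtain ⟨C₀, hC₀, hM⟩ := F.lipM
  have hs0 : 0 ≤ √C₀ := Real.sqrt_nonneg _
  have ha0 : 0 ≤ √C₀ + 1 / δ := by positivity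
  refine ⟨L * √C₀, √C₀ + 1 / δ, by positivity, ha0, fun t ht c p p' l hp hx hl hd => ?_⟩
  set a := √C₀ + 1 / δ with ha
  have hea := Real.add_one_le_exp a
  have h1d : 0 < 1 / δ := by positivity
  -- `exp (-l) < δ`
  have hlδ : Real.exp (-l) < δ := by
    have h1 : Real.exp (-l) ≤ Real.exp (-a) := Real.exp_le_exp.2 (by linarith)
    have h2 : Real.exp (-a) < δ := by
      rw [Real.exp_neg, inv_lt_comm₀ (Real.exp_pos _) hδ]
      have : δ⁻¹ = 1 / δ := by rw [one_div]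
      rw [this]
      linarith
    linarith
  obtain ⟨hp', hx'⟩ := hnear c p p' hp hx (hd.trans_lt hlδ)
  have hx25 : nsq (F.e c p) ≤ 25 := hx.trans (by norm_num)
  -- the distance in the chart
  have hdist : nsq (F.e c p' - F.e c p) ≤ (√C₀ * Real.exp (-l)) ^ 2 := by
    have h1 := (hM c (F.e c p') (F.e c p) (hx'.trans (by norm_num))
      (hx.trans (by norm_num))).2
    rw [(F.e c).left_inv hp', (F.e c).left_inv hp] at h1
    refine h1.trans ?_
    rw [mul_pow, Real.sq_sqrt hC₀.le, dist_comm]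
    exact mul_le_mul_of_nonneg_left (pow_le_pow_left₀ dist_nonneg hd 2) hC₀.le
  have hr1 : Real.exp (-(l - a)) ≤ 1 := exp_neg_le (by linarith)
  have hmem : F.e c p' ∈ cball (F.e c p) (Real.exp (-(l - a))) := by
    refine hdist.trans (pow_le_pow_left₀ (by positivity) ?_ 2)
    have : Real.exp (-(l - a)) = Real.exp a * Real.exp (-l) := by
      rw [← Real.exp_add]; ring_nf
    rw [this]
    exact mul_le_mul_of_nonneg_right (by linarith) (Real.exp_pos _).le
  have h3 : F.ψ c (t, F.e c p') ≤ supB (fun x => F.ψ c (t, x)) (F.e c p) (Real.exp (-(l - a))) :=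
    SupReg.le_supB_of_mem (psi_psh F ht c).1 (Real.exp_pos _)
      (cball_sub_BB hx (Real.exp_pos _).le (hr1.trans (by norm_num))) hmem
  have h4 := hlip t ht c (F.e c p) (F.e c p') hx25 hx'
  have h5 : ‖F.e c p' - F.e c p‖ ≤ √C₀ * Real.exp (-l) := norm_le (by positivity) hdist
  have h6 : L * ‖F.e c p' - F.e c p‖ ≤ L * √C₀ * Real.exp (-l) := by
    rw [mul_assoc]
    exact mul_le_mul_of_nonneg_left h5 hL
  rw [Phi_eq_th F ht hp']
  have e : F.U t c (l - a) (F.e c p) =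
    supB (fun x => F.ψ c (t, x)) (F.e c p) (Real.exp (-(l - a))) - F.th t c (F.e c p) := rfl
  rw [e]
  have h7 := (abs_le.1 h4).1
  linarith

theorem Semi.U_le_U : ∃ C a, 0 ≤ C ∧ 0 ≤ a ∧ ∀ t ∈ Ico 0 T, ∀ c c' p p' l,
    p ∈ (F.e c).source → p' ∈ (F.e c').source → nsq (F.e c p) ≤ 16 → nsq (F.e c' p') ≤ 16 →
    a ≤ l → dist p p' ≤ Real.exp (-l) →
    F.U t c l (F.e c p) ≤ F.U t c' (l - a) (F.e c' p') + C * Real.exp (-l) := by
  obtain ⟨L, hL, hlip⟩ := th_lip F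
  obtain ⟨C₁, a₁, hC₁, ha₁, h₁⟩ := F.Phi_le_U_near
  obtain ⟨C₀, hC₀, hM⟩ := F.lipM
  have hs0 : 0 ≤ √C₀ := Real.sqrt_nonneg _
  refine ⟨C₁ * Real.exp (√C₀) + L, √C₀ + a₁, by positivity, by positivity,
    fun t ht c c' p p' l hp hp' hx hx' hl hd => ?_⟩
  set b := √C₀ with hb
  have heb := Real.add_one_le_exp b
  have hl0 : 0 ≤ l := by linarith
  have hel1 := exp_neg_le hl0
  obtain ⟨w, hw, hwe⟩ := SupReg.exists_supB (psi_psh F ht c).1
    (cball_sub_BB hx (Real.exp_pos (-l)).le (hel1.trans (by norm_num)))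
  set x := F.e c p with hxdef
  set y := x + Real.exp (-l) • w with hy
  have hyc : nsq (y - x) ≤ Real.exp (-l) ^ 2 := SupReg.mem_cball hw
  have hy25 : nsq y ≤ 25 := by
    have h1 : y ∈ {y : Cn n | nsq y ≤ (4 + 1) ^ 2} :=
      cball_sub hx (Real.exp_pos (-l)).le hel1 (SupReg.mem_cball hw)
    norm_num at h1
    exact h1
  have hyt : y ∈ (F.e c).target := sub_target F c (le_sub_BB (by norm_num) hy25)
  set q := (F.e c).symm y with hq
  have hqs : q ∈ (F.e c).source := (F.e c).map_target hyt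
  have hqy : F.e c q = y := (F.e c).right_inv hyt
  have hd1 : dist q p ≤ b * Real.exp (-l) := by
    have h1 := (hM c y x (hy25.trans (by norm_num)) (hx.trans (by norm_num))).1
    rw [hxdef, (F.e c).left_inv hp] at h1
    refine (abs_le_of_sq_le_sq' (h1.trans ?_) (by positivity)).2
    rw [mul_pow, hb, Real.sq_sqrt hC₀.le]
    exact mul_le_mul_of_nonneg_left hyc hC₀.le
  have hd2 : dist p' q ≤ Real.exp (-(l - b)) := by
    have h1 := dist_triangle p' p q
    rw [dist_comm p' p, dist_comm p q] at h1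
    have h2 : Real.exp (-(l - b)) = Real.exp b * Real.exp (-l) := by
      rw [← Real.exp_add]; ring_nf
    rw [h2]
    have h3 : (b + 1) * Real.exp (-l) ≤ Real.exp b * Real.exp (-l) :=
      mul_le_mul_of_nonneg_right heb (Real.exp_pos _).le
    linarith
  have h2 := h₁ t ht c' p' q (l - b) hp' hx' (by linarith) hd2
  have e1 : l - b - a₁ = l - (b + a₁) := by ring
  rw [e1, Phi_eq_th F ht hqs, hqy] at h2
  have h3 := (abs_le.1 (hlip t ht c x y (hx.trans (by norm_num)) hy25)).2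
  have h4 : ‖y - x‖ ≤ Real.exp (-l) := norm_le (Real.exp_pos _).le hyc
  have h5 : L * ‖y - x‖ ≤ L * Real.exp (-l) := mul_le_mul_of_nonneg_left h4 hL
  have h6 : C₁ * Real.exp (-(l - b)) = C₁ * Real.exp b * Real.exp (-l) := by
    rw [mul_assoc, ← Real.exp_add]; ring_nf
  rw [h6] at h2
  have e : F.U t c l x = supB (fun x => F.ψ c (t, x)) x (Real.exp (-l)) - F.th t c x := rfl
  rw [e, ← hwe]
  change F.ψ c (t, y) - F.th t c x ≤ _
  linarith

theorem Semi.U_cont {t : ℝ} (ht : t ∈ Ico 0 T) (c : κ) {l : ℝ} (hl : 0 ≤ l) :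
    ContinuousOn (F.U t c l) {x | nsq x ≤ 16} := by
  refine ContinuousOn.sub ?_ ((th_smooth F (pos_T ht) t c).continuousOn.mono
    ((le_sub_BB (by norm_num)).trans (sub_target F c)))
  refine (SupReg.supB_continuousOn (psi_psh F ht c).1).comp (f := fun x => (x, Real.exp (-l)))
    (by fun_prop) fun x hx => ?_
  exact cball_sub_BB hx (Real.exp_pos _).le ((exp_neg_le hl).trans (by norm_num))

namespace Reg

/-- a holomorphic disc as a map from `ℂ^1` -/
noncomputable def HH (g : ℂ → Cn n) : Cn 1 → Cn n := fun x => g (cc x 0)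

/-- the disc in `ℂ^1` -/
def VV (s : ℂ) (r : ℝ) : Set (Cn 1) := {x | cc x 0 ∈ Metric.ball s r}

theorem isOpen_VV (s : ℂ) (r : ℝ) : IsOpen (VV s r) := by
  have h : Continuous fun x : Cn 1 => cc x 0 := by
    have : (fun x : Cn 1 => cc x 0) = fun x => NF.ccL 0 x := by
      funext x
      rw [NF.ccL_apply]
    rw [this]
    exact (NF.ccL 0).continuous
  exact Metric.isOpen_ball.preimage h

theorem fderiv_HH {g : ℂ → Cn n} {s : ℂ} {r : ℝ} (hg : HolD g (Metric.ball s r)) {x : Cn 1}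
    (hx : x ∈ VV s r) (a : Cn 1) : fderiv ℝ (HH g) x a = fderiv ℝ g (cc x 0) (cc a 0) := by
  have h1 : HH g = g ∘ fun x => NF.ccL 0 x := by
    funext x
    simp only [HH, Function.comp, NF.ccL_apply]
  have hd : DifferentiableAt ℝ g (NF.ccL 0 x) := by
    rw [NF.ccL_apply]
    exact NF.diffAt Metric.isOpen_ball hg.smooth hx
  have h2 := (hd.hasFDerivAt.comp x (NF.ccL 0).hasFDerivAt).fderiv
  rw [h1]
  change fderiv ℝ (g ∘ fun x => NF.ccL 0 x) x a = _
  have h3 : fderiv ℝ (g ∘ fun x => NF.ccL 0 x) x =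
    (fderiv ℝ g (NF.ccL 0 x)).comp (NF.ccL 0) := h2
  rw [h3, ContinuousLinearMap.comp_apply, NF.ccL_apply, NF.ccL_apply]

theorem holOn_HH {g : ℂ → Cn n} {s : ℂ} {r : ℝ} (hg : HolD g (Metric.ball s r)) :
    HolOn (HH g) (VV s r) := by
  refine ⟨?_, fun x hx a => ?_⟩
  · have h1 : HH g = fun x => g (NF.ccL 0 x) := by
      funext x
      simp only [HH, NF.ccL_apply]
    rw [h1]
    refine hg.smooth.comp (NF.ccL 0).contDiff.contDiffOn fun x hx => ?_
    rw [NF.ccL_apply]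
    exact hx
  · rw [fderiv_HH hg hx, fderiv_HH hg hx, cc_J]
    set u := cc a 0
    set A := fderiv ℝ g (cc x 0) with hA
    have hI : A Complex.I = J (A 1) := hg.holo _ hx
    have h1 : ∀ z : ℂ, A z = z.re • A 1 + z.im • J (A 1) := by
      intro z
      have : z = z.re • (1 : ℂ) + z.im • Complex.I := by
        apply Complex.ext <;> simp
      conv_lhs => rw [this]
      rw [map_add, map_smul, map_smul, hI]
    rw [h1 (Complex.I * u), h1 u, J_add, J_smul, J_smul, J_J]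
    simp only [Complex.mul_re, Complex.mul_im, Complex.I_re, Complex.I_im, zero_mul, one_mul,
      zero_sub, zero_add, smul_neg, neg_smul]
    abel

theorem cc_e1 : cc SupReg.e1 0 = 1 := by
  apply Complex.ext <;> simp [cc, SupReg.e1]

theorem mem_VV {s ζ : ℂ} {r : ℝ} (h : ζ ∈ Metric.ball s r) :
    line (0 : Cn 1) SupReg.e1 ζ ∈ VV s r := by
  change cc (line (0 : Cn 1) SupReg.e1 ζ) 0 ∈ Metric.ball s r
  rw [SupReg.cc_line_e1]
  exact h

theorem HH_line (g : ℂ → Cn n) (ζ : ℂ) : HH g (line (0 : Cn 1) SupReg.e1 ζ) = g ζ := by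
  simp only [HH, SupReg.cc_line_e1]

/-- the Laplacian along a holomorphic disc -/
theorem lapC_disc {g : ℂ → Cn n} {s : ℂ} {r : ℝ} (hr : 0 < r) (hg : HolD g (Metric.ball s r))
    {G : Cn n → ℝ} {S : Set (Cn n)} (hS : IsOpen S) (hG : ContDiffOn ℝ ∞ G S)
    (hm : ∀ ζ ∈ Metric.ball s r, g ζ ∈ S) :
    lapC (fun ζ => G (g (s + ζ))) 0 = 4 * levz G (fderiv ℝ g s 1) (g s) := by
  have hs : s ∈ Metric.ball s r := Metric.mem_ball_self hr
  have hHol := holOn_HH hg
  have hGH : ContDiffOn ℝ ∞ (fun x => G (HH g x)) (VV s r) :=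
    hG.comp hHol.1 fun x hx => hm _ hx
  have hx₀ : line (0 : Cn 1) SupReg.e1 s ∈ VV s r := mem_VV hs
  have h1 := BaseP.lapC_line' (isOpen_VV s r) hGH hx₀ SupReg.e1
  rw [levz_comp hS hG (isOpen_VV s r) hHol hx₀ (by rw [HH_line]; exact hm s hs),
    fderiv_HH hg hx₀, HH_line, SupReg.cc_line_e1, cc_e1] at h1
  rw [← h1]
  congr 1
  funext ζ
  have h2 : line (line (0 : Cn 1) SupReg.e1 s) SupReg.e1 ζ = line 0 SupReg.e1 (s + ζ) := by
    rw [line_add, line_eq]
  simp only [h2, HH_line]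

/-- the asymptotic mean value of a smooth function along a holomorphic disc -/
theorem cavg_disc {g : ℂ → Cn n} {s : ℂ} {r₀ : ℝ} (hr₀ : 0 < r₀)
    (hg : HolD g (Metric.ball s r₀)) {G : Cn n → ℝ} {S : Set (Cn n)} (hS : IsOpen S)
    (hG : ContDiffOn ℝ ∞ G S) (hm : ∀ ζ ∈ Metric.ball s r₀, g ζ ∈ S) {ε : ℝ} (hε : 0 < ε) :
    ∀ᶠ r in 𝓝[>] (0 : ℝ), cavg (fun ζ => G (g (s + ζ))) r - G (g s) ≤
      (levz G (fderiv ℝ g s 1) (g s) + ε) * r ^ 2 := by
  set Q : ℂ → ℝ := fun ζ => G (g (s + ζ)) with hQ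
  have hmap : ∀ ζ ∈ Metric.ball (0 : ℂ) r₀, s + ζ ∈ Metric.ball s r₀ := by
    intro ζ hζ
    rw [Metric.mem_ball, dist_eq_norm, add_sub_cancel_left]
    simpa using hζ
  have hQs : ContDiffOn ℝ ∞ Q (Metric.ball 0 r₀) :=
    (hG.comp hg.smooth fun ζ hζ => hm ζ hζ).comp
      (contDiff_const.add contDiff_id).contDiffOn fun ζ hζ => hmap ζ hζ
  have hlap : lapC Q 0 = 4 * levz G (fderiv ℝ g s 1) (g s) := lapC_disc hr₀ hg hS hG hm
  have hcont : ContinuousAt (lapC Q) 0 :=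
    (Circ.continuousOn_lapC hQs).continuousAt (Metric.ball_mem_nhds _ hr₀)
  have hev : ∀ᶠ ζ in 𝓝 (0 : ℂ), lapC Q ζ < lapC Q 0 + 4 * ε :=
    hcont.eventually_lt continuousAt_const (by linarith)
  obtain ⟨r₁, hr₁, h₁⟩ := Metric.eventually_nhds_iff_ball.1 hev
  have hR : 0 < min r₀ r₁ := lt_min hr₀ hr₁
  have hQs' : ContDiffOn ℝ ∞ Q (Metric.ball 0 (min r₀ r₁)) :=
    hQs.mono (Metric.ball_subset_ball (min_le_left _ _))
  filter_upwards [Ioo_mem_nhdsGT hR] with r hr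
  have h2 := cavg_sub_le (G := Q) hQs' (B := levz G (fderiv ℝ g s 1) (g s) + ε) (fun ζ hζ => by
    have := h₁ ζ (Metric.ball_subset_ball (min_le_right _ _) hζ)
    rw [hlap] at this
    linarith) (r := r) ⟨hr.1.le, hr.2⟩
  have h0 : Q 0 = G (g s) := by simp only [hQ, add_zero]
  rw [h0] at h2
  exact h2

/-- the sub-mean value property along a holomorphic disc -/
theorem sub_disc {g : ℂ → Cn n} {s : ℂ} {r₀ : ℝ} (hr₀ : 0 < r₀) (hg : HolD g (Metric.ball s r₀))
    {u : Cn n → ℝ} {S : Set (Cn n)} (hS : IsOpen S) (hu : PshC u S)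
    (hm : ∀ ζ ∈ Metric.ball s r₀, g ζ ∈ S) :
    ∀ᶠ r in 𝓝[>] (0 : ℝ), u (g s) ≤ cavg (fun ζ => u (g (s + ζ))) r := by
  have h1 := KRFX.pshC_comp hS hu (isOpen_VV s r₀) (holOn_HH hg) fun x hx => hm _ hx
  have h2 := KRFX.RegK.pshC_line (isOpen_VV s r₀) h1 (mem_VV (Metric.mem_ball_self hr₀))
  simpa only [HH_line] using h2

/-- the form `θ` vanishes on the fibres -/
theorem levz_fibre {c : κ} {z : Z} {g : ℂ → Cn n} {s : ℂ} {r₀ : ℝ} (hr₀ : 0 < r₀)
    (hg : HolD g (Metric.ball s r₀)) (hgz : ∀ s' ∈ Metric.ball s r₀,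
      g s' ∈ (F.e c).target ∧ F.f ((F.e c).symm (g s')) = z) :
    lev (F.ψ c) (fderiv ℝ g s 1) (0, g s) +
      T * levz (fun x => Real.log (F.Ω c x)) (fderiv ℝ g s 1) (g s) = 0 := by
  obtain ⟨j, hj, -⟩ := F.emb.cover z
  have hs : s ∈ Metric.ball s r₀ := Metric.mem_ball_self hr₀
  have hW : IsOpen {x | x ∈ (F.e c).target ∧ F.f ((F.e c).symm x) ∈ F.S j} :=
    (F.emb.cont.comp_continuousOn (F.e c).continuousOn_symm).isOpen_inter_preimage
      (F.e c).open_target (F.emb.isOpen j)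
  have hmW : ∀ ζ ∈ Metric.ball s r₀, g ζ ∈ {x | x ∈ (F.e c).target ∧
      F.f ((F.e c).symm x) ∈ F.S j} := fun ζ hζ => ⟨(hgz ζ hζ).1, by
    rw [(hgz ζ hζ).2]
    exact hj⟩
  rw [F.pull.eq c j (g s) (hgz s hs).1 (by rw [(hgz s hs).2]; exact hj)]
  have hKs : ContDiffOn ℝ ∞ (fun x => F.K j (F.q j (F.f ((F.e c).symm x))))
      {x | x ∈ (F.e c).target ∧ F.f ((F.e c).symm x) ∈ F.S j} :=
    (F.pull.smooth j).comp (F.emb.holo c j).1 fun x hx => F.emb.lt j _ hx.2
  have h1 := lapC_disc hr₀ hg hW hKs hmW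
  have h2 : lapC (fun ζ => F.K j (F.q j (F.f ((F.e c).symm (g (s + ζ)))))) 0 = 0 := by
    have hev : (fun ζ => F.K j (F.q j (F.f ((F.e c).symm (g (s + ζ)))))) =ᶠ[𝓝 (0 : ℂ)]
        fun _ => F.K j (F.q j z) := by
      filter_upwards [Metric.ball_mem_nhds (0 : ℂ) hr₀] with ζ hζ
      rw [(hgz (s + ζ) (by
        rw [Metric.mem_ball, dist_eq_norm, add_sub_cancel_left]
        simpa using hζ)).2]
    have hD : ∀ w : ℂ, D w (D w fun ζ => F.K j (F.q j (F.f ((F.e c).symm (g (s + ζ)))))) 0 =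
        D w (D w fun _ : ℂ => F.K j (F.q j z)) 0 := by
      intro w
      have h3 : D w (fun ζ => F.K j (F.q j (F.f ((F.e c).symm (g (s + ζ)))))) =ᶠ[𝓝 (0 : ℂ)]
          D w fun _ : ℂ => F.K j (F.q j z) := by
        filter_upwards [hev.fderiv (𝕜 := ℝ)] with x hx
        simp only [D, hx]
      simp only [D] at h3 ⊢
      rw [h3.fderiv_eq]
    have hc : ∀ w : ℂ, (D w fun _ : ℂ => F.K j (F.q j z)) = fun _ => 0 := by
      intro w
      funext x
      simp [D]
    unfold lapC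
    rw [hD, hD, hc, hc]
    simp [D]
  rw [h2] at h1
  linarith

end Reg

/-- along holomorphic discs in the fibres (the form `θ` vanishes there) -/
theorem Semi.U_disc {t : ℝ} (ht : t ∈ Ico 0 T) {c : κ} {l : ℝ} (hl : 0 ≤ l) {z : Z}
    {g : ℂ → Cn n} {s : ℂ} {r₀ : ℝ} (hr₀ : 0 < r₀) (hg : HolD g (Metric.ball s r₀))
    (hgz : ∀ s' ∈ Metric.ball s r₀, nsq (g s') < 16 ∧ F.f ((F.e c).symm (g s')) = z) {ε : ℝ}
    (hε : 0 < ε) : ∀ᶠ r in 𝓝[>] (0 : ℝ), F.U t c l (g s) ≤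
      cavg (fun ζ => F.U t c l (g (s + ζ))) r +
        ((1 - t / T) * lev (F.ψ c) (fderiv ℝ g s 1) (0, g s) + ε) * r ^ 2 := by
  have hT := pos_T ht
  have hs : s ∈ Metric.ball s r₀ := Metric.mem_ball_self hr₀
  have hmB : ∀ ζ ∈ Metric.ball s r₀, g ζ ∈ BB n := fun ζ hζ =>
    show nsq (g ζ) < 100 by linarith [(hgz ζ hζ).1]
  have hmt : ∀ ζ ∈ Metric.ball s r₀, g ζ ∈ (F.e c).target := fun ζ hζ =>
    sub_target F c (hmB ζ hζ)
  -- the supremum
  have hu : PshC (fun x => supB (fun x => F.ψ c (t, x)) x (Real.exp (-l))) {x : Cn n | nsq x < 16} := by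
    have hχ : PshC (fun _ : Cn n => -l) {x : Cn n | nsq x < 16} := by
      refine ⟨continuousOn_const, fun z v _ => ?_⟩
      rw [SupReg.cavg_const]
    refine pshC_supB (c := -l) isOpen_BB (psi_psh F ht c) hχ (fun _ _ => le_rfl) fun y hy => ?_
    refine cball_sub_BB (le_of_lt hy) (Real.exp_pos _).le ?_
    have h1 : Real.exp (-l + 1) ≤ Real.exp 1 := Real.exp_le_exp.2 (by linarith)
    have h2 := Real.exp_one_lt_d9
    linarith
  have h1 := sub_disc hr₀ hg (Reg.isOpen_lt 16) hu fun ζ hζ => (hgz ζ hζ).1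
  -- the local potential
  have h2 := cavg_disc hr₀ hg (F.e c).open_target (th_smooth F hT t c) hmt hε
  have hlev : levz (F.th t c) (fderiv ℝ g s 1) (g s) =
      (1 - t / T) * lev (F.ψ c) (fderiv ℝ g s 1) (0, g s) := by
    obtain ⟨W, hW, hsub, hψ⟩ := F.krf.smooth c
    have hx := hmt s hs
    have a1 : ContDiffAt ℝ 2 (fun x => F.ψ c (0, x)) (g s) :=
      ((psi_smooth F ⟨le_rfl, hT⟩ c).contDiffAt ((F.e c).open_target.mem_nhds hx)).of_le two_le_infty
    have a2 : ContDiffAt ℝ 2 (fun x => Real.log (F.Ω c x)) (g s) :=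
      ((logO_smooth F c).contDiffAt ((F.e c).open_target.mem_nhds hx)).of_le two_le_infty
    have e1 : levz (F.th t c) (fderiv ℝ g s 1) (g s) =
        levz (fun x => F.ψ c (0, x) + t * Real.log (F.Ω c x)) (fderiv ℝ g s 1) (g s) := rfl
    rw [e1, Bd.levz_add a1 (contDiffAt_const.mul a2), Bd.levz_const_mul _ a2,
      levz_slice hW hψ (hsub ⟨⟨le_rfl, hT⟩, hx⟩)]
    have h3 := levz_fibre F hr₀ hg (z := z) (c := c) fun ζ hζ => ⟨hmt ζ hζ, (hgz ζ hζ).2⟩
    have h4 : levz (fun x => Real.log (F.Ω c x)) (fderiv ℝ g s 1) (g s) =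
        -(lev (F.ψ c) (fderiv ℝ g s 1) (0, g s) / T) := by
      field_simp
      linarith
    rw [h4]
    field_simp
    ring
  rw [hlev] at h2
  have hsm : ∀ᶠ r in 𝓝[>] (0 : ℝ), r < r₀ :=
    (eventually_lt_nhds hr₀).filter_mono nhdsWithin_le_nhds
  filter_upwards [h1, h2, hsm, self_mem_nhdsWithin] with r k1 k2 k3 k4
  have hr : (0 : ℝ) < r := k4
  have hball : ∀ θ : ℝ, s + (r : ℂ) * Complex.exp (θ * Complex.I) ∈ Metric.ball s r₀ := by
    intro θ
    rw [Metric.mem_ball, dist_eq_norm, add_sub_cancel_left, norm_mul,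
      Complex.norm_exp_ofReal_mul_I, mul_one, Complex.norm_real, Real.norm_of_nonneg hr.le]
    exact k3
  have hgc : Continuous fun θ : ℝ => g (s + (r : ℂ) * Complex.exp (θ * Complex.I)) :=
    hg.smooth.continuousOn.comp_continuous (by fun_prop) hball
  have hc1 : Continuous fun θ : ℝ => supB (fun x => F.ψ c (t, x))
      (g (s + (r : ℂ) * Complex.exp (θ * Complex.I))) (Real.exp (-l)) :=
    hu.1.comp_continuous hgc fun θ => (hgz _ (hball θ)).1
  have hc2 : Continuous fun θ : ℝ => F.th t c (g (s + (r : ℂ) * Complex.exp (θ * Complex.I))) :=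
    (th_smooth F hT t c).continuousOn.comp_continuous hgc fun θ => hmt _ (hball θ)
  have hsplit : cavg (fun ζ => F.U t c l (g (s + ζ))) r =
      cavg (fun ζ => supB (fun x => F.ψ c (t, x)) (g (s + ζ)) (Real.exp (-l))) r -
        cavg (fun ζ => F.th t c (g (s + ζ))) r := by
    unfold cavg
    rw [← mul_sub, ← intervalIntegral.integral_sub (hc1.intervalIntegrable _ _)
      (hc2.intervalIntegrable _ _)]
    rfl
  have e : F.U t c l (g s) = supB (fun x => F.ψ c (t, x)) (g s) (Real.exp (-l)) -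
    F.th t c (g s) := rfl
  rw [hsplit, e]
  linarith

end

end

end Pool.Agent.KRFZ
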