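import Pool.Agent.Work.MP_a2bf38_gt.Z.Setup
import Pool.Agent.Work.MP_a2bf38_gt.Hk.Sheet
import Pool.Agent.Work.MP_a2bf38_gt.L.Asub
import Pool.Agent.Work.MP_a2bf38_gt.K.PshCOf
import Pool.Agent.Work.MP_a2bf38_gt.K.HB

/-!
# Sheeted curves (KRF VI, step 2)

`curve_gap`: the values of `w` at one point of a sheeted curve are near values at another point.
`osc_le`: a connected set covered by finitely many intervals.
-/

open scoped ContDiff ENNReal ComplexOrder Topology
open Set MeasureTheory Filter Pool.Agent.ToricKRF Pool.Agent.ToricKRF.G Pool.Agent.KRFS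
  Pool.Agent.KRFF Pool.Agent.KRFG Pool.Agent.KRFE Pool.Agent.KRFHk

namespace Pool.Agent.KRFZ

namespace Curve

theorem contDiff_nsq : ContDiff ℝ ∞ fun z : ℂ => Complex.normSq z := by
  have : (fun z : ℂ => Complex.normSq z) = fun z => z.re * z.re + z.im * z.im := by
    ext z; rw [Complex.normSq_apply]
  rw [this]
  have h1 : ContDiff ℝ ∞ (fun z : ℂ => z.re) := Complex.reCLM.contDiff
  have h2 : ContDiff ℝ ∞ (fun z : ℂ => z.im) := Complex.imCLM.contDiff
  exact (h1.mul h1).add (h2.mul h2)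

theorem lapC_nsq (z : ℂ) : lapC (fun z : ℂ => Complex.normSq z) z = 4 := by
  rw [lapC, ViscAux.D_D_normSq, ViscAux.D_D_normSq]
  norm_num

theorem D_nsq (w z : ℂ) : D w (fun z : ℂ => Complex.normSq z) z = 2 * (z.re * w.re + z.im * w.im) := by
  have : (fun z : ℂ => Complex.normSq z) = fun z => z.re * z.re + z.im * z.im := by
    ext z; rw [Complex.normSq_apply]
  rw [this]
  have h1 : HasFDerivAt (fun z : ℂ => z.re) Complex.reCLM z := Complex.reCLM.hasFDerivAt
  have h2 : HasFDerivAt (fun z : ℂ => z.im) Complex.imCLM z := Complex.imCLM.hasFDerivAt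
  have h3 : HasFDerivAt (fun z : ℂ => z.re * z.re + z.im * z.im) _ z :=
    (h1.mul h1).add (h2.mul h2)
  show fderiv ℝ (fun z : ℂ => z.re * z.re + z.im * z.im) z w = _
  rw [h3.fderiv]
  simp
  ring

/-- the Laplacian of `log (1 + |z|^2)` -/
theorem lapC_log (z : ℂ) :
    lapC (fun z : ℂ => Real.log (1 + Complex.normSq z)) z = 4 / (1 + Complex.normSq z) ^ 2 := by
  have hpos : 0 < 1 + Complex.normSq z := by
    have := Complex.normSq_nonneg z
    linarith
  have hf : ContDiffAt ℝ 2 (fun z : ℂ => 1 + Complex.normSq z) z :=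
    contDiffAt_const.add (contDiff_nsq.contDiffAt.of_le (by norm_cast))
  have hadd : ∀ w : ℂ, D w (fun z : ℂ => 1 + Complex.normSq z) =
      D w (fun z : ℂ => Complex.normSq z) := fun w => by
    funext x
    show fderiv ℝ (fun z : ℂ => 1 + Complex.normSq z) x w = _
    rw [fderiv_const_add]
    rfl
  rw [lapC, LC.D_D_log _ _ hf hpos.ne', LC.D_D_log _ _ hf hpos.ne', hadd, hadd,
    ViscAux.D_D_normSq, ViscAux.D_D_normSq, D_nsq, D_nsq]
  simp only [Complex.normSq_one, Complex.normSq_I, Complex.one_re, Complex.one_im, Complex.I_re,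
    Complex.I_im]
  have e : Complex.normSq z = z.re * z.re + z.im * z.im := Complex.normSq_apply z
  field_simp
  rw [e]
  ring

/-- the second order expansion of the mean values -/
theorem cavg_taylor {h : ℂ → ℝ} {z : ℂ} (hh : ContDiffAt ℝ 2 h z) {ε : ℝ} (hε : 0 < ε) :
    ∀ᶠ r in 𝓝[>] (0 : ℝ), h z + lapC h z / 4 * r ^ 2 ≤
      cavg (fun ζ => h (z + ζ)) r + ε * r ^ 2 := by
  set q : ℂ → ℝ := fun ζ => h (z + ζ) + (-(lapC h z / 4)) * Complex.normSq ζ with hq
  have hadd : ContDiffAt ℝ 2 (fun ζ => h (z + ζ)) 0 := by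
    have h1 : ContDiffAt ℝ 2 (fun ζ : ℂ => z + ζ) 0 := contDiffAt_const.add contDiffAt_id
    exact ContDiffAt.comp (0 : ℂ) (by simpa using hh) h1
  have hn : ContDiffAt ℝ 2 (fun z : ℂ => Complex.normSq z) 0 :=
    contDiff_nsq.contDiffAt.of_le (by norm_cast)
  have hqc : ContDiffAt ℝ 2 q 0 := hadd.add (contDiffAt_const.mul hn)
  have hl1 : lapC (fun ζ => h (z + ζ)) 0 = lapC h z := by
    have h2 := lapC_shift (fun ζ => h (z + ζ)) z
    rw [← h2]
    congr 1
    funext ζ
    congr 1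
    ring
  have hlap : lapC q 0 = 0 := by
    rw [hq, HB.lapC_add hadd (contDiffAt_const.mul hn), HB.lapC_const_mul _ hn, lapC_nsq, hl1]
    ring
  obtain ⟨r₀, hr₀, hmain⟩ := KRFH.cavg_ge hqc hlap.ge hε
  -- continuity near `z`
  have hcev : ∀ᶠ x in 𝓝 (0 : ℂ), ContinuousAt (fun ζ => h (z + ζ)) x :=
    (hadd.eventually (by simp)).mono fun x hx => hx.continuousAt
  obtain ⟨r₁, hr₁, hball⟩ := Metric.eventually_nhds_iff.1 hcev
  have hev : ∀ᶠ s in 𝓝[>] (0 : ℝ), s < min r₀ r₁ :=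
    (eventually_lt_nhds (lt_min hr₀ hr₁)).filter_mono nhdsWithin_le_nhds
  filter_upwards [hev, self_mem_nhdsWithin] with r hr hr0
  have hr0' : 0 < r := hr0
  have hc1 : Continuous fun θ : ℝ => h (z + r * Complex.exp (θ * Complex.I)) := by
    rw [continuous_iff_continuousAt]
    intro θ
    refine ContinuousAt.comp (f := fun θ : ℝ => (r : ℂ) * Complex.exp (θ * Complex.I))
      (g := fun ζ => h (z + ζ)) (hball ?_) (by fun_prop)
    rw [dist_zero_right, KRFHk.norm_circle hr0'.le]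
    exact hr.trans_le (min_le_right _ _)
  have hc2 : Continuous fun θ : ℝ =>
      (-(lapC h z / 4)) * Complex.normSq ((r : ℂ) * Complex.exp (θ * Complex.I)) :=
    continuous_const.mul (Complex.continuous_normSq.comp (by fun_prop))
  have h1 := hmain r hr0' (hr.le.trans (min_le_left _ _)) q (hc1.add hc2) fun θ => le_rfl
  have h2 : cavg q r = cavg (fun ζ => h (z + ζ)) r + -(lapC h z / 4) * r ^ 2 := by
    rw [hq, cavg_add (F := fun ζ => h (z + ζ))
      (G := fun ζ => (-(lapC h z / 4)) * Complex.normSq ζ) hc1 hc2, cavg_mul_left]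
    have : cavg (fun ζ => Complex.normSq ζ) r = r ^ 2 := by
      have h3 : cavg (fun ζ => Complex.normSq ζ) r = cavg (fun _ => r ^ 2) r := by
        unfold cavg
        congr 1
        refine intervalIntegral.integral_congr fun θ _ => ?_
        show Complex.normSq ((r : ℂ) * Complex.exp (θ * Complex.I)) = r ^ 2
        rw [Complex.normSq_eq_norm_sq, KRFHk.norm_circle hr0'.le]
      rw [h3, cavg_const']
    rw [this]
  have h3 : q 0 = h z := by simp [hq]
  rw [h2, h3] at h1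
  linarith

/-- a discrete closed set is finite in discs -/
theorem finite_of_discrete {E : Set ℂ} (h : ∀ s, ∃ r > 0, ∀ s' ∈ E, s' ≠ s → r ≤ ‖s' - s‖)
    (R : ℝ) : (E ∩ Metric.closedBall 0 R).Finite := by
  choose r hr hr' using h
  obtain ⟨t, -, ht⟩ := (isCompact_closedBall (0 : ℂ) R).elim_nhds_subcover
    (fun s => Metric.ball s (r s)) fun s _ => Metric.ball_mem_nhds s (hr s)
  refine t.finite_toSet.subset fun s hs => ?_
  obtain ⟨s₂, h2, h3⟩ := mem_iUnion₂.1 (ht hs.2)
  rw [Metric.mem_ball, dist_eq_norm] at h3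
  by_contra hne
  have hne' : s ≠ s₂ := fun h => hne (h ▸ h2)
  linarith [hr' s₂ s hs.1 hne']

end Curve

open Curve

theorem curve_gap {M : Type} [MetricSpace M] {n : ℕ} {κ : Type}
    (e : κ → OpenPartialHomeomorph M (Cn n)) (ψ : κ → ℝ × Cn n → ℝ) {C α C₂ : ℝ} (hC : 0 ≤ C)
    (hα : 0 < α) (hC₂ : 0 ≤ C₂) (D₀ : ℕ) : ∃ C₃, 0 ≤ C₃ ∧ ∀ (A : Set M) (w : M → ℝ) (l : ℝ) (D : ℕ)
      (γ : ℂ → Fin D → M) (ρ : M → ℝ) (s₀ s₁ : ℂ), IsCompact A → ContinuousOn w A → 1 ≤ l →
      D ≤ D₀ → ‖s₀‖ ≤ 1 → ‖s₁‖ ≤ 1 →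
      (∀ p ∈ A, ∀ p' ∈ A, dist p p' ≤ Real.exp (-l) → |w p - w p'| ≤ C₂) →
      (∀ (c : κ) (g : ℂ → Cn n) (s : ℂ) (r₀ : ℝ), 0 < r₀ → HolD g (Metric.ball s r₀) →
        (∀ s' ∈ Metric.ball s r₀, g s' ∈ (e c).target ∧ (e c).symm (g s') ∈ A) →
        ∀ ε > 0, ∀ᶠ r in 𝓝[>] (0 : ℝ), w ((e c).symm (g s)) ≤
          cavg (fun ζ => w ((e c).symm (g (s + ζ)))) r +
            (lev (ψ c) (fderiv ℝ g s 1) (0, g s) + ε) * r ^ 2) →
      IsCurve e ψ A C l α γ ρ s₀ s₁ → ∀ i, ∃ j, |w (γ s₁ i) - w (γ s₀ j)| ≤ C₃ * l := by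
  set Lc : ℝ := 4 + 2 * (1 / α * (C + 1)) with hLc
  have hLc0 : 0 ≤ Lc := by positivity
  refine ⟨2 * (D₀ * (C₂ + 2 * C + (C + 1) * Lc)) + 2 * C, by positivity, ?_⟩
  intro A w l D γ ρ s₀ s₁ hA hw hl hD h0 h1 hwd hsub hcur i
  set a : ℂ → Fin D → ℝ := fun s i => w (γ s i) + ρ (γ s i) with ha
  have hwr : ContinuousOn (fun p => w p + ρ p) A := hw.add hcur.rho_cont
  obtain ⟨E, hE, hsect⟩ := hcur.sect
  have hSh : Sheets D (C + 1) E a := by
    refine ⟨fun s ε hε => ?_, fun z hz => ?_⟩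
    · obtain ⟨δ, hδ, hunif⟩ := Metric.uniformContinuousOn_iff.1
        (hA.uniformContinuousOn_of_continuous hwr) ε hε
      refine (hcur.cont s (δ / 2) (by positivity)).mono fun s' hs' => ?_
      obtain ⟨σ, hσ⟩ := hs'
      refine ⟨σ, fun i => ?_⟩
      have h2 := hunif _ (hcur.mem s' (σ i)) _ (hcur.mem s i) ((hσ i).trans_lt (by linarith))
      rw [Real.dist_eq] at h2
      exact h2.le
    · obtain ⟨r, c, g, hr, hg, hgt, hgγ, hρ, hlev⟩ := hsect z hz
      have hmem : ∀ s' ∈ Metric.ball z r, ∀ i, (e (c i)).symm (g i s') ∈ A := fun s' hs' i => by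
        obtain ⟨σ, hσ⟩ := hgγ s' hs'
        rw [← hσ i]
        exact hcur.mem _ _
      have hgc : ∀ i, ContinuousOn (fun s' => (e (c i)).symm (g i s')) (Metric.ball z r) :=
        fun i => (e (c i)).continuousOn_symm.comp (hg i).smooth.continuousOn fun s' hs' =>
          hgt i s' hs'
      have hwc : ∀ i, ContinuousOn (fun s' => w ((e (c i)).symm (g i s'))) (Metric.ball z r) :=
        fun i => hw.comp (hgc i) fun s' hs' => hmem s' hs' i
      refine ⟨fun i s' => w ((e (c i)).symm (g i s')) + ρ ((e (c i)).symm (g i s')), ?_, ?_, ?_⟩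
      · filter_upwards [Metric.ball_mem_nhds z hr] with s' hs'
        obtain ⟨σ, hσ⟩ := hgγ s' hs'
        refine ⟨σ, fun i => ?_⟩
        rw [ha]
        simp only [hσ i]
      · intro i
        filter_upwards [Metric.isOpen_ball.mem_nhds (Metric.mem_ball_self hr)] with s' hs'
        exact ((hwc i).add (hρ i).continuousOn).continuousAt (Metric.isOpen_ball.mem_nhds hs')
      · intro i
        have hzr : z ∈ Metric.ball z r := Metric.mem_ball_self hr
        set κ₀ : ℝ := 1 / (1 + Complex.normSq z) ^ 2 with hκ₀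
        have hpos : 0 < 1 + Complex.normSq z := by
          have := Complex.normSq_nonneg z
          linarith
        have hκ₀pos : 0 < κ₀ := by positivity
        set h : ℂ → ℝ := fun s' => C * Real.log (1 + ‖s'‖ ^ 2) + ρ ((e (c i)).symm (g i s'))
          with hh
        have hnn : (fun s' : ℂ => Real.log (1 + ‖s'‖ ^ 2)) =
            fun s' => Real.log (1 + Complex.normSq s') := by
          funext s'
          rw [Complex.normSq_eq_norm_sq]
        have hlogc : ContDiffAt ℝ 2 (fun s' : ℂ => Real.log (1 + ‖s'‖ ^ 2)) z := by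
          rw [hnn]
          exact (contDiffAt_const.add (contDiff_nsq.contDiffAt.of_le
            (by norm_cast))).log hpos.ne'
        have hhc : ContDiffAt ℝ 2 h z :=
          (contDiffAt_const.mul hlogc).add (((hρ i).contDiffAt (Metric.isOpen_ball.mem_nhds
            hzr)).of_le (by norm_cast))
        have hε : 0 < κ₀ / 3 := by positivity
        have e1 := hsub (c i) (g i) z r hr (hg i) (fun s' hs' => ⟨hgt i s' hs', hmem s' hs' i⟩)
          (κ₀ / 3) hε
        have e2 := cavg_taylor hhc hε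
        have e3 := cavg_taylor hlogc hε
        have hl3 : lapC (fun s' : ℂ => Real.log (1 + ‖s'‖ ^ 2)) z = 4 * κ₀ := by
          rw [hnn, lapC_log, hκ₀]
          ring
        have hl2 := hlev i z hzr
        have hev : ∀ᶠ s in 𝓝[>] (0 : ℝ), s < r :=
          (eventually_lt_nhds hr).filter_mono nhdsWithin_le_nhds
        filter_upwards [e1, e2, e3, hev, self_mem_nhdsWithin] with s f1 f2 f3 hs1 hs2
        have hs0 : 0 < s := hs2
        have hin : ∀ θ : ℝ, z + (s : ℂ) * Complex.exp (θ * Complex.I) ∈ Metric.ball z r :=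
          fun θ => by
            rw [Metric.mem_ball, dist_eq_norm, add_sub_cancel_left, KRFHk.norm_circle hs0.le]
            exact hs1
        have hlg : Continuous fun θ : ℝ =>
            Real.log (1 + ‖z + (s : ℂ) * Complex.exp (θ * Complex.I)‖ ^ 2) :=
          Continuous.log (by fun_prop) fun θ => by positivity
        have hwcc : Continuous fun θ : ℝ =>
            w ((e (c i)).symm (g i (z + (s : ℂ) * Complex.exp (θ * Complex.I)))) :=
          (hwc i).comp_continuous (by fun_prop) hin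
        have hρcc : Continuous fun θ : ℝ =>
            ρ ((e (c i)).symm (g i (z + (s : ℂ) * Complex.exp (θ * Complex.I)))) :=
          (hρ i).continuousOn.comp_continuous (by fun_prop) hin
        have hhcc : Continuous fun θ : ℝ => h (z + (s : ℂ) * Complex.exp (θ * Complex.I)) :=
          (continuous_const.mul hlg).add hρcc
        have htot : cavg (fun ζ => w ((e (c i)).symm (g i (z + ζ))) +
            ρ ((e (c i)).symm (g i (z + ζ))) + (C + 1) * Real.log (1 + ‖z + ζ‖ ^ 2)) s =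
            cavg (fun ζ => w ((e (c i)).symm (g i (z + ζ)))) s + cavg (fun ζ => h (z + ζ)) s +
              cavg (fun ζ => Real.log (1 + ‖z + ζ‖ ^ 2)) s := by
          rw [← cavg_add hwcc hhcc, ← cavg_add (hwcc.add hhcc) hlg]
          congr 1
          funext ζ
          rw [hh]
          ring
        rw [htot]
        rw [hl3] at f3
        have hL : lev (ψ (c i)) (fderiv ℝ (g i) z 1) (0, g i z) * s ^ 2 ≤
            lapC h z / 4 * s ^ 2 := by
          refine mul_le_mul_of_nonneg_right ?_ (sq_nonneg s)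
          rw [hh]
          linarith
        have e0 : w ((e (c i)).symm (g i z)) + ρ ((e (c i)).symm (g i z)) +
            (C + 1) * Real.log (1 + ‖z‖ ^ 2) =
            w ((e (c i)).symm (g i z)) + h z + Real.log (1 + ‖z‖ ^ 2) := by
          rw [hh]
          ring
        rw [e0]
        nlinarith
  -- the bound
  obtain ⟨B, hB⟩ := (hA.image_of_continuousOn hwr).isBounded.exists_norm_le
  have hBa : ∀ s i, |a s i| ≤ B := fun s i => hB _ (mem_image_of_mem _ (hcur.mem s i))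
  -- the radius
  set r : ℝ := Real.exp (-(C + 1) * l) ^ (1 / α) with hr
  have hC1 : 0 < C + 1 := by linarith
  have hx : 0 < Real.exp (-(C + 1) * l) := Real.exp_pos _
  have hx1 : Real.exp (-(C + 1) * l) ≤ 1 := Real.exp_le_one_iff.2 (by nlinarith)
  have hr0 : 0 < r := Real.rpow_pos_of_pos hx _
  have hr1 : r ≤ 1 := Real.rpow_le_one hx.le hx1 (by positivity)
  have hrα : r ^ α = Real.exp (-(C + 1) * l) := by
    rw [hr, ← Real.rpow_mul hx.le, one_div_mul_cancel hα.ne', Real.rpow_one]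
  have hlr : Real.log (1 / r) = 1 / α * ((C + 1) * l) := by
    rw [one_div r, Real.log_inv, hr, Real.log_rpow hx, Real.log_exp]
    ring
  have hflat : ∀ s₂, s₂ = s₀ ∨ s₂ = s₁ → ∀ s, ‖s - s₂‖ ≤ r →
      ∃ σ : Equiv.Perm (Fin D), ∀ i, |a s (σ i) - a s₂ i| ≤ C₂ + 2 * (C * l) := by
    intro s₂ hs₂ s hs
    obtain ⟨σ, hσ⟩ := hcur.holder s₂ hs₂ s (hs.trans hr1)
    refine ⟨σ, fun i => ?_⟩
    have hd : dist (γ s (σ i)) (γ s₂ i) ≤ Real.exp (-l) := by
      refine (hσ i).trans ?_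
      calc Real.exp (C * l) * ‖s - s₂‖ ^ α ≤ Real.exp (C * l) * r ^ α := by
            refine mul_le_mul_of_nonneg_left ?_ (Real.exp_pos _).le
            exact Real.rpow_le_rpow (norm_nonneg _) hs hα.le
        _ = Real.exp (-l) := by
            rw [hrα, ← Real.exp_add]
            congr 1
            ring
    have h2 := hwd _ (hcur.mem s (σ i)) _ (hcur.mem s₂ i) hd
    have h3 := hcur.rho_bound _ (hcur.mem s (σ i))
    have h4 := hcur.rho_bound _ (hcur.mem s₂ i)
    rw [abs_le] at h2 h3 h4 ⊢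
    show _ ≤ w (γ s (σ i)) + ρ (γ s (σ i)) - (w (γ s₂ i) + ρ (γ s₂ i)) ∧
      w (γ s (σ i)) + ρ (γ s (σ i)) - (w (γ s₂ i) + ρ (γ s₂ i)) ≤ _
    constructor <;> linarith [h2.1, h2.2, h3.1, h3.2, h4.1, h4.2]
  obtain ⟨j, hj⟩ := hSh.exists_near (by linarith) hBa (finite_of_discrete hE) h0 h1 hr0 hr1
    (by positivity) (hflat s₀ (Or.inl rfl)) (hflat s₁ (Or.inr rfl)) i
  refine ⟨j, ?_⟩
  have h3 := hcur.rho_bound _ (hcur.mem s₁ i)
  have h4 := hcur.rho_bound _ (hcur.mem s₀ j)
  have hmain : |w (γ s₁ i) - w (γ s₀ j)| ≤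
      2 * (D * (C₂ + 2 * (C * l) + (C + 1) * (4 + 2 * Real.log (1 / r)))) + 2 * (C * l) := by
    have hj' : |w (γ s₁ i) + ρ (γ s₁ i) - (w (γ s₀ j) + ρ (γ s₀ j))| ≤ _ := hj
    rw [abs_le] at h3 h4 hj' ⊢
    constructor <;> linarith [h3.1, h3.2, h4.1, h4.2, hj'.1, hj'.2]
  refine hmain.trans ?_
  have hLl : 4 + 2 * Real.log (1 / r) ≤ Lc * l := by
    rw [hlr, hLc]
    nlinarith
  have hDD : (D : ℝ) ≤ D₀ := by exact_mod_cast hD
  have h7 : C₂ + 2 * (C * l) + (C + 1) * (4 + 2 * Real.log (1 / r)) ≤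
      (C₂ + 2 * C + (C + 1) * Lc) * l := by
    have h8 := mul_le_mul_of_nonneg_left hLl hC1.le
    have h9 : C₂ + 2 * (C * l) ≤ (C₂ + 2 * C) * l := by nlinarith
    nlinarith
  have h10 : 0 ≤ (C₂ + 2 * C + (C + 1) * Lc) * l := by positivity
  calc 2 * (D * (C₂ + 2 * (C * l) + (C + 1) * (4 + 2 * Real.log (1 / r)))) + 2 * (C * l)
      ≤ 2 * (D * ((C₂ + 2 * C + (C + 1) * Lc) * l)) + 2 * (C * l) := by gcongr
    _ ≤ 2 * (D₀ * ((C₂ + 2 * C + (C + 1) * Lc) * l)) + 2 * (C * l) := by gcongr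
    _ = _ := by ring

/-- a connected set covered by the intervals around the values at the points of `B` -/
theorem osc_le {M : Type} [TopologicalSpace M] {A : Set M} (hA : IsPreconnected A) {v : M → ℝ}
    (hv : ContinuousOn v A) {B : Finset M} {δ : ℝ} (hB : ∀ p ∈ A, ∃ p' ∈ B, |v p - v p'| ≤ δ)
    {p p' : M} (hp : p ∈ A) (hp' : p' ∈ A) : |v p - v p'| ≤ 2 * δ * B.card := by
  have hδ : 0 ≤ δ := by
    obtain ⟨q, -, hq⟩ := hB p hp
    exact (abs_nonneg _).trans hq
  have h1 := osc_of_cover hA hv (P := B) le_rfl hδ hB hp hp'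
  have h2 := osc_of_cover hA hv (P := B) le_rfl hδ hB hp' hp
  rw [abs_le]
  constructor <;> linarith

end Pool.Agent.KRFZ
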