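import Pool.Agent.Work.MP_a2bf38_gt.Z.Setup
import Pool.Agent.Work.MP_a2bf38_gt.I.FBound

/-!
# Constants which exist by compactness
-/

open scoped ContDiff ENNReal ComplexOrder Topology
open Set MeasureTheory Filter Pool.Agent.ToricKRF Pool.Agent.ToricKRF.G Pool.Agent.KRFS
  Pool.Agent.KRFF Pool.Agent.KRFG Pool.Agent.KRFE

set_option linter.unusedSectionVars false

namespace Pool.Agent.KRFZ

namespace ZC

section

variable {m : ℕ}

theorem nsq_eq (z : Cn m) : nsq z = ∑ i, (z.1 i ^ 2 + z.2 i ^ 2) := by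
  simp only [nsq, dotProduct, ← Finset.sum_add_distrib]
  exact Finset.sum_congr rfl fun i _ => by ring

theorem nsq_nn (z : Cn m) : 0 ≤ nsq z := by
  rw [nsq_eq]
  exact Finset.sum_nonneg fun i _ => by positivity

theorem nsq_zero : nsq (0 : Cn m) = 0 := by simp [nsq]

theorem nsq_smul (r : ℝ) (z : Cn m) : nsq (r • z) = r ^ 2 * nsq z := ABP.nsq_smul r z

/-- the Euclidean length -/
noncomputable def toE (z : Cn m) : EuclideanSpace ℝ (Fin m ⊕ Fin m) :=
  WithLp.toLp 2 (Sum.elim z.1 z.2)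

theorem toE_add (a b : Cn m) : toE (a + b) = toE a + toE b := by
  unfold toE
  ext i
  rcases i with i | i <;> simp

theorem nsq_eq_norm (z : Cn m) : nsq z = ‖toE z‖ ^ 2 := by
  rw [EuclideanSpace.norm_eq, Real.sq_sqrt (by positivity), Fintype.sum_sum_type]
  unfold nsq toE
  simp [dotProduct, sq]

theorem sqrt_nsq (z : Cn m) : √(nsq z) = ‖toE z‖ := by
  rw [nsq_eq_norm, Real.sqrt_sq (norm_nonneg _)]

/-- the triangle inequality -/
theorem sqrt_nsq_add (a b : Cn m) : √(nsq (a + b)) ≤ √(nsq a) + √(nsq b) := by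
  rw [sqrt_nsq, sqrt_nsq, sqrt_nsq, toE_add]
  exact norm_add_le _ _

theorem nsq_add_le {a b : Cn m} {r s : ℝ} (hr : 0 ≤ r) (hs : 0 ≤ s) (ha : nsq a ≤ r ^ 2)
    (hb : nsq b ≤ s ^ 2) : nsq (a + b) ≤ (r + s) ^ 2 := by
  have h1 : √(nsq a) ≤ r := Real.sqrt_le_iff.2 ⟨hr, ha⟩
  have h2 : √(nsq b) ≤ s := Real.sqrt_le_iff.2 ⟨hs, hb⟩
  have h3 := sqrt_nsq_add a b
  exact (Real.sqrt_le_iff.1 (h3.trans (add_le_add h1 h2))).2

theorem nsq_sub_comm (a b : Cn m) : nsq (a - b) = nsq (b - a) := by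
  have : a - b = (-1 : ℝ) • (b - a) := by simp
  rw [this, nsq_smul]
  ring

theorem norm_sq_le (v : Cn m) : ‖v‖ ^ 2 ≤ nsq v := by
  rcases eq_or_ne (nsq v) 0 with h0 | h0
  · have h1 : ∀ i, v.1 i = 0 ∧ v.2 i = 0 := by
      intro i
      rw [nsq_eq] at h0
      have h2 := (Finset.sum_eq_zero_iff_of_nonneg (fun i _ => by positivity)).1 h0 i
        (Finset.mem_univ i)
      constructor <;> nlinarith [sq_nonneg (v.1 i), sq_nonneg (v.2 i)]
    have h2 : v = 0 := Prod.ext (funext fun i => (h1 i).1) (funext fun i => (h1 i).2)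
    rw [h2]
    simp [nsq_zero]
  · have h1 : 0 < nsq v := lt_of_le_of_ne (nsq_nn v) (Ne.symm h0)
    have hs : 0 < √(nsq v) := Real.sqrt_pos.2 h1
    have h2 : nsq ((√(nsq v))⁻¹ • v) ≤ 1 := by
      rw [nsq_smul, inv_pow, Real.sq_sqrt h1.le, inv_mul_cancel₀ h1.ne']
    have h3 := ABP.norm_le_one_of_nsq h2
    rw [norm_smul, norm_inv, Real.norm_of_nonneg hs.le, inv_mul_le_iff₀ hs, mul_one] at h3
    calc ‖v‖ ^ 2 ≤ √(nsq v) ^ 2 := pow_le_pow_left₀ (norm_nonneg _) h3 2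
      _ = nsq v := Real.sq_sqrt h1.le

theorem norm_le (v : Cn m) : ‖v‖ ≤ √(nsq v) := Real.le_sqrt_of_sq_le (norm_sq_le v)

theorem nsq_le_norm (v : Cn m) : nsq v ≤ 2 * m * ‖v‖ ^ 2 := by
  have h1 : ∀ i, v.1 i ^ 2 ≤ ‖v‖ ^ 2 := fun i => by
    have h2 : |v.1 i| ≤ ‖v‖ := (norm_le_pi_norm v.1 i).trans (norm_fst_le v)
    rw [← sq_abs]
    exact pow_le_pow_left₀ (abs_nonneg _) h2 2
  have h2 : ∀ i, v.2 i ^ 2 ≤ ‖v‖ ^ 2 := fun i => by
    have h2 : |v.2 i| ≤ ‖v‖ := (norm_le_pi_norm v.2 i).trans (norm_snd_le v)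
    rw [← sq_abs]
    exact pow_le_pow_left₀ (abs_nonneg _) h2 2
  rw [nsq_eq]
  calc ∑ i, (v.1 i ^ 2 + v.2 i ^ 2) ≤ ∑ _i : Fin m, (2 * ‖v‖ ^ 2) :=
        Finset.sum_le_sum fun i _ => by linarith [h1 i, h2 i]
    _ = 2 * m * ‖v‖ ^ 2 := by
        rw [Finset.sum_const, Finset.card_univ, Fintype.card_fin, nsmul_eq_mul]
        ring

theorem convex_nsq (r : ℝ) : Convex ℝ {x : Cn m | nsq x ≤ r} := by
  intro x hx y hy s t hs ht hst
  have hx' : nsq x ≤ r := hx
  have hy' : nsq y ≤ r := hy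
  show nsq (s • x + t • y) ≤ r
  have h1 : nsq (s • x + t • y) ≤ s * nsq x + t * nsq y := by
    rw [nsq_eq, nsq_eq, nsq_eq, Finset.mul_sum, Finset.mul_sum, ← Finset.sum_add_distrib]
    refine Finset.sum_le_sum fun i _ => ?_
    simp only [Prod.fst_add, Prod.snd_add, Pi.add_apply, Prod.smul_fst, Prod.smul_snd,
      Pi.smul_apply, smul_eq_mul]
    have key : ∀ a b : ℝ, (s * a + t * b) ^ 2 ≤ s * a ^ 2 + t * b ^ 2 := by
      intro a b
      have h3 : s * a ^ 2 + t * b ^ 2 - (s * a + t * b) ^ 2 = s * t * (a - b) ^ 2 := by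
        have : t = 1 - s := by linarith
        rw [this]
        ring
      have := mul_nonneg (mul_nonneg hs ht) (sq_nonneg (a - b))
      linarith
    have h4 := key (x.1 i) (y.1 i)
    have h5 := key (x.2 i) (y.2 i)
    linarith
  calc nsq (s • x + t • y) ≤ s * nsq x + t * nsq y := h1
    _ ≤ s * r + t * r := by gcongr
    _ = r := by rw [← add_mul, hst, one_mul]

/-- balls with an arbitrary centre are convex -/
theorem convex_nsq_sub (x₀ : Cn m) (r : ℝ) : Convex ℝ {x : Cn m | nsq (x - x₀) ≤ r} := by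
  have h := (convex_nsq (m := m) r).translate_preimage_right (-x₀)
  have h1 : {x : Cn m | nsq (x - x₀) ≤ r} = (fun x => -x₀ + x) ⁻¹' {x : Cn m | nsq x ≤ r} := by
    ext x
    simp only [mem_preimage, mem_ofPred_eq, neg_add_eq_sub]
  rw [h1]
  exact h

theorem isCompact_nsq_le (R : ℝ) : IsCompact {z : Cn m | nsq z ≤ R} := by
  refine Metric.isCompact_of_isClosed_isBounded (isClosed_le SupReg.continuous_nsq continuous_const)
    ((Metric.isBounded_closedBall (x := (0 : Cn m)) (r := √R)).subset fun z hz => ?_)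
  have hz' : nsq z ≤ R := hz
  rw [mem_closedBall_zero_iff]
  exact (norm_le z).trans (Real.sqrt_le_sqrt hz')

end

/-- finitely many conditions which are weaker for larger constants -/
theorem exists_unif {ι : Type*} [Finite ι] {p : ι → ℝ → Prop}
    (hm : ∀ i a b, a ≤ b → p i a → p i b) (h : ∀ i, ∃ C, 0 < C ∧ p i C) :
    ∃ C, 0 < C ∧ ∀ i, p i C := by
  choose C hC hp using h
  have := Fintype.ofFinite ι
  have h0 : 0 ≤ ∑ i, C i := Finset.sum_nonneg fun i _ => (hC i).le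
  refine ⟨1 + ∑ i, C i, by linarith, fun i => hm i (C i) _ ?_ (hp i)⟩
  have := Finset.single_le_sum (f := C) (fun i _ => (hC i).le) (Finset.mem_univ i)
  linarith

/-- finitely many conditions which are weaker for smaller constants -/
theorem exists_unif' {ι : Type*} [Finite ι] {p : ι → ℝ → Prop}
    (hm : ∀ i a b, a ≤ b → p i b → p i a) (h : ∀ i, ∃ C, 0 < C ∧ p i C) :
    ∃ C, 0 < C ∧ ∀ i, p i C := by
  choose C hC hp using h
  have := Fintype.ofFinite ι
  have h0 : 0 ≤ ∑ i, (C i)⁻¹ := Finset.sum_nonneg fun i _ => (inv_pos.2 (hC i)).le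
  refine ⟨(∑ i, (C i)⁻¹ + 1)⁻¹, by positivity, fun i => hm i _ (C i) ?_ (hp i)⟩
  rw [inv_le_comm₀ (by positivity) (hC i)]
  have := Finset.single_le_sum (f := fun i => (C i)⁻¹) (fun i _ => (inv_pos.2 (hC i)).le)
    (Finset.mem_univ i)
  linarith

/-- a smooth map is bounded and Lipschitz on a compact convex set -/
theorem lip_compact {V W : Type*} [NormedAddCommGroup V] [NormedSpace ℝ V] [NormedAddCommGroup W]
    [NormedSpace ℝ W] {g : V → W} {U K : Set V} (hU : IsOpen U) (hg : ContDiffOn ℝ ∞ g U)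
    (hK : IsCompact K) (hc : Convex ℝ K) (hKU : K ⊆ U) :
    ∃ C, 0 < C ∧ ∀ x ∈ K, ‖g x‖ ≤ C ∧ ∀ x' ∈ K, ‖g x - g x'‖ ≤ C * ‖x - x'‖ := by
  obtain ⟨C₁, h₁⟩ := hK.exists_bound_of_continuousOn (hg.continuousOn.mono hKU)
  obtain ⟨C₂, h₂⟩ := hK.exists_bound_of_continuousOn
    (((contDiffOn_infty_iff_fderiv_of_isOpen hU).1 hg).2.continuousOn.mono hKU)
  refine ⟨max (max C₁ C₂) 1, lt_of_lt_of_le one_pos (le_max_right _ _), fun x hx =>
    ⟨(h₁ x hx).trans ((le_max_left _ _).trans (le_max_left _ _)), fun x' hx' => ?_⟩⟩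
  have h := hc.norm_image_sub_le_of_norm_fderiv_le (𝕜 := ℝ) (f := g) (C := C₂)
    (fun z hz => (hg.differentiableOn (by simp)).differentiableAt (hU.mem_nhds (hKU hz)))
    (fun z hz => h₂ z hz) hx' hx
  exact h.trans (mul_le_mul_of_nonneg_right ((le_max_right _ _).trans (le_max_left _ _))
    (norm_nonneg _))

end ZC

section

variable {n N : ℕ} {M Z : Type} [MetricSpace M] [CompactSpace M] [MetricSpace Z] {κ P : Type}
  [Finite κ] [Finite P] {T : ℝ} (F : Semi n N M Z κ P T)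

theorem Semi.lev_zero : ∃ C, 0 < C ∧ ∀ c x u, 0 < T → nsq x ≤ 81 →
    nsq u ≤ C * lev (F.ψ c) u (0, x) ∧ lev (F.ψ c) u (0, x) ≤ C * nsq u := by
  rcases le_or_gt T 0 with hT | hT
  · exact ⟨1, one_pos, fun c x u h => absurd h (not_lt.2 hT)⟩
  obtain ⟨C, hC, h⟩ := ZC.exists_unif (ι := κ) (p := fun c C => ∀ x u, nsq x ≤ 81 →
    0 ≤ lev (F.ψ c) u (0, x) ∧ nsq u ≤ C * lev (F.ψ c) u (0, x) ∧
      lev (F.ψ c) u (0, x) ≤ C * nsq u)
    (fun c a b hab h x u hx => by
      obtain ⟨h1, h2, h3⟩ := h x u hx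
      exact ⟨h1, h2.trans (mul_le_mul_of_nonneg_right hab h1),
        h3.trans (mul_le_mul_of_nonneg_right hab (ZC.nsq_nn u))⟩)
    (fun c => by
      obtain ⟨U, hU, hsub, hs⟩ := F.krf.smooth c
      have hmem : ∀ x, nsq x ≤ 81 → ((0 : ℝ), x) ∈ U := fun x hx =>
        hsub ⟨⟨le_rfl, hT⟩, F.target c (show nsq x < 100 by linarith)⟩
      have hpos : ∀ x u, nsq x ≤ 81 → u ≠ 0 → 0 < lev (F.ψ c) u (0, x) := fun x u hx hu =>
        lev_pos hU hs (hmem x hx) (F.krf.pos c 0 ⟨le_rfl, hT⟩ x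
          (F.target c (show nsq x < 100 by linarith))) hu
      set K : Set (Cn n × Cn n) := {x | nsq x ≤ 81} ×ˢ {u | nsq u = 1} with hKdef
      have hK : IsCompact K := by
        refine (ZC.isCompact_nsq_le 81).prod ?_
        exact (ZC.isCompact_nsq_le 1).of_isClosed_subset
          (isClosed_eq SupReg.continuous_nsq continuous_const) fun u hu => le_of_eq hu
      have hne : ∀ u : Cn n, nsq u = 1 → u ≠ 0 := fun u hu h0 => by
        rw [h0, ZC.nsq_zero] at hu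
        exact zero_ne_one hu
      have hcont : ContinuousOn (fun q : Cn n × Cn n => lev (F.ψ c) q.2 (0, q.1)) K := by
        have h1 := continuousOn_lev hU hs
        exact h1.comp (f := fun q : Cn n × Cn n => (((0 : ℝ), q.1), q.2)) (by fun_prop)
          fun q hq => ⟨hmem q.1 hq.1, mem_univ _⟩
      have hinv : ContinuousOn (fun q : Cn n × Cn n => (lev (F.ψ c) q.2 (0, q.1))⁻¹) K :=
        hcont.inv₀ fun q hq => (hpos q.1 q.2 hq.1 (hne _ hq.2)).ne'
      obtain ⟨C₁, h₁⟩ := hK.exists_bound_of_continuousOn hcont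
      obtain ⟨C₂, h₂⟩ := hK.exists_bound_of_continuousOn hinv
      refine ⟨max (max C₁ C₂) 1, lt_of_lt_of_le one_pos (le_max_right _ _), fun x u hx => ?_⟩
      rcases eq_or_ne u 0 with rfl | hu
      · have h0 : lev (F.ψ c) 0 (0, x) = 0 := by
          have := lev_smul (F.ψ c) 0 0 hU hs (hmem x hx)
          simpa using this
        rw [h0, ZC.nsq_zero]
        simp
      have hu0 : 0 < nsq u := by
        have h1 := ZC.norm_sq_le u
        have h2 : 0 < ‖u‖ ^ 2 := pow_pos (norm_pos_iff.2 hu) 2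
        linarith
      set s := √(nsq u) with hsdef
      have hs0 : 0 < s := Real.sqrt_pos.2 hu0
      have hs2 : s ^ 2 = nsq u := Real.sq_sqrt hu0.le
      have hu' : nsq (s⁻¹ • u) = 1 := by
        rw [ZC.nsq_smul, inv_pow, hs2, inv_mul_cancel₀ hu0.ne']
      have hl : lev (F.ψ c) u (0, x) = nsq u * lev (F.ψ c) (s⁻¹ • u) (0, x) := by
        rw [lev_smul (F.ψ c) s⁻¹ u hU hs (hmem x hx), inv_pow, hs2, ← mul_assoc,
          mul_inv_cancel₀ hu0.ne', one_mul]
      have hg : 0 < lev (F.ψ c) (s⁻¹ • u) (0, x) := hpos x _ hx (hne _ hu')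
      have h3 := h₁ (x, s⁻¹ • u) ⟨hx, hu'⟩
      have h4 := h₂ (x, s⁻¹ • u) ⟨hx, hu'⟩
      simp only [Real.norm_eq_abs] at h3 h4
      rw [abs_of_pos hg] at h3
      rw [abs_of_pos (inv_pos.2 hg)] at h4
      have h5 : lev (F.ψ c) (s⁻¹ • u) (0, x) ≤ max (max C₁ C₂) 1 :=
        h3.trans ((le_max_left _ _).trans (le_max_left _ _))
      have h6 : (lev (F.ψ c) (s⁻¹ • u) (0, x))⁻¹ ≤ max (max C₁ C₂) 1 :=
        h4.trans ((le_max_right _ _).trans (le_max_left _ _))
      rw [hl]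
      refine ⟨(mul_pos hu0 hg).le, ?_, ?_⟩
      · have h7 : 1 ≤ max (max C₁ C₂) 1 * lev (F.ψ c) (s⁻¹ • u) (0, x) := by
          calc (1 : ℝ) = (lev (F.ψ c) (s⁻¹ • u) (0, x))⁻¹ * lev (F.ψ c) (s⁻¹ • u) (0, x) :=
                (inv_mul_cancel₀ hg.ne').symm
            _ ≤ _ := mul_le_mul_of_nonneg_right h6 hg.le
        nlinarith
      · nlinarith)
  exact ⟨C, hC, fun c x u _ hx => (h c x u hx).2⟩

theorem Semi.th_lip : ∃ C, 0 < C ∧ ∀ t ∈ Icc 0 T, 0 < T → ∀ c x, nsq x ≤ 81 → |F.th t c x| ≤ C ∧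
    ∀ x', nsq x' ≤ 81 → |F.th t c x - F.th t c x'| ≤ C * √(nsq (x - x')) := by
  rcases le_or_gt T 0 with hT | hT
  · exact ⟨1, one_pos, fun t _ h => absurd h (not_lt.2 hT)⟩
  obtain ⟨C, hC, h⟩ := ZC.exists_unif (ι := κ) (p := fun c C => ∀ t ∈ Icc 0 T, ∀ x, nsq x ≤ 81 →
    |F.th t c x| ≤ C ∧ ∀ x', nsq x' ≤ 81 → |F.th t c x - F.th t c x'| ≤ C * √(nsq (x - x')))
    (fun c a b hab h t ht x hx => by
      obtain ⟨h1, h2⟩ := h t ht x hx
      exact ⟨h1.trans hab, fun x' hx' => (h2 x' hx').trans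
        (mul_le_mul_of_nonneg_right hab (Real.sqrt_nonneg _))⟩)
    (fun c => by
      have hsub : {x : Cn n | nsq x ≤ 81} ⊆ (F.e c).target := fun x hx =>
        F.target c (show nsq x < 100 by
          have : nsq x ≤ 81 := hx
          linarith)
      obtain ⟨U, hU, hUs, hs⟩ := F.krf.smooth c
      have ha : ContDiffOn ℝ ∞ (fun x => F.ψ c (0, x)) (F.e c).target :=
        hs.comp (contDiff_prodMk_right (0 : ℝ)).contDiffOn fun x hx => hUs ⟨⟨le_rfl, hT⟩, hx⟩
      have hb : ContDiffOn ℝ ∞ (fun x => Real.log (F.Ω c x)) (F.e c).target :=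
        (F.vol.smooth c).log fun x hx => (F.vol.pos c x hx).ne'
      obtain ⟨A, hA, h1⟩ := ZC.lip_compact (F.e c).open_target ha (ZC.isCompact_nsq_le 81)
        (ZC.convex_nsq 81) hsub
      obtain ⟨B, hB, h2⟩ := ZC.lip_compact (F.e c).open_target hb (ZC.isCompact_nsq_le 81)
        (ZC.convex_nsq 81) hsub
      refine ⟨A + T * B, by positivity, fun t ht x hx => ⟨?_, fun x' hx' => ?_⟩⟩
      · have h3 := (h1 x hx).1
        have h4 := (h2 x hx).1
        rw [Real.norm_eq_abs] at h3 h4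
        unfold Semi.th
        calc |F.ψ c (0, x) + t * Real.log (F.Ω c x)| ≤ |F.ψ c (0, x)| + |t * Real.log (F.Ω c x)| :=
              abs_add_le _ _
          _ = |F.ψ c (0, x)| + t * |Real.log (F.Ω c x)| := by rw [abs_mul, abs_of_nonneg ht.1]
          _ ≤ A + T * B := add_le_add h3 (mul_le_mul ht.2 h4 (abs_nonneg _) hT.le)
      · have h3 := (h1 x hx).2 x' hx'
        have h4 := (h2 x hx).2 x' hx'
        rw [Real.norm_eq_abs] at h3 h4
        have h5 := ZC.norm_le (x - x')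
        unfold Semi.th
        calc |F.ψ c (0, x) + t * Real.log (F.Ω c x) - (F.ψ c (0, x') + t * Real.log (F.Ω c x'))|
            = |(F.ψ c (0, x) - F.ψ c (0, x')) + t * (Real.log (F.Ω c x) - Real.log (F.Ω c x'))| := by
              congr 1
              ring
          _ ≤ |F.ψ c (0, x) - F.ψ c (0, x')| + |t * (Real.log (F.Ω c x) - Real.log (F.Ω c x'))| :=
              abs_add_le _ _
          _ = |F.ψ c (0, x) - F.ψ c (0, x')| + t * |Real.log (F.Ω c x) - Real.log (F.Ω c x')| := by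
              rw [abs_mul t, abs_of_nonneg ht.1]
          _ ≤ A * ‖x - x'‖ + T * (B * ‖x - x'‖) :=
              add_le_add h3 (mul_le_mul ht.2 h4 (abs_nonneg _) hT.le)
          _ = (A + T * B) * ‖x - x'‖ := by ring
          _ ≤ (A + T * B) * √(nsq (x - x')) := mul_le_mul_of_nonneg_left h5 (by positivity))
  exact ⟨C, hC, fun t ht _ c x hx => h c t ht x hx⟩

/-- `ψ(t) = φ(t) + th` -/
theorem Semi.psi_eq {t : ℝ} (ht : t ∈ Ico 0 T) {c : κ} {x : Cn n} (hx : x ∈ (F.e c).target) :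
    F.ψ c (t, x) = F.Phi t ((F.e c).symm x) + F.th t c x := by
  rw [F.Phi_eq ht ((F.e c).map_target hx), (F.e c).right_inv hx]
  simp only [Flow.phi, Semi.th]
  ring

/-- near points are in the same charts -/
theorem Semi.near_chart : ∃ δ, 0 < δ ∧ ∀ c p p' r, p ∈ (F.e c).source → 0 ≤ r → r ≤ 8 →
    nsq (F.e c p) ≤ r ^ 2 → dist p p' ≤ δ →
    p' ∈ (F.e c).source ∧ nsq (F.e c p') ≤ (r + 1 / 10) ^ 2 := by
  obtain ⟨C, hC, hL⟩ := F.lipM
  obtain ⟨δ, hδ, h⟩ := ZC.exists_unif' (ι := κ) (p := fun c δ => ∀ p p', p ∈ (F.e c).source →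
    nsq (F.e c p) ≤ 64 → dist p p' ≤ δ → p' ∈ (F.e c).source ∧ nsq (F.e c p') ≤ 81)
    (fun c a b hab h p p' hp hn hd => h p p' hp hn (hd.trans hab))
    (fun c => by
      set K : Set M := (F.e c).symm '' {x | nsq x ≤ 64} with hKdef
      have hsub : {x : Cn n | nsq x ≤ 64} ⊆ (F.e c).target := fun x hx =>
        F.target c (show nsq x < 100 by
          have : nsq x ≤ 64 := hx
          linarith)
      have hK : IsCompact K := (ZC.isCompact_nsq_le 64).image_of_continuousOn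
        ((F.e c).continuousOn_symm.mono hsub)
      set O : Set M := (F.e c).source ∩ F.e c ⁻¹' {x | nsq x < 81} with hOdef
      have hO : IsOpen O := (F.e c).isOpen_inter_preimage
        (isOpen_lt SupReg.continuous_nsq continuous_const)
      have hKO : K ⊆ O := by
        rintro _ ⟨x, hx, rfl⟩
        have hx' : nsq x ≤ 64 := hx
        refine ⟨(F.e c).map_target (hsub hx), ?_⟩
        show nsq (F.e c ((F.e c).symm x)) < 81
        rw [(F.e c).right_inv (hsub hx)]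
        linarith
      obtain ⟨δ, hδ, hs⟩ := hK.exists_cthickening_subset_open hO hKO
      refine ⟨δ, hδ, fun p p' hp hn hd => ?_⟩
      have hpK : p ∈ K := ⟨F.e c p, hn, (F.e c).left_inv hp⟩
      have h1 : p' ∈ O := by
        refine hs (Metric.closedBall_subset_cthickening hpK δ ?_)
        rw [Metric.mem_closedBall, dist_comm]
        exact hd
      exact ⟨h1.1, le_of_lt h1.2⟩)
  refine ⟨min δ (1 / (10 * √C)), lt_min hδ (by positivity), fun c p p' r hp hr hr8 hn hd => ?_⟩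
  have hn64 : nsq (F.e c p) ≤ 64 := by nlinarith
  obtain ⟨h1, h2⟩ := h c p p' hp hn64 (hd.trans (min_le_left _ _))
  refine ⟨h1, ?_⟩
  have h3 := (hL c (F.e c p') (F.e c p) h2 (by linarith)).2
  rw [(F.e c).left_inv hp, (F.e c).left_inv h1] at h3
  have hd' : dist p' p ≤ 1 / (10 * √C) := by
    rw [dist_comm]
    exact hd.trans (min_le_right _ _)
  have h4 : nsq (F.e c p' - F.e c p) ≤ (1 / 10) ^ 2 := by
    have hsC : 0 < √C := Real.sqrt_pos.2 hC
    calc nsq (F.e c p' - F.e c p) ≤ C * dist p' p ^ 2 := h3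
      _ ≤ C * (1 / (10 * √C)) ^ 2 := by
          exact mul_le_mul_of_nonneg_left (pow_le_pow_left₀ dist_nonneg hd' 2) hC.le
      _ = (1 / 10) ^ 2 := by
          rw [div_pow, mul_pow, Real.sq_sqrt hC.le]
          field_simp
  have h5 := ZC.nsq_add_le hr (by norm_num) hn h4
  rwa [add_sub_cancel] at h5

theorem Semi.dist_chart : ∃ C, 0 < C ∧ ∀ c p p', p ∈ (F.e c).source → p' ∈ (F.e c).source →
    nsq (F.e c p) ≤ 81 → nsq (F.e c p') ≤ 81 →
    dist p p' ≤ C * √(nsq (F.e c p - F.e c p')) ∧ √(nsq (F.e c p - F.e c p')) ≤ C * dist p p' := by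
  obtain ⟨C, hC, hL⟩ := F.lipM
  refine ⟨√C, Real.sqrt_pos.2 hC, fun c p p' hp hp' hn hn' => ?_⟩
  obtain ⟨h1, h2⟩ := hL c (F.e c p) (F.e c p') hn hn'
  rw [(F.e c).left_inv hp, (F.e c).left_inv hp'] at h1 h2
  refine ⟨?_, ?_⟩
  · rw [← Real.sqrt_mul hC.le]
    exact Real.le_sqrt_of_sq_le h1
  · have h3 := Real.sqrt_le_sqrt h2
    rwa [Real.sqrt_mul hC.le, Real.sqrt_sq dist_nonneg] at h3

/-- near points of `Z` are in the same charts of `Z` -/
theorem Semi.near_Z : ∃ δ, 0 < δ ∧ ∀ j z z' r, z ∈ F.S j → 0 ≤ r → r ≤ 8 →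
    nsq (F.q j z) ≤ r ^ 2 → dist z z' ≤ δ → z' ∈ F.S j ∧ nsq (F.q j z') ≤ (r + 1 / 10) ^ 2 := by
  obtain ⟨C, hC, hL⟩ := F.lipZ
  obtain ⟨δ, hδ, h⟩ := ZC.exists_unif' (ι := P) (p := fun j δ => ∀ z z', z ∈ F.S j →
    nsq (F.q j z) ≤ 64 → dist z z' ≤ δ → z' ∈ F.S j ∧ nsq (F.q j z') ≤ 81)
    (fun c a b hab h p p' hp hn hd => h p p' hp hn (hd.trans hab))
    (fun j => by
      have hK := F.emb.compact j 64 (by norm_num)
      set O : Set Z := F.S j ∩ F.q j ⁻¹' {x | nsq x < 81} with hOdef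
      have hO : IsOpen O := (F.emb.qcont j).isOpen_inter_preimage (F.emb.isOpen j)
        (isOpen_lt SupReg.continuous_nsq continuous_const)
      have hKO : {z | z ∈ F.S j ∧ nsq (F.q j z) ≤ 64} ⊆ O := by
        rintro z ⟨hz, hz'⟩
        exact ⟨hz, show nsq (F.q j z) < 81 by linarith⟩
      obtain ⟨δ, hδ, hs⟩ := hK.exists_cthickening_subset_open hO hKO
      refine ⟨δ, hδ, fun z z' hz hn hd => ?_⟩
      have hzK : z ∈ {z | z ∈ F.S j ∧ nsq (F.q j z) ≤ 64} := ⟨hz, hn⟩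
      have h1 : z' ∈ O := by
        refine hs (Metric.closedBall_subset_cthickening hzK δ ?_)
        rw [Metric.mem_closedBall, dist_comm]
        exact hd
      exact ⟨h1.1, le_of_lt h1.2⟩)
  refine ⟨min δ (1 / (10 * √C)), lt_min hδ (by positivity), fun j z z' r hz hr hr8 hn hd => ?_⟩
  have hn64 : nsq (F.q j z) ≤ 64 := by nlinarith
  obtain ⟨h1, h2⟩ := h j z z' hz hn64 (hd.trans (min_le_left _ _))
  refine ⟨h1, ?_⟩
  have h3 := (hL j z' h1 z hz h2 (by linarith)).2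
  have hd' : dist z' z ≤ 1 / (10 * √C) := by
    rw [dist_comm]
    exact hd.trans (min_le_right _ _)
  have h4 : nsq (F.q j z' - F.q j z) ≤ (1 / 10) ^ 2 := by
    have hsC : 0 < √C := Real.sqrt_pos.2 hC
    calc nsq (F.q j z' - F.q j z) ≤ C * dist z' z ^ 2 := h3
      _ ≤ C * (1 / (10 * √C)) ^ 2 := by
          exact mul_le_mul_of_nonneg_left (pow_le_pow_left₀ dist_nonneg hd' 2) hC.le
      _ = (1 / 10) ^ 2 := by
          rw [div_pow, mul_pow, Real.sq_sqrt hC.le]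
          field_simp
  have h5 := ZC.nsq_add_le hr (by norm_num) hn h4
  rwa [add_sub_cancel] at h5

theorem Semi.dist_Z : ∃ C, 0 < C ∧ ∀ j z z', z ∈ F.S j → z' ∈ F.S j → nsq (F.q j z) ≤ 81 →
    nsq (F.q j z') ≤ 81 →
    dist z z' ≤ C * √(nsq (F.q j z - F.q j z')) ∧ √(nsq (F.q j z - F.q j z')) ≤ C * dist z z' := by
  obtain ⟨C, hC, hL⟩ := F.lipZ
  refine ⟨√C, Real.sqrt_pos.2 hC, fun j z z' hz hz' hn hn' => ?_⟩
  obtain ⟨h1, h2⟩ := hL j z hz z' hz' hn hn'
  refine ⟨?_, ?_⟩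
  · rw [← Real.sqrt_mul hC.le]
    exact Real.le_sqrt_of_sq_le h1
  · have h3 := Real.sqrt_le_sqrt h2
    rwa [Real.sqrt_mul hC.le, Real.sqrt_sq dist_nonneg] at h3

theorem Semi.f_lip : ∃ C, 0 < C ∧ ∀ p p', dist (F.f p) (F.f p') ≤ C * dist p p' := by
  obtain ⟨δ₁, hδ₁, hnear⟩ := F.near_chart
  obtain ⟨δ₂, hδ₂, hnearZ⟩ := F.near_Z
  obtain ⟨C₁, hC₁, hd₁⟩ := F.dist_chart
  obtain ⟨C₂, hC₂, hd₂⟩ := F.dist_Z
  obtain ⟨δ₃, hδ₃, hunif⟩ := Metric.uniformContinuous_iff.1
    (CompactSpace.uniformContinuous_of_continuous F.emb.cont) δ₂ hδ₂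
  obtain ⟨B, hB, hbound⟩ := ZC.exists_unif (ι := κ × P) (p := fun i B => ∀ x, nsq x ≤ 4 →
    F.f ((F.e i.1).symm x) ∈ F.S i.2 → nsq (F.q i.2 (F.f ((F.e i.1).symm x))) ≤ 4 →
    ‖fderiv ℝ (fun x => F.q i.2 (F.f ((F.e i.1).symm x))) x‖ ≤ B)
    (fun i a b hab h x h1 h2 h3 => (h x h1 h2 h3).trans hab)
    (fun i => by
      obtain ⟨c, j⟩ := i
      have hsub : {x : Cn n | nsq x ≤ 4} ⊆ (F.e c).target := fun x hx =>
        F.target c (show nsq x < 100 by
          have : nsq x ≤ 4 := hx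
          linarith)
      have hcont : ContinuousOn (fun x => F.f ((F.e c).symm x)) (F.e c).target :=
        F.emb.cont.comp_continuousOn (F.e c).continuousOn_symm
      have hU : IsOpen {x | x ∈ (F.e c).target ∧ F.f ((F.e c).symm x) ∈ F.S j} :=
        hcont.isOpen_inter_preimage (F.e c).open_target (F.emb.isOpen j)
      have hK : IsCompact ({x : Cn n | nsq x ≤ 4} ∩
          (fun x => F.f ((F.e c).symm x)) ⁻¹' {z | z ∈ F.S j ∧ nsq (F.q j z) ≤ 4}) := by
        refine (ZC.isCompact_nsq_le 4).of_isClosed_subset ?_ inter_subset_left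
        exact (hcont.mono hsub).preimage_isClosed_of_isClosed
          (isClosed_le SupReg.continuous_nsq continuous_const)
          (F.emb.compact j 4 (by norm_num)).isClosed
      obtain ⟨B, hB⟩ := hK.exists_bound_of_continuousOn
        (((contDiffOn_infty_iff_fderiv_of_isOpen hU).1 (F.emb.holo c j).1).2.continuousOn.mono
          fun x hx => ⟨hsub hx.1, hx.2.1⟩)
      exact ⟨max B 1, lt_of_lt_of_le one_pos (le_max_right _ _), fun x h1 h2 h3 =>
        (hB x ⟨h1, h2, h3⟩).trans (le_max_left _ _)⟩)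
  obtain ⟨D, hD⟩ := isCompact_univ.exists_bound_of_continuousOn
    (f := fun x : M × M => dist (F.f x.1) (F.f x.2))
    (((F.emb.cont.comp continuous_fst).dist (F.emb.cont.comp continuous_snd)).continuousOn)
  set δ : ℝ := min δ₁ (min (1 / (1 + C₁)) (δ₃ / (2 * (1 + C₁) ^ 2))) with hδdef
  have hδ : 0 < δ := lt_min hδ₁ (lt_min (by positivity) (by positivity))
  set L : ℝ := C₂ * (√(2 * N) * (B * C₁)) with hL
  have hL0 : 0 ≤ L := by positivity
  refine ⟨L + |D| / δ + 1, by positivity, fun p p' => ?_⟩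
  have hdd : (0 : ℝ) ≤ dist p p' := dist_nonneg
  rcases le_or_gt (dist p p') δ with hle | hgt
  · obtain ⟨c, hpc, hn⟩ := F.cover p
    obtain ⟨j, hj, hnj⟩ := F.emb.cover (F.f p)
    obtain ⟨hp'c, hn'⟩ := hnear c p p' 1 hpc zero_le_one (by norm_num) (by simpa using hn)
      (hle.trans (min_le_left _ _))
    have hn'4 : nsq (F.e c p') ≤ 4 := hn'.trans (by norm_num)
    obtain ⟨-, h2⟩ := hd₁ c p p' hpc hp'c (by linarith) (by linarith)
    set x := F.e c p with hx
    set x' := F.e c p' with hx'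
    set s := √(nsq (x' - x)) with hs
    have hs0 : 0 ≤ s := Real.sqrt_nonneg _
    have hs2 : s ^ 2 = nsq (x' - x) := Real.sq_sqrt (ZC.nsq_nn _)
    have hsd : s ≤ C₁ * dist p p' := by
      rw [hs, ZC.nsq_sub_comm]
      exact h2
    have hδa : dist p p' ≤ 1 / (1 + C₁) := hle.trans ((min_le_right _ _).trans (min_le_left _ _))
    have hδb : dist p p' ≤ δ₃ / (2 * (1 + C₁) ^ 2) :=
      hle.trans ((min_le_right _ _).trans (min_le_right _ _))
    have hs1 : s ≤ 1 := by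
      refine hsd.trans ((mul_le_mul_of_nonneg_left hδa hC₁.le).trans ?_)
      rw [mul_one_div, div_le_one (by positivity)]
      linarith
    have hball : ∀ y ∈ {y : Cn n | nsq (y - x) ≤ s ^ 2}, nsq y ≤ 4 ∧
        F.f ((F.e c).symm y) ∈ F.S j ∧ nsq (F.q j (F.f ((F.e c).symm y))) ≤ 4 := by
      intro y hy
      have hy' : nsq (y - x) ≤ s ^ 2 := hy
      have h3 : nsq y ≤ (1 + s) ^ 2 := by
        have := ZC.nsq_add_le zero_le_one hs0 (by simpa using hn) hy'
        rwa [add_sub_cancel] at this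
      have hy4 : nsq y ≤ 4 := h3.trans (by nlinarith)
      have hyt : y ∈ (F.e c).target := F.target c (show nsq y < 100 by linarith)
      have h4 := (hd₁ c p ((F.e c).symm y) hpc ((F.e c).map_target hyt) (by linarith)
        (by rw [(F.e c).right_inv hyt]; linarith)).1
      rw [(F.e c).right_inv hyt, ZC.nsq_sub_comm] at h4
      have h5 : √(nsq (y - x)) ≤ s := Real.sqrt_le_iff.2 ⟨hs0, hy'⟩
      have h6 : dist p ((F.e c).symm y) < δ₃ := by
        calc dist p ((F.e c).symm y) ≤ C₁ * s := h4.trans (mul_le_mul_of_nonneg_left h5 hC₁.le)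
          _ ≤ C₁ * (C₁ * dist p p') := mul_le_mul_of_nonneg_left hsd hC₁.le
          _ = C₁ ^ 2 * dist p p' := by ring
          _ ≤ C₁ ^ 2 * (δ₃ / (2 * (1 + C₁) ^ 2)) := mul_le_mul_of_nonneg_left hδb (by positivity)
          _ < δ₃ := by
              rw [mul_div_assoc', div_lt_iff₀ (by positivity)]
              have : C₁ ^ 2 < 2 * (1 + C₁) ^ 2 := by nlinarith
              nlinarith
      have h7 : dist (F.f p) (F.f ((F.e c).symm y)) ≤ δ₂ := (hunif h6).le
      obtain ⟨h8, h9⟩ := hnearZ j (F.f p) (F.f ((F.e c).symm y)) 1 hj zero_le_one (by norm_num)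
        (by simpa using hnj) h7
      exact ⟨hy4, h8, h9.trans (by norm_num)⟩
    have hxb : x ∈ {y : Cn n | nsq (y - x) ≤ s ^ 2} := by
      show nsq (x - x) ≤ s ^ 2
      rw [sub_self, ZC.nsq_zero]
      positivity
    have hx'b : x' ∈ {y : Cn n | nsq (y - x) ≤ s ^ 2} := by
      show nsq (x' - x) ≤ s ^ 2
      rw [hs2]
    have hU : IsOpen {x | x ∈ (F.e c).target ∧ F.f ((F.e c).symm x) ∈ F.S j} :=
      (F.emb.cont.comp_continuousOn (F.e c).continuousOn_symm).isOpen_inter_preimage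
        (F.e c).open_target (F.emb.isOpen j)
    have hmv := (ZC.convex_nsq_sub x (s ^ 2)).norm_image_sub_le_of_norm_fderiv_le (𝕜 := ℝ)
      (f := fun x => F.q j (F.f ((F.e c).symm x))) (C := B)
      (fun y hy => by
        obtain ⟨h3, h4, h5⟩ := hball y hy
        exact ((F.emb.holo c j).1.differentiableOn (by simp)).differentiableAt
          (hU.mem_nhds ⟨F.target c (show nsq y < 100 by linarith), h4⟩))
      (fun y hy => by
        obtain ⟨h3, h4, h5⟩ := hball y hy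
        exact hbound (c, j) y h3 h4 h5) hxb hx'b
    simp only [hx, hx', (F.e c).left_inv hpc, (F.e c).left_inv hp'c] at hmv
    rw [← hx, ← hx'] at hmv
    obtain ⟨h3, h4, h5⟩ := hball x' hx'b
    rw [hx', (F.e c).left_inv hp'c] at h4 h5
    have h6 := (hd₂ j (F.f p) (F.f p') hj h4 (by linarith) (by linarith)).1
    have h7 : ‖F.q j (F.f p') - F.q j (F.f p)‖ ≤ B * C₁ * dist p p' := by
      calc ‖F.q j (F.f p') - F.q j (F.f p)‖ ≤ B * ‖x' - x‖ := hmv
        _ ≤ B * s := mul_le_mul_of_nonneg_left (ZC.norm_le _) hB.le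
        _ ≤ B * (C₁ * dist p p') := mul_le_mul_of_nonneg_left hsd hB.le
        _ = B * C₁ * dist p p' := by ring
    have h8 : √(nsq (F.q j (F.f p) - F.q j (F.f p'))) ≤ √(2 * N) * (B * C₁ * dist p p') := by
      rw [ZC.nsq_sub_comm]
      calc √(nsq (F.q j (F.f p') - F.q j (F.f p)))
          ≤ √(2 * N * ‖F.q j (F.f p') - F.q j (F.f p)‖ ^ 2) :=
            Real.sqrt_le_sqrt (ZC.nsq_le_norm _)
        _ = √(2 * N) * ‖F.q j (F.f p') - F.q j (F.f p)‖ := by
            rw [Real.sqrt_mul (by positivity), Real.sqrt_sq (norm_nonneg _)]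
        _ ≤ _ := mul_le_mul_of_nonneg_left h7 (Real.sqrt_nonneg _)
    calc dist (F.f p) (F.f p') ≤ C₂ * √(nsq (F.q j (F.f p) - F.q j (F.f p'))) := h6
      _ ≤ C₂ * (√(2 * N) * (B * C₁ * dist p p')) := mul_le_mul_of_nonneg_left h8 hC₂.le
      _ = L * dist p p' := by
          rw [hL]
          ring
      _ ≤ (L + |D| / δ + 1) * dist p p' := by
          refine mul_le_mul_of_nonneg_right ?_ hdd
          have : 0 ≤ |D| / δ := by positivity
          linarith
  · have h1 := hD (p, p') (mem_univ _)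
    rw [Real.norm_of_nonneg dist_nonneg] at h1
    calc dist (F.f p) (F.f p') ≤ |D| := h1.trans (le_abs_self D)
      _ = |D| / δ * δ := by field_simp
      _ ≤ |D| / δ * dist p p' := mul_le_mul_of_nonneg_left hgt.le (by positivity)
      _ ≤ (L + |D| / δ + 1) * dist p p' := by
          refine mul_le_mul_of_nonneg_right ?_ hdd
          linarith

end

end Pool.Agent.KRFZ
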