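import Pool.Agent.Work.MP_a2bf38_gt.L.BallM
import Pool.Agent.Work.MP_a2bf38_gt.K.TouchA
import Pool.Agent.Work.MP_a2bf38_gt.E.SupReg

/-!
# The value of a holomorphic function at the centre of a ball and its mean square
-/

open scoped ContDiff ENNReal ComplexOrder Topology Pointwise
open Set MeasureTheory Filter Pool.Agent.ToricKRF Pool.Agent.ToricKRF.G Pool.Agent.KRFS
  Pool.Agent.KRFF Pool.Agent.KRFG

namespace Pool.Agent.KRFZ

namespace Pole

variable {n : ℕ}

theorem nsq_ofC_const (w : ℂ) : nsq (ofC fun _ : Fin 1 => w) = ‖w‖ ^ 2 := by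
  simp only [nsq, dotProduct, ofC, Finset.univ_unique, Finset.sum_singleton]
  rw [← Complex.normSq_eq_norm_sq, Complex.normSq_apply]

theorem smooth_nsq {m : ℕ} : ContDiffOn ℝ ∞ (nsq : Cn m → ℝ) univ := Fb.contDiff_nsq.contDiffOn

/-- the square of the modulus of a holomorphic function is psh -/
theorem pshC_normSq {h : Cn n → ℂ} {S : Set (Cn n)} (hS : IsOpen S) (hh : NF.HolC h S) :
    PshC (fun w => ‖h w‖ ^ 2) S := by
  have hH := (Touch.holOn_ofC (h := fun _ : Fin 1 => h) hS fun _ => hh).1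
  have e1 : (fun w => ‖h w‖ ^ 2) = fun w => nsq (ofC fun _ : Fin 1 => h w) := by
    funext w
    rw [nsq_ofC_const]
  rw [e1]
  refine Pool.Agent.KRFH.BallM.pshC_of_levz hS (smooth_nsq.comp hH.1 fun _ _ => mem_univ _) fun z hz u => ?_
  rw [levz_comp isOpen_univ smooth_nsq hS hH hz (mem_univ _) u, Gap.levz_nsq']
  exact Fb.nsq_nonneg _

/-- the value at the centre of a ball and the mean square -/
theorem mean_sq {h : Cn n → ℂ} {S : Set (Cn n)} (hS : IsOpen S) (hh : NF.HolC h S) {z : Cn n}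
    {r : ℝ} (hr : 0 ≤ r) (hsub : {w | nsq (w - z) ≤ r ^ 2} ⊆ S) :
    (volume {w : Cn n | nsq (w - z) ≤ r ^ 2}).toReal * ‖h z‖ ^ 2 ≤
      ∫ w in {w : Cn n | nsq (w - z) ≤ r ^ 2}, ‖h w‖ ^ 2 :=
  Pool.Agent.KRFH.BallM.mean_ball (pshC_normSq hS hh) hr hsub

/-- the volume of a ball -/
theorem volume_ball (z : Cn n) {r : ℝ} (hr : 0 < r) :
    (volume {w : Cn n | nsq (w - z) ≤ r ^ 2}).toReal =
      r ^ (2 * n) * (volume {w : Cn n | nsq w ≤ 1}).toReal := by
  have := PshG.isAddHaar_Cn n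
  have hset : {w : Cn n | nsq (w - z) ≤ r ^ 2} =
      (fun x => z + x) '' (r • {w : Cn n | nsq w ≤ 1}) := by
    ext w
    constructor
    · intro hw
      have hw' : nsq (w - z) ≤ r ^ 2 := hw
      refine ⟨w - z, ⟨r⁻¹ • (w - z), ?_, ?_⟩, by simp⟩
      · change nsq (r⁻¹ • (w - z)) ≤ 1
        rw [Pool.Agent.KRFE.SupReg.nsq_smul, inv_pow, inv_mul_le_iff₀ (by positivity), mul_one]
        exact hw'
      · simp only
        rw [smul_smul, mul_inv_cancel₀ hr.ne', one_smul]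
    · rintro ⟨x, ⟨y, hy, rfl⟩, rfl⟩
      have hy' : nsq y ≤ 1 := hy
      change nsq (z + r • y - z) ≤ r ^ 2
      rw [add_sub_cancel_left, Pool.Agent.KRFE.SupReg.nsq_smul]
      nlinarith [sq_nonneg r]
  have hd : Module.finrank ℝ ((Fin n → ℝ) × (Fin n → ℝ)) = 2 * n := by
    rw [Module.finrank_prod]
    simp
    ring
  rw [hset, image_add_left, measure_preimage_add]
  have h1 := Measure.addHaar_smul (volume : Measure (Cn n)) r {w : Cn n | nsq w ≤ 1}
  have h2 : Module.finrank ℝ (Cn n) = 2 * n := hd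
  rw [h1, h2, ENNReal.toReal_mul, ENNReal.toReal_ofReal (abs_nonneg _),
    abs_of_nonneg (by positivity)]

theorem volume_unit_pos : 0 < (volume {w : Cn n | nsq w ≤ 1}).toReal := by
  have := PshG.isAddHaar_Cn n
  have hc : IsCompact {w : Cn n | nsq w ≤ 1} := ABP.isCompact_nsq
  refine ENNReal.toReal_pos ?_ hc.measure_lt_top.ne
  refine (Measure.measure_pos_of_mem_nhds volume (x := (0 : Cn n)) ?_).ne'
  have h1 : {w : Cn n | nsq w < 1} ∈ 𝓝 (0 : Cn n) :=
    (isOpen_lt Pool.Agent.KRFE.SupReg.continuous_nsq continuous_const).mem_nhds (by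
      change nsq (0 : Cn n) < 1
      rw [Pool.Agent.KRFE.SupReg.nsq_zero]
      exact one_pos)
  exact mem_of_superset h1 fun w (hw : nsq w < 1) => hw.le

end Pole

end Pool.Agent.KRFZ
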