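import Pool.Agent.Work.MP_a2bf38_gt.Z.Const2
import Pool.Agent.Work.MP_a2bf38_gt.Z.OmegaCompat
import Pool.Agent.Work.MP_a2bf38_gt.Z.Pole

/-!
# The measure of the volume form, and the mean value inequality
-/

open scoped ContDiff ENNReal ComplexOrder Topology
open Set MeasureTheory Filter Pool.Agent.ToricKRF Pool.Agent.ToricKRF.G Pool.Agent.KRFS
  Pool.Agent.KRFF Pool.Agent.KRFG Pool.Agent.KRFE

namespace Pool.Agent.KRFZ

open C2

section

variable {n : ℕ} {M : Type} [TopologicalSpace M] [MeasurableSpace M] [BorelSpace M] {κ : Type}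
  {e : κ → OpenPartialHomeomorph M (Cn n)} {w : κ → Cn n → ℝ} {μ : Measure M}

/-- the chart as an embedding of its target -/
def CM.emb (e : κ → OpenPartialHomeomorph M (Cn n)) (c : κ) : (e c).target → M :=
  fun x => (e c).symm x.1

theorem CM.measurableEmbedding (c : κ) : MeasurableEmbedding (CM.emb e c) := by
  refine Topology.IsOpenEmbedding.measurableEmbedding ?_
  have h1 : CM.emb e c = ((↑) : (e c).source → M) ∘ (e c).toHomeomorphSourceTarget.symm := by
    funext x
    rfl
  rw [h1]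
  exact (e c).open_source.isOpenEmbedding_subtypeVal.comp
    (e c).toHomeomorphSourceTarget.symm.isOpenEmbedding

/-- The integral over a part of a chart, for all functions `g`. -/
theorem CM.lintegral_chart (hμ : HasDens e w μ) (hw : ∀ c, ContinuousOn (w c) (e c).target)
    {c : κ} {B : Set (Cn n)} (hB : MeasurableSet B) (hBt : B ⊆ (e c).target) (g : M → ℝ≥0∞) :
    ∫⁻ p in (e c).symm '' B, g p ∂μ =
      ∫⁻ x in B, g ((e c).symm x) * ENNReal.ofReal (w c x) := by
  have hφ := CM.measurableEmbedding (e := e) c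
  have hval : MeasurableEmbedding ((↑) : (e c).target → Cn n) :=
    MeasurableEmbedding.subtype_coe (e c).open_target.measurableSet
  set W : Cn n → ℝ≥0∞ := fun x => ENNReal.ofReal (w c x) with hW
  have hWm : AEMeasurable W (volume.restrict (e c).target) :=
    ((hw c).aemeasurable (e c).open_target.measurableSet).ennreal_ofReal
  have hWm' : Measurable fun x : (e c).target => W x.1 := by
    refine ENNReal.measurable_ofReal.comp ?_
    exact (continuousOn_iff_continuous_domRestrict.1 (hw c)).measurable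
  set m₀ : Measure (e c).target := Measure.comap ((↑) : (e c).target → Cn n) volume with hm₀
  have hmap : Measure.map ((↑) : (e c).target → Cn n) m₀ = volume.restrict (e c).target :=
    map_comap_subtype_coe (e c).open_target.measurableSet volume
  -- the measure on the chart
  have h1 : (volume.restrict (e c).target).withDensity W =
      Measure.map ((↑) : (e c).target → Cn n) (m₀.withDensity fun x => W x.1) := by
    refine Measure.ext fun A hA => ?_
    rw [withDensity_apply W hA, Measure.map_apply hval.measurable hA,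
      withDensity_apply _ (hval.measurable hA), ← hmap, hval.restrict_map, hval.lintegral_map]
  have h2 : μ.restrict (e c).source = Measure.map (CM.emb e c) (m₀.withDensity fun x => W x.1) := by
    rw [hμ c, h1]
    have h3 : AEMeasurable (e c).symm
        (Measure.map ((↑) : (e c).target → Cn n) (m₀.withDensity fun x => W x.1)) := by
      rw [← h1]
      exact ((e c).continuousOn_symm.aemeasurable (e c).open_target.measurableSet).mono_ac
        (withDensity_absolutelyContinuous _ _)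
    rw [AEMeasurable.map_map_of_aemeasurable h3 hval.measurable.aemeasurable]
    rfl
  have h3 : (e c).symm '' B = CM.emb e c '' (((↑) : (e c).target → Cn n) ⁻¹' B) := by
    ext p
    constructor
    · rintro ⟨x, hx, rfl⟩
      exact ⟨⟨x, hBt hx⟩, hx, rfl⟩
    · rintro ⟨x, hx, rfl⟩
      exact ⟨x.1, hx, rfl⟩
  have h4 : (e c).symm '' B ⊆ (e c).source := by
    rintro _ ⟨x, hx, rfl⟩
    exact (e c).map_target (hBt hx)
  have hB' : MeasurableSet (((↑) : (e c).target → Cn n) ⁻¹' B) := hval.measurable hB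
  have h5 : CM.emb e c ⁻¹' ((e c).symm '' B) = ((↑) : (e c).target → Cn n) ⁻¹' B := by
    rw [h3, preimage_image_eq _ hφ.injective]
  calc ∫⁻ p in (e c).symm '' B, g p ∂μ
      = ∫⁻ p in (e c).symm '' B, g p ∂(μ.restrict (e c).source) := by
        rw [Measure.restrict_restrict_of_subset h4]
    _ = ∫⁻ x in ((↑) : (e c).target → Cn n) ⁻¹' B, g (CM.emb e c x)
          ∂(m₀.withDensity fun x => W x.1) := by
        rw [h2, hφ.restrict_map, hφ.lintegral_map, h5]
    _ = ∫⁻ x in ((↑) : (e c).target → Cn n) ⁻¹' B, W x.1 * g (CM.emb e c x) ∂m₀ := by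
        rw [restrict_withDensity hB', lintegral_withDensity_eq_lintegral_mul_non_measurable _ hWm'
          (Eventually.of_forall fun x => ENNReal.ofReal_lt_top)]
        rfl
    _ = ∫⁻ x in B, g ((e c).symm x) * W x := by
        have h6 : volume.restrict B = Measure.map ((↑) : (e c).target → Cn n)
            (m₀.restrict (((↑) : (e c).target → Cn n) ⁻¹' B)) := by
          rw [← hval.restrict_map, hmap, Measure.restrict_restrict_of_subset hBt]
        rw [h6, hval.lintegral_map]
        refine lintegral_congr fun x => ?_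
        rw [mul_comm]
        rfl

end

section

variable {n N : ℕ} {M Z : Type} [MetricSpace M] [CompactSpace M] [MeasurableSpace M] [BorelSpace M]
  [MetricSpace Z] {κ P : Type} {T : ℝ} (F : Semi n N M Z κ P T)
  {μ : Measure M} (hμ : HasDens F.e F.Ω μ)

omit [CompactSpace M] in
include hμ in
/-- The integral over a part of a chart, for all functions `g`. -/
theorem Semi.lintegral_chart' {c : κ} {B : Set (Cn n)} (hB : MeasurableSet B)
    (hBt : B ⊆ (F.e c).target) (g : M → ℝ≥0∞) :
    ∫⁻ p in (F.e c).symm '' B, g p ∂μ =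
      ∫⁻ x in B, g ((F.e c).symm x) * ENNReal.ofReal (F.Ω c x) :=
  CM.lintegral_chart hμ (fun c => (F.vol.smooth c).continuousOn) hB hBt g

omit [CompactSpace M] in
include hμ in
theorem Semi.lintegral_chart {c : κ} {B : Set (Cn n)} (hB : MeasurableSet B)
    (hBt : B ⊆ (F.e c).target) {g : M → ℝ≥0∞} (_hg : Measurable g) :
    ∫⁻ p in (F.e c).symm '' B, g p ∂μ =
      ∫⁻ x in B, g ((F.e c).symm x) * ENNReal.ofReal (F.Ω c x) :=
  F.lintegral_chart' hμ hB hBt g

omit [CompactSpace M] in
include hμ in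
theorem Semi.measure_univ_lt_top [Finite κ] : μ univ < ⊤ := by
  obtain ⟨C, hC, h⟩ := F.Ω_bound
  have hB : IsCompact {x : Cn n | nsq x ≤ 1} := isCompact_le 1
  have hBt : ∀ c, {x : Cn n | nsq x ≤ 1} ⊆ (F.e c).target := fun c x hx =>
    F.target c (lt_of_le_of_lt (show nsq x ≤ 1 from hx) (by norm_num))
  have hcov : (univ : Set M) ⊆ ⋃ c, (F.e c).symm '' {x | nsq x ≤ 1} := by
    intro p _
    obtain ⟨c, hc, h1⟩ := F.cover p
    exact mem_iUnion.2 ⟨c, F.e c p, h1, (F.e c).left_inv hc⟩
  refine (measure_mono hcov).trans_lt ?_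
  have := Fintype.ofFinite κ
  refine (measure_iUnion_fintype_le μ _).trans_lt ?_
  refine ENNReal.sum_lt_top.2 fun c _ => ?_
  have h1 := F.lintegral_chart' hμ (c := c) hB.measurableSet (hBt c) fun _ => 1
  rw [setLIntegral_one] at h1
  rw [h1]
  calc ∫⁻ x in {x : Cn n | nsq x ≤ 1}, 1 * ENNReal.ofReal (F.Ω c x)
      ≤ ∫⁻ x in {x : Cn n | nsq x ≤ 1}, ENNReal.ofReal C := by
        refine setLIntegral_mono' hB.measurableSet fun x hx => ?_
        rw [one_mul]
        exact ENNReal.ofReal_le_ofReal (h c x (le_trans (show nsq x ≤ 1 from hx) (by norm_num))).1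
    _ < ⊤ := by
        rw [setLIntegral_const]
        exact ENNReal.mul_lt_top ENNReal.ofReal_lt_top hB.measure_lt_top

omit [CompactSpace M] in
include hμ in
theorem Semi.finite [Finite κ] : IsFiniteMeasure μ := ⟨F.measure_univ_lt_top hμ⟩

omit [CompactSpace M] in
theorem Semi.exists_measure [Finite κ] (hT : 0 < T) : ∃ μ : Measure M, HasDens F.e F.Ω μ :=
  exists_hasDens F.toFlow hT

omit [CompactSpace M] in
include hμ in
/-- mean value inequality for holomorphic functions -/
theorem Semi.mean_value [Finite κ] : ∃ C, 0 < C ∧ ∀ (c : κ) (x₀ : Cn n) (r : ℝ) (h : M → ℂ),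
    0 < r → r ≤ 1 → nsq x₀ ≤ 16 →
    NF.HolC (fun x => h ((F.e c).symm x)) {x | nsq (x - x₀) < (2 * r) ^ 2} →
    ENNReal.ofReal (‖h ((F.e c).symm x₀)‖ ^ 2) ≤ ENNReal.ofReal (C / r ^ (2 * n)) *
      ∫⁻ p in (F.e c).symm '' {x | nsq (x - x₀) ≤ r ^ 2}, ENNReal.ofReal (‖h p‖ ^ 2) ∂μ := by
  obtain ⟨C, hC, hΩ⟩ := F.Ω_bound
  set v : ℝ := (volume {w : Cn n | nsq w ≤ 1}).toReal with hv
  have hvp : 0 < v := Pole.volume_unit_pos
  refine ⟨C / v, by positivity, fun c x₀ r h hr hr1 hx₀ hh => ?_⟩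
  set B : Set (Cn n) := {x | nsq (x - x₀) ≤ r ^ 2} with hBdef
  have hB : IsCompact B := by
    have h1 : B = (fun x => x - x₀) ⁻¹' {x | nsq x ≤ r ^ 2} := rfl
    rw [h1]
    exact (Homeomorph.subRight x₀).isCompact_preimage.2 (isCompact_le _)
  have hB81 : ∀ x ∈ B, nsq x ≤ 81 := by
    intro x hx
    have hx' : nsq (x - x₀) ≤ 1 := (show nsq (x - x₀) ≤ r ^ 2 from hx).trans (by nlinarith)
    have h2 : nsq x ≤ 2 * nsq (x - x₀) + 2 * nsq x₀ := by
      rw [KRFH.BallM.nsq_eq_sum, KRFH.BallM.nsq_eq_sum, KRFH.BallM.nsq_eq_sum, Finset.mul_sum,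
        Finset.mul_sum, ← Finset.sum_add_distrib]
      refine Finset.sum_le_sum fun j _ => ?_
      simp only [Prod.fst_sub, Prod.snd_sub, Pi.sub_apply]
      nlinarith [sq_nonneg (x.1 j - 2 * x₀.1 j), sq_nonneg (x.2 j - 2 * x₀.2 j)]
    linarith
  have hBt : B ⊆ (F.e c).target := fun x hx =>
    F.target c (lt_of_le_of_lt (hB81 x hx) (by norm_num))
  have hV : IsOpen {x : Cn n | nsq (x - x₀) < (2 * r) ^ 2} :=
    (isOpen_nsq_lt ((2 * r) ^ 2)).preimage (by fun_prop : Continuous fun x : Cn n => x - x₀)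
  have hsub : {w : Cn n | nsq (w - x₀) ≤ r ^ 2} ⊆ {x | nsq (x - x₀) < (2 * r) ^ 2} := by
    intro x hx
    have hx' : nsq (x - x₀) ≤ r ^ 2 := hx
    change nsq (x - x₀) < (2 * r) ^ 2
    nlinarith
  have h1 := Pole.mean_sq hV hh hr.le hsub
  rw [Pole.volume_ball x₀ hr] at h1
  have hcont : ContinuousOn (fun x => ‖h ((F.e c).symm x)‖ ^ 2) B :=
    (hh.1.continuousOn.mono hsub).norm.pow 2
  have hint : ∫ x in B, ‖h ((F.e c).symm x)‖ ^ 2 =
      (∫⁻ x in B, ENNReal.ofReal (‖h ((F.e c).symm x)‖ ^ 2)).toReal :=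
    integral_eq_lintegral_of_nonneg_ae (Eventually.of_forall fun w => by positivity)
      (hcont.aestronglyMeasurable hB.measurableSet)
  have hrn : 0 < r ^ (2 * n) := by positivity
  -- the lower integral over the ball
  have h2 : ENNReal.ofReal (‖h ((F.e c).symm x₀)‖ ^ 2) ≤ ENNReal.ofReal (1 / (r ^ (2 * n) * v)) *
      ∫⁻ x in B, ENNReal.ofReal (‖h ((F.e c).symm x)‖ ^ 2) := by
    have h3 : ‖h ((F.e c).symm x₀)‖ ^ 2 ≤ 1 / (r ^ (2 * n) * v) *
        ∫ x in B, ‖h ((F.e c).symm x)‖ ^ 2 := by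
      rw [one_div, inv_mul_eq_div, le_div_iff₀ (by positivity), mul_comm]
      exact h1
    refine (ENNReal.ofReal_le_ofReal h3).trans ?_
    rw [ENNReal.ofReal_mul (by positivity), hint]
    exact mul_le_mul_right ENNReal.ofReal_toReal_le _
  refine h2.trans ?_
  rw [F.lintegral_chart' hμ hB.measurableSet hBt]
  have h4 : ∫⁻ x in B, ENNReal.ofReal (‖h ((F.e c).symm x)‖ ^ 2) ≤ ENNReal.ofReal C *
      ∫⁻ x in B, ENNReal.ofReal (‖h ((F.e c).symm x)‖ ^ 2) * ENNReal.ofReal (F.Ω c x) := by
    rw [← lintegral_const_mul' _ _ ENNReal.ofReal_ne_top]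
    refine setLIntegral_mono' hB.measurableSet fun x hx => ?_
    have h5 := (hΩ c x (hB81 x hx)).2
    rw [← ENNReal.ofReal_mul (by positivity), ← ENNReal.ofReal_mul hC.le]
    refine ENNReal.ofReal_le_ofReal ?_
    have h6 : 0 ≤ ‖h ((F.e c).symm x)‖ ^ 2 := by positivity
    nlinarith
  refine (mul_le_mul_right h4 _).trans ?_
  rw [← mul_assoc, ← ENNReal.ofReal_mul (by positivity)]
  have h7 : 1 / (r ^ (2 * n) * v) * C = C / v / r ^ (2 * n) := by
    field_simp
  rw [h7]

end

end Pool.Agent.KRFZ
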