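import Pool.Agent.Work.MP_a2bf38_gt.Z.Setup

/-!
# Constants which exist by compactness (statements); proofs in `Z/Const.lean`, `Z/Const2.lean`
-/

open scoped ContDiff ENNReal ComplexOrder Topology
open Set MeasureTheory Filter Pool.Agent.ToricKRF Pool.Agent.ToricKRF.G Pool.Agent.KRFS
  Pool.Agent.KRFF Pool.Agent.KRFG Pool.Agent.KRFE

namespace Pool.Agent.KRFZ

section

variable {n N : ℕ} {M Z : Type} [MetricSpace M] [CompactSpace M] [MetricSpace Z] {κ P : Type}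
  [Finite κ] [Finite P] {T : ℝ} (F : Semi n N M Z κ P T)

/-! ## `Z/Const.lean` (helper33) -/

theorem Semi.lev_zero : ∃ C, 0 < C ∧ ∀ c x u, nsq x ≤ 81 →
    nsq u ≤ C * lev (F.ψ c) u (0, x) ∧ lev (F.ψ c) u (0, x) ≤ C * nsq u := sorry

theorem Semi.th_lip : ∃ C, 0 < C ∧ ∀ t ∈ Icc 0 T, ∀ c x, nsq x ≤ 81 → |F.th t c x| ≤ C ∧
    ∀ x', nsq x' ≤ 81 → |F.th t c x - F.th t c x'| ≤ C * √(nsq (x - x')) := sorry

/-- `ψ(t) = φ(t) + th` -/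
theorem Semi.psi_eq {t : ℝ} (ht : t ∈ Ico 0 T) {c : κ} {x : Cn n} (hx : x ∈ (F.e c).target) :
    F.ψ c (t, x) = F.Phi t ((F.e c).symm x) + F.th t c x := sorry

/-- near points are in the same charts -/
theorem Semi.near_chart : ∃ δ, 0 < δ ∧ ∀ c p p' r, p ∈ (F.e c).source → 0 ≤ r → r ≤ 8 →
    nsq (F.e c p) ≤ r ^ 2 → dist p p' ≤ δ →
    p' ∈ (F.e c).source ∧ nsq (F.e c p') ≤ (r + 1 / 10) ^ 2 := sorry

theorem Semi.dist_chart : ∃ C, 0 < C ∧ ∀ c p p', p ∈ (F.e c).source → p' ∈ (F.e c).source →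
    nsq (F.e c p) ≤ 81 → nsq (F.e c p') ≤ 81 →
    dist p p' ≤ C * √(nsq (F.e c p - F.e c p')) ∧ √(nsq (F.e c p - F.e c p')) ≤ C * dist p p' := sorry

theorem Semi.f_lip : ∃ C, 0 < C ∧ ∀ p p', dist (F.f p) (F.f p') ≤ C * dist p p' := sorry

/-- near points of `Z` are in the same charts of `Z` -/
theorem Semi.near_Z : ∃ δ, 0 < δ ∧ ∀ j z z' r, z ∈ F.S j → 0 ≤ r → r ≤ 8 →
    nsq (F.q j z) ≤ r ^ 2 → dist z z' ≤ δ → z' ∈ F.S j ∧ nsq (F.q j z') ≤ (r + 1 / 10) ^ 2 := sorry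

theorem Semi.dist_Z : ∃ C, 0 < C ∧ ∀ j z z', z ∈ F.S j → z' ∈ F.S j → nsq (F.q j z) ≤ 81 →
    nsq (F.q j z') ≤ 81 →
    dist z z' ≤ C * √(nsq (F.q j z - F.q j z')) ∧ √(nsq (F.q j z - F.q j z')) ≤ C * dist z z' := sorry

/-! ## `Z/Const2.lean` (helper70) -/

theorem Semi.K_bound : ∃ C, 0 < C ∧ ∀ j y, nsq y ≤ 81 → |F.K j y| ≤ C ∧
    (∀ y', nsq y' ≤ 81 → |F.K j y - F.K j y'| ≤ C * √(nsq (y - y'))) ∧
    ∀ u, nsq u ≤ C * levz (F.K j) u y ∧ levz (F.K j) u y ≤ C * nsq u := sorry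

theorem Semi.Ω_bound : ∃ C, 0 < C ∧ ∀ c x, nsq x ≤ 81 → F.Ω c x ≤ C ∧ 1 ≤ C * F.Ω c x := sorry

/-- `i ∂ ∂bar K_j ∘ F_j = θ` -/
theorem Semi.levz_K {c : κ} {j : P} {x : Cn n} (hx : x ∈ (F.e c).target)
    (hj : F.f ((F.e c).symm x) ∈ F.S j) (u : Cn n) :
    levz (fun x => F.K j (F.y j ((F.e c).symm x))) u x = levz (F.Θ c) u x := sorry

/-- `i ∂ ∂bar |F_j|^2 ≤ C θ` -/
theorem Semi.levz_nsq : ∃ C, 0 < C ∧ ∀ c j x, x ∈ (F.e c).target → (F.e c).symm x ∈ F.V j → ∀ u,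
    levz (fun x => nsq (F.y j ((F.e c).symm x))) u x ≤ C * levz (F.Θ c) u x := sorry

/-- `F_j` is Lipschitz for the metric `ω(0)` -/
theorem Semi.y_lip : ∃ C, 0 < C ∧ ∀ c j x, x ∈ (F.e c).target → (F.e c).symm x ∈ F.V j → ∀ u,
    nsq (fderiv ℝ (fun x => F.y j ((F.e c).symm x)) x u) ≤ C * lev (F.ψ c) u (0, x) := sorry

end

section

variable {n N : ℕ} {M Z : Type} [MetricSpace M] [CompactSpace M] [MeasurableSpace M] [BorelSpace M]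
  [MetricSpace Z] {κ P : Type} [Finite κ] [Finite P] {T : ℝ} (F : Semi n N M Z κ P T)
  {μ : Measure M} (hμ : HasDens F.e F.Ω μ)

/-! ## `Z/ConstM.lean` (helper70) -/

include hμ in
theorem Semi.lintegral_chart {c : κ} {B : Set (Cn n)} (hB : MeasurableSet B)
    (hBt : B ⊆ (F.e c).target) {g : M → ℝ≥0∞} (hg : Measurable g) :
    ∫⁻ p in (F.e c).symm '' B, g p ∂μ =
      ∫⁻ x in B, g ((F.e c).symm x) * ENNReal.ofReal (F.Ω c x) := sorry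

include hμ in
theorem Semi.finite : IsFiniteMeasure μ := sorry

theorem Semi.exists_measure : ∃ μ : Measure M, HasDens F.e F.Ω μ := sorry

include hμ in
/-- mean value inequality for holomorphic functions -/
theorem Semi.mean_value : ∃ C, 0 < C ∧ ∀ (c : κ) (x₀ : Cn n) (r : ℝ) (h : M → ℂ), 0 < r → r ≤ 1 →
    nsq x₀ ≤ 16 → NF.HolC (fun x => h ((F.e c).symm x)) {x | nsq (x - x₀) < (2 * r) ^ 2} →
    ENNReal.ofReal (‖h ((F.e c).symm x₀)‖ ^ 2) ≤ ENNReal.ofReal (C / r ^ (2 * n)) *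
      ∫⁻ p in (F.e c).symm '' {x | nsq (x - x₀) ≤ r ^ 2}, ENNReal.ofReal (‖h p‖ ^ 2) ∂μ := sorry

end

end Pool.Agent.KRFZ
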