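import Pool.Agent.Work.MP_a2bf38_gt.Z.Setup

/-!
# Families of holomorphic functions for the domination (KRF VI, step 5)
-/

open scoped ContDiff ENNReal ComplexOrder Topology
open Set MeasureTheory Filter Pool.Agent.ToricKRF Pool.Agent.ToricKRF.G Pool.Agent.KRFS
  Pool.Agent.KRFF Pool.Agent.KRFG Pool.Agent.KRFE

namespace Pool.Agent.KRFZ

section

variable {n N : ℕ} {M Z : Type} [MetricSpace M] [MetricSpace Z] {κ P : Type} {T : ℝ}
  (F : Semi n N M Z κ P T)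

/-- a set of pairs `(j, h)` which is closed under the transfer to the middle of the charts, for the
functions `τ val - b |F_j|^2` -/
def Semi.IsFam (τ b p : ℝ) (𝓕 : Set (P × (M → ℂ))) : Prop :=
  (∀ j h, (j, h) ∈ 𝓕 → F.Hol j h) ∧
  ∀ j h x, (j, h) ∈ 𝓕 → F.f x ∈ F.S j → 4 ≤ nsq (F.y j x) → nsq (F.y j x) ≤ 9 → h x ≠ 0 →
    ∃ i h', (i, h') ∈ 𝓕 ∧ F.f x ∈ F.S i ∧ nsq (F.y i x) ≤ 1 ∧ h' x ≠ 0 ∧
      τ * F.val p j h x - b * nsq (F.y j x) + 2 * b ≤ τ * F.val p i h' x - b * nsq (F.y i x)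

/-- `w ≤ φ(s) + B` for all functions of the family -/
def Semi.Below (τ b p : ℝ) (𝓕 : Set (P × (M → ℂ))) (s B : ℝ) : Prop :=
  ∀ j h x, (j, h) ∈ 𝓕 → F.f x ∈ F.S j → nsq (F.y j x) ≤ 9 → h x ≠ 0 →
    τ * F.val p j h x - b * nsq (F.y j x) ≤ F.Phi s x + B

end

end Pool.Agent.KRFZ
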