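import Pool.Agent.Work.MP_a2bf38_gt.X.NatCalc
import Pool.Agent.Work.MP_a2bf38_gt.H.Chain

/-!
# The isotropic pole `log (|w - a|^2 + ε^2)`
-/

open scoped ContDiff ENNReal ComplexOrder Topology
open Set MeasureTheory Filter Pool.Agent.ToricKRF Pool.Agent.ToricKRF.G Pool.Agent.KRFS
  Pool.Agent.KRFF Pool.Agent.KRFG Pool.Agent.KRFX

namespace Pool.Agent.KRFZ

namespace Pole

variable {m : ℕ}

theorem nsq_joinC {k l : ℕ} (u : Cn k) (y : Cn l) : nsq (joinC u y) = nsq u + nsq y := by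
  simp only [nsq, dotProduct, joinC, Fin.sum_univ_add, Fin.append_left, Fin.append_right]
  ring

/-- the weight with an isotropic pole -/
noncomputable def W0 (a : Cn m) (ε : ℝ) (w : Cn m) : ℝ := Real.log (nsq (w - a) + ε ^ 2)

/-- the linear part of `w ↦ (w - a, ε)` -/
noncomputable def embL (m : ℕ) : Cn m →L[ℝ] Cn (m + 1) :=
  ((NT.splitE m 1).symm : Cn m × Cn 1 →L[ℝ] Cn (m + 1)).comp
    ((ContinuousLinearMap.id ℝ (Cn m)).prod 0)

/-- the map `w ↦ (w - a, ε)` -/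
noncomputable def emb (a : Cn m) (ε : ℝ) (w : Cn m) : Cn (m + 1) :=
  joinC (-a) (ofC fun _ : Fin 1 => (ε : ℂ)) + embL m w

theorem W0_smooth (a : Cn m) {ε : ℝ} (hε : 0 < ε) : ContDiff ℝ ∞ (W0 a ε) := by
  unfold W0
  refine ContDiff.log ?_ fun w => ?_
  · exact (NC.contDiff_nsq.comp (contDiff_id.sub contDiff_const)).add contDiff_const
  · have := NC.nsq_nonneg (w - a)
    positivity

theorem embL_apply (w : Cn m) : embL m w = joinC w (0 : Cn 1) := rfl

theorem emb_eq (a : Cn m) (ε : ℝ) (w : Cn m) :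
    emb a ε w = joinC (w - a) (ofC fun _ : Fin 1 => (ε : ℂ)) := by
  rw [emb, embL_apply, ← NT.joinC_add, add_zero, neg_add_eq_sub]

theorem nsq_emb (a : Cn m) (ε : ℝ) (w : Cn m) : nsq (emb a ε w) = nsq (w - a) + ε ^ 2 := by
  rw [emb_eq, nsq_joinC]
  congr 1
  simp [nsq, dotProduct, ofC]
  ring

theorem emb_holOn (a : Cn m) (ε : ℝ) (S : Set (Cn m)) : HolOn (emb a ε) S :=
  NT.hol_affine (embL m) (fun u => by
    have h0 : J (0 : Cn 1) = 0 := by
      ext i <;> simp [J]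
    rw [embL_apply, embL_apply, ← NT.joinC_J, h0]) _ S

theorem nsq_emb_ne (a : Cn m) {ε : ℝ} (hε : 0 < ε) (w : Cn m) : nsq (emb a ε w) ≠ 0 := by
  rw [nsq_emb]
  have := NC.nsq_nonneg (w - a)
  positivity

/-- the weight with an isotropic pole is psh -/
theorem W0_psh (a : Cn m) {ε : ℝ} (hε : 0 < ε) (w u : Cn m) : 0 ≤ levz (W0 a ε) u w := by
  have h1 : W0 a ε = fun w => Real.log (nsq (emb a ε w)) := by
    funext w
    rw [nsq_emb]
    rfl
  have hopen : IsOpen {z : Cn (m + 1) | nsq z ≠ 0} :=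
    isOpen_ne_fun NC.contDiff_nsq.continuous continuous_const
  rw [h1, levz_comp (f := fun z => Real.log (nsq z)) hopen NC.contDiffOn_log_nsq isOpen_univ
    (emb_holOn a ε univ) (mem_univ w) (nsq_emb_ne a hε w) u, NC.levz_log_nsq (nsq_emb_ne a hε w)]
  exact div_nonneg (NC.fs_nonneg _ _) (sq_nonneg _)

end Pole

end Pool.Agent.KRFZ
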