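import Pool.Agent.Work.MP_a2bf38_gt.Z.Const
import Pool.Agent.Work.MP_a2bf38_gt.Z.ConstM
import Pool.Agent.Work.MP_a2bf38_gt.Z.Fam
import Pool.Agent.Work.MP_a2bf38_gt.Z.Pole
import Pool.Agent.Work.MP_a2bf38_gt.Z.PoleW
import Pool.Agent.Work.MP_a2bf38_gt.I.GapB
import Pool.Agent.Work.MP_a2bf38_gt.I.ABP2
import Pool.Agent.Work.MP_a2bf38_gt.K.ContactA

/-!
# Holomorphic functions and the flow: domination at the time `t` (Z/DomA)

The contact set (ABP) in a small ball around a near-maximum, and the inequality of Chebyshev.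
-/

open scoped ContDiff ENNReal ComplexOrder Topology
open Set MeasureTheory Filter Pool.Agent.ToricKRF Pool.Agent.ToricKRF.G Pool.Agent.KRFS
  Pool.Agent.KRFF Pool.Agent.KRFG Pool.Agent.KRFE

namespace Pool.Agent.KRFZ

namespace DomA

/-- the regularized logarithm of a holomorphic function -/
theorem log_reg {n : ℕ} {h : Cn n → ℂ} {S : Set (Cn n)} (hS : IsOpen S) (hh : NF.HolC h S)
    {δ : ℝ} (hδ : 0 < δ) :
    ContDiffOn ℝ ∞ (fun z => Real.log (‖h z‖ ^ 2 + δ ^ 2)) S ∧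
      ∀ z ∈ S, ∀ u, 0 ≤ levz (fun z => Real.log (‖h z‖ ^ 2 + δ ^ 2)) u z := by
  have hH := (Touch.holOn_ofC (h := fun _ : Fin 1 => h) hS fun _ => hh).1
  have e1 : (fun z => Real.log (‖h z‖ ^ 2 + δ ^ 2)) =
      fun z => Pole.W0 (0 : Cn 1) δ (ofC fun _ : Fin 1 => h z) := by
    funext z
    unfold Pole.W0
    rw [sub_zero, Pole.nsq_ofC_const]
  have hW : ContDiffOn ℝ ∞ (Pole.W0 (0 : Cn 1) δ) univ := (Pole.W0_smooth 0 hδ).contDiffOn
  rw [e1]
  refine ⟨hW.comp hH.1 fun _ _ => mem_univ _, fun z hz u => ?_⟩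
  rw [levz_comp isOpen_univ hW hS hH hz (mem_univ _) u]
  exact Pole.W0_psh 0 hδ _ _

/-- the logarithm and the regularized logarithm -/
theorem log_compare {a m δ₁ s : ℝ} (hm : 0 < m) (ha : 0 ≤ a) (hs : 0 < s)
    (hs1 : s ≤ m * min 1 δ₁) :
    (a ≤ m → Real.log (a + s) ≤ Real.log (2 * m)) ∧
    (m < a → Real.log (a + s) ≤ Real.log a + δ₁) ∧ (0 < a → Real.log a ≤ Real.log (a + s)) := by
  have h1 : s ≤ m * 1 := hs1.trans (mul_le_mul_of_nonneg_left (min_le_left _ _) hm.le)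
  have h2 : s ≤ m * δ₁ := hs1.trans (mul_le_mul_of_nonneg_left (min_le_right _ _) hm.le)
  refine ⟨fun h => Real.log_le_log (by linarith) (by linarith), fun h => ?_,
    fun h => Real.log_le_log h (by linarith)⟩
  have ha0 : 0 < a := hm.trans h
  have h3 : a + s = a * (1 + s / a) := by
    field_simp
  have h4 : 0 ≤ s / a := by positivity
  have h5 : s / a ≤ δ₁ := by
    rw [div_le_iff₀ ha0]
    have h6 : 0 < δ₁ := by
      by_contra hneg
      have : m * δ₁ ≤ 0 := mul_nonpos_of_nonneg_of_nonpos hm.le (not_lt.1 hneg)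
      linarith
    nlinarith
  rw [h3, Real.log_mul ha0.ne' (by positivity)]
  have h7 := Real.log_le_sub_one_of_pos (show 0 < 1 + s / a by positivity)
  linarith

theorem two_sq {a r : ℝ} (h : a ≤ r ^ 2) : a ≤ (2 * r) ^ 2 := by
  nlinarith [sq_nonneg r]

theorem two_sq_le {a r : ℝ} (h0 : 0 ≤ r) (h1 : r ≤ 1) (h : a ≤ (2 * r) ^ 2) : a ≤ 4 := by
  nlinarith

theorem le_two_mul {τ C : ℝ} (hτ : 1 / 2 ≤ τ) (hC : 0 ≤ C) : C ≤ 2 * τ * C := by
  nlinarith

theorem neg_le_mul {τ C K : ℝ} (hτ : 0 ≤ τ) (hτ1 : τ ≤ 1) (hC : 0 ≤ C) (hK : -C ≤ K) :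
    -C ≤ τ * K := by
  nlinarith

end DomA

section

variable {n N : ℕ} {M Z : Type} [MetricSpace M] [MetricSpace Z] {κ P : Type} {T : ℝ}
  (F : Semi n N M Z κ P T)

theorem DomA.isOpen_V (j : P) : IsOpen (F.V j) := by
  have h1 : ContinuousOn (fun z => nsq (F.q j z)) (F.S j) :=
    Gap.contDiff_nsq'.continuous.comp_continuousOn (F.emb.qcont j)
  have h2 : IsOpen (F.S j ∩ (fun z => nsq (F.q j z)) ⁻¹' Iio 81) :=
    h1.isOpen_inter_preimage (F.emb.isOpen j) isOpen_Iio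
  exact h2.preimage F.emb.cont

theorem DomA.isOpen_VC (c : κ) (j : P) :
    IsOpen {x | x ∈ (F.e c).target ∧ (F.e c).symm x ∈ F.V j} :=
  (F.e c).symm.isOpen_inter_preimage (DomA.isOpen_V F j)

theorem DomA.det_le {c : κ} {t : ℝ} (ht : t ∈ Ico 0 T) {z : Cn n} (hz : z ∈ (F.e c).target)
    {Cd C : ℝ} (hd : F.dphi c (t, z) ≤ Cd) (hΩ : F.Ω c z ≤ C) :
    (cHess (F.ψ c) (t, z)).det.re ≤ C * Real.exp Cd := by
  have h1 := Gap.det_pos' F.toFlow ht hz
  have h2 := F.vol.pos c z hz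
  have h3 : Real.log (cHess (F.ψ c) (t, z)).det.re ≤ Real.log (F.Ω c z) + Cd := by
    have : F.dphi c (t, z) = Real.log (cHess (F.ψ c) (t, z)).det.re - Real.log (F.Ω c z) := rfl
    linarith
  have h4 := Real.exp_le_exp.2 h3
  rw [Real.exp_log h1, Real.exp_add, Real.exp_log h2] at h4
  exact h4.trans (mul_le_mul_of_nonneg_right hΩ (Real.exp_pos _).le)

/-- the estimate on a ball -/
theorem DomA.contact_ball {Ca : ℝ} (hCa : 0 < Ca)
    (habp : ∀ (v : Cn n → ℝ) (f : ℝ × Cn n → ℝ) (t : ℝ)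
      (V : Set (Cn n)) (U : Set (ℝ × Cn n)) (z₀ : Cn n) (r ε D₁ : ℝ),
      IsOpen V → ContDiffOn ℝ ∞ v V → IsOpen U → ContDiffOn ℝ ∞ f U → 0 < r → 0 < ε →
      {z | nsq (z - z₀) ≤ r ^ 2} ⊆ V →
      (∀ z, nsq (z - z₀) ≤ r ^ 2 → (t, z) ∈ U ∧ (cHess f (t, z)).PosDef ∧
        (cHess f (t, z)).det.re ≤ D₁ ∧ ∀ u, levz v u z ≤ lev f u (t, z)) →
      (∀ z, nsq (z - z₀) = r ^ 2 → v z₀ + ε ≤ v z) →
      ENNReal.ofReal ((ε / r) ^ (2 * n)) ≤ ENNReal.ofReal (Ca * D₁ ^ 2) *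
        volume {z | nsq (z - z₀) ≤ r ^ 2 ∧ v z ≤ v z₀ + ε})
    {t : ℝ} (ht : t ∈ Ico 0 T) {c : κ} {j : P} {h : M → ℂ} {z₀ : Cn n}
    {r C₁ C₂ D₁ Cφ CK τ b p E : ℝ} (hr : 0 < r) (hC₁ : 0 < C₁) (hD₁ : 0 < D₁) (hh : F.Hol j h)
    (hτ : 0 < τ) (hτ1 : τ ≤ 1) (hb : 0 ≤ b) (hp : 1 ≤ p) (hτb : τ + b * C₂ ≤ t / T)
    (hball : ∀ z, nsq (z - z₀) ≤ r ^ 2 → z ∈ (F.e c).target ∧ (F.e c).symm z ∈ F.V j ∧
      (∀ u, nsq u ≤ C₁ * lev (F.ψ c) u (0, z)) ∧ (cHess (F.ψ c) (t, z)).det.re ≤ D₁ ∧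
      (∀ u, levz (fun x => nsq (F.y j ((F.e c).symm x))) u z ≤ C₂ * levz (F.Θ c) u z) ∧
      (∀ u, levz (fun x => F.K j (F.y j ((F.e c).symm x))) u z = levz (F.Θ c) u z) ∧
      |F.Phi t ((F.e c).symm z)| ≤ Cφ ∧ |F.K j (F.y j ((F.e c).symm z))| ≤ CK)
    (hle : ∀ z, nsq (z - z₀) ≤ r ^ 2 → h ((F.e c).symm z) ≠ 0 →
      τ * F.val p j h ((F.e c).symm z) - b * nsq (F.y j ((F.e c).symm z)) ≤
        F.Phi t ((F.e c).symm z) + E)
    (h0 : h ((F.e c).symm z₀) ≠ 0)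
    (hge : F.Phi t ((F.e c).symm z₀) + E - (1 - t / T) / C₁ * r ^ 2 / 8 ≤
      τ * F.val p j h ((F.e c).symm z₀) - b * nsq (F.y j ((F.e c).symm z₀))) :
    ∃ S ⊆ {z | nsq (z - z₀) ≤ r ^ 2}, IsCompact S ∧
      ENNReal.ofReal (((1 - t / T) * r / (2 * C₁)) ^ (2 * n) / (Ca * D₁ ^ 2)) ≤ volume S ∧
      ∀ z ∈ S, h ((F.e c).symm z) ≠ 0 ∧
        F.Phi t ((F.e c).symm z) + E - (1 - t / T) / C₁ * r ^ 2 ≤
          τ * F.val p j h ((F.e c).symm z) := by
  have hT : 0 < T := ht.1.trans_lt ht.2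
  have hd0 : 0 < 1 - t / T := by
    rw [sub_pos, div_lt_one hT]
    exact ht.2
  have hp0 : 0 < p := one_pos.trans_le hp
  set y : Cn n → Cn N := fun z => F.y j ((F.e c).symm z) with hydef
  set S₁ : Set (Cn n) := {x | x ∈ (F.e c).target ∧ (F.e c).symm x ∈ F.V j} with hS₁
  have hS₁o : IsOpen S₁ := DomA.isOpen_VC F c j
  have hyhol : HolOn y S₁ := by
    have h1 := F.emb.holo c j
    exact ⟨h1.1.mono fun z hz => ⟨hz.1, hz.2.1⟩, fun z hz => h1.2 z ⟨hz.1, hz.2.1⟩⟩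
  have hyS : ContDiffOn ℝ ∞ y S₁ := hyhol.1
  have hy81 : ∀ z ∈ S₁, nsq (y z) < 100 := fun z hz => by
    have h1 : nsq (y z) < 81 := hz.2.2
    linarith
  set Λ : ℝ := (1 - t / T) / C₁ with hΛ
  have hΛ0 : 0 < Λ := by positivity
  set ε : ℝ := Λ * r ^ 2 / 2 with hε
  set δ₁ : ℝ := Λ * r ^ 2 / 8 with hδ₁
  have hε0 : 0 < ε := by positivity
  have hδ₁0 : 0 < δ₁ := by positivity
  set B : Set (Cn n) := {z | nsq (z - z₀) ≤ r ^ 2} with hB
  have hz₀B : z₀ ∈ B := by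
    simp only [hB, mem_ofPred_eq, sub_self, Gap.nsq_zero]
    positivity
  have hBS₁ : B ⊆ S₁ := fun z hz => ⟨(hball z hz).1, (hball z hz).2.1⟩
  have hCφ : 0 ≤ Cφ := (abs_nonneg _).trans (hball z₀ hz₀B).2.2.2.2.2.2.1
  have hCK : 0 ≤ CK := (abs_nonneg _).trans (hball z₀ hz₀B).2.2.2.2.2.2.2
  -- the regularized logarithm
  set L : ℝ := |E| + Cφ + CK + Λ * r ^ 2 + 1 with hL
  set m : ℝ := Real.exp (-(p / τ * L)) / 2 with hm
  have hm0 : 0 < m := by positivity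
  have hlogm : Real.log (2 * m) = -(p / τ * L) := by
    rw [hm, mul_div_cancel₀ _ (two_ne_zero), Real.log_exp]
  set δ : ℝ := √(m * min 1 δ₁) with hδ
  have hmin0 : 0 < m * min 1 δ₁ := mul_pos hm0 (lt_min one_pos hδ₁0)
  have hδ0 : 0 < δ := Real.sqrt_pos.2 hmin0
  have hδ2 : δ ^ 2 = m * min 1 δ₁ := Real.sq_sqrt hmin0.le
  set g : Cn n → ℝ := fun z => Real.log (‖h ((F.e c).symm z)‖ ^ 2 + δ ^ 2) with hg
  have hhol : NF.HolC (fun z => h ((F.e c).symm z)) S₁ := hh c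
  obtain ⟨hgs, hgpsh⟩ := DomA.log_reg hS₁o hhol hδ0
  have hgc : ∀ z, (‖h ((F.e c).symm z)‖ ^ 2 ≤ m → g z ≤ -(p / τ * L)) ∧
      (m < ‖h ((F.e c).symm z)‖ ^ 2 → g z ≤ Real.log (‖h ((F.e c).symm z)‖ ^ 2) + δ₁) ∧
      (0 < ‖h ((F.e c).symm z)‖ ^ 2 → Real.log (‖h ((F.e c).symm z)‖ ^ 2) ≤ g z) := by
    intro z
    have h1 := DomA.log_compare (a := ‖h ((F.e c).symm z)‖ ^ 2) (δ₁ := δ₁) (s := δ ^ 2) hm0
      (by positivity) (by positivity) hδ2.le
    rw [hlogm] at h1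
    exact h1
  -- smoothness
  obtain ⟨Uφ, hUφ, hUφs, hφ⟩ := F.toFlow.phi_isFun.smooth c
  have hSφ : ContDiffOn ℝ ∞ (fun z => F.phi c (t, z)) S₁ :=
    hφ.comp (contDiff_const.prodMk contDiff_id).contDiffOn fun z hz => hUφs ⟨ht, hz.1⟩
  have hSK : ContDiffOn ℝ ∞ (fun z => F.K j (y z)) S₁ :=
    (F.pull.smooth j).comp hyS fun z hz => hy81 z hz
  have hSy : ContDiffOn ℝ ∞ (fun z => nsq (y z)) S₁ :=
    Gap.contDiff_nsq'.comp_contDiffOn hyS
  have hSn : ContDiffOn ℝ ∞ (fun z => nsq (z - z₀)) S₁ :=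
    (Gap.contDiff_nsq'.comp (contDiff_id.sub contDiff_const)).contDiffOn
  set v : Cn n → ℝ := fun z => F.phi c (t, z) + τ * F.K j (y z) + b * nsq (y z) - τ / p * g z +
    Λ * nsq (z - z₀) with hv
  have hvs : ContDiffOn ℝ ∞ v S₁ :=
    (((hSφ.add (contDiffOn_const.mul hSK)).add (contDiffOn_const.mul hSy)).sub
      (contDiffOn_const.mul hgs)).add (contDiffOn_const.mul hSn)
  have hPhi : ∀ z ∈ B, F.Phi t ((F.e c).symm z) = F.phi c (t, z) := fun z hz => by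
    rw [F.toFlow.Phi_eq ht ((F.e c).map_target (hBS₁ hz).1), (F.e c).right_inv (hBS₁ hz).1]
  have hτp : τ / p ≤ 1 := by
    rw [div_le_one hp0]
    linarith
  have hτp0 : 0 < τ / p := by positivity
  have hval : ∀ z, τ * F.val p j h ((F.e c).symm z) =
      τ / p * Real.log (‖h ((F.e c).symm z)‖ ^ 2) - τ * F.K j (y z) := by
    intro z
    simp only [Semi.val, hydef]
    ring
  -- where `h` is small
  have hsmall : ∀ z ∈ B, ‖h ((F.e c).symm z)‖ ^ 2 ≤ m →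
      |E| + Λ * r ^ 2 + 1 + Λ * nsq (z - z₀) ≤ v z := by
    intro z hz hzm
    have h1 := (hgc z).1 hzm
    have h2 := (abs_le.1 (hball z hz).2.2.2.2.2.2.1).1
    have h3 := (abs_le.1 (hball z hz).2.2.2.2.2.2.2).1
    rw [hPhi z hz] at h2
    have h4 : τ / p * g z ≤ -L := by
      have h5 : τ / p * g z ≤ τ / p * -(p / τ * L) := mul_le_mul_of_nonneg_left h1 hτp0.le
      have h6 : τ / p * -(p / τ * L) = -L := by
        field_simp
      rwa [h6] at h5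
    have h5 : -CK ≤ τ * F.K j (y z) := DomA.neg_le_mul hτ.le hτ1 hCK h3
    have h6 : 0 ≤ b * nsq (y z) := mul_nonneg hb (Gap.nsq_nonneg _)
    simp only [hv]
    rw [hL] at h4
    linarith
  -- where `h` is large
  have hlarge : ∀ z ∈ B, m < ‖h ((F.e c).symm z)‖ ^ 2 → h ((F.e c).symm z) ≠ 0 ∧
      F.Phi t ((F.e c).symm z) - (τ * F.val p j h ((F.e c).symm z) -
        b * nsq (F.y j ((F.e c).symm z))) - δ₁ + Λ * nsq (z - z₀) ≤ v z := by
    intro z hz hzm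
    refine ⟨fun h1 => ?_, ?_⟩
    · rw [h1, norm_zero] at hzm
      norm_num at hzm
      linarith
    · have h1 := (hgc z).2.1 hzm
      rw [hPhi z hz, hval z]
      have h2 : τ / p * g z ≤ τ / p * (Real.log (‖h ((F.e c).symm z)‖ ^ 2) + δ₁) :=
        mul_le_mul_of_nonneg_left h1 hτp0.le
      have h3 : τ / p * δ₁ ≤ 1 * δ₁ := mul_le_mul_of_nonneg_right hτp hδ₁0.le
      simp only [hv]
      change F.phi c (t, z) - (τ / p * Real.log (‖h ((F.e c).symm z)‖ ^ 2) - τ * F.K j (y z) -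
        b * nsq (y z)) - δ₁ + Λ * nsq (z - z₀) ≤ _
      linarith
  have hlow : ∀ z ∈ B, -E - δ₁ + Λ * nsq (z - z₀) ≤ v z := by
    intro z hz
    rcases le_or_gt (‖h ((F.e c).symm z)‖ ^ 2) m with h1 | h1
    · have h2 := hsmall z hz h1
      have h3 := neg_abs_le E
      have h4 : 0 ≤ Λ * r ^ 2 := by positivity
      linarith
    · obtain ⟨h2, h3⟩ := hlarge z hz h1
      have h4 := hle z hz h2
      linarith
  have hv0 : v z₀ ≤ -E + Λ * r ^ 2 / 8 := by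
    have h1 := (hgc z₀).2.2 (by
      have := norm_pos_iff.2 h0
      positivity)
    rw [hPhi z₀ hz₀B, hval z₀] at hge
    have h2 : τ / p * Real.log (‖h ((F.e c).symm z₀)‖ ^ 2) ≤ τ / p * g z₀ :=
      mul_le_mul_of_nonneg_left h1 hτp0.le
    simp only [hv, sub_self, Gap.nsq_zero, mul_zero, add_zero]
    change F.phi c (t, z₀) + E - Λ * r ^ 2 / 8 ≤ τ / p * Real.log (‖h ((F.e c).symm z₀)‖ ^ 2) -
      τ * F.K j (y z₀) - b * nsq (y z₀) at hge
    linarith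
  obtain ⟨U, hU, hUsub, hψU⟩ := F.krf.smooth c
  have hABP := habp v (F.ψ c) t S₁ U z₀ r ε D₁ hS₁o hvs hU hψU hr hε0 hBS₁
    (by
      intro z hz
      have hzS₁ := hBS₁ hz
      have hzt := hzS₁.1
      obtain ⟨-, -, g1, g2, g3, g4, -, -⟩ := hball z hz
      refine ⟨hUsub ⟨ht, hzt⟩, F.krf.pos c t ht z hzt, g2, fun u => ?_⟩
      have hn : S₁ ∈ 𝓝 z := hS₁o.mem_nhds hzS₁
      have a1 : ContDiffAt ℝ 2 (fun z => F.phi c (t, z)) z :=
        (hSφ.contDiffAt hn).of_le two_le_infty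
      have a2 : ContDiffAt ℝ 2 (fun z => F.K j (y z)) z := (hSK.contDiffAt hn).of_le two_le_infty
      have a3 : ContDiffAt ℝ 2 g z := (hgs.contDiffAt hn).of_le two_le_infty
      have a4 : ContDiffAt ℝ 2 (fun z => nsq (y z)) z := (hSy.contDiffAt hn).of_le two_le_infty
      have a5 : ContDiffAt ℝ 2 (fun z => nsq (z - z₀)) z := (hSn.contDiffAt hn).of_le two_le_infty
      have a2' : ContDiffAt ℝ 2 (fun z => τ * F.K j (y z)) z := contDiffAt_const.mul a2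
      have a3' : ContDiffAt ℝ 2 (fun z => τ / p * g z) z := contDiffAt_const.mul a3
      have a4' : ContDiffAt ℝ 2 (fun z => b * nsq (y z)) z := contDiffAt_const.mul a4
      have a5' : ContDiffAt ℝ 2 (fun z => Λ * nsq (z - z₀)) z := contDiffAt_const.mul a5
      have e0 : levz v u z = levz (fun z => F.phi c (t, z)) u z +
          τ * levz (fun z => F.K j (y z)) u z + b * levz (fun z => nsq (y z)) u z -
          τ / p * levz g u z + Λ * nsq u := by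
        rw [hv, Bd.levz_add (((a1.add a2').add a4').sub a3') a5',
          Bd.levz_sub ((a1.add a2').add a4') a3', Bd.levz_add (a1.add a2') a4',
          Bd.levz_add a1 a2', Bd.levz_const_mul _ a2, Bd.levz_const_mul _ a4,
          Bd.levz_const_mul _ a3, Bd.levz_const_mul _ a5, Gap.levz_nsq]
      rw [e0, levz_slice hUφ hφ (hUφs ⟨ht, hzt⟩), F.toFlow.lev_phi ht hzt]
      have e1 : levz (fun z => F.K j (y z)) u z = levz (F.Θ c) u z := g4 u
      have e2 : 0 ≤ τ / p * levz g u z := mul_nonneg hτp0.le (hgpsh z hzS₁ u)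
      have e3 : Λ * nsq u ≤ (1 - t / T) * lev (F.ψ c) u (0, z) := by
        have g5 := g1 u
        rw [hΛ, div_mul_eq_mul_div, div_le_iff₀ hC₁]
        calc (1 - t / T) * nsq u ≤ (1 - t / T) * (C₁ * lev (F.ψ c) u (0, z)) :=
              mul_le_mul_of_nonneg_left g5 hd0.le
          _ = (1 - t / T) * lev (F.ψ c) u (0, z) * C₁ := by ring
      have e4 : b * levz (fun z => nsq (y z)) u z ≤ b * (C₂ * levz (F.Θ c) u z) :=
        mul_le_mul_of_nonneg_left (g3 u) hb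
      have e5 : (τ + b * C₂) * levz (F.Θ c) u z ≤ t / T * levz (F.Θ c) u z :=
        mul_le_mul_of_nonneg_right hτb (F.psh c z hzt u)
      rw [e1]
      linarith)
    (by
      intro z hz
      have h1 := hlow z hz.le
      rw [hz] at h1
      linarith)
  have hBc : IsCompact B := isCompact_nsq_sub z₀ hr
  have hvB : ContinuousOn v B := hvs.continuousOn.mono hBS₁
  refine ⟨{z | nsq (z - z₀) ≤ r ^ 2 ∧ v z ≤ v z₀ + ε}, fun z hz => hz.1, ?_, ?_, ?_⟩
  · have h1 : IsClosed (B ∩ v ⁻¹' Iic (v z₀ + ε)) :=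
      hvB.preimage_isClosed_of_isClosed hBc.isClosed isClosed_Iic
    exact hBc.of_isClosed_subset h1 inter_subset_left
  · have hpos : 0 < Ca * D₁ ^ 2 := by positivity
    have h1 : ε / r = (1 - t / T) * r / (2 * C₁) := by
      rw [hε, hΛ]
      field_simp
    rw [h1] at hABP
    rw [ENNReal.ofReal_div_of_pos hpos]
    exact ENNReal.div_le_of_le_mul' hABP
  · intro z hz
    have hz1 : z ∈ B := hz.1
    have hz2 := hz.2
    have h4 : 0 ≤ Λ * nsq (z - z₀) := mul_nonneg hΛ0.le (Gap.nsq_nonneg _)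
    have h5 : 0 < Λ * r ^ 2 := by positivity
    rcases le_or_gt (‖h ((F.e c).symm z)‖ ^ 2) m with h1 | h1
    · exfalso
      have h2 := hsmall z hz1 h1
      have h3 := neg_abs_le E
      linarith
    · obtain ⟨h2, h3⟩ := hlarge z hz1 h1
      refine ⟨h2, ?_⟩
      have h6 : 0 ≤ b * nsq (F.y j ((F.e c).symm z)) := mul_nonneg hb (Gap.nsq_nonneg _)
      linarith

end

section

variable {n N : ℕ} {M Z : Type} [MetricSpace M] [CompactSpace M] [MetricSpace Z] {κ P : Type}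
  [Finite κ] [Finite P] {T : ℝ} (F : Semi n N M Z κ P T)

/-- a radius such that `y j` moves by at most `1/10` in balls of the charts -/
theorem DomA.exists_rad : ∃ r₀, 0 < r₀ ∧ r₀ ≤ 1 ∧ ∀ (c : κ) (j : P) (z₀ z : Cn n) (ρ : ℝ),
    nsq z₀ ≤ 16 → F.f ((F.e c).symm z₀) ∈ F.S j → 0 ≤ ρ → ρ ≤ 8 →
    nsq (F.y j ((F.e c).symm z₀)) ≤ ρ ^ 2 → nsq (z - z₀) ≤ (2 * r₀) ^ 2 →
    z ∈ (F.e c).target ∧ nsq z ≤ 81 ∧ F.f ((F.e c).symm z) ∈ F.S j ∧
      nsq (F.y j ((F.e c).symm z)) ≤ (ρ + 1 / 10) ^ 2 := by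
  obtain ⟨δ, hδ, hnear⟩ := F.near_Z
  obtain ⟨Cf, hCf, hf⟩ := F.f_lip
  obtain ⟨Cd, hCd, hd⟩ := F.dist_chart
  refine ⟨min 1 (δ / (2 * Cf * Cd)), lt_min one_pos (by positivity), min_le_left _ _, ?_⟩
  intro c j z₀ z ρ hz₀ hj hρ hρ8 hy hz
  set r : ℝ := min 1 (δ / (2 * Cf * Cd)) with hr
  have hr0 : 0 < r := lt_min one_pos (by positivity)
  have hr1 : r ≤ 1 := min_le_left _ _
  have hr2 : r * (2 * Cf * Cd) ≤ δ := by
    have := min_le_right 1 (δ / (2 * Cf * Cd))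
    rwa [← le_div_iff₀ (by positivity)]
  have hz81 : nsq z ≤ 81 := by
    have h1 := Ct.nsq_add_le (z - z₀) z₀
    have h2 := DomA.two_sq_le hr0.le hr1 hz
    rw [sub_add_cancel] at h1
    linarith
  have hzt : z ∈ (F.e c).target := F.target c (show nsq z < 100 by linarith)
  have hz₀t : z₀ ∈ (F.e c).target := F.target c (show nsq z₀ < 100 by linarith)
  have h1 := (hd c ((F.e c).symm z₀) ((F.e c).symm z) ((F.e c).map_target hz₀t)
    ((F.e c).map_target hzt) (by rw [(F.e c).right_inv hz₀t]; linarith)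
    (by rw [(F.e c).right_inv hzt]; exact hz81)).1
  rw [(F.e c).right_inv hz₀t, (F.e c).right_inv hzt] at h1
  have h2 : √(nsq (z₀ - z)) ≤ 2 * r := by
    rw [Real.sqrt_le_left (by positivity)]
    have h3 : nsq (z₀ - z) = nsq (z - z₀) := by
      rw [show z₀ - z = -(z - z₀) from (neg_sub z z₀).symm]
      simp only [nsq, Prod.fst_neg, Prod.snd_neg, neg_dotProduct, dotProduct_neg, neg_neg]
    rw [h3]
    exact hz
  have h3 : dist (F.f ((F.e c).symm z₀)) (F.f ((F.e c).symm z)) ≤ δ := by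
    calc dist (F.f ((F.e c).symm z₀)) (F.f ((F.e c).symm z))
        ≤ Cf * dist ((F.e c).symm z₀) ((F.e c).symm z) := hf _ _
      _ ≤ Cf * (Cd * (2 * r)) := by
          refine mul_le_mul_of_nonneg_left (h1.trans ?_) hCf.le
          exact mul_le_mul_of_nonneg_left h2 hCd.le
      _ = r * (2 * Cf * Cd) := by ring
      _ ≤ δ := hr2
  obtain ⟨h4, h5⟩ := hnear j _ _ ρ hj hρ hρ8 hy h3
  exact ⟨hzt, hz81, h4, h5⟩

end

section

variable {n N : ℕ} {M Z : Type} [MetricSpace M] [CompactSpace M] [MeasurableSpace M] [BorelSpace M]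
  [MetricSpace Z] {κ P : Type} [Finite κ] [Finite P] {T : ℝ} (F : Semi n N M Z κ P T)
  {μ : Measure M} (hμ : HasDens F.e F.Ω μ)

include hμ in
theorem Semi.adm_bound : ∃ C, 0 ≤ C ∧ ∀ t ∈ Ico 0 T, ∀ p, 1 ≤ p → ∀ j h x,
    F.Adm μ t p j h → F.f x ∈ F.S j → nsq (F.y j x) ≤ 9 → h x ≠ 0 → F.val p j h x ≤ C := by
  obtain ⟨r, hr, hr1, hrad⟩ := DomA.exists_rad F
  obtain ⟨Cm, hCm, hmean⟩ := F.mean_value hμ
  obtain ⟨CK, hCK, hK⟩ := F.K_bound
  obtain ⟨Cφ, hCφ, hφ⟩ := F.toFlow.Phi_bound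
  set A : ℝ := Cm / r ^ (2 * n) with hA
  have hA0 : 0 < A := by positivity
  refine ⟨|Real.log A| + Cφ + 2 * CK, by positivity, ?_⟩
  intro t ht p hp j h x hadm hxS hx9 hx0
  have hp0 : 0 < p := one_pos.trans_le hp
  obtain ⟨c, hc, hc1⟩ := F.cover x
  set z₀ := F.e c x with hz₀
  have hsz₀ : (F.e c).symm z₀ = x := (F.e c).left_inv hc
  have hball : ∀ z, nsq (z - z₀) ≤ (2 * r) ^ 2 → z ∈ (F.e c).target ∧ nsq z ≤ 81 ∧
      F.f ((F.e c).symm z) ∈ F.S j ∧ nsq (F.y j ((F.e c).symm z)) < 81 := by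
    intro z hz
    obtain ⟨h1, h2, h3, h4⟩ := hrad c j z₀ z 3 (by linarith) (by rw [hsz₀]; exact hxS)
      (by norm_num) (by norm_num) (by rw [hsz₀]; linarith) hz
    exact ⟨h1, h2, h3, lt_of_le_of_lt h4 (by norm_num)⟩
  have h1 := hmean c z₀ r h hr hr1 (by linarith) (by
    have h2 := hadm.1 c
    refine ⟨h2.1.mono fun z hz => ?_, fun z hz => h2.2 z ?_⟩ <;>
    · have h3 := hball z (le_of_lt hz)
      exact ⟨h3.1, h3.2.2⟩)
  rw [hsz₀] at h1
  -- the ball in `M`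
  set B : Set (Cn n) := {z | nsq (z - z₀) ≤ r ^ 2} with hB
  have hB2 : ∀ z ∈ B, nsq (z - z₀) ≤ (2 * r) ^ 2 := fun z hz => DomA.two_sq hz
  have hBc : IsCompact B := isCompact_nsq_sub z₀ hr
  have hBt : B ⊆ (F.e c).target := fun z hz => (hball z (hB2 z hz)).1
  have himg : IsCompact ((F.e c).symm '' B) :=
    hBc.image_of_continuousOn ((F.e c).continuousOn_symm.mono hBt)
  have hsubV : (F.e c).symm '' B ⊆ F.V j := by
    rintro _ ⟨z, hz, rfl⟩
    exact (hball z (hB2 z hz)).2.2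
  have h2 : ∫⁻ q in (F.e c).symm '' B, ENNReal.ofReal (‖h q‖ ^ 2) ∂μ ≤
      ENNReal.ofReal (Real.exp (p * (Cφ + CK))) := by
    calc ∫⁻ q in (F.e c).symm '' B, ENNReal.ofReal (‖h q‖ ^ 2) ∂μ
        ≤ ∫⁻ q in (F.e c).symm '' B, ENNReal.ofReal (Real.exp (p * (Cφ + CK))) *
          ENNReal.ofReal (‖h q‖ ^ 2 * Real.exp (-(p * F.pK t j q))) ∂μ := by
          refine setLIntegral_mono' himg.measurableSet fun q hq => ?_
          rw [← ENNReal.ofReal_mul (Real.exp_pos _).le]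
          refine ENNReal.ofReal_le_ofReal ?_
          have h3 : F.pK t j q ≤ Cφ + CK := by
            have h4 := (abs_le.1 (hφ t ht q)).2
            have h5 := (abs_le.1 (hK j (F.y j q) (hsubV hq).2.le).1).2
            change F.Phi t q + F.K j (F.y j q) ≤ Cφ + CK
            linarith
          have h4 : 1 ≤ Real.exp (p * (Cφ + CK)) * Real.exp (-(p * F.pK t j q)) := by
            rw [← Real.exp_add]
            refine Real.one_le_exp ?_
            have := mul_le_mul_of_nonneg_left h3 hp0.le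
            linarith
          calc ‖h q‖ ^ 2 = ‖h q‖ ^ 2 * 1 := by ring
            _ ≤ ‖h q‖ ^ 2 * (Real.exp (p * (Cφ + CK)) * Real.exp (-(p * F.pK t j q))) :=
                mul_le_mul_of_nonneg_left h4 (by positivity)
            _ = _ := by ring
      _ = ENNReal.ofReal (Real.exp (p * (Cφ + CK))) * ∫⁻ q in (F.e c).symm '' B,
          ENNReal.ofReal (‖h q‖ ^ 2 * Real.exp (-(p * F.pK t j q))) ∂μ :=
          lintegral_const_mul' _ _ ENNReal.ofReal_ne_top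
      _ ≤ ENNReal.ofReal (Real.exp (p * (Cφ + CK))) * 1 := by
          refine mul_le_mul_right ?_ _
          exact (lintegral_mono_set hsubV).trans hadm.2
      _ = _ := mul_one _
  have h3 : ‖h x‖ ^ 2 ≤ A * Real.exp (p * (Cφ + CK)) := by
    have h4 := h1.trans (mul_le_mul_right h2 _)
    rw [← ENNReal.ofReal_mul hA0.le, ENNReal.ofReal_le_ofReal_iff (by positivity)] at h4
    exact h4
  have hx2 : 0 < ‖h x‖ ^ 2 := by
    have := norm_pos_iff.2 hx0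
    positivity
  have h4 := Real.log_le_log hx2 h3
  rw [Real.log_mul hA0.ne' (Real.exp_pos _).ne', Real.log_exp] at h4
  have h5 : 1 / p * Real.log (‖h x‖ ^ 2) ≤ 1 / p * (Real.log A + p * (Cφ + CK)) :=
    mul_le_mul_of_nonneg_left h4 (by positivity)
  have h6 : 1 / p * (Real.log A + p * (Cφ + CK)) = 1 / p * Real.log A + (Cφ + CK) := by
    field_simp
  have h7 : 1 / p * Real.log A ≤ |Real.log A| := by
    have h8 : 1 / p ≤ 1 := by
      rw [div_le_one hp0]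
      exact hp
    calc 1 / p * Real.log A ≤ 1 / p * |Real.log A| :=
          mul_le_mul_of_nonneg_left (le_abs_self _) (by positivity)
      _ ≤ 1 * |Real.log A| := mul_le_mul_of_nonneg_right h8 (abs_nonneg _)
      _ = _ := one_mul _
  have h8 := (abs_le.1 (hK j (F.y j x) (by linarith)).1).1
  change 1 / p * Real.log (‖h x‖ ^ 2) - F.K j (F.y j x) ≤ _
  linarith

omit [CompactSpace M] [Finite κ] [Finite P] in
include hμ in
/-- the inequality of Chebyshev -/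
theorem DomA.cheb {t p E' V₀ CΩ : ℝ} {c : κ} {j : P} {h : M → ℂ} (hadm : F.Adm μ t p j h)
    (hp : 0 < p) (hV₀ : 0 < V₀) (hCΩ : 0 < CΩ) {S : Set (Cn n)} (hS : IsCompact S)
    (hSt : S ⊆ (F.e c).target) (hSV : ∀ z ∈ S, (F.e c).symm z ∈ F.V j)
    (hΩ : ∀ z ∈ S, 1 ≤ CΩ * F.Ω c z) (hvol : ENNReal.ofReal V₀ ≤ volume S)
    (hval : ∀ z ∈ S, h ((F.e c).symm z) ≠ 0 ∧
      F.Phi t ((F.e c).symm z) + E' ≤ F.val p j h ((F.e c).symm z)) :
    p * E' ≤ Real.log (CΩ / V₀) := by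
  have himg : IsCompact ((F.e c).symm '' S) :=
    hS.image_of_continuousOn ((F.e c).continuousOn_symm.mono hSt)
  have hsubV : (F.e c).symm '' S ⊆ F.V j := by
    rintro _ ⟨z, hz, rfl⟩
    exact hSV z hz
  have h1 : ∫⁻ q in (F.e c).symm '' S, ENNReal.ofReal (Real.exp (p * E')) ∂μ ≤ 1 := by
    refine le_trans ?_ ((lintegral_mono_set hsubV).trans hadm.2)
    refine setLIntegral_mono' himg.measurableSet fun q hq => ENNReal.ofReal_le_ofReal ?_
    obtain ⟨z, hz, rfl⟩ := hq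
    obtain ⟨h2, h3⟩ := hval z hz
    set q := (F.e c).symm z
    have hq2 : 0 < ‖h q‖ ^ 2 := by
      have := norm_pos_iff.2 h2
      positivity
    have h4 : p * (F.Phi t q + E') ≤ p * (1 / p * Real.log (‖h q‖ ^ 2) - F.K j (F.y j q)) :=
      mul_le_mul_of_nonneg_left h3 hp.le
    have h5 : p * (1 / p * Real.log (‖h q‖ ^ 2) - F.K j (F.y j q)) =
        Real.log (‖h q‖ ^ 2) - p * F.K j (F.y j q) := by
      field_simp
    rw [h5] at h4
    have h6 : p * E' ≤ Real.log (‖h q‖ ^ 2) + -(p * F.pK t j q) := by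
      change p * E' ≤ Real.log (‖h q‖ ^ 2) + -(p * (F.Phi t q + F.K j (F.y j q)))
      linarith
    calc Real.exp (p * E') ≤ Real.exp (Real.log (‖h q‖ ^ 2) + -(p * F.pK t j q)) :=
          Real.exp_le_exp.2 h6
      _ = _ := by rw [Real.exp_add, Real.exp_log hq2]
  rw [F.lintegral_chart hμ hS.measurableSet hSt measurable_const] at h1
  have h2 : ENNReal.ofReal (Real.exp (p * E') * CΩ⁻¹ * V₀) ≤ 1 := by
    refine le_trans ?_ h1
    calc ENNReal.ofReal (Real.exp (p * E') * CΩ⁻¹ * V₀)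
        = ENNReal.ofReal (Real.exp (p * E') * CΩ⁻¹) * ENNReal.ofReal V₀ :=
          ENNReal.ofReal_mul (by positivity)
      _ ≤ ENNReal.ofReal (Real.exp (p * E') * CΩ⁻¹) * volume S := mul_le_mul_right hvol _
      _ = ∫⁻ z in S, ENNReal.ofReal (Real.exp (p * E') * CΩ⁻¹) := (setLIntegral_const _ _).symm
      _ ≤ _ := by
          refine setLIntegral_mono' hS.measurableSet fun z hz => ?_
          rw [← ENNReal.ofReal_mul (Real.exp_pos _).le]
          refine ENNReal.ofReal_le_ofReal (mul_le_mul_of_nonneg_left ?_ (Real.exp_pos _).le)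
          rw [inv_le_iff_one_le_mul₀ hCΩ, mul_comm]
          exact hΩ z hz
  rw [ENNReal.ofReal_le_one] at h2
  have h3 : Real.exp (p * E') ≤ CΩ / V₀ := by
    rw [le_div_iff₀ hV₀]
    have h4 : Real.exp (p * E') * CΩ⁻¹ * V₀ * CΩ = Real.exp (p * E') * V₀ := by
      field_simp
    have h5 := mul_le_mul_of_nonneg_right h2 hCΩ.le
    rw [h4] at h5
    linarith
  have h4 := Real.log_le_log (Real.exp_pos _) h3
  rwa [Real.log_exp] at h4

include hμ in
/-- ABP in a small ball around a near-maximum, and Chebyshev -/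
theorem Semi.domA : ∃ C, 0 < C ∧ ∀ t ∈ Ico 0 T, ∀ τ b p 𝓕, 1 ≤ p → 0 < b → 1 / 2 ≤ τ →
    τ ≤ t / T - C * b → F.IsFam τ b p 𝓕 → (∀ j h, (j, h) ∈ 𝓕 → F.Adm μ t p j h) →
    F.Below τ b p 𝓕 t (C * (1 - τ + (1 + |Real.log (T - t)|) / p)) := by
  obtain ⟨Cm, hCm, hbound⟩ := F.adm_bound hμ
  obtain ⟨r, hr, hr1, hrad⟩ := DomA.exists_rad F
  obtain ⟨CK, hCK, hK⟩ := F.K_bound
  obtain ⟨Cφ, hCφ, hφ⟩ := F.toFlow.Phi_bound
  obtain ⟨Cd, hCd, hd⟩ := F.toFlow.dphi_le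
  obtain ⟨Ca, hCa, habp⟩ := abp n
  obtain ⟨Cl, hCl, hl⟩ := F.lev_zero
  obtain ⟨CΩ, hCΩ, hΩ⟩ := F.Ω_bound
  obtain ⟨Cy, hCy, hy⟩ := F.levz_nsq
  set D₁ : ℝ := CΩ * Real.exp Cd with hD₁
  have hD₁0 : 0 < D₁ := by positivity
  by_cases hT : 0 < T
  swap
  · exact ⟨1, one_pos, fun t ht => absurd (lt_of_le_of_lt ht.1 ht.2) hT⟩
  -- the constants
  set C₁ : ℝ := |Real.log (r / (2 * Cl * T))| with hC₁
  set C₂ : ℝ := |Real.log (CΩ * (Ca * D₁ ^ 2))| with hC₂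
  set C : ℝ := Cy + (2 * Cφ + 2 * r ^ 2 / Cl) + (2 * n + 2 * n * C₁ + C₂) with hC
  have hC₁0 : 0 ≤ C₁ := abs_nonneg _
  have hC₂0 : 0 ≤ C₂ := abs_nonneg _
  have hn0 : (0 : ℝ) ≤ n := Nat.cast_nonneg n
  have hr2 : 0 ≤ 2 * r ^ 2 / Cl := by positivity
  have hnC : 0 ≤ 2 * n * C₁ := by positivity
  have hC0 : 0 < C := by linarith
  have hCy1 : Cy ≤ C := by linarith
  have hCA : 2 * Cφ + 2 * r ^ 2 / Cl ≤ C := by linarith
  have hCB : 2 * n + 2 * n * C₁ + C₂ ≤ C := by linarith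
  refine ⟨C, hC0, ?_⟩
  intro t ht τ b p 𝓕 hp hb hτ hτb hfam hadm
  have hp0 : 0 < p := one_pos.trans_le hp
  have hτ0 : 0 < τ := by linarith
  have hτt : τ + b * Cy ≤ t / T := by
    have : Cy * b ≤ C * b := mul_le_mul_of_nonneg_right hCy1 hb.le
    linarith
  have hd0 : 0 < 1 - t / T := by
    rw [sub_pos, div_lt_one hT]
    exact ht.2
  have hτd : 1 - t / T ≤ 1 - τ := by
    have : 0 ≤ b * Cy := by positivity
    linarith
  have hτ1 : τ ≤ 1 := by linarith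
  have hx0 : 0 < T - t := by linarith [ht.2]
  set RHS : ℝ := C * (1 - τ + (1 + |Real.log (T - t)|) / p) with hRHS
  -- the supremum
  set A : Set ℝ := {s | ∃ j h x, (j, h) ∈ 𝓕 ∧ F.f x ∈ F.S j ∧ nsq (F.y j x) ≤ 9 ∧ h x ≠ 0 ∧
    s = τ * F.val p j h x - b * nsq (F.y j x) - F.Phi t x} with hA
  have hAb : BddAbove A := by
    refine ⟨Cm + Cφ, ?_⟩
    rintro _ ⟨j, h, x, h1, h2, h3, h4, rfl⟩
    have h5 := hbound t ht p hp j h x (hadm j h h1) h2 h3 h4
    have h6 := (abs_le.1 (hφ t ht x)).1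
    have h7 : 0 ≤ b * nsq (F.y j x) := mul_nonneg hb.le (Gap.nsq_nonneg _)
    have h8 : τ * F.val p j h x ≤ τ * Cm := mul_le_mul_of_nonneg_left h5 hτ0.le
    have h9 : τ * Cm ≤ 1 * Cm := mul_le_mul_of_nonneg_right hτ1 hCm
    linarith
  suffices hmain : sSup A ≤ RHS by
    intro j h x h1 h2 h3 h4
    have h5 := le_csSup hAb (show τ * F.val p j h x - b * nsq (F.y j x) - F.Phi t x ∈ A from
      ⟨j, h, x, h1, h2, h3, h4, rfl⟩)
    linarith
  rcases A.eq_empty_or_nonempty with hAe | hAne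
  · rw [hAe, Real.sSup_empty]
    have h1 : 0 ≤ 1 - τ := by linarith
    have h2 : 0 ≤ (1 + |Real.log (T - t)|) / p := by positivity
    positivity
  set E : ℝ := sSup A with hE
  set Λ : ℝ := (1 - t / T) / Cl with hΛ
  have hΛ0 : 0 < Λ := by positivity
  have hΛr : 0 < Λ * r ^ 2 / 8 := by positivity
  -- a near-maximum
  obtain ⟨_, ⟨j, h, x, h1, h2, h3, h4, rfl⟩, h5⟩ :=
    exists_lt_of_lt_csSup hAne (show E - min b (Λ * r ^ 2 / 8) < sSup A by
      have := lt_min hb hΛr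
      linarith)
  have h6 := min_le_left b (Λ * r ^ 2 / 8)
  have h7 := min_le_right b (Λ * r ^ 2 / 8)
  have hin : nsq (F.y j x) ≤ 2 ^ 2 := by
    by_contra h8
    rw [not_le] at h8
    obtain ⟨i, h', g1, g2, g3, g4, g5⟩ := hfam.2 j h x h1 h2 (by linarith) h3 h4
    have h9 := le_csSup hAb (show τ * F.val p i h' x - b * nsq (F.y i x) - F.Phi t x ∈ A from
      ⟨i, h', x, g1, g2, by linarith, g4, rfl⟩)
    linarith
  obtain ⟨c, hc, hc1⟩ := F.cover x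
  set z₀ := F.e c x with hz₀
  have hsz₀ : (F.e c).symm z₀ = x := (F.e c).left_inv hc
  have hball : ∀ z, nsq (z - z₀) ≤ r ^ 2 → z ∈ (F.e c).target ∧ nsq z ≤ 81 ∧
      F.f ((F.e c).symm z) ∈ F.S j ∧ nsq (F.y j ((F.e c).symm z)) ≤ 9 := by
    intro z hz
    obtain ⟨g1, g2, g3, g4⟩ := hrad c j z₀ z 2 (by linarith) (by rw [hsz₀]; exact h2)
      (by norm_num) (by norm_num) (by rw [hsz₀]; exact hin) (DomA.two_sq hz)
    exact ⟨g1, g2, g3, g4.trans (by norm_num)⟩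
  have hV : ∀ z, nsq (z - z₀) ≤ r ^ 2 → (F.e c).symm z ∈ F.V j := fun z hz =>
    ⟨(hball z hz).2.2.1, lt_of_le_of_lt (hball z hz).2.2.2 (by norm_num)⟩
  obtain ⟨S, hSB, hSc, hSv, hSle⟩ := DomA.contact_ball F hCa habp ht (c := c) (j := j) (h := h)
    (z₀ := z₀) (r := r) (C₁ := Cl) (C₂ := Cy) (D₁ := D₁) (Cφ := Cφ) (CK := CK) (τ := τ) (b := b)
    (p := p) (E := E) hr hCl hD₁0 (hfam.1 j h h1) hτ0 hτ1 hb.le hp hτt
    (by
      intro z hz
      obtain ⟨g1, g2, g3, g4⟩ := hball z hz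
      exact ⟨g1, hV z hz, fun u => (hl c z u hT g2).1,
        DomA.det_le F ht g1 (hd c t ht z g1) (hΩ c z g2).1, hy c j z g1 (hV z hz),
        F.levz_K g1 g3, hφ t ht _, (hK j _ (by linarith)).1⟩)
    (by
      intro z hz hne
      obtain ⟨g1, g2, g3, g4⟩ := hball z hz
      have h9 := le_csSup hAb (show τ * F.val p j h ((F.e c).symm z) -
        b * nsq (F.y j ((F.e c).symm z)) - F.Phi t ((F.e c).symm z) ∈ A from
        ⟨j, h, _, h1, g3, g4, hne, rfl⟩)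
      linarith)
    (by rw [hsz₀]; exact h4)
    (by
      rw [hsz₀]
      linarith)
  -- the case of a negative supremum
  have hΛle : Λ * r ^ 2 ≤ (1 - τ) * (r ^ 2 / Cl) := by
    have : Λ * r ^ 2 = (1 - t / T) * (r ^ 2 / Cl) := by
      rw [hΛ]
      ring
    rw [this]
    exact mul_le_mul_of_nonneg_right hτd (by positivity)
  have hrest : 0 ≤ (1 + |Real.log (T - t)|) / p := by positivity
  have h1τ : 0 ≤ 1 - τ := by linarith
  have hR1 : (2 * Cφ + 2 * r ^ 2 / Cl) * (1 - τ) ≤ C * (1 - τ) :=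
    mul_le_mul_of_nonneg_right hCA h1τ
  have hR2 : (2 * n + 2 * n * C₁ + C₂) * ((1 + |Real.log (T - t)|) / p) ≤
      C * ((1 + |Real.log (T - t)|) / p) := mul_le_mul_of_nonneg_right hCB hrest
  have hR : (2 * Cφ + 2 * r ^ 2 / Cl) * (1 - τ) +
      (2 * n + 2 * n * C₁ + C₂) * ((1 + |Real.log (T - t)|) / p) ≤ RHS := by
    rw [hRHS, mul_add]
    linarith
  have hB0 : 0 ≤ (2 * n + 2 * n * C₁ + C₂) * ((1 + |Real.log (T - t)|) / p) := by positivity
  have h2r : 2 * r ^ 2 / Cl = 2 * (r ^ 2 / Cl) := by ring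
  have hrC : 0 ≤ r ^ 2 / Cl * (1 - τ) := by positivity
  have hCφτ : 0 ≤ Cφ * (1 - τ) := by positivity
  rcases le_or_gt (E - Λ * r ^ 2) 0 with hneg | hpos
  · refine le_trans ?_ hR
    rw [h2r]
    linarith
  -- Chebyshev
  set E' : ℝ := E - Λ * r ^ 2 - 2 * (1 - τ) * Cφ with hE'
  set V₀ : ℝ := ((1 - t / T) * r / (2 * Cl)) ^ (2 * n) / (Ca * D₁ ^ 2) with hV₀
  have hV₀0 : 0 < V₀ := by positivity
  have hcheb := DomA.cheb F hμ (E' := E') (hadm j h h1) hp0 hV₀0 hCΩ hSc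
    (fun z hz => (hball z (hSB hz)).1) (fun z hz => hV z (hSB hz))
    (fun z hz => (hΩ c z (hball z (hSB hz)).2.1).2) hSv
    (by
      intro z hz
      obtain ⟨g1, g2⟩ := hSle z hz
      refine ⟨g1, ?_⟩
      have g3 := (abs_le.1 (hφ t ht ((F.e c).symm z))).1
      have g4 := (abs_le.1 (hφ t ht ((F.e c).symm z))).2
      set ph := F.Phi t ((F.e c).symm z) with hph
      -- `(φ + E₁) / τ ≥ φ + E₁ - 2 (1 - τ) C`
      have g5 : τ * (ph + E') ≤ ph + E - Λ * r ^ 2 := by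
        have g6 : ph + E - Λ * r ^ 2 - τ * (ph + E') =
            (1 - τ) * (ph + (E - Λ * r ^ 2) + 2 * τ * Cφ) := by
          rw [hE']
          ring
        have g7 : 0 ≤ ph + (E - Λ * r ^ 2) + 2 * τ * Cφ := by
          have : Cφ ≤ 2 * τ * Cφ := DomA.le_two_mul hτ hCφ
          linarith
        have g8 := mul_nonneg h1τ g7
        linarith
      exact le_of_mul_le_mul_left (g5.trans g2) hτ0)
  have hlog : Real.log (CΩ / V₀) ≤ 2 * n * (|Real.log (T - t)| + C₁) + C₂ := by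
    have e1 : CΩ / V₀ = CΩ * (Ca * D₁ ^ 2) / ((T - t) * (r / (2 * Cl * T))) ^ (2 * n) := by
      have e2 : (1 - t / T) * r / (2 * Cl) = (T - t) * (r / (2 * Cl * T)) := by
        field_simp
      rw [hV₀, e2]
      field_simp
    have e7 : Real.log ((T - t) * (r / (2 * Cl * T))) =
        Real.log (T - t) + Real.log (r / (2 * Cl * T)) := Real.log_mul hx0.ne' (by positivity)
    rw [e1, Real.log_div (by positivity) (by positivity), Real.log_pow, e7]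
    have e3 := neg_abs_le (Real.log (T - t))
    have e4 := neg_abs_le (Real.log (r / (2 * Cl * T)))
    have e5 := le_abs_self (Real.log (CΩ * (Ca * D₁ ^ 2)))
    have e6 : ((2 * n : ℕ) : ℝ) * -(|Real.log (T - t)| + C₁) ≤
        ((2 * n : ℕ) : ℝ) * (Real.log (T - t) + Real.log (r / (2 * Cl * T))) :=
      mul_le_mul_of_nonneg_left (by linarith) (Nat.cast_nonneg _)
    push_cast at e6 ⊢
    linarith
  have hE1 : E' ≤ (2 * n + 2 * n * C₁ + C₂) * ((1 + |Real.log (T - t)|) / p) := by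
    have e1 : E' ≤ (2 * n * (|Real.log (T - t)| + C₁) + C₂) / p := by
      rw [le_div_iff₀ hp0, mul_comm]
      exact hcheb.trans hlog
    refine e1.trans ?_
    rw [← mul_div_assoc]
    refine div_le_div_of_nonneg_right ?_ hp0.le
    have e2 : 0 ≤ |Real.log (T - t)| := abs_nonneg _
    have e3 : 0 ≤ 2 * n * C₁ * |Real.log (T - t)| := by positivity
    have e4 : 0 ≤ C₂ * |Real.log (T - t)| := by positivity
    linarith
  refine le_trans ?_ hR
  rw [h2r]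
  have hE2 : E = E' + Λ * r ^ 2 + 2 * (1 - τ) * Cφ := by
    rw [hE']
    ring
  linarith

end

end Pool.Agent.KRFZ
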