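import Pool.Agent.Work.MP_a2bf38_gt.L.BallM
import Pool.Agent.Work.MP_a2bf38_gt.Q.Mfd

/-!
# The curvature of the weight `p (φ + K ∘ F) + K ∘ F / T + W₀ ∘ F`
-/

open scoped ContDiff ENNReal ComplexOrder Topology
open Set Pool.Agent.ToricKRF Pool.Agent.ToricKRF.G Pool.Agent.KRFS Pool.Agent.KRFF
  Pool.Agent.KRFG Pool.Agent.KRFH

namespace Pool.Agent.KRFZ

variable {n : ℕ} {M : Type} [TopologicalSpace M] {κ : Type} {T : ℝ} (F : Flow n M κ T)

/-- The weight in a chart: `k` is the representative of `K ∘ F`, `w₀` that of `W₀ ∘ F`. -/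
noncomputable def wgt (c : κ) (t p : ℝ) (k w₀ : Cn n → ℝ) (x : Cn n) : ℝ :=
  p * (F.phi c (t, x) + k x) + T⁻¹ * k x + w₀ x

theorem contDiffOn_wgt {c : κ} {t p : ℝ} (ht : t ∈ Ico 0 T) {S : Set (Cn n)}
    (hSt : S ⊆ (F.e c).target) {k w₀ : Cn n → ℝ} (hk : ContDiffOn ℝ ∞ k S)
    (hw : ContDiffOn ℝ ∞ w₀ S) : ContDiffOn ℝ ∞ (wgt F c t p k w₀) S := by
  have h1 : ContDiffOn ℝ ∞ (fun z => F.phi c (t, z)) S := (BallM.phi_slice F c ht).mono hSt
  exact ((contDiffOn_const.mul (h1.add hk)).add (contDiffOn_const.mul hk)).add hw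

/-- The curvature of the weight is at least `ω(0) / (2 T)`. -/
theorem curv (hT : 0 < T) {c : κ} {t p : ℝ} (ht : t ∈ Ico 0 T) (hp : 0 ≤ p)
    (hpd : p * (T - t) ≤ 1 / 2) {S : Set (Cn n)} (hS : IsOpen S) (hSt : S ⊆ (F.e c).target)
    {k w₀ : Cn n → ℝ} (hk : ContDiffOn ℝ ∞ k S) (hw : ContDiffOn ℝ ∞ w₀ S)
    (hkΘ : ∀ z ∈ S, ∀ u, levz k u z = levz (F.Θ c) u z)
    (hw0 : ∀ z ∈ S, ∀ u, 0 ≤ levz w₀ u z) {z : Cn n} (hz : z ∈ S) (u : Cn n) :
    (2 * T)⁻¹ * lev (F.ψ c) u (0, z) ≤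
      levz (fun x => -Real.log (F.Ω c x * Real.exp (-wgt F c t p k w₀ x))) u z := by
  have hzt := hSt hz
  have h0 : (0 : ℝ) ∈ Ico 0 T := ⟨le_rfl, hT⟩
  have hΩ : ContDiffOn ℝ ∞ (fun x => Real.log (F.Ω c x)) S :=
    ((F.vol.smooth c).mono hSt).log fun x hx => (F.vol.pos c x (hSt hx)).ne'
  have hφ : ContDiffOn ℝ ∞ (fun z => F.phi c (t, z)) S := (BallM.phi_slice F c ht).mono hSt
  have at2 : ∀ {g : Cn n → ℝ}, ContDiffOn ℝ ∞ g S → ContDiffAt ℝ 2 g z := fun hg =>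
    (hg.contDiffAt (hS.mem_nhds hz)).of_le two_le_infty
  have e1 : (fun x => -Real.log (F.Ω c x * Real.exp (-wgt F c t p k w₀ x))) =ᶠ[𝓝 z]
      fun x => (p * (F.phi c (t, x) + k x) + T⁻¹ * k x + w₀ x) - Real.log (F.Ω c x) := by
    filter_upwards [hS.mem_nhds hz] with x hx
    rw [Real.log_mul (F.vol.pos c x (hSt hx)).ne' (Real.exp_pos _).ne', Real.log_exp, wgt]
    ring
  have e2 : levz (fun z => F.phi c (t, z)) u z = lev (F.phi c) u (t, z) := by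
    obtain ⟨U', hU', hsub', hs'⟩ := F.phi_isFun.smooth c
    exact levz_slice hU' hs' (hsub' ⟨ht, hzt⟩) u
  rw [Bd.levz_congr e1, Bd.levz_sub (at2 (((contDiffOn_const.mul (hφ.add hk)).add
    (contDiffOn_const.mul hk)).add hw)) (at2 hΩ),
    Bd.levz_add (at2 ((contDiffOn_const.mul (hφ.add hk)).add (contDiffOn_const.mul hk))) (at2 hw),
    Bd.levz_add (at2 (contDiffOn_const.mul (hφ.add hk))) (at2 (contDiffOn_const.mul hk)),
    Bd.levz_const_mul p (at2 (hφ.add hk)), Bd.levz_add (at2 hφ) (at2 hk),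
    Bd.levz_const_mul T⁻¹ (at2 hk), e2, F.lev_phi ht hzt, hkΘ z hz u]
  have h1 := F.theta c z hzt u
  have h2 : 0 ≤ lev (F.ψ c) u (t, z) := Fb.lev_nonneg F ht hzt u
  have h3 : 0 ≤ lev (F.ψ c) u (0, z) := Fb.lev_nonneg F h0 hzt u
  have h4 : 0 ≤ levz (F.Θ c) u z := F.psh c z hzt u
  have h5 := hw0 z hz u
  set A := lev (F.ψ c) u (0, z)
  set B := levz (F.Θ c) u z
  set L := levz (fun z => Real.log (F.Ω c z)) u z
  have hL : L = (B - A) / T := by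
    rw [eq_div_iff hT.ne']
    linarith
  have h6 : 0 ≤ 1 - t / T := by
    have := (div_le_one hT).2 ht.2.le
    linarith
  have h7 : p * (1 - t / T) ≤ (2 * T)⁻¹ := by
    have : p * (1 - t / T) = (p * (T - t)) / T := by field_simp
    rw [this, div_le_iff₀ hT]
    have : (2 * T)⁻¹ * T = 1 / 2 := by field_simp
    rw [this]
    exact hpd
  have h8 : T⁻¹ * A = (2 * T)⁻¹ * A + (2 * T)⁻¹ * A := by
    field_simp
    ring
  have h9 : p * (1 - t / T) * A ≤ (2 * T)⁻¹ * A := mul_le_mul_of_nonneg_right h7 h3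
  have h10 : 0 ≤ p * (1 - t / T) * B := mul_nonneg (mul_nonneg hp h6) h4
  have h11 : 0 ≤ p * lev (F.ψ c) u (t, z) := mul_nonneg hp h2
  rw [hL]
  have e3 : p * (lev (F.ψ c) u (t, z) - (1 - t / T) * A - t / T * B + B) + T⁻¹ * B +
      levz w₀ u z - (B - A) / T = p * lev (F.ψ c) u (t, z) - p * (1 - t / T) * A +
      p * (1 - t / T) * B + T⁻¹ * A + levz w₀ u z := by
    field_simp
    ring
  rw [e3]
  linarith

end Pool.Agent.KRFZ
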