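import Pool.Agent.Work.MP_a2bf38_gt.Z.Setup
import Pool.Agent.Work.MP_a2bf38_gt.Z.HormDens
import Pool.Agent.Work.MP_a2bf38_gt.Z.HormCurv
import Pool.Agent.Work.MP_a2bf38_gt.Z.OmegaCompat
import Pool.Agent.Work.MP_a2bf38_gt.I.ABP2
import Pool.Agent.Work.MP_a2bf38_gt.Q.HormG
import Pool.Agent.Work.MP_a2bf38_gt.Q.Weyl

/-!
# Theorem G on the open sets `V j`
-/

open scoped ContDiff ENNReal ComplexOrder Topology
open Set MeasureTheory Filter Pool.Agent.ToricKRF Pool.Agent.ToricKRF.G Pool.Agent.KRFS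
  Pool.Agent.KRFF Pool.Agent.KRFG Pool.Agent.KRFE

namespace Pool.Agent.KRFZ

section

variable {n N : ℕ} {M Z : Type} [MetricSpace M] [MetricSpace Z] {κ P : Type} {T : ℝ}
  (F : Semi n N M Z κ P T)

theorem Semi.continuousOn_yH (j : P) : ContinuousOn (F.y j) (F.f ⁻¹' (F.S j)) :=
  (F.emb.qcont j).comp F.emb.cont.continuousOn fun _ hp => hp

theorem Semi.isOpen_VH (j : P) : IsOpen (F.V j) := by
  have h1 : IsOpen (F.f ⁻¹' (F.S j)) := (F.emb.isOpen j).preimage F.emb.cont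
  have h3 : ContinuousOn (fun p => nsq (F.y j p)) (F.f ⁻¹' (F.S j)) :=
    Pool.Agent.KRFX.NC.contDiff_nsq.continuous.comp_continuousOn (F.continuousOn_yH j)
  exact h3.isOpen_inter_preimage h1 (isOpen_Iio (a := (81 : ℝ)))

theorem Semi.isCompact_VH [CompactSpace M] (j : P) {R : ℝ} (hR : R < 81) :
    IsCompact {p | p ∈ F.V j ∧ nsq (F.y j p) ≤ R} := by
  have h1 : IsCompact {z | z ∈ F.S j ∧ nsq (F.q j z) ≤ R} := F.emb.compact j R (by linarith)
  have h2 : IsClosed (F.f ⁻¹' {z | z ∈ F.S j ∧ nsq (F.q j z) ≤ R}) :=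
    h1.isClosed.preimage F.emb.cont
  have h3 : {p | p ∈ F.V j ∧ nsq (F.y j p) ≤ R} =
      F.f ⁻¹' {z | z ∈ F.S j ∧ nsq (F.q j z) ≤ R} := by
    ext p
    constructor
    · rintro ⟨⟨h, -⟩, h'⟩
      exact ⟨h, h'⟩
    · rintro ⟨h, h'⟩
      exact ⟨⟨h, lt_of_le_of_lt h' hR⟩, h'⟩
  rw [h3]
  exact h2.isCompact

theorem Semi.Phi_contH {t : ℝ} (ht : t ∈ Ico 0 T) : Continuous (F.Phi t) := by
  rw [← continuousOn_univ]
  exact ContinuousOn.comp (f := fun p : M => (t, p)) F.toFlow.Phi_continuousOn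
    (Continuous.prodMk_right t).continuousOn fun p _ => ⟨ht, mem_univ _⟩

theorem Semi.Phi_symmH {c : κ} {t : ℝ} (ht : t ∈ Ico 0 T) {z : Cn n} (hz : z ∈ (F.e c).target) :
    F.Phi t ((F.e c).symm z) = F.phi c (t, z) := by
  rw [F.toFlow.Phi_eq ht ((F.e c).map_target hz), (F.e c).right_inv hz]

/-- the coordinates are holomorphic -/
theorem Semi.holOn_yH (j : P) (c : κ) : HolOn (fun x => F.y j ((F.e c).symm x))
    (KRFQ.rs F.e (F.isOpen_VH j) c).target := by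
  have hsub : (KRFQ.rs F.e (F.isOpen_VH j) c).target ⊆
      {x | x ∈ (F.e c).target ∧ F.f ((F.e c).symm x) ∈ F.S j} := fun x hx => by
    have := (KRFQ.mem_rs_target (F.isOpen_VH j) c).1 hx
    exact ⟨this.1, this.2.1⟩
  exact ⟨(F.emb.holo c j).1.mono hsub, fun z hz u => (F.emb.holo c j).2 z (hsub hz) u⟩

theorem Semi.nsq_y_ltH {j : P} {c : κ} {z : Cn n} (hz : z ∈ (KRFQ.rs F.e (F.isOpen_VH j) c).target) :
    nsq (F.y j ((F.e c).symm z)) < 81 :=
  ((KRFQ.mem_rs_target (F.isOpen_VH j) c).1 hz).2.2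

/-- the weight -/
noncomputable def Semi.rhoH (t p : ℝ) (j : P) (W : Cn N → ℝ) (x : M) : ℝ :=
  p * F.pK t j x + T⁻¹ * F.K j (F.y j x) + W (F.y j x)

theorem Semi.pb_rhoH {t : ℝ} (ht : t ∈ Ico 0 T) (p : ℝ) (j : P) (W : Cn N → ℝ) (c : κ) {z : Cn n}
    (hz : z ∈ (F.e c).target) : KRFQ.pb F.e c (F.rhoH t p j W) z =
      wgt F.toFlow c t p (fun x => F.K j (F.y j ((F.e c).symm x)))
        (fun x => W (F.y j ((F.e c).symm x))) z := by
  simp only [KRFQ.pb, Semi.rhoH, wgt, Semi.pK]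
  rw [F.Phi_symmH ht hz]

theorem smooth_comp_yH (j : P) (c : κ) {G : Cn N → ℝ} (hG : ContDiffOn ℝ ∞ G {y | nsq y < 100}) :
    ContDiffOn ℝ ∞ (fun x => G (F.y j ((F.e c).symm x)))
      (KRFQ.rs F.e (F.isOpen_VH j) c).target :=
  hG.comp (F.holOn_yH j c).1 fun z hz => by
    have := F.nsq_y_ltH hz
    change nsq _ < 100
    linarith

theorem levz_comp_yH (j : P) (c : κ) {G : Cn N → ℝ} (hG : ContDiffOn ℝ ∞ G {y | nsq y < 100})
    {z : Cn n} (hz : z ∈ (KRFQ.rs F.e (F.isOpen_VH j) c).target) (u : Cn n) :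
    levz (fun x => G (F.y j ((F.e c).symm x))) u z =
      levz G (fderiv ℝ (fun x => F.y j ((F.e c).symm x)) z u) (F.y j ((F.e c).symm z)) := by
  have hO : IsOpen {y : Cn N | nsq y < 100} :=
    isOpen_lt Pool.Agent.KRFX.NC.contDiff_nsq.continuous continuous_const
  refine levz_comp hO hG (KRFQ.rs F.e (F.isOpen_VH j) c).open_target (F.holOn_yH j c) hz ?_ u
  have := F.nsq_y_ltH hz
  change nsq _ < 100
  linarith

theorem levz_K_yH (hT : 0 < T) (j : P) (c : κ) {z : Cn n}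
    (hz : z ∈ (KRFQ.rs F.e (F.isOpen_VH j) c).target) (u : Cn n) :
    levz (fun x => F.K j (F.y j ((F.e c).symm x))) u z = levz (F.Θ c) u z := by
  obtain ⟨hzt, hzV⟩ := (KRFQ.mem_rs_target (F.isOpen_VH j) c).1 hz
  have h1 := F.pull.eq c j z hzt hzV.1 u
  have hΩ : ContDiffAt ℝ 2 (fun x => Real.log (F.Ω c x)) z :=
    (((F.vol.smooth c).contDiffAt ((F.e c).open_target.mem_nhds hzt)).log
      (F.vol.pos c z hzt).ne').of_le two_le_infty
  have hψ : ContDiffAt ℝ 2 (fun x => F.ψ c (0, x)) z :=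
    ((Bd.smooth_psi0 F.toFlow hT c).contDiffAt ((F.e c).open_target.mem_nhds hzt)).of_le
      two_le_infty
  have h2 : F.Θ c = fun x => F.ψ c (0, x) + T * Real.log (F.Ω c x) :=
    funext fun x => F.Θ_eq c x
  rw [h2, Bd.levz_add hψ (contDiffAt_const.mul hΩ), Bd.levz_const_mul T hΩ,
    Bd.levz_psi0 F.toFlow hT hzt]
  exact h1.symm

/-- the data of Theorem G on `V j` -/
theorem Semi.l2d_VH (hT : 0 < T) {t : ℝ} (ht : t ∈ Ico 0 T) (p : ℝ) (j : P) {W : Cn N → ℝ}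
    (hW : ContDiffOn ℝ ∞ W {y | nsq y < 100}) :
    KRFQ.L2D (KRFQ.rs F.e (F.isOpen_VH j)) (F.V j)
      (fun c z => F.Ω c z * Real.exp (-KRFQ.pb F.e c (F.rhoH t p j W) z))
      (fun c z => F.ψ c (0, z)) := by
  have h1 := (l2d_flow F.toFlow hT).restr (F.isOpen_VH j)
  rw [univ_inter] at h1
  refine h1.mul_exp (ρ := F.rhoH t p j W) fun c => ?_
  refine (contDiffOn_wgt F.toFlow (c := c) (t := t) (p := p) ht
    (KRFQ.rs_target_sub (F.isOpen_VH j) c) (smooth_comp_yH F j c (F.pull.smooth j))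
    (smooth_comp_yH F j c hW)).congr fun z hz => ?_
  exact F.pb_rhoH ht p j W c (KRFQ.rs_target_sub (F.isOpen_VH j) c hz)

/-- the exhaustion function of `V j` -/
theorem Semi.exh_VH [CompactSpace M] (j : P) {w g : κ → Cn n → ℝ}
    (h : KRFQ.L2D (KRFQ.rs F.e (F.isOpen_VH j)) (F.V j) w g) :
    ∃ (g' : κ → Cn n → ℝ) (ψ : M → ℝ), KRFQ.L2D (KRFQ.rs F.e (F.isOpen_VH j)) (F.V j) w g' ∧
      KRFQ.IsExh (KRFQ.rs F.e (F.isOpen_VH j)) (F.V j) g' ψ := by
  have hns : ∀ y : Cn N, nsq ((9 : ℝ)⁻¹ • y) = nsq y / 81 := by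
    intro y
    simp only [nsq, dotProduct, Prod.smul_fst, Prod.smul_snd, Pi.smul_apply, smul_eq_mul]
    rw [add_div, Finset.sum_div, Finset.sum_div]
    congr 1 <;> refine Finset.sum_congr rfl fun i _ => ?_ <;> ring
  have h1 := h.exh (F := fun p => (9 : ℝ)⁻¹ • F.y j p) ?_ ?_ ?_
  · exact ⟨_, _, h1.1, h1.2⟩
  · intro c
    refine ⟨(F.holOn_yH j c).1.const_smul _, fun z hz u => ?_⟩
    have hd := KRFQ.HolOn.differentiableAt (KRFQ.rs F.e (F.isOpen_VH j) c).open_target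
      (F.holOn_yH j c) hz
    have h2 : fderiv ℝ (KRFQ.pb (KRFQ.rs F.e (F.isOpen_VH j)) c fun p => (9 : ℝ)⁻¹ • F.y j p) z =
        (9 : ℝ)⁻¹ • fderiv ℝ (fun x => F.y j ((F.e c).symm x)) z :=
      (hd.hasFDerivAt.const_smul (9 : ℝ)⁻¹).fderiv
    rw [h2, smul_apply, smul_apply, (F.holOn_yH j c).2 z hz u]
    ext i <;> simp [J]
  · intro p hp
    rw [hns, div_lt_one (by norm_num)]
    exact hp.2
  · intro r hr
    have h3 : {p | p ∈ F.V j ∧ nsq ((9 : ℝ)⁻¹ • F.y j p) ≤ r} =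
        {p | p ∈ F.V j ∧ nsq (F.y j p) ≤ 81 * r} := by
      ext p
      simp only [mem_ofPred_eq, hns]
      rw [div_le_iff₀ (by norm_num), mul_comm]
    rw [h3]
    exact F.isCompact_VH j (by linarith)

/-- `K` is bounded -/
theorem Semi.K_bddH [Finite P] : ∃ B, 0 ≤ B ∧ ∀ j y, nsq y ≤ 81 → |F.K j y| ≤ B := by
  have hc : IsCompact {y : Cn N | nsq y ≤ 81} := by
    have h1 := isCompact_nsq_sub (0 : Cn N) (r := 9) (by norm_num)
    simp only [sub_zero] at h1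
    norm_num at h1
    exact h1
  have h1 : ∀ j, ∃ B, ∀ y, nsq y ≤ 81 → |F.K j y| ≤ B := by
    intro j
    obtain ⟨B, hB⟩ := hc.exists_bound_of_continuousOn
      ((F.pull.smooth j).continuousOn.mono fun y (hy : nsq y ≤ 81) => by
        change nsq y < 100
        linarith)
    exact ⟨B, fun y hy => hB y hy⟩
  choose B hB using h1
  obtain ⟨C, hC⟩ := (Set.finite_range B).bddAbove
  exact ⟨max C 0, le_max_right _ _, fun j y hy =>
    ((hB j y hy).trans (hC ⟨j, rfl⟩)).trans (le_max_left _ _)⟩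

end

section

variable {n N : ℕ} {M Z : Type} [MetricSpace M] [CompactSpace M] [MeasurableSpace M] [BorelSpace M]
  [MetricSpace Z] {κ P : Type} [Finite κ] [Finite P] {T : ℝ} (F : Semi n N M Z κ P T)
  {μ : Measure M} (hμ : HasDens F.e F.Ω μ)

include hμ in
theorem Semi.horm : ∃ C c₀, 0 ≤ C ∧ 0 < c₀ ∧ ∀ t ∈ Ico 0 T, ∀ p, 0 ≤ p → p * (T - t) ≤ c₀ →
    ∀ (j : P) (W : Cn N → ℝ) (χ : M → ℂ) (Q : M → ℝ), ContDiffOn ℝ ∞ W {y | nsq y < 100} →
    (∀ y, nsq y < 100 → ∀ u, 0 ≤ levz W u y) →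
    (∀ c, ContDiffOn ℝ ∞ (fun x => χ ((F.e c).symm x)) (F.e c).target) →
    (∃ R < 81, ∀ x, χ x ≠ 0 → F.f x ∈ F.S j ∧ nsq (F.y j x) ≤ R) →
    Continuous Q → (∀ x, 0 ≤ Q x) →
    (∀ c, ∀ x ∈ (F.e c).target, ∀ u, ‖dbv (fun x => χ ((F.e c).symm x)) u x‖ ^ 2 ≤
      Q ((F.e c).symm x) * lev (F.ψ c) u (0, x)) →
    ∃ h, F.Hol j h ∧
      ∫⁻ x in F.V j, ENNReal.ofReal (‖χ x - h x‖ ^ 2 *
        Real.exp (-(p * F.pK t j x + W (F.y j x)))) ∂μ ≤
      ENNReal.ofReal C * ∫⁻ x in F.V j, ENNReal.ofReal (Q x *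
        Real.exp (-(p * F.pK t j x + W (F.y j x)))) ∂μ := by
  have hT := F.hT
  rcases isEmpty_or_nonempty κ with hκ | hκ
  · have hM : IsEmpty M := ⟨fun p => by
      obtain ⟨c, -⟩ := F.atlas.cover p
      exact hκ.false c⟩
    refine ⟨0, 1, le_rfl, one_pos, fun t _ p _ _ j W χ Q _ _ _ _ _ _ _ =>
      ⟨fun _ => 0, fun c => (hκ.false c).elim, ?_⟩⟩
    rw [Measure.eq_zero_of_isEmpty μ]
    simp
  obtain ⟨B₁, hB₁, hK⟩ := F.K_bddH
  obtain ⟨s, hs⟩ := exists_surjective_nat κ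
  set b : ℝ := T⁻¹ * B₁ with hb
  refine ⟨Real.exp b * (2 * T) * Real.exp b, 1 / 2, by positivity, by norm_num, ?_⟩
  intro t ht p hp hpt j W χ Q hW hW0 hχ hR hQ hQ0 hdb
  obtain ⟨R, hR81, hR⟩ := hR
  have hV := F.isOpen_VH j
  set ρ := F.rhoH t p j W with hρ
  have hL := F.l2d_VH hT ht p j hW
  obtain ⟨g', ψ', hL', hψ'⟩ := F.exh_VH j hL
  -- the measure
  have hρc : ContinuousOn ρ (F.V j) := by
    have h1 : ContinuousOn (F.y j) (F.V j) := (F.continuousOn_yH j).mono fun x hx => hx.1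
    have hm : MapsTo (F.y j) (F.V j) {y | nsq y < 100} := fun x hx => by
      have h2 : nsq (F.y j x) < 81 := hx.2
      change nsq (F.y j x) < 100
      linarith
    have hK1 := (F.pull.smooth j).continuousOn.comp h1 hm
    exact ((continuousOn_const.mul ((F.Phi_contH ht).continuousOn.add hK1)).add
      (continuousOn_const.mul hK1)).add (hW.continuousOn.comp h1 hm)
  set μ' : Measure M := (μ.restrict (F.V j)).withDensity fun x => ENNReal.ofReal (Real.exp (-ρ x))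
    with hμ'
  have hD : KRFQ.IsDens (KRFQ.rs F.e hV)
      (fun c z => F.Ω c z * Real.exp (-KRFQ.pb F.e c ρ z)) μ' :=
    (isDens_of_hasDens F.toFlow hμ).weight (fun c => (F.vol.smooth c).continuousOn)
      (fun c z hz => (F.vol.pos c z hz).le) hV hρc
  have hμV : μ' (F.V j)ᶜ = 0 := by
    refine withDensity_absolutelyContinuous _ _ ?_
    rw [Measure.restrict_apply hV.measurableSet.compl]
    simp
  -- the set where `χ` may be nonzero
  set K₁ : Set M := {x | x ∈ F.V j ∧ nsq (F.y j x) ≤ R} with hK₁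
  have hK₁c : IsCompact K₁ := F.isCompact_VH j hR81
  have hK₁V : K₁ ⊆ F.V j := fun x hx => hx.1
  have hχ0 : ∀ x ∉ K₁, χ x = 0 := by
    intro x hx
    by_contra h
    obtain ⟨h1, h2⟩ := hR x h
    exact hx ⟨⟨h1, h2.trans_lt hR81⟩, h2⟩
  have hχS : KRFQ.Sm (KRFQ.rs F.e hV) χ := fun c => (hχ c).mono (KRFQ.rs_target_sub hV c)
  have hχ2 : MemLp χ 2 μ' := hD.memLp_test hL ⟨hχS, K₁, hK₁c, hK₁V, hχ0⟩
  set B : M → ℝ := K₁.indicator Q with hB
  have hB0 : ∀ x, 0 ≤ B x := fun x => indicator_nonneg (fun x _ => hQ0 x) x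
  have hBi : Integrable B μ' := by
    obtain ⟨C, hC⟩ := hK₁c.exists_bound_of_continuousOn hQ.continuousOn
    rw [hB, integrable_indicator_iff hK₁c.isClosed.measurableSet]
    exact Measure.integrableOn_of_bounded (M := C) (hD.measure_lt_top hL hK₁c hK₁V).ne
      hQ.aestronglyMeasurable (ae_restrict_of_forall_mem hK₁c.isClosed.measurableSet hC)
  have hdbB : ∀ c, ∀ z ∈ (KRFQ.rs F.e hV c).target, ∀ u : Cn n,
      ‖∑ k, KRFQ.dzb k (KRFQ.pb (KRFQ.rs F.e hV) c χ) z * (starRingEnd ℂ) (cc u k)‖ ^ 2 ≤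
        B ((KRFQ.rs F.e hV c).symm z) * levz (fun z => F.ψ c (0, z)) u z := by
    intro c z hz u
    obtain ⟨hzt, hzV⟩ := (KRFQ.mem_rs_target hV c).1 hz
    rw [← KRFQ.dbar_apply, Bd.levz_psi0 F.toFlow hT hzt]
    by_cases hzK : (F.e c).symm z ∈ K₁
    · have h1 : B ((KRFQ.rs F.e hV c).symm z) = Q ((F.e c).symm z) := indicator_of_mem hzK _
      rw [h1]
      exact hdb c z hzt u
    · have h1 : B ((KRFQ.rs F.e hV c).symm z) = 0 := indicator_of_notMem hzK _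
      have h2 : KRFQ.pb (KRFQ.rs F.e hV) c χ =ᶠ[𝓝 z] fun _ => 0 := by
        have h3 : ∀ᶠ z' in 𝓝 z, (F.e c).symm z' ∈ K₁ᶜ :=
          ((F.e c).symm.continuousAt hzt).eventually (hK₁c.isClosed.isOpen_compl.mem_nhds hzK)
        filter_upwards [h3] with z' hz'
        exact hχ0 _ hz'
      rw [h1, h2.fderiv_eq]
      simp
  obtain ⟨h, hh, hh2, hle⟩ := hD.hormander hL' hψ' s
    (fun x hx => by
      obtain ⟨c, hc⟩ := hL.cover x hx
      obtain ⟨i, rfl⟩ := hs c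
      exact mem_iUnion.2 ⟨i, hc⟩) hμV (k := fun c z => F.ψ c (0, z)) (c₀ := (2 * T)⁻¹)
    (by positivity)
    (fun c z hz u => by
      have hzt := KRFQ.rs_target_sub hV c hz
      rw [Bd.levz_psi0 F.toFlow hT hzt]
      exact Fb.lev_nonneg F.toFlow ⟨le_rfl, hT⟩ hzt u)
    (fun c z hz u => by
      have hzt := KRFQ.rs_target_sub hV c hz
      have h1 : (fun x => -Real.log (F.Ω c x * Real.exp (-KRFQ.pb F.e c ρ x))) =ᶠ[𝓝 z]
          fun x => -Real.log (F.Ω c x * Real.exp (-wgt F.toFlow c t p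
            (fun x => F.K j (F.y j ((F.e c).symm x)))
            (fun x => W (F.y j ((F.e c).symm x))) x)) := by
        filter_upwards [(F.e c).open_target.mem_nhds hzt] with x hx
        rw [hρ, F.pb_rhoH ht p j W c hx]
      rw [Bd.levz_congr h1, Bd.levz_psi0 F.toFlow hT hzt]
      exact Pool.Agent.KRFZ.curv F.toFlow hT ht hp hpt (KRFQ.rs F.e hV c).open_target (KRFQ.rs_target_sub hV c)
        (smooth_comp_yH F j c (F.pull.smooth j)) (smooth_comp_yH F j c hW)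
        (fun z hz u => levz_K_yH F hT j c hz u)
        (fun z hz u => by
          rw [levz_comp_yH F j c hW hz u]
          refine hW0 _ ?_ _
          have := F.nsq_y_ltH hz
          linarith) hz u)
    hχS hχ2 hB0 hBi hdbB
  refine ⟨h, fun c => ?_, ?_⟩
  · have h1 : {x | x ∈ (F.e c).target ∧ (F.e c).symm x ∈ F.V j} = (KRFQ.rs F.e hV c).target := by
      ext x
      exact (KRFQ.mem_rs_target hV c).symm
    rw [h1]
    exact ⟨(hh c).1, fun z hz u => KRFQ.fderiv_J_of_dzb (fun k => (hh c).2 k z hz) u⟩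
  · have key : ∀ x ∈ F.V j,
        Real.exp (-(p * F.pK t j x + W (F.y j x))) ≤ Real.exp b * Real.exp (-ρ x) ∧
        Real.exp (-ρ x) ≤ Real.exp b * Real.exp (-(p * F.pK t j x + W (F.y j x))) := by
      intro x hx
      have h1 := abs_le.1 (hK j (F.y j x) (le_of_lt hx.2))
      have h2 : T⁻¹ * F.K j (F.y j x) ≤ b := mul_le_mul_of_nonneg_left h1.2 (by positivity)
      have h3 : -b ≤ T⁻¹ * F.K j (F.y j x) := by
        have := mul_le_mul_of_nonneg_left h1.1 (inv_nonneg.2 hT.le)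
        rw [hb]
        linarith
      have h4 : ρ x = p * F.pK t j x + T⁻¹ * F.K j (F.y j x) + W (F.y j x) := rfl
      rw [← Real.exp_add, ← Real.exp_add, Real.exp_le_exp, Real.exp_le_exp, h4]
      constructor <;> linarith
    have hm : AEMeasurable (fun x => ENNReal.ofReal (Real.exp (-ρ x))) (μ.restrict (F.V j)) :=
      ((hρc.neg.rexp).aemeasurable hV.measurableSet).ennreal_ofReal
    have hsub2 : MemLp (fun x => χ x - h x) 2 μ' := hχ2.sub hh2
    have hi : Integrable (fun x => ‖χ x - h x‖ ^ 2) μ' := by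
      have := hsub2.integrable_norm_pow two_ne_zero
      exact this
    have e1 : ∫⁻ x in F.V j, ENNReal.ofReal (‖χ x - h x‖ ^ 2 *
        Real.exp (-(p * F.pK t j x + W (F.y j x)))) ∂μ ≤
        ENNReal.ofReal (Real.exp b) * ∫⁻ x, ENNReal.ofReal (‖χ x - h x‖ ^ 2) ∂μ' := by
      rw [hμ', lintegral_withDensity_eq_lintegral_mul₀' hm
        hi.aestronglyMeasurable.aemeasurable.ennreal_ofReal,
        ← lintegral_const_mul' _ _ ENNReal.ofReal_ne_top]
      refine setLIntegral_mono' hV.measurableSet fun x hx => ?_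
      rw [Pi.mul_apply, ← ENNReal.ofReal_mul (Real.exp_pos _).le,
        ← ENNReal.ofReal_mul (Real.exp_pos _).le]
      refine ENNReal.ofReal_le_ofReal ?_
      have := mul_le_mul_of_nonneg_left (key x hx).1 (sq_nonneg ‖χ x - h x‖)
      refine this.trans (le_of_eq (by ring))
    have e2 : ∫⁻ x, ENNReal.ofReal (‖χ x - h x‖ ^ 2) ∂μ' ≤
        ENNReal.ofReal (2 * T) * ∫⁻ x, ENNReal.ofReal (B x) ∂μ' := by
      rw [← ofReal_integral_eq_lintegral_ofReal hi (Eventually.of_forall fun x => sq_nonneg _),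
        ← ofReal_integral_eq_lintegral_ofReal hBi (Eventually.of_forall hB0),
        ← ENNReal.ofReal_mul (by positivity)]
      refine ENNReal.ofReal_le_ofReal (hle.trans (le_of_eq ?_))
      rw [inv_inv]
    have e3 : ∫⁻ x, ENNReal.ofReal (B x) ∂μ' ≤ ENNReal.ofReal (Real.exp b) *
        ∫⁻ x in F.V j, ENNReal.ofReal (Q x *
          Real.exp (-(p * F.pK t j x + W (F.y j x)))) ∂μ := by
      rw [hμ', lintegral_withDensity_eq_lintegral_mul₀' hm
        hBi.aestronglyMeasurable.aemeasurable.ennreal_ofReal,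
        ← lintegral_const_mul' _ _ ENNReal.ofReal_ne_top]
      refine setLIntegral_mono' hV.measurableSet fun x hx => ?_
      rw [Pi.mul_apply, ← ENNReal.ofReal_mul (Real.exp_pos _).le,
        ← ENNReal.ofReal_mul (Real.exp_pos _).le]
      refine ENNReal.ofReal_le_ofReal ?_
      have h1 : B x ≤ Q x := indicator_le_self' (fun _ _ => hQ0 x) x
      have h2 := mul_le_mul (key x hx).2 h1 (hB0 x) (by positivity)
      refine h2.trans (le_of_eq (by ring))
    refine e1.trans ?_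
    refine (mul_le_mul_right (e2.trans (mul_le_mul_right e3 _)) _).trans (le_of_eq ?_)
    rw [← mul_assoc, ← mul_assoc, ← ENNReal.ofReal_mul (by positivity),
      ← ENNReal.ofReal_mul (by positivity)]

end

end Pool.Agent.KRFZ
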