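import Pool.Agent.Work.MP_a2bf38_gt.Z.DomOf
import Pool.Agent.Work.MP_a2bf38_gt.Z.DomA
import Pool.Agent.Work.MP_a2bf38_gt.Z.DomB
import Pool.Agent.Work.MP_a2bf38_gt.Z.Transfer

/-!
# The domination: `(1/p) log |h|^2 - K_j ∘ F_j` is at most `φ(s)` up to `C (1 + |log (T - t)|) / p`
(KRF VI, step 5)
-/

open scoped ContDiff ENNReal ComplexOrder Topology
open Set MeasureTheory Filter Pool.Agent.ToricKRF Pool.Agent.ToricKRF.G Pool.Agent.KRFS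
  Pool.Agent.KRFF Pool.Agent.KRFG Pool.Agent.KRFE

namespace Pool.Agent.KRFZ

section

variable {n N : ℕ} {M Z : Type} [MetricSpace M] [CompactSpace M] [MeasurableSpace M] [BorelSpace M]
  [MetricSpace Z] {κ P : Type} [Finite κ] [Finite P] {T : ℝ} (F : Semi n N M Z κ P T)
  {μ : Measure M} (hμ : HasDens F.e F.Ω μ)

include hμ in
theorem Semi.dom : ∃ C c₀ d₀, 0 ≤ C ∧ 0 < c₀ ∧ 0 < d₀ ∧ ∀ t ∈ Ico 0 T, T - t ≤ d₀ → ∀ p,
    C * (1 + |Real.log (T - t)|) ≤ p → p * (T - t) ≤ c₀ → ∀ j h x, F.Adm μ t p j h →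
    F.f x ∈ F.S j → nsq (F.y j x) ≤ 9 → h x ≠ 0 → ∀ s ∈ Ico t T,
    F.val p j h x ≤ F.Phi s x + C * (1 + |Real.log (T - t)|) / p :=
  F.dom_of (F.transfer hμ) (F.adm_bound hμ) (F.domA hμ) F.domB

end

end Pool.Agent.KRFZ
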