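import Pool.Agent.Work.MP_a2bf38_gt.Z.Fam

/-!
# The domination from the transfer, the bound of the admissible functions and the two steps
(KRF VI, step 5)

The family consists of all the admissible pairs, `b = C₁ (1 + |log (T - t)|) / p` and
`τ = t / T - (C_A + C_B) b`.
-/

open scoped ContDiff ENNReal ComplexOrder Topology
open Set MeasureTheory Filter Pool.Agent.ToricKRF Pool.Agent.ToricKRF.G Pool.Agent.KRFS
  Pool.Agent.KRFF Pool.Agent.KRFG Pool.Agent.KRFE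

namespace Pool.Agent.KRFZ

section

variable {n N : ℕ} {M Z : Type} [MetricSpace M] [MeasurableSpace M] [MetricSpace Z] {κ P : Type}
  {T : ℝ} (F : Semi n N M Z κ P T) {μ : Measure M}

theorem Semi.dom_of
    (htr : ∃ C c₀, 0 ≤ C ∧ 0 < c₀ ∧ ∀ t ∈ Ico 0 T, ∀ p, 1 ≤ p → p * (T - t) ≤ c₀ →
      ∀ j h x, F.Adm μ t p j h → F.f x ∈ F.S j → nsq (F.y j x) ≤ 9 → h x ≠ 0 →
      ∃ i h', F.Adm μ t p i h' ∧ F.f x ∈ F.S i ∧ nsq (F.y i x) ≤ 1 ∧ h' x ≠ 0 ∧
        F.val p j h x - C / p ≤ F.val p i h' x)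
    (hadm : ∃ C, 0 ≤ C ∧ ∀ t ∈ Ico 0 T, ∀ p, 1 ≤ p → ∀ j h x,
      F.Adm μ t p j h → F.f x ∈ F.S j → nsq (F.y j x) ≤ 9 → h x ≠ 0 → F.val p j h x ≤ C)
    (hA : ∃ C, 0 < C ∧ ∀ t ∈ Ico 0 T, ∀ τ b p 𝓕, 1 ≤ p → 0 < b → 1 / 2 ≤ τ →
      τ ≤ t / T - C * b → F.IsFam τ b p 𝓕 → (∀ j h, (j, h) ∈ 𝓕 → F.Adm μ t p j h) →
      F.Below τ b p 𝓕 t (C * (1 - τ + (1 + |Real.log (T - t)|) / p)))
    (hB : ∃ C, 0 < C ∧ ∀ t ∈ Ico 0 T, ∀ τ b p 𝓕 B, 0 < p → 0 < τ →
      τ ≤ t / T - C * b → C * ((T - t) * (1 + |Real.log (T - t)|)) ≤ b → F.IsFam τ b p 𝓕 →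
      F.Below τ b p 𝓕 t B → ∀ s ∈ Ico t T,
      F.Below τ b p 𝓕 s (B + C * ((T - t) * (1 + |Real.log (T - t)|)))) :
    ∃ C c₀ d₀, 0 ≤ C ∧ 0 < c₀ ∧ 0 < d₀ ∧ ∀ t ∈ Ico 0 T, T - t ≤ d₀ → ∀ p,
      C * (1 + |Real.log (T - t)|) ≤ p → p * (T - t) ≤ c₀ → ∀ j h x, F.Adm μ t p j h →
      F.f x ∈ F.S j → nsq (F.y j x) ≤ 9 → h x ≠ 0 → ∀ s ∈ Ico t T,
      F.val p j h x ≤ F.Phi s x + C * (1 + |Real.log (T - t)|) / p := by
  obtain ⟨Ct, c₀, hCt, hc₀, htr⟩ := htr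
  obtain ⟨Cm, hCm, hadm⟩ := hadm
  obtain ⟨Ca, hCa, hA⟩ := hA
  obtain ⟨Cb, hCb, hB⟩ := hB
  have hT := F.hT
  set C₁ : ℝ := Cb * c₀ + Ct with hC₁
  have hC₁0 : 0 < C₁ := by positivity
  set C₂ : ℝ := Ca + Cb with hC₂
  have hC₂0 : 0 < C₂ := by positivity
  set E : ℝ := c₀ / T + C₂ * C₁ with hE
  have hE0 : 0 < E := by positivity
  set C : ℝ := (Ca + Cm) * E + Ca + Cb * c₀ + 9 * C₁ + 4 * (C₂ * C₁) + 1 with hC
  have hC0 : 0 < C := by positivity
  refine ⟨C, c₀, T / 4, hC0.le, hc₀, by positivity, ?_⟩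
  intro t ht hd p hp hpd j h x hh hfx hyx hne s hs
  set d : ℝ := T - t with hddef
  have hd0 : 0 < d := sub_pos.2 ht.2
  set L : ℝ := 1 + |Real.log d| with hL
  have hL1 : 1 ≤ L := by rw [hL]; linarith [abs_nonneg (Real.log d)]
  have hL0 : 0 < L := one_pos.trans_le hL1
  have hCC1 : 1 ≤ C := by
    have : 0 ≤ (Ca + Cm) * E + Ca + Cb * c₀ + 9 * C₁ + 4 * (C₂ * C₁) := by positivity
    linarith
  have hp1 : 1 ≤ p := by
    have h1 : (1 : ℝ) * 1 ≤ C * L := mul_le_mul hCC1 hL1 zero_le_one hC0.le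
    linarith
  have hp0 : 0 < p := one_pos.trans_le hp1
  -- `d ≤ c₀ / p ≤ c₀ L / p`
  set q : ℝ := L / p with hq
  have hq0 : 0 < q := by positivity
  have hpq : p * q = L := by rw [hq]; field_simp
  have hdL : d * L ≤ c₀ * q := by
    have h1 : p * (d * L) ≤ p * (c₀ * q) := by
      have : p * (c₀ * q) = c₀ * L := by rw [← hpq]; ring
      rw [this]
      have h2 : p * d * L ≤ c₀ * L := mul_le_mul_of_nonneg_right hpd hL0.le
      rw [← mul_assoc]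
      exact h2
    exact le_of_mul_le_mul_left h1 hp0
  have hdq : d ≤ c₀ * q := (le_mul_of_one_le_right hd0.le hL1).trans hdL
  have hinv : 1 / p ≤ q := by
    rw [hq]
    exact div_le_div_of_nonneg_right hL1 hp0.le
  have hCq : C * q ≤ 1 := by
    have h1 : p * (C * q) ≤ p * 1 := by
      have : p * (C * q) = C * L := by rw [← hpq]; ring
      rw [this]; linarith
    exact le_of_mul_le_mul_left h1 hp0
  set b : ℝ := C₁ * q with hb
  have hb0 : 0 < b := by positivity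
  set τ : ℝ := t / T - C₂ * b with hτ
  have htT : t / T = 1 - d / T := by rw [hddef]; field_simp; ring
  have hdT : d / T ≤ 1 / 4 := by
    rw [div_le_iff₀ hT]; linarith
  have hdT' : d / T ≤ c₀ / T * q := by
    rw [div_mul_eq_mul_div]
    exact div_le_div_of_nonneg_right hdq hT.le
  have hdT0 : 0 ≤ d / T := by positivity
  have hC2b : C₂ * b ≤ 1 / 4 := by
    have h1 : 4 * (C₂ * C₁) ≤ C := by
      have : 0 ≤ (Ca + Cm) * E + Ca + Cb * c₀ + 9 * C₁ + 1 := by positivity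
      linarith
    have h2 : 4 * (C₂ * C₁) * q ≤ 1 := (mul_le_mul_of_nonneg_right h1 hq0.le).trans hCq
    have h3 : 4 * (C₂ * b) = 4 * (C₂ * C₁) * q := by rw [hb]; ring
    linarith
  have hC2b0 : 0 ≤ C₂ * b := by positivity
  have hτ2 : 1 / 2 ≤ τ := by rw [hτ, htT]; linarith
  have hτ0 : 0 < τ := by linarith
  have hτ1 : τ ≤ 1 := by rw [hτ, htT]; linarith
  have h1τ : 1 - τ ≤ E * q := by
    have h1 : C₂ * b = C₂ * C₁ * q := by rw [hb]; ring
    have h2 : E * q = c₀ / T * q + C₂ * C₁ * q := by rw [hE]; ring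
    rw [hτ, htT]; linarith
  have hτa : τ ≤ t / T - Ca * b := by
    have : C₂ * b = Ca * b + Cb * b := by rw [hC₂]; ring
    have : 0 ≤ Cb * b := by positivity
    linarith
  have hτb : τ ≤ t / T - Cb * b := by
    have : C₂ * b = Ca * b + Cb * b := by rw [hC₂]; ring
    have : 0 ≤ Ca * b := by positivity
    linarith
  have hbB : Cb * (d * L) ≤ b := by
    have h1 : Cb * (d * L) ≤ Cb * (c₀ * q) := mul_le_mul_of_nonneg_left hdL hCb.le
    have h2 : b = Cb * (c₀ * q) + Ct * q := by rw [hb, hC₁]; ring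
    have : 0 ≤ Ct * q := by positivity
    linarith
  set 𝓕 : Set (P × (M → ℂ)) := {a | F.Adm μ t p a.1 a.2} with h𝓕
  have hfam : F.IsFam τ b p 𝓕 := by
    refine ⟨fun i g hg => hg.1, ?_⟩
    intro i g x' hg hx' h4 h9 hgx
    obtain ⟨i', g', hadm', hxi, hyi, hne', hle⟩ := htr t ht p hp1 hpd i g x' hg hx' h9 hgx
    refine ⟨i', g', hadm', hxi, hyi, hne', ?_⟩
    have h1 : τ * (F.val p i g x' - Ct / p) ≤ τ * F.val p i' g' x' :=
      mul_le_mul_of_nonneg_left hle hτ0.le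
    have h2 : τ * (Ct / p) ≤ b := by
      have h3 : Ct / p ≤ Ct * q := by
        have := mul_le_mul_of_nonneg_left hinv hCt
        rwa [mul_one_div] at this
      have h4 : 0 ≤ Ct / p := by positivity
      have h5 : τ * (Ct / p) ≤ 1 * (Ct / p) := mul_le_mul_of_nonneg_right hτ1 h4
      have h6 : b = Cb * (c₀ * q) + Ct * q := by rw [hb, hC₁]; ring
      have : 0 ≤ Cb * (c₀ * q) := by positivity
      linarith
    have h3 : b * 4 ≤ b * nsq (F.y i x') := mul_le_mul_of_nonneg_left h4 hb0.le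
    have h5 : b * nsq (F.y i' x') ≤ b * 1 := mul_le_mul_of_nonneg_left hyi hb0.le
    have h6 : τ * (F.val p i g x' - Ct / p) = τ * F.val p i g x' - τ * (Ct / p) := by ring
    linarith
  have hbelow := hA t ht τ b p 𝓕 hp1 hb0 hτ2 hτa hfam fun i g hg => hg
  have hbs := hB t ht τ b p 𝓕 _ hp0 hτ0 hτb hbB hfam hbelow s hs j h x hh hfx hyx hne
  have hval := hadm t ht p hp1 j h x hh hfx hyx hne
  -- the conclusion
  have e1 : (1 - τ) * F.val p j h x ≤ (1 - τ) * Cm :=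
    mul_le_mul_of_nonneg_left hval (by linarith)
  have e2 : (1 - τ) * Cm ≤ E * q * Cm := mul_le_mul_of_nonneg_right h1τ hCm
  have e3 : Ca * (1 - τ + L / p) ≤ Ca * (E * q + q) :=
    mul_le_mul_of_nonneg_left (by rw [← hq]; linarith) hCa.le
  have e4 : Cb * (d * L) ≤ Cb * (c₀ * q) := mul_le_mul_of_nonneg_left hdL hCb.le
  have e5 : b * nsq (F.y j x) ≤ b * 9 := mul_le_mul_of_nonneg_left hyx hb0.le
  have e6 : F.val p j h x = τ * F.val p j h x + (1 - τ) * F.val p j h x := by ring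
  have e7 : C * L / p = C * q := by rw [hq, mul_div_assoc]
  have e8 : C * q = (Ca + Cm) * E * q + Ca * q + Cb * c₀ * q + 9 * (C₁ * q) +
      4 * (C₂ * C₁) * q + q := by rw [hC]; ring
  have e9 : 0 ≤ 4 * (C₂ * C₁) * q := by positivity
  rw [e7, e8, e6]
  have e10 : E * q * Cm = Cm * E * q := by ring
  have e11 : Ca * (E * q + q) = Ca * E * q + Ca * q := by ring
  have e12 : (Ca + Cm) * E * q = Ca * E * q + Cm * E * q := by ring
  have e13 : b = C₁ * q := hb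
  have e14 : Cb * (c₀ * q) = Cb * c₀ * q := by ring
  rw [← hb]
  linarith

end

end Pool.Agent.KRFZ
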