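import Pool.Agent.Work.MP_a2bf38_gt.Z.HarnOf
import Pool.Agent.Work.MP_a2bf38_gt.Z.Log

/-!
# The Harnack inequality on the fibres
-/

open scoped ContDiff ENNReal ComplexOrder Topology
open Set MeasureTheory Filter Pool.Agent.ToricKRF Pool.Agent.ToricKRF.G Pool.Agent.KRFS
  Pool.Agent.KRFF Pool.Agent.KRFG Pool.Agent.KRFE

namespace Pool.Agent.KRFZ

section

variable {n N : ℕ} {M Z : Type} [MetricSpace M] [CompactSpace M] [MetricSpace Z] {κ P : Type}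
  [Finite κ] [Finite P] {T : ℝ} (F : Semi n N M Z κ P T)

theorem Semi.harnack : ∃ C l₀, 0 ≤ C ∧ 1 ≤ l₀ ∧ ∀ t ∈ Ico 0 T, ∀ z l, l₀ ≤ l → ∀ c p,
    p ∈ (F.e c).source → nsq (F.e c p) ≤ 9 → F.f p = z →
    F.G t z c l (F.e c p) ≤ C * F.A t z l :=
  F.harnack_of (fun ht _ _ hl _ _ hp hx hz =>
    ⟨(F.slope ht hl hp hx hz).1, (F.slope ht hl hp hx hz).2.1⟩) F.log_trick

end

end Pool.Agent.KRFZ
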