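import Pool.Agent.Work.MP_a2bf38_gt.Z.Curve

/-!
# The Harnack inequality on the fibres, from the logarithm of `G`
-/

open scoped ContDiff ENNReal ComplexOrder Topology
open Set MeasureTheory Filter Pool.Agent.ToricKRF Pool.Agent.ToricKRF.G Pool.Agent.KRFS
  Pool.Agent.KRFF Pool.Agent.KRFG Pool.Agent.KRFE

namespace Pool.Agent.KRFZ

variable {n N : ℕ} {M Z : Type} [MetricSpace M] [CompactSpace M] [MetricSpace Z] {κ P : Type}
  [Finite κ] [Finite P] {T : ℝ} (F : Semi n N M Z κ P T)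

/-- the fibres are compact -/
theorem Semi.isCompact_fibre (z : Z) : IsCompact (F.f ⁻¹' {z}) :=
  (isClosed_singleton.preimage F.emb.cont).isCompact

theorem Semi.harnack_of
    (slope : ∀ {t : ℝ}, t ∈ Ico 0 T → ∀ {z : Z} {l : ℝ}, 0 < l → ∀ {c : κ} {p : M},
      p ∈ (F.e c).source → nsq (F.e c p) ≤ 9 → F.f p = z →
      0 < F.A t z l ∧ F.A t z l ≤ F.G t z c l (F.e c p))
    (log_trick : ∃ C l₀, 0 < C ∧ 1 ≤ l₀ ∧ ∀ t ∈ Ico 0 T, ∀ z l, l₀ ≤ l → ∃ v : M → ℝ,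
      ContinuousOn v (F.f ⁻¹' {z}) ∧
      (∀ c p, p ∈ (F.e c).source → nsq (F.e c p) ≤ 9 → F.f p = z →
        |v p + Real.log (F.G t z c l (F.e c p))| ≤ C / l) ∧
      (∀ p p', F.f p = z → F.f p' = z → dist p p' ≤ Real.exp (-l) → |v p - v p'| ≤ C / l) ∧
      ∀ (c : κ) (g : ℂ → Cn n) (s : ℂ) (r₀ : ℝ), 0 < r₀ → HolD g (Metric.ball s r₀) →
        (∀ s' ∈ Metric.ball s r₀, g s' ∈ (F.e c).target ∧ F.f ((F.e c).symm (g s')) = z) →
        ∀ ε > 0, ∀ᶠ r in 𝓝[>] (0 : ℝ), v ((F.e c).symm (g s)) ≤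
          cavg (fun ζ => v ((F.e c).symm (g (s + ζ)))) r +
            (C / l * lev (F.ψ c) (fderiv ℝ g s 1) (0, g s) + ε) * r ^ 2) :
    ∃ C l₀, 0 ≤ C ∧ 1 ≤ l₀ ∧ ∀ t ∈ Ico 0 T, ∀ z l, l₀ ≤ l → ∀ c p,
      p ∈ (F.e c).source → nsq (F.e c p) ≤ 9 → F.f p = z →
      F.G t z c l (F.e c p) ≤ C * F.A t z l := by
  obtain ⟨C₁, l₀, hC₁, hl₀, hlog⟩ := log_trick
  obtain ⟨D₀, C, α, hC, hα, hcurv⟩ := F.curv
  obtain ⟨C₃, hC₃, hgap⟩ := curve_gap F.e F.ψ hC hα zero_le_one D₀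
  set B : ℝ := 2 * D₀ * (C₃ * C₁) with hB
  have hB0 : 0 ≤ B := by positivity
  refine ⟨2 * Real.exp (2 * C₁ + B), l₀, by positivity, hl₀, ?_⟩
  intro t ht z l hl c p hp hx hz
  have hl1 : 1 ≤ l := hl₀.trans hl
  have hl0 : 0 < l := by linarith
  have hC₁l : C₁ / l ≤ C₁ := div_le_self hC₁.le hl1
  obtain ⟨v, hvc, hvG, hvflat, hvdisc⟩ := hlog t ht z l hl
  -- the oscillation of `v`
  have hosc : ∀ x x', F.f x = z → F.f x' = z → |v x - v x'| ≤ B := by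
    intro x x' hx hx'
    obtain ⟨A, hAcard, hAz, hA⟩ := hcurv z l hl1
    set w : M → ℝ := fun p => l / C₁ * v p with hw
    have hwc : ContinuousOn w (F.f ⁻¹' {z}) := continuousOn_const.mul hvc
    have hlC : 0 < l / C₁ := by positivity
    have key : ∀ x ∈ F.f ⁻¹' {z}, ∃ p' ∈ A, |v x - v p'| ≤ C₃ * C₁ := by
      intro x hx
      obtain ⟨D, γ, ρ, s₀, s₁, hD, hs₀, hs₁, h0, ⟨i, hi⟩, hγ⟩ := hA x hx
      obtain ⟨j, hj⟩ := hgap (F.f ⁻¹' {z}) w l D γ ρ s₀ s₁ (F.isCompact_fibre z) hwc hl1 hD hs₀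
        hs₁ (fun p hp p' hp' hpp => by
          have h1 := hvflat p p' hp hp' hpp
          simp only [hw]
          rw [← mul_sub, abs_mul, abs_of_pos hlC]
          calc l / C₁ * |v p - v p'| ≤ l / C₁ * (C₁ / l) := mul_le_mul_of_nonneg_left h1 hlC.le
            _ = 1 := by field_simp)
        (fun c g s r₀ hr₀ hg hgt ε hε => by
          filter_upwards [hvdisc c g s r₀ hr₀ hg hgt (C₁ / l * ε) (by positivity)] with r hr
          simp only [hw]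
          rw [KRFHk.cavg_mul_left]
          have h1 := mul_le_mul_of_nonneg_left hr hlC.le
          refine h1.trans (le_of_eq ?_)
          field_simp)
        hγ i
      refine ⟨γ s₀ j, h0 j, ?_⟩
      rw [hi] at hj
      simp only [hw] at hj
      rw [← mul_sub, abs_mul, abs_of_pos hlC] at hj
      have h1 : |v x - v (γ s₀ j)| = C₁ / l * (l / C₁ * |v x - v (γ s₀ j)|) := by
        field_simp
      rw [h1]
      calc C₁ / l * (l / C₁ * |v x - v (γ s₀ j)|) ≤ C₁ / l * (C₃ * l) :=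
            mul_le_mul_of_nonneg_left hj (by positivity)
        _ = C₃ * C₁ := by field_simp
    have h1 := osc_le (F.conn z) hvc key (p := x) (p' := x') hx hx'
    refine h1.trans ?_
    have h2 : (A.card : ℝ) ≤ D₀ := by exact_mod_cast hAcard
    rw [hB]
    calc 2 * (C₃ * C₁) * (A.card : ℝ) ≤ 2 * (C₃ * C₁) * D₀ :=
          mul_le_mul_of_nonneg_left h2 (by positivity)
      _ = 2 * D₀ * (C₃ * C₁) := by ring
  -- a near-maximum of `U`
  obtain ⟨hA0, hAG⟩ := slope ht hl0 hp hx hz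
  have hne : {r | ∃ c p, p ∈ (F.e c).source ∧ nsq (F.e c p) ≤ 9 ∧ F.f p = z ∧
      r = F.U t c l (F.e c p)}.Nonempty := ⟨_, c, p, hp, hx, hz, rfl⟩
  obtain ⟨r, ⟨c₀, p₀, hp₀, hx₀, hz₀, rfl⟩, hr⟩ := exists_lt_of_lt_csSup hne
    (show F.mm t z l - F.A t z l < F.mm t z l by linarith)
  obtain ⟨-, hAG₀⟩ := slope ht hl0 hp₀ hx₀ hz₀
  have hG₀ : F.G t z c₀ l (F.e c₀ p₀) ≤ 2 * F.A t z l := by
    simp only [Semi.G]
    linarith
  have hG₀pos : 0 < F.G t z c₀ l (F.e c₀ p₀) := hA0.trans_le hAG₀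
  have hGpos : 0 < F.G t z c l (F.e c p) := hA0.trans_le hAG
  have e1 := abs_le.1 (hvG c₀ p₀ hp₀ hx₀ hz₀)
  have e2 := abs_le.1 (hvG c p hp hx hz)
  have e3 := abs_le.1 (hosc p p₀ hz hz₀)
  have e4 := Real.log_le_log hG₀pos hG₀
  have h5 : Real.log (F.G t z c l (F.e c p)) ≤ Real.log (2 * F.A t z l) + (2 * C₁ + B) := by
    linarith [e1.1, e2.2, e3.1]
  have h6 := Real.exp_le_exp.2 h5
  rw [Real.exp_log hGpos, Real.exp_add, Real.exp_log (by positivity)] at h6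
  linarith

end Pool.Agent.KRFZ
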