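import Pool.Agent.Work.MP_a2bf38_gt.Z.NatDefs
import Pool.Agent.Work.MP_a2bf38_gt.I.NatTop
import Pool.Agent.Work.MP_a2bf38_gt.K.DropLocal
import Pool.Agent.Work.MP_a2bf38_gt.I.Exp

/-!
# Unit charts of a compact complex manifold with a metric
-/

open scoped ContDiff ENNReal ComplexOrder Topology
open Set Filter Pool.Agent.ToricKRF Pool.Agent.ToricKRF.G Pool.Agent.KRFS Pool.Agent.KRFF

namespace Pool.Agent.KRFZ

namespace NM

section Ball

variable {X : Type} [TopologicalSpace X] {n : ℕ}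

theorem nsq_smul (r : ℝ) (v : Cn n) : nsq (r • v) = r ^ 2 * nsq v := by
  unfold nsq
  simp only [Prod.smul_fst, Prod.smul_snd, dotProduct_smul, smul_dotProduct, smul_eq_mul]
  ring

theorem continuous_nsq : Continuous (nsq : Cn n → ℝ) := by
  unfold nsq dotProduct
  fun_prop

theorem nsq_le_norm (z : Cn n) : nsq z ≤ 2 * n * ‖z‖ ^ 2 := by
  have h1 : ∀ v : Fin n → ℝ, ‖v‖ ≤ ‖z‖ → v ⬝ᵥ v ≤ n * ‖z‖ ^ 2 := by
    intro v hv
    unfold dotProduct
    calc ∑ i, v i * v i ≤ ∑ _i : Fin n, ‖z‖ ^ 2 := by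
          refine Finset.sum_le_sum fun i _ => ?_
          have h2 : |v i| ≤ ‖z‖ := (norm_le_pi_norm v i).trans hv
          nlinarith [abs_mul_abs_self (v i), abs_nonneg (v i)]
      _ = n * ‖z‖ ^ 2 := by simp
  have h3 := h1 z.1 (norm_fst_le z)
  have h4 := h1 z.2 (norm_snd_le z)
  unfold nsq
  linarith

/-- the chart `E`, restricted to the ball of radius `10 r` and centre `y`, and scaled to the
radius `10` -/
theorem exists_ball (E : OpenPartialHomeomorph X (Cn n)) (y : Cn n) {r : ℝ} (hr : 0 < r)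
    (h : ∀ w, nsq (w - y) < (10 * r) ^ 2 → w ∈ E.target) :
    ∃ E' : OpenPartialHomeomorph X (Cn n), E'.target = {w | nsq w < 100} ∧
      (∀ p, p ∈ E'.source ↔ p ∈ E.source ∧ nsq (E p - y) < (10 * r) ^ 2) ∧
      (∀ p, E' p = r⁻¹ • (E p - y)) ∧ ∀ w, E'.symm w = E.symm (y + r • w) := by
  have hs : r⁻¹ ≠ 0 := by positivity
  have hopen : IsOpen {w : Cn n | nsq (w - y) < (10 * r) ^ 2} :=
    isOpen_lt (continuous_nsq.comp (by fun_prop)) continuous_const
  have key : ∀ w : Cn n, nsq (y + r • w - y) < (10 * r) ^ 2 ↔ nsq w < 100 := by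
    intro w
    have h2 : y + r • w - y = r • w := by abel
    rw [h2, nsq_smul, mul_pow, mul_comm (10 ^ 2 : ℝ), mul_lt_mul_iff_right₀ (by positivity)]
    norm_num
  refine ⟨((E.trans (OpenPartialHomeomorph.ofSet _ hopen)).transHomeomorph (NT.affH y _ hs)),
    ?_, ?_, ?_, ?_⟩
  · ext w
    simp only [OpenPartialHomeomorph.transHomeomorph_target, mem_preimage,
      OpenPartialHomeomorph.trans_target, OpenPartialHomeomorph.ofSet_target,
      OpenPartialHomeomorph.ofSet_symm, OpenPartialHomeomorph.ofSet_apply, mem_inter_iff,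
      mem_ofPred_eq, id]
    have h1 : (NT.affH y (r⁻¹) hs).symm w = y + (r⁻¹)⁻¹ • w := rfl
    rw [h1, inv_inv]
    constructor
    · exact fun h => (key w).1 h.1
    · intro hw
      exact ⟨(key w).2 hw, h _ ((key w).2 hw)⟩
  · intro p
    simp
  · intro p
    rfl
  · intro w
    have h1 : (NT.affH y (r⁻¹) hs).symm w = y + (r⁻¹)⁻¹ • w := rfl
    simp only [OpenPartialHomeomorph.transHomeomorph_symm_apply,
      OpenPartialHomeomorph.coe_trans_symm, OpenPartialHomeomorph.ofSet_symm, Function.comp_apply,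
      h1]
    rw [inv_inv]
    rfl

end Ball

section

variable {M : Type} [MetricSpace M] {n : ℕ} {κ : Type}

/-- a unit chart with centre `p` -/
structure Data (e : κ → OpenPartialHomeomorph M (Cn n)) (p : M) where
  c : κ
  r : ℝ
  C : ℝ
  E : OpenPartialHomeomorph M (Cn n)
  r_pos : 0 < r
  C_pos : 0 < C
  target : E.target = {w | nsq w < 100}
  mem : p ∈ E.source
  zero : E p = 0
  sub : E.source ⊆ (e c).source
  apply : ∀ q, E q = r⁻¹ • (e c q - e c p)
  symm : ∀ w, E.symm w = (e c).symm (e c p + r • w)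
  maps : ∀ w ∈ E.target, e c p + r • w ∈ (e c).target
  lip : ∀ q ∈ E.source, ∀ q' ∈ E.source,
    dist (E q) (E q') ≤ C * dist q q' ∧ dist q q' ≤ C * dist (E q) (E q')

theorem dist_affine (a b y : Cn n) (s : ℝ) (hs : 0 ≤ s) :
    dist (s • (a - y)) (s • (b - y)) = s * dist a b := by
  rw [dist_eq_norm, dist_eq_norm, ← smul_sub, sub_sub_sub_cancel_right, norm_smul,
    Real.norm_of_nonneg hs]

theorem exists_data {e : κ → OpenPartialHomeomorph M (Cn n)} (he : IsAtlas e)
    (hl : ∀ c, IsLip (e c) (e c).source) (p : M) : Nonempty (Data e p) := by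
  obtain ⟨c, hc⟩ := he.cover p
  obtain ⟨C, hC, hev⟩ := hl c p hc
  rw [nhds_prod_eq, Filter.eventually_prod_self_iff'] at hev
  obtain ⟨U, hU, hUl⟩ := hev
  have h1 : ∀ᶠ w in 𝓝 (e c p), w ∈ (e c).target ∧ (e c).symm w ∈ U := by
    have h2 : ContinuousAt (e c).symm (e c p) :=
      (e c).continuousAt_symm ((e c).map_source hc)
    have h3 : U ∈ 𝓝 ((e c).symm (e c p)) := by rwa [(e c).left_inv hc]
    exact Filter.Eventually.and ((e c).open_target.mem_nhds ((e c).map_source hc)) (h2 h3)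
  obtain ⟨ε, hε, hball⟩ := Metric.eventually_nhds_iff_ball.1 h1
  set r : ℝ := ε / 20 with hr
  have hr0 : 0 < r := by positivity
  have hin : ∀ w, nsq (w - e c p) < (10 * r) ^ 2 → w ∈ (e c).target ∧ (e c).symm w ∈ U := by
    intro w hw
    refine hball w ?_
    rw [Metric.mem_ball, dist_eq_norm]
    have h2 := Pool.Agent.KRFG.norm_le_of_nsq_le (by positivity) hw.le
    rw [hr] at h2
    linarith
  obtain ⟨E, hEt, hEs, hEa, hEi⟩ := exists_ball (e c) (e c p) hr0 fun w hw => (hin w hw).1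
  have hEU : ∀ q ∈ E.source, q ∈ U := by
    intro q hq
    have h2 := (hEs q).1 hq
    have h3 := (hin _ h2.2).2
    rwa [(e c).left_inv h2.1] at h3
  refine ⟨⟨c, r, C * r⁻¹ + C * r, E, hr0, by positivity, hEt, ?_, ?_, ?_, hEa, hEi, ?_, ?_⟩⟩
  · refine (hEs p).2 ⟨hc, ?_⟩
    rw [sub_self]
    have : nsq (0 : Cn n) = 0 := by simp [nsq]
    rw [this]
    positivity
  · rw [hEa, sub_self, smul_zero]
  · exact fun q hq => ((hEs q).1 hq).1
  · intro w hw
    rw [hEt] at hw
    refine (hin _ ?_).1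
    rw [add_sub_cancel_left, nsq_smul, mul_pow, mul_comm (10 ^ 2 : ℝ)]
    have h3 : nsq w < 100 := hw
    nlinarith [pow_pos hr0 2]
  · intro q hq q' hq'
    have h2 := hUl q (hEU q hq) q' (hEU q' hq')
    have hri : 0 < r⁻¹ := by positivity
    rw [hEa, hEa, dist_affine _ _ _ _ hri.le]
    constructor
    · have h3 := mul_le_mul_of_nonneg_left h2.1 hri.le
      have h4 : 0 ≤ C * r * dist q q' := by positivity
      calc r⁻¹ * dist (e c q) (e c q') ≤ r⁻¹ * (C * dist q q') := h3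
        _ ≤ r⁻¹ * (C * dist q q') + C * r * dist q q' := le_add_of_nonneg_right h4
        _ = (C * r⁻¹ + C * r) * dist q q' := by ring
    · have h4 : 0 ≤ C * r⁻¹ * (r⁻¹ * dist (e c q) (e c q')) := by positivity
      have h5 : r * r⁻¹ = 1 := mul_inv_cancel₀ hr0.ne'
      calc dist q q' ≤ C * dist (e c q) (e c q') := h2.2
        _ = C * (r * r⁻¹) * dist (e c q) (e c q') := by rw [h5, mul_one]
        _ = C * r * (r⁻¹ * dist (e c q) (e c q')) := by ring
        _ ≤ C * r * (r⁻¹ * dist (e c q) (e c q')) + C * r⁻¹ * (r⁻¹ * dist (e c q) (e c q')) :=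
          le_add_of_nonneg_right h4
        _ = (C * r⁻¹ + C * r) * (r⁻¹ * dist (e c q) (e c q')) := by ring

end

end NM

open NM

variable {M : Type} [MetricSpace M] [CompactSpace M] {n : ℕ} {κ : Type}
  {e : κ → OpenPartialHomeomorph M (Cn n)}

/-- **Unit charts.** A compact manifold with a metric which is locally Lipschitz equivalent to the
coordinates has finitely many charts `e' c`, restrictions of the given charts in affine coordinates,
onto the ball of radius `10`, whose unit balls cover, and which are bi-Lipschitz. -/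
theorem exists_unit_charts (he : IsAtlas e) (hl : ∀ c, IsLip (e c) (e c).source) :
    ∃ (κ' : Type) (_ : Fintype κ') (e' : κ' → OpenPartialHomeomorph M (Cn n)) (σ : κ' → κ),
      IsRefinement e e' σ ∧ (∀ c, (e' c).target = {w | nsq w < 100}) ∧
      (∀ p, ∃ c, p ∈ (e' c).source ∧ nsq (e' c p) ≤ 1) ∧
      (∃ C, 0 < C ∧ ∀ c, ∀ x ∈ (e' c).source, ∀ x' ∈ (e' c).source,
        dist (e' c x) (e' c x') ≤ C * dist x x' ∧ dist x x' ≤ C * dist (e' c x) (e' c x')) ∧
      ∃ C, 0 < C ∧ ∀ c x x', nsq x ≤ 81 → nsq x' ≤ 81 →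
        dist ((e' c).symm x) ((e' c).symm x') ^ 2 ≤ C * nsq (x - x') ∧
          nsq (x - x') ≤ C * dist ((e' c).symm x) ((e' c).symm x') ^ 2 := by
  classical
  have D : ∀ p : M, Data e p := fun p => (exists_data he hl p).some
  set V : M → Set M := fun p => (D p).E.source ∩ (D p).E ⁻¹' {w | nsq w < 1} with hV
  have hVo : ∀ p, IsOpen (V p) := fun p => (D p).E.isOpen_inter_preimage
    (isOpen_lt continuous_nsq continuous_const)
  have hpV : ∀ p, p ∈ V p := fun p => ⟨(D p).mem, by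
    show nsq ((D p).E p) < 1
    rw [(D p).zero]
    simp [nsq]⟩
  obtain ⟨t, ht⟩ := isCompact_univ.elim_finite_subcover V hVo
    (fun p _ => mem_iUnion.2 ⟨p, hpV p⟩)
  set C : ℝ := (∑ p ∈ t, (D p).C) + 1 with hCdef
  have hC0 : 0 < C := by
    have : 0 ≤ ∑ p ∈ t, (D p).C := Finset.sum_nonneg fun p _ => (D p).C_pos.le
    rw [hCdef]
    linarith
  have hCle : ∀ p ∈ t, (D p).C ≤ C := by
    intro p hp
    have := Finset.single_le_sum (f := fun p => (D p).C) (fun p _ => (D p).C_pos.le) hp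
    rw [hCdef]
    linarith
  have hlip : ∀ c : {p : M // p ∈ t}, ∀ x ∈ (D c.1).E.source, ∀ x' ∈ (D c.1).E.source,
      dist ((D c.1).E x) ((D c.1).E x') ≤ C * dist x x' ∧
        dist x x' ≤ C * dist ((D c.1).E x) ((D c.1).E x') := by
    intro c x hx x' hx'
    have h1 := (D c.1).lip x hx x' hx'
    have h2 := hCle c.1 c.2
    exact ⟨h1.1.trans (mul_le_mul_of_nonneg_right h2 dist_nonneg),
      h1.2.trans (mul_le_mul_of_nonneg_right h2 dist_nonneg)⟩
  refine ⟨{p : M // p ∈ t}, inferInstance, fun c => (D c.1).E, fun c => (D c.1).c,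
    ⟨?_, fun c => (D c.1).sub, ?_, ?_⟩, fun c => (D c.1).target, ?_, ⟨C, hC0, hlip⟩, ?_⟩
  · intro p
    obtain ⟨q, hq, hpq⟩ := mem_iUnion₂.1 (ht (mem_univ p))
    exact ⟨⟨q, hq⟩, hpq.1⟩
  · intro c
    refine NT.hol_congr (D c.1).E.open_target (NT.hol_scale (D c.1).r (e (D c.1).c c.1) _) ?_
    intro w hw
    show e (D c.1).c ((D c.1).E.symm w) = _
    rw [(D c.1).symm, (e (D c.1).c).right_inv ((D c.1).maps w hw)]
  · intro c
    refine NT.hol_congr ((e (D c.1).c).isOpen_inter_preimage_symm (D c.1).E.open_source)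
      (NT.hol_scale (D c.1).r⁻¹ (-((D c.1).r⁻¹ • e (D c.1).c c.1)) _) ?_
    rintro z ⟨hz, -⟩
    show (D c.1).E ((e (D c.1).c).symm z) = _
    rw [(D c.1).apply, (e (D c.1).c).right_inv hz, smul_sub]
    exact sub_eq_neg_add _ _
  · intro p
    obtain ⟨q, hq, hpq⟩ := mem_iUnion₂.1 (ht (mem_univ p))
    exact ⟨⟨q, hq⟩, hpq.1, (show nsq ((D q).E p) < 1 from hpq.2).le⟩
  · refine ⟨(2 * n + 1) * C ^ 2, by positivity, fun c x x' hx hx' => ?_⟩
    have hxt : x ∈ (D c.1).E.target := by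
      rw [(D c.1).target]
      show nsq x < 100
      linarith
    have hxt' : x' ∈ (D c.1).E.target := by
      rw [(D c.1).target]
      show nsq x' < 100
      linarith
    have h1 := hlip c _ ((D c.1).E.map_target hxt) _ ((D c.1).E.map_target hxt')
    rw [(D c.1).E.right_inv hxt, (D c.1).E.right_inv hxt'] at h1
    have h2 : dist x x' ^ 2 ≤ nsq (x - x') := by
      rw [dist_eq_norm]
      exact Pool.Agent.KRFF.Ex.norm_sq_le n _
    have h3 : nsq (x - x') ≤ 2 * n * dist x x' ^ 2 := by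
      rw [dist_eq_norm]
      exact nsq_le_norm _
    have h4 : dist ((D c.1).E.symm x) ((D c.1).E.symm x') ^ 2 ≤ C ^ 2 * dist x x' ^ 2 := by
      rw [← mul_pow]
      exact pow_le_pow_left₀ dist_nonneg h1.2 2
    have h5 : dist x x' ^ 2 ≤ C ^ 2 * dist ((D c.1).E.symm x) ((D c.1).E.symm x') ^ 2 := by
      rw [← mul_pow]
      exact pow_le_pow_left₀ dist_nonneg h1.1 2
    have hn : (0 : ℝ) ≤ n := Nat.cast_nonneg n
    have h6 : 0 ≤ nsq (x - x') := le_trans (sq_nonneg _) h2
    constructor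
    · calc dist ((D c.1).E.symm x) ((D c.1).E.symm x') ^ 2 ≤ C ^ 2 * dist x x' ^ 2 := h4
        _ ≤ C ^ 2 * nsq (x - x') := mul_le_mul_of_nonneg_left h2 (sq_nonneg _)
        _ ≤ (2 * n + 1) * (C ^ 2 * nsq (x - x')) :=
          le_mul_of_one_le_left (by positivity) (by linarith)
        _ = (2 * n + 1) * C ^ 2 * nsq (x - x') := by ring
    · calc nsq (x - x') ≤ 2 * n * dist x x' ^ 2 := h3
        _ ≤ 2 * n * (C ^ 2 * dist ((D c.1).E.symm x) ((D c.1).E.symm x') ^ 2) :=
          mul_le_mul_of_nonneg_left h5 (by positivity)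
        _ ≤ (2 * n + 1) * (C ^ 2 * dist ((D c.1).E.symm x) ((D c.1).E.symm x') ^ 2) := by
          have h7 : 0 ≤ C ^ 2 * dist ((D c.1).E.symm x) ((D c.1).E.symm x') ^ 2 := by positivity
          linarith
        _ = (2 * n + 1) * C ^ 2 * dist ((D c.1).E.symm x) ((D c.1).E.symm x') ^ 2 := by ring

end Pool.Agent.KRFZ
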