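import Pool.Agent.Work.MP_a2bf38_gt.Z.PeakE
import Pool.Agent.Work.MP_a2bf38_gt.Z.Tube
import Pool.Agent.Work.MP_a2bf38_gt.Z.Harn

/-!
# Peak functions
-/

open scoped ContDiff ENNReal ComplexOrder Topology
open Set MeasureTheory Filter Pool.Agent.ToricKRF Pool.Agent.ToricKRF.G Pool.Agent.KRFS
  Pool.Agent.KRFF Pool.Agent.KRFG Pool.Agent.KRFE

namespace Pool.Agent.KRFZ

section

variable {n N : ℕ} {M Z : Type} [MetricSpace M] [CompactSpace M] [MeasurableSpace M] [BorelSpace M]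
  [MetricSpace Z] {κ P : Type} [Finite κ] [Finite P] {T : ℝ} (F : Semi n N M Z κ P T)
  {μ : Measure M} (hμ : HasDens F.e F.Ω μ)

include hμ in
/-- Peak functions.  The weight is `W = (n + 1) log (|y - F_j(x)|^2 + ε^2)`, `ε = exp (-C' l)`, the
cut-off is at `|y - F_j(x)| = exp (-Λ l) / C'`. -/
theorem Semi.peak : ∃ C c₀ l₀, 0 ≤ C ∧ 0 < c₀ ∧ 1 ≤ l₀ ∧
    ∀ t ∈ Ico 0 T, ∀ c x l, l₀ ≤ l → x ∈ (F.e c).source → nsq (F.e c x) ≤ 9 →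
    ∀ p, 0 < p → (∀ x₁, dist x x₁ ≤ Real.exp (-l) → p * F.A t (F.f x₁) l ≤ c₀ * l) →
    ∀ j, F.f x ∈ F.S j → nsq (F.y j x) ≤ 4 →
    ∃ h, F.Adm μ t p j h ∧ h x ≠ 0 ∧ F.U t c l (F.e c x) - C * l / p ≤ F.val p j h x := by
  obtain ⟨Λ, hΛ, hloj⟩ := F.loj
  exact Peak.peak_of' F hμ (fun _ ht _ _ hl _ _ hp hx hz => F.slope ht hl hp hx hz) F.harnack hΛ
    (F.tube hμ hΛ hloj)

end

end Pool.Agent.KRFZ
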