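import Pool.Agent.Work.MP_a2bf38_gt.Z.RecOf
import Pool.Agent.Work.MP_a2bf38_gt.Z.Reg
import Pool.Agent.Work.MP_a2bf38_gt.Z.Log
import Pool.Agent.Work.MP_a2bf38_gt.Z.Harn
import Pool.Agent.Work.MP_a2bf38_gt.Z.Peak
import Pool.Agent.Work.MP_a2bf38_gt.Z.Dom
import Pool.Agent.Work.MP_a2bf38_gt.Z.ConstM

/-!
# The drop estimate (semi-ample limit classes)
-/

open scoped ContDiff ENNReal ComplexOrder Topology
open Set MeasureTheory Filter Pool.Agent.ToricKRF Pool.Agent.ToricKRF.G Pool.Agent.KRFS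
  Pool.Agent.KRFF Pool.Agent.KRFG Pool.Agent.KRFE

namespace Pool.Agent.KRFZ

variable {n N : ℕ} {M Z : Type} [MetricSpace M] [CompactSpace M] [MetricSpace Z] {κ P : Type}
  [Finite κ] [Finite P] {T : ℝ} (F : Semi n N M Z κ P T)

/-- **The drop estimate**: `φ(t₀) - φ(t) ≤ C (T - t₀)^a` for `t ≥ t₀`. -/
theorem Semi.drop : ∃ a, 0 < a ∧ a ≤ 1 ∧ F.toFlow.Drop a := by
  let _ : MeasurableSpace M := borel M
  have _ : BorelSpace M := ⟨rfl⟩
  obtain ⟨μ, hμ⟩ := F.exists_measure F.hT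
  exact F.drop_of F.U_bound
    (fun t ht c x hx l l' hl h => F.U_anti ht hx hl h)
    (fun t ht c p hp hx l hl => F.Phi_le_U ht hp hx hl)
    F.U_le_U
    (fun t ht z l hl c p hp hx hz a ha ha' => (F.slope ht hl hp hx hz).2.2 a ha ha')
    F.harnack
    (F.peak hμ)
    (F.dom hμ)

end Pool.Agent.KRFZ
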