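import Pool.Agent.Work.MP_a2bf38_gt.Z.NatSemi
import Pool.Agent.Work.MP_a2bf38_gt.I.Path
import Pool.Agent.Work.MP_a2bf38_gt.Lj.Main
import Pool.Agent.Work.MP_a2bf38_gt.W.CurvesNat
import Pool.Agent.Work.MP_a2bf38_gt.Z.Rec

/-!
# The diameter bound for semi-ample limit classes
-/

open scoped ContDiff ENNReal ComplexOrder Topology
open Set Filter Pool.Agent.ToricKRF Pool.Agent.ToricKRF.G Pool.Agent.KRFS Pool.Agent.KRFF

namespace Pool.Agent.KRFZ

section

variable {M Z : Type} [MetricSpace M] [CompactSpace M] [ConnectedSpace M] [MetricSpace Z]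
  {n N : ℕ} {κ P : Type} {e : κ → OpenPartialHomeomorph M (Cn n)} {U : P → Set Z}
  {q : P → Z → Cn N} {O : P → Set (Cn N)} {K : P → Cn N → ℝ} {f : M → Z} {T : ℝ}
  {ψ : κ → ℝ × Cn n → ℝ} {Ω : κ → Cn n → ℝ}

/-- The diameter of `(M, ω(t))` is bounded if the limit class is the pull-back of a Kähler class
under a holomorphic map with connected fibres, which are covered by curves. -/
theorem diam_bounded_of_curves (he : IsAtlas e) (hl : ∀ c, IsLip (e c) (e c).source)
    (hZ : IsKahlerSpace U q O K) (hf : IsHolConn e U q f) (hψ : IsKRF e T ψ)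
    (hlim : IsSemiampleLimit e U q f T ψ Ω K) (hcurv : HasCurves e f ψ) :
    ⨆ t ∈ Ico 0 T, rdiam e ψ t < ⊤ := by
  by_cases hT : 0 < T
  swap
  · have : Ico (0 : ℝ) T = ∅ := Ico_eq_empty hT
    simp [this]
  obtain ⟨κ', P', _, _, σ, F, href, hF⟩ := exists_semi hT he hl hZ hf hψ hlim hcurv
    (KRFLj.isLoj he hl hZ.isOpen hZ.cover hZ.lip hf.cont hf.holo)
  obtain ⟨a, ha, ha1, hd⟩ := F.drop
  refine lt_of_le_of_lt ?_ (F.toFlow.diam_of_local fun p => F.toFlow.two_points ha ha1 hd p)
  refine iSup₂_mono fun t ht => ?_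
  rw [hF]
  exact iSup₂_mono fun p q => refine_rdist hψ href ht p q

/-- The diameter of `(M, ω(t))` is bounded if the limit class is the pull-back of a Kähler class
under a locally projective holomorphic map with connected fibres. -/
theorem diam_bounded_of_locProj (he : IsAtlas e) (hl : ∀ c, IsLip (e c) (e c).source)
    (hZ : IsKahlerSpace U q O K) (hf : IsHolConn e U q f) (hproj : IsLocProj e U q f)
    (hψ : IsKRF e T ψ) (hlim : IsSemiampleLimit e U q f T ψ Ω K) :
    ⨆ t ∈ Ico 0 T, rdiam e ψ t < ⊤ := by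
  by_cases hT : 0 < T
  swap
  · have : Ico (0 : ℝ) T = ∅ := Ico_eq_empty hT
    simp [this]
  have hG : KRFW.GeoData e U q f ψ :=
    { atlas := he
      lip := hl
      isOpen := hZ.isOpen
      cover := hZ.cover
      qlip := hZ.lip
      cont := hf.cont
      holo := hf.holo
      smooth := fun c => by
        obtain ⟨S, hS, hsub, hs⟩ := hψ.smooth c
        refine ⟨S, hS, fun x hx => hsub ⟨?_, hx.2⟩, hs⟩
        rw [mem_singleton_iff.1 hx.1]
        exact ⟨le_rfl, hT⟩ }
  exact diam_bounded_of_curves he hl hZ hf hψ hlim (KRFW.hasCurves_of_locProj hG hproj)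

end

end Pool.Agent.KRFZ
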