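import Pool.Agent.Work.MP_a2bf38_gt.Z.NatM
import Pool.Agent.Work.MP_a2bf38_gt.Z.NatZ
import Pool.Agent.Work.MP_a2bf38_gt.Z.NatP

/-!
# The setup of `Z/Setup.lean` from the natural hypotheses
-/

open scoped ContDiff ENNReal ComplexOrder Topology
open Set Filter Pool.Agent.ToricKRF Pool.Agent.ToricKRF.G Pool.Agent.KRFS Pool.Agent.KRFF

namespace Pool.Agent.KRFZ

section

variable {M Z : Type} [MetricSpace M] [CompactSpace M] [MetricSpace Z] {n N : ℕ} {κ P : Type}
  {e : κ → OpenPartialHomeomorph M (Cn n)} {U : P → Set Z} {q : P → Z → Cn N}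
  {O : P → Set (Cn N)} {K : P → Cn N → ℝ} {f : M → Z} {T : ℝ} {ψ : κ → ℝ × Cn n → ℝ}
  {Ω : κ → Cn n → ℝ}

/-- the data of `Z/Setup.lean` in refined charts -/
theorem exists_semi (hT : 0 < T) (he : IsAtlas e) (hl : ∀ c, IsLip (e c) (e c).source)
    (hZ : IsKahlerSpace U q O K) (hf : IsHolConn e U q f) (hψ : IsKRF e T ψ)
    (hlim : IsSemiampleLimit e U q f T ψ Ω K) (hcurv : HasCurves e f ψ) (hloj : IsLoj f) :
    ∃ (κ' P' : Type) (_ : Fintype κ') (_ : Fintype P') (σ : κ' → κ)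
      (F : Semi n N M Z κ' P' T), IsRefinement e F.e σ ∧ F.ψ = newψ e F.e σ ψ := by
  have : CompactSpace Z := by
    rw [← isCompact_univ_iff, ← hf.surj.range_eq]
    exact isCompact_range hf.cont
  obtain ⟨κ', _, e', σ, href, htar, hcov, -, hlip⟩ := exists_unit_charts he hl
  obtain ⟨P', _, sig, z₀, r, S, q', K', hr, hSo, hS, hq', -, hK', hqc, hinj, hlt, hcomp, hcovZ,
    hlipZ, hO, hKs, hKp, hcompat⟩ := exists_unit_embeddings hZ
  obtain ⟨D₀, C, α, hC, hα, hcu⟩ := hcurv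
  obtain ⟨CL, a, hCL, ha, hL⟩ := hloj
  let F : Semi n N M Z κ' P' T :=
    { NP.flow he hT hψ hZ hf hlim href with
      S := S
      q := q'
      f := f
      K := K'
      hT := hT
      target := fun c => by
        change {x | nsq x < 100} ⊆ (e' c).target
        rw [htar c]
      cover := hcov
      Θ_eq := fun c x => rfl
      emb := NP.emb hf href hZ.isOpen hSo hS hq' hqc hinj hlt hcomp hcovZ
      pull := NP.pull hT hψ hZ hf hlim href hr hSo hS hq' hO hK' hcompat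
      lipM := hlip
      lipZ := hlipZ
      conn := hf.connected
      curv := ⟨D₀, C, α, hC, hα, fun z l hl => by
        obtain ⟨A, hA, hAz, hp⟩ := hcu z l hl
        refine ⟨A, hA, hAz, fun p hpz => ?_⟩
        obtain ⟨D, γ, ρ, s₀, s₁, h1, h2, h3, h4, h5, h6⟩ := hp p hpz
        exact ⟨D, γ, ρ, s₀, s₁, h1, h2, h3, h4, h5, h6.refine he hψ hT href⟩⟩
      loj := lojAt_of hCL ha hL }
  exact ⟨κ', P', inferInstance, inferInstance, σ, F, href, rfl⟩

end

end Pool.Agent.KRFZ
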