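import Pool.Agent.Work.MP_a2bf38_gt.Z.PeakA
import Pool.Agent.Work.MP_a2bf38_gt.Z.Const
import Pool.Agent.Work.MP_a2bf38_gt.Z.Const2
import Pool.Agent.Work.MP_a2bf38_gt.X.RegKer

/-!
# Small balls in the charts
-/

open scoped ContDiff ENNReal ComplexOrder Topology
open Set MeasureTheory Filter Pool.Agent.ToricKRF Pool.Agent.ToricKRF.G Pool.Agent.KRFS
  Pool.Agent.KRFF Pool.Agent.KRFG Pool.Agent.KRFE Pool.Agent.KRFX

namespace Pool.Agent.KRFZ

namespace Peak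

section

variable {n N : ℕ} {M Z : Type} [MetricSpace M] [CompactSpace M] [MetricSpace Z] {κ P : Type}
  [Finite κ] [Finite P] {T : ℝ} (F : Semi n N M Z κ P T)

omit [CompactSpace M] [Finite κ] [Finite P] in
theorem isOpen_V' (j : P) (a : Cn N) (r : ℝ) :
    IsOpen {x | x ∈ F.V j ∧ nsq (F.y j x - a) < r} := by
  have h1 : ContinuousOn (fun x => F.y j x) (F.f ⁻¹' F.S j) :=
    (F.emb.qcont j).comp F.emb.cont.continuousOn fun x hx => hx
  have h2 : IsOpen (F.f ⁻¹' F.S j) := (F.emb.isOpen j).preimage F.emb.cont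
  have h3 : {x | x ∈ F.V j ∧ nsq (F.y j x - a) < r} =
      F.f ⁻¹' F.S j ∩ (fun x => F.y j x) ⁻¹' {y | nsq y < 81 ∧ nsq (y - a) < r} := by
    ext x
    constructor
    · rintro ⟨⟨h, h'⟩, h''⟩
      exact ⟨h, h', h''⟩
    · rintro ⟨h, h', h''⟩
      exact ⟨⟨h, h'⟩, h''⟩
  rw [h3]
  refine h1.isOpen_inter_preimage h2 ?_
  exact (isOpen_lt NC.contDiff_nsq.continuous continuous_const).inter
    (isOpen_lt (NC.contDiff_nsq.continuous.comp (continuous_id.sub continuous_const))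
      continuous_const)

omit [CompactSpace M] [Finite κ] [Finite P] in
theorem isOpen_V'' (j : P) (a : Cn N) (r : ℝ) :
    IsOpen {x | x ∈ F.V j ∧ r < nsq (F.y j x - a)} := by
  have h1 : ContinuousOn (fun x => F.y j x) (F.f ⁻¹' F.S j) :=
    (F.emb.qcont j).comp F.emb.cont.continuousOn fun x hx => hx
  have h2 : IsOpen (F.f ⁻¹' F.S j) := (F.emb.isOpen j).preimage F.emb.cont
  have h3 : {x | x ∈ F.V j ∧ r < nsq (F.y j x - a)} =
      F.f ⁻¹' F.S j ∩ (fun x => F.y j x) ⁻¹' {y | nsq y < 81 ∧ r < nsq (y - a)} := by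
    ext x
    constructor
    · rintro ⟨⟨h, h'⟩, h''⟩
      exact ⟨h, h', h''⟩
    · rintro ⟨h, h', h''⟩
      exact ⟨⟨h, h'⟩, h''⟩
  rw [h3]
  refine h1.isOpen_inter_preimage h2 ?_
  exact (isOpen_lt NC.contDiff_nsq.continuous continuous_const).inter
    (isOpen_lt continuous_const (NC.contDiff_nsq.continuous.comp
      (continuous_id.sub continuous_const)))

omit [CompactSpace M] [Finite κ] [Finite P] in
theorem isOpen_V (j : P) : IsOpen (F.V j) := by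
  have h1 : ContinuousOn (fun x => F.y j x) (F.f ⁻¹' F.S j) :=
    (F.emb.qcont j).comp F.emb.cont.continuousOn fun x hx => hx
  have h2 : IsOpen (F.f ⁻¹' F.S j) := (F.emb.isOpen j).preimage F.emb.cont
  exact h1.isOpen_inter_preimage h2 (isOpen_lt NC.contDiff_nsq.continuous continuous_const)

/-- the points of `V j` whose coordinates are near `F_j(x)` are near `F.f x` -/
theorem geo_Z : ∃ C, 0 < C ∧ ∀ j x x', F.f x ∈ F.S j → nsq (F.y j x) ≤ 81 → F.f x' ∈ F.S j →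
    nsq (F.y j x') ≤ 81 → dist (F.f x') (F.f x) ≤ C * √(nsq (F.y j x' - F.y j x)) := by
  obtain ⟨C, hC, h⟩ := F.dist_Z
  exact ⟨C, hC, fun j x x' h1 h2 h3 h4 => (h j (F.f x') (F.f x) h3 h1 h4 h2).1⟩

/-- small balls in the charts -/
theorem geo_ball : ∃ C δ, 1 ≤ C ∧ 0 < δ ∧ δ ≤ 1 ∧ ∀ j x, F.f x ∈ F.S j → nsq (F.y j x) ≤ 9 →
    ∃ c, x ∈ (F.e c).source ∧ nsq (F.e c x) ≤ 1 ∧ ∀ ρ, 0 ≤ ρ → ρ ≤ δ → ∀ u,
      nsq (u - F.e c x) ≤ ρ ^ 2 → u ∈ (F.e c).target ∧ dist x ((F.e c).symm u) ≤ C * ρ ∧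
        (F.e c).symm u ∈ F.V j ∧ √(nsq (F.y j ((F.e c).symm u) - F.y j x)) ≤ C * ρ := by
  obtain ⟨C₁, hC₁, h₁⟩ := F.dist_chart
  obtain ⟨C₂, hC₂, h₂⟩ := F.f_lip
  obtain ⟨C₃, hC₃, h₃⟩ := F.dist_Z
  obtain ⟨δ, hδ, h₄⟩ := F.near_Z
  refine ⟨max 1 (max C₁ (C₃ * (C₂ * C₁))), min 1 (δ / (C₂ * C₁)), le_max_left _ _,
    lt_min one_pos (by positivity), min_le_left _ _, ?_⟩
  intro j x hx hy
  obtain ⟨c, hc, hxc⟩ := F.cover x
  refine ⟨c, hc, hxc, ?_⟩
  intro ρ hρ hρδ u hu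
  have hρ1 : ρ ≤ 1 := hρδ.trans (min_le_left _ _)
  have hρ2 : C₂ * C₁ * ρ ≤ δ := by
    have := hρδ.trans (min_le_right _ _)
    rw [le_div_iff₀ (by positivity)] at this
    linarith
  have hu4 : nsq u ≤ (ρ + 1) ^ 2 := by
    have := KRFX.RegK.nsq_tri (x := u - F.e c x) (y := F.e c x) hρ zero_le_one hu
      (by rw [one_pow]; exact hxc)
    rwa [sub_add_cancel] at this
  have hu5 : nsq u ≤ 4 := by nlinarith
  have ht : u ∈ (F.e c).target := F.target c (by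
    change nsq u < 100
    linarith)
  have hs : (F.e c).symm u ∈ (F.e c).source := (F.e c).map_target ht
  have hr : F.e c ((F.e c).symm u) = u := (F.e c).right_inv ht
  have hd : dist x ((F.e c).symm u) ≤ C₁ * ρ := by
    refine (h₁ c x _ hc hs (by linarith) (by rw [hr]; linarith)).1.trans ?_
    refine mul_le_mul_of_nonneg_left ?_ hC₁.le
    rw [hr, KRFX.RegK.nsq_comm]
    exact (Real.sqrt_le_sqrt hu).trans_eq (Real.sqrt_sq hρ)
  have hdf : dist (F.f x) (F.f ((F.e c).symm u)) ≤ C₂ * C₁ * ρ := by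
    refine (h₂ _ _).trans ?_
    have := mul_le_mul_of_nonneg_left hd hC₂.le
    linarith
  obtain ⟨hS, hn⟩ := h₄ j (F.f x) (F.f ((F.e c).symm u)) 3 hx (by norm_num) (by norm_num)
    (hy.trans (by norm_num)) (hdf.trans hρ2)
  have hn' : nsq (F.y j ((F.e c).symm u)) < 81 := lt_of_le_of_lt hn (by norm_num)
  refine ⟨ht, hd.trans ?_, ⟨hS, hn'⟩, ?_⟩
  · exact mul_le_mul_of_nonneg_right ((le_max_left _ _).trans (le_max_right _ _)) hρ
  · have h5 := (h₃ j (F.f ((F.e c).symm u)) (F.f x) hS hx hn'.le (by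
      change nsq (F.y j x) ≤ 81
      linarith)).2
    refine h5.trans ?_
    rw [dist_comm]
    refine (mul_le_mul_of_nonneg_left hdf hC₃.le).trans ?_
    have h6 : C₃ * (C₂ * C₁ * ρ) = C₃ * (C₂ * C₁) * ρ := by ring
    rw [h6]
    exact mul_le_mul_of_nonneg_right ((le_max_right _ _).trans (le_max_right _ _)) hρ

end

end Peak

end Pool.Agent.KRFZ
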