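import Pool.Agent.Work.MP_a2bf38_gt.Z.PeakB
import Pool.Agent.Work.MP_a2bf38_gt.H.BoundCalc

/-!
# The integrals of the peak functions
-/

open scoped ContDiff ENNReal ComplexOrder Topology
open Set MeasureTheory Filter Pool.Agent.ToricKRF Pool.Agent.ToricKRF.G Pool.Agent.KRFS
  Pool.Agent.KRFF Pool.Agent.KRFG Pool.Agent.KRFE Pool.Agent.KRFX

namespace Pool.Agent.KRFZ

namespace Peak

/-! ### Integrals -/

section

variable {M : Type} [MeasurableSpace M] {μ : Measure M}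

theorem lint_le {S S' : Set M} (hS : MeasurableSet S) (hSS' : S ⊆ S') {f g : M → ℝ} {K : ℝ}
    (hK : 0 ≤ K) (h : ∀ x ∈ S, f x ≤ K * g x) :
    ∫⁻ x in S, ENNReal.ofReal (f x) ∂μ ≤ ENNReal.ofReal K * ∫⁻ x in S', ENNReal.ofReal (g x) ∂μ :=
  calc ∫⁻ x in S, ENNReal.ofReal (f x) ∂μ ≤
        ∫⁻ x in S, ENNReal.ofReal K * ENNReal.ofReal (g x) ∂μ := by
        refine setLIntegral_mono' hS fun x hx => ?_
        rw [← ENNReal.ofReal_mul hK]
        exact ENNReal.ofReal_le_ofReal (h x hx)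
    _ = ENNReal.ofReal K * ∫⁻ x in S, ENNReal.ofReal (g x) ∂μ :=
        lintegral_const_mul' _ _ ENNReal.ofReal_ne_top
    _ ≤ _ := mul_le_mul_right (lintegral_mono_set hSS') _

theorem lint_le_add {S S₁ S' : Set M} (hS : MeasurableSet S) (hS₁ : MeasurableSet S₁)
    (hS' : S₁ ⊆ S') {f g₁ g₂ : M → ℝ} {K₁ K₂ : ℝ} (hK₁ : 0 ≤ K₁) (hK₂ : 0 ≤ K₂)
    (hg₂ : Measurable g₂) (h0 : ∀ x ∈ S, x ∉ S₁ → f x ≤ K₁ * g₁ x) (hg₁ : ∀ x, 0 ≤ g₁ x)
    (hg₂' : ∀ x, 0 ≤ g₂ x) (h1 : ∀ x ∈ S, x ∈ S₁ → f x ≤ K₁ * g₁ x + K₂ * g₂ x) :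
    ∫⁻ x in S, ENNReal.ofReal (f x) ∂μ ≤ ENNReal.ofReal K₁ * ∫⁻ x in S, ENNReal.ofReal (g₁ x) ∂μ +
      ENNReal.ofReal K₂ * ∫⁻ x in S', ENNReal.ofReal (g₂ x) ∂μ := by
  have hm : Measurable (S₁.indicator fun x => ENNReal.ofReal K₂ * ENNReal.ofReal (g₂ x)) :=
    (measurable_const.mul hg₂.ennreal_ofReal).indicator hS₁
  calc ∫⁻ x in S, ENNReal.ofReal (f x) ∂μ ≤
        ∫⁻ x in S, (ENNReal.ofReal K₁ * ENNReal.ofReal (g₁ x) +
          S₁.indicator (fun x => ENNReal.ofReal K₂ * ENNReal.ofReal (g₂ x)) x) ∂μ := by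
        refine setLIntegral_mono' hS fun x hx => ?_
        rw [← ENNReal.ofReal_mul hK₁]
        by_cases hx1 : x ∈ S₁
        · rw [indicator_of_mem hx1, ← ENNReal.ofReal_mul hK₂,
            ← ENNReal.ofReal_add (mul_nonneg hK₁ (hg₁ x)) (mul_nonneg hK₂ (hg₂' x))]
          exact ENNReal.ofReal_le_ofReal (h1 x hx hx1)
        · rw [indicator_of_notMem hx1, add_zero]
          exact ENNReal.ofReal_le_ofReal (h0 x hx hx1)
    _ = ∫⁻ x in S, ENNReal.ofReal K₁ * ENNReal.ofReal (g₁ x) ∂μ +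
        ∫⁻ x in S, S₁.indicator (fun x => ENNReal.ofReal K₂ * ENNReal.ofReal (g₂ x)) x ∂μ :=
        lintegral_add_right _ hm
    _ ≤ _ := by
        refine add_le_add ?_ ?_
        · rw [lintegral_const_mul' _ _ ENNReal.ofReal_ne_top]
        · calc ∫⁻ x in S, S₁.indicator (fun x => ENNReal.ofReal K₂ * ENNReal.ofReal (g₂ x)) x ∂μ ≤
                ∫⁻ x, S₁.indicator (fun x => ENNReal.ofReal K₂ * ENNReal.ofReal (g₂ x)) x ∂μ :=
                setLIntegral_le_lintegral _ _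
            _ = ∫⁻ x in S₁, ENNReal.ofReal K₂ * ENNReal.ofReal (g₂ x) ∂μ :=
                lintegral_indicator hS₁ _
            _ = ENNReal.ofReal K₂ * ∫⁻ x in S₁, ENNReal.ofReal (g₂ x) ∂μ :=
                lintegral_const_mul' _ _ ENNReal.ofReal_ne_top
            _ ≤ _ := mul_le_mul_right (lintegral_mono_set hS') _

end

section

variable {n N : ℕ} {M Z : Type} [MetricSpace M] [CompactSpace M] [MeasurableSpace M] [BorelSpace M]
  [MetricSpace Z] {κ P : Type} [Finite κ] [Finite P] {T : ℝ} (F : Semi n N M Z κ P T)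

omit [CompactSpace M] [MeasurableSpace M] [BorelSpace M] [Finite κ] [Finite P] in
theorem Phi_cont {t : ℝ} (ht : t ∈ Ico 0 T) : Continuous (F.Phi t) := by
  rw [← continuousOn_univ]
  exact ContinuousOn.comp (f := fun p : M => (t, p)) (F.toFlow.Phi_continuousOn)
    (Continuous.prodMk_right t).continuousOn fun p _ => ⟨ht, mem_univ _⟩

/-- the weight -/
noncomputable def Wt (n : ℕ) {N : ℕ} (a : Cn N) (ε : ℝ) (y : Cn N) : ℝ :=
  ((n : ℝ) + 1) * Pole.W0 a ε y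

theorem Wt_smooth (n : ℕ) {N : ℕ} (a : Cn N) {ε : ℝ} (hε : 0 < ε) (S : Set (Cn N)) :
    ContDiffOn ℝ ∞ (Wt n a ε) S :=
  (contDiff_const.mul (Pole.W0_smooth a hε)).contDiffOn

theorem Wt_psh (n : ℕ) {N : ℕ} (a : Cn N) {ε : ℝ} (hε : 0 < ε) (y u : Cn N) :
    0 ≤ levz (Wt n a ε) u y := by
  have h1 : levz (Wt n a ε) u y = ((n : ℝ) + 1) * levz (Pole.W0 a ε) u y :=
    Bd.levz_const_mul _ (((Pole.W0_smooth a hε).contDiffAt).of_le (by norm_cast)) u
  rw [h1]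
  exact mul_nonneg (by positivity) (Pole.W0_psh a hε y u)

theorem exp_Wt (n : ℕ) {N : ℕ} (a : Cn N) {ε : ℝ} (hε : 0 < ε) (y : Cn N) :
    Real.exp (Wt n a ε y) = (nsq (y - a) + ε ^ 2) ^ (n + 1) := by
  have h0 : 0 < nsq (y - a) + ε ^ 2 := by
    have := NC.nsq_nonneg (y - a)
    positivity
  have h1 : Wt n a ε y = ((n + 1 : ℕ) : ℝ) * Real.log (nsq (y - a) + ε ^ 2) := by
    unfold Wt Pole.W0
    push_cast
    ring
  rw [h1, Real.exp_nat_mul, Real.exp_log h0]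

variable {F} in
omit [CompactSpace M] [Finite κ] [Finite P] in
/-- The integral over `V j` and the value at the centre of a function `h` which is near a cut-off
function `χ` in the space with the weight `Wt`. -/
theorem core {μ : Measure M} {t p : ℝ} (ht : t ∈ Ico 0 T) {j : P} {a : Cn N}
    (ha : nsq a ≤ 9) {u r ε B Ch CN : ℝ} (hr : 0 < r) (hε : 0 < ε)
    (hεr : 2 * ε ≤ r) (hε1 : ε ≤ 1) (hCh : 0 ≤ Ch) (hCN : 0 ≤ CN) {χ : M → ℝ} {h : M → ℂ}
    (hχ : ∀ x, 0 ≤ χ x ∧ χ x ≤ 1)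
    (hχ1 : ∀ x, F.f x ∈ F.S j → nsq (F.y j x - a) ≤ r ^ 2 / 4 → χ x = 1)
    (hχ0 : ∀ x, χ x ≠ 0 → F.f x ∈ F.S j ∧ nsq (F.y j x - a) < r ^ 2)
    (hint : ∫⁻ x in F.V j, ENNReal.ofReal (‖(χ x : ℂ) - h x‖ ^ 2 *
      Real.exp (-(p * F.pK t j x + Wt n a ε (F.y j x)))) ∂μ ≤ ENNReal.ofReal (Ch / r ^ 2) *
      ∫⁻ x in {x | x ∈ F.V j ∧ r ^ 2 / 4 ≤ nsq (F.y j x - a) ∧ nsq (F.y j x - a) ≤ r ^ 2},
        ENNReal.ofReal (Real.exp (-(p * F.pK t j x + Wt n a ε (F.y j x)))) ∂μ)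
    {Nn : Set M} (hN : ∀ x ∈ F.V j, nsq (F.y j x - a) ≤ r ^ 2 → x ∈ Nn)
    (hK : ∀ x ∈ F.V j, nsq (F.y j x - a) ≤ r ^ 2 → |p * F.K j (F.y j x) - p * F.K j a| ≤ B)
    (hI : ∫⁻ x in Nn, ENNReal.ofReal (Real.exp (p * (u - F.Phi t x))) ∂μ ≤ ENNReal.ofReal CN)
    {Bl : Set M} (hBl : MeasurableSet Bl)
    (hball : ∀ x ∈ Bl, x ∈ F.V j ∧ nsq (F.y j x - a) ≤ ε ^ 2 ∧ p * F.Phi t x ≤ p * u + B) :
    (∫⁻ x in Bl, ENNReal.ofReal (‖1 - h x‖ ^ 2) ∂μ ≤ ENNReal.ofReal ((2 * ε ^ 2) ^ (n + 1) *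
      Real.exp (3 * B) * (Ch / r ^ 2 * ((4 / r ^ 2) ^ (n + 1) * CN)))) ∧
    ∫⁻ x in F.V j, ENNReal.ofReal (‖h x‖ ^ 2 * Real.exp (-(p * F.pK t j x))) ∂μ ≤
      ENNReal.ofReal (Real.exp (B - p * (F.K j a + u)) * (2 * 200 ^ (n + 1) *
        (Ch / r ^ 2 * ((4 / r ^ 2) ^ (n + 1) * CN)) + 2 * CN)) := by
  set E : ℝ := p * (F.K j a + u) with hE
  have hq0 : ∀ x, 0 < nsq (F.y j x - a) + ε ^ 2 := fun x => by
    have := NC.nsq_nonneg (F.y j x - a)
    positivity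
  -- the pointwise bounds
  have P1 : ∀ x ∈ F.V j, nsq (F.y j x - a) ≤ r ^ 2 → Real.exp (-(p * F.pK t j x)) ≤
      Real.exp (B - E) * Real.exp (p * (u - F.Phi t x)) := by
    intro x hx hxr
    rw [← Real.exp_add]
    refine Real.exp_le_exp.2 ?_
    have h1 := (abs_le.1 (hK x hx hxr)).1
    rw [hE]
    unfold Semi.pK
    nlinarith
  have eW : ∀ x, Real.exp (-(p * F.pK t j x + Wt n a ε (F.y j x))) =
      Real.exp (-(p * F.pK t j x)) * ((nsq (F.y j x - a) + ε ^ 2) ^ (n + 1))⁻¹ := by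
    intro x
    rw [neg_add, Real.exp_add, Real.exp_neg (Wt _ _ _ _), exp_Wt n a hε]
  -- measurability
  have hVm : MeasurableSet (F.V j) := (isOpen_V F j).measurableSet
  have hsh : MeasurableSet {x | x ∈ F.V j ∧ r ^ 2 / 4 ≤ nsq (F.y j x - a) ∧
      nsq (F.y j x - a) ≤ r ^ 2} := by
    have h1 : {x | x ∈ F.V j ∧ r ^ 2 / 4 ≤ nsq (F.y j x - a) ∧ nsq (F.y j x - a) ≤ r ^ 2} =
        (F.V j \ {x | x ∈ F.V j ∧ nsq (F.y j x - a) < r ^ 2 / 4}) \
          {x | x ∈ F.V j ∧ r ^ 2 < nsq (F.y j x - a)} := by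
      ext x
      simp only [Set.mem_sdiff, mem_ofPred_eq, not_and, not_lt]
      constructor
      · rintro ⟨h1, h2, h3⟩
        exact ⟨⟨h1, fun _ => h2⟩, fun _ => h3⟩
      · rintro ⟨⟨h1, h2⟩, h3⟩
        exact ⟨h1, h2 h1, h3 h1⟩
    rw [h1]
    exact (hVm.diff (isOpen_V' F j a _).measurableSet).diff (isOpen_V'' F j a _).measurableSet
  -- the integral over the shell
  have hJ : ∫⁻ x in F.V j, ENNReal.ofReal (‖(χ x : ℂ) - h x‖ ^ 2 *
      Real.exp (-(p * F.pK t j x + Wt n a ε (F.y j x)))) ∂μ ≤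
      ENNReal.ofReal (Real.exp (B - E) * (Ch / r ^ 2 * ((4 / r ^ 2) ^ (n + 1) * CN))) := by
    have h1 := lint_le (μ := μ) hsh (S' := Nn) (fun x hx => hN x hx.1 hx.2.2)
      (f := fun x => Real.exp (-(p * F.pK t j x + Wt n a ε (F.y j x))))
      (g := fun x => Real.exp (p * (u - F.Phi t x)))
      (K := Real.exp (B - E) * (4 / r ^ 2) ^ (n + 1)) (by positivity) (by
        rintro x ⟨hx, hx1, hx2⟩
        rw [eW]
        have h2 : ((nsq (F.y j x - a) + ε ^ 2) ^ (n + 1))⁻¹ ≤ (4 / r ^ 2) ^ (n + 1) := by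
          rw [← inv_pow]
          refine pow_le_pow_left₀ (inv_nonneg.2 (hq0 x).le) ?_ _
          rw [inv_le_comm₀ (hq0 x) (by positivity), inv_div]
          nlinarith [sq_nonneg ε]
        calc Real.exp (-(p * F.pK t j x)) * ((nsq (F.y j x - a) + ε ^ 2) ^ (n + 1))⁻¹ ≤
              (Real.exp (B - E) * Real.exp (p * (u - F.Phi t x))) * (4 / r ^ 2) ^ (n + 1) :=
              mul_le_mul (P1 x hx hx2) h2 (inv_nonneg.2 (pow_pos (hq0 x) _).le) (by positivity)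
          _ = _ := by ring)
    refine hint.trans ((mul_le_mul_right (h1.trans (mul_le_mul_right hI _)) _).trans_eq ?_)
    rw [← ENNReal.ofReal_mul (by positivity), ← ENNReal.ofReal_mul (by positivity)]
    congr 1
    ring
  constructor
  · have h1 := lint_le (μ := μ) hBl (S' := F.V j) (fun x hx => (hball x hx).1)
      (f := fun x => ‖1 - h x‖ ^ 2)
      (g := fun x => ‖(χ x : ℂ) - h x‖ ^ 2 * Real.exp (-(p * F.pK t j x + Wt n a ε (F.y j x))))
      (K := (2 * ε ^ 2) ^ (n + 1) * Real.exp (E + 2 * B)) (by positivity) (by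
        intro x hx
        obtain ⟨hxV, hxε, hxP⟩ := hball x hx
        have hχx : χ x = 1 := hχ1 x hxV.1 (hxε.trans (by nlinarith))
        have hk := (abs_le.1 (hK x hxV (hxε.trans (by nlinarith)))).2
        rw [eW, hχx, Complex.ofReal_one]
        have h2 : ((2 * ε ^ 2) ^ (n + 1))⁻¹ ≤ ((nsq (F.y j x - a) + ε ^ 2) ^ (n + 1))⁻¹ := by
          refine inv_anti₀ (pow_pos (hq0 x) _) (pow_le_pow_left₀ (hq0 x).le ?_ _)
          linarith
        have h3 : Real.exp (-(E + 2 * B)) ≤ Real.exp (-(p * F.pK t j x)) := by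
          refine Real.exp_le_exp.2 ?_
          rw [hE]
          unfold Semi.pK
          nlinarith
        have h4 : (2 * ε ^ 2) ^ (n + 1) * Real.exp (E + 2 * B) *
            (Real.exp (-(E + 2 * B)) * ((2 * ε ^ 2) ^ (n + 1))⁻¹) = 1 := by
          rw [Real.exp_neg]
          have := (Real.exp_pos (E + 2 * B)).ne'
          field_simp
        calc ‖1 - h x‖ ^ 2 = ‖1 - h x‖ ^ 2 * ((2 * ε ^ 2) ^ (n + 1) * Real.exp (E + 2 * B) *
              (Real.exp (-(E + 2 * B)) * ((2 * ε ^ 2) ^ (n + 1))⁻¹)) := by rw [h4, mul_one]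
          _ ≤ ‖1 - h x‖ ^ 2 * ((2 * ε ^ 2) ^ (n + 1) * Real.exp (E + 2 * B) *
              (Real.exp (-(p * F.pK t j x)) * ((nsq (F.y j x - a) + ε ^ 2) ^ (n + 1))⁻¹)) := by
              have h5 : 0 ≤ ((2 * ε ^ 2) ^ (n + 1))⁻¹ := by positivity
              gcongr
          _ = _ := by ring)
    refine h1.trans ((mul_le_mul_right hJ _).trans_eq ?_)
    rw [← ENNReal.ofReal_mul (by positivity)]
    congr 1
    have h2 : Real.exp (E + 2 * B) * Real.exp (B - E) = Real.exp (3 * B) := by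
      rw [← Real.exp_add]
      ring_nf
    calc _ = (2 * ε ^ 2) ^ (n + 1) * (Real.exp (E + 2 * B) * Real.exp (B - E)) *
          (Ch / r ^ 2 * ((4 / r ^ 2) ^ (n + 1) * CN)) := by ring
      _ = _ := by rw [h2]
  · have hg : Measurable fun x => Real.exp (p * (u - F.Phi t x)) :=
      (Real.continuous_exp.comp (continuous_const.mul
        (continuous_const.sub (Phi_cont F ht)))).measurable
    have hfin : ∀ x ∈ F.V j, ‖(χ x : ℂ) - h x‖ ^ 2 * Real.exp (-(p * F.pK t j x)) ≤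
        200 ^ (n + 1) * (‖(χ x : ℂ) - h x‖ ^ 2 *
          Real.exp (-(p * F.pK t j x + Wt n a ε (F.y j x)))) := by
      intro x hx
      have h1 : nsq (F.y j x - a) + ε ^ 2 ≤ 200 := by
        have h2 := KRFX.RegK.nsq_tri_sub (x := F.y j x) (y := a) (a := 9) (b := 3) (by norm_num)
          (by norm_num) (by linarith [hx.2]) (by linarith)
        nlinarith
      have h3 : 1 ≤ 200 ^ (n + 1) * ((nsq (F.y j x - a) + ε ^ 2) ^ (n + 1))⁻¹ := by
        rw [← div_eq_mul_inv, one_le_div (pow_pos (hq0 x) _)]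
        exact pow_le_pow_left₀ (hq0 x).le h1 _
      rw [eW]
      calc ‖(χ x : ℂ) - h x‖ ^ 2 * Real.exp (-(p * F.pK t j x)) =
            ‖(χ x : ℂ) - h x‖ ^ 2 * Real.exp (-(p * F.pK t j x)) * 1 := (mul_one _).symm
        _ ≤ ‖(χ x : ℂ) - h x‖ ^ 2 * Real.exp (-(p * F.pK t j x)) *
            (200 ^ (n + 1) * ((nsq (F.y j x - a) + ε ^ 2) ^ (n + 1))⁻¹) :=
            mul_le_mul_of_nonneg_left h3 (by positivity)
        _ = _ := by ring
    have htri : ∀ x, ‖h x‖ ^ 2 ≤ 2 * ‖(χ x : ℂ) - h x‖ ^ 2 + 2 * ‖(χ x : ℂ)‖ ^ 2 := by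
      intro x
      have h1 : ‖h x‖ ≤ ‖(χ x : ℂ) - h x‖ + ‖(χ x : ℂ)‖ := by
        calc ‖h x‖ = ‖(χ x : ℂ) - ((χ x : ℂ) - h x)‖ := by rw [sub_sub_cancel]
          _ ≤ ‖(χ x : ℂ)‖ + ‖(χ x : ℂ) - h x‖ := norm_sub_le _ _
          _ = _ := add_comm _ _
      have h2 := norm_nonneg (h x)
      nlinarith [sq_nonneg (‖(χ x : ℂ) - h x‖ - ‖(χ x : ℂ)‖)]
    have h1 := lint_le_add (μ := μ) hVm (S₁ := {x | x ∈ F.V j ∧ nsq (F.y j x - a) < r ^ 2})
      (S' := Nn) (isOpen_V' F j a _).measurableSet (fun x hx => hN x hx.1 hx.2.le)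
      (f := fun x => ‖h x‖ ^ 2 * Real.exp (-(p * F.pK t j x)))
      (g₁ := fun x => ‖(χ x : ℂ) - h x‖ ^ 2 *
        Real.exp (-(p * F.pK t j x + Wt n a ε (F.y j x))))
      (g₂ := fun x => Real.exp (p * (u - F.Phi t x)))
      (K₁ := 2 * 200 ^ (n + 1)) (K₂ := 2 * Real.exp (B - E)) (by positivity) (by positivity) hg
      (by
        intro x hx hx1
        have hχx : χ x = 0 := by
          by_contra hne
          exact hx1 ⟨hx, (hχ0 x hne).2⟩
        have h2 := htri x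
        rw [hχx] at h2
        simp only [Complex.ofReal_zero, norm_zero, ne_eq, OfNat.ofNat_ne_zero, not_false_eq_true,
          zero_pow, mul_zero, add_zero] at h2
        have h3 := hfin x hx
        rw [hχx, Complex.ofReal_zero] at h3
        rw [hχx, Complex.ofReal_zero]
        calc ‖h x‖ ^ 2 * Real.exp (-(p * F.pK t j x)) ≤
              2 * ‖0 - h x‖ ^ 2 * Real.exp (-(p * F.pK t j x)) :=
              mul_le_mul_of_nonneg_right h2 (Real.exp_pos _).le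
          _ ≤ _ := by linarith)
      (fun x => by positivity) (fun x => by positivity)
      (by
        intro x hx hx1
        have h2 := htri x
        have h3 := hfin x hx
        have h4 := P1 x hx hx1.2.le
        have h5 : ‖(χ x : ℂ)‖ ^ 2 ≤ 1 := by
          rw [Complex.norm_real, Real.norm_eq_abs, sq_abs]
          nlinarith [hχ x]
        calc ‖h x‖ ^ 2 * Real.exp (-(p * F.pK t j x)) ≤
              (2 * ‖(χ x : ℂ) - h x‖ ^ 2 + 2 * 1) * Real.exp (-(p * F.pK t j x)) := by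
              refine mul_le_mul_of_nonneg_right ?_ (Real.exp_pos _).le
              linarith
          _ ≤ _ := by linarith)
    refine h1.trans ((add_le_add (mul_le_mul_right hJ _) (mul_le_mul_right hI _)).trans_eq ?_)
    rw [← ENNReal.ofReal_mul (by positivity), ← ENNReal.ofReal_mul (by positivity),
      ← ENNReal.ofReal_add (by positivity) (by positivity)]
    congr 1
    ring

end

end Peak

end Pool.Agent.KRFZ
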