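import Pool.Agent.Work.MP_a2bf38_gt.Z.PeakC

/-!
# Peak functions, from the integral estimate, the cut-off and the mean value inequality
-/

open scoped ContDiff ENNReal ComplexOrder Topology
open Set MeasureTheory Filter Pool.Agent.ToricKRF Pool.Agent.ToricKRF.G Pool.Agent.KRFS
  Pool.Agent.KRFF Pool.Agent.KRFG Pool.Agent.KRFE Pool.Agent.KRFX

namespace Pool.Agent.KRFZ

namespace Peak

/-! ### The parameters -/

/-- the choice of `ε` -/
theorem params {Λ δ c : ℝ} (hΛ : 1 ≤ Λ) (hδ : 0 < δ) (hc : 1 ≤ c) {D G : ℝ} (hD : 0 ≤ D)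
    (hG : 0 ≤ G) : ∃ k l₀ : ℝ, 1 ≤ l₀ ∧ 1 ≤ k ∧ ∀ l, l₀ ≤ l →
      D * Real.exp (G * l) * Real.exp (-(k * l)) ^ 2 ≤ 1 / 4 ∧
      2 * Real.exp (-(k * l)) ≤ Real.exp (-(Λ * l)) / c ∧
      Real.exp (-(k * l)) ≤ Real.exp (-l) ∧ Real.exp (-(k * l)) ≤ δ := by
  have hL1 : 0 ≤ Real.log (4 * (D + 1)) := Real.log_nonneg (by linarith)
  have hL2 : 0 ≤ Real.log (2 * c) := Real.log_nonneg (by linarith)
  refine ⟨G + Real.log (4 * (D + 1)) + Λ + Real.log (2 * c), max 1 (1 / δ), le_max_left _ _,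
    by linarith, ?_⟩
  intro l hl
  have hl1 : 1 ≤ l := (le_max_left _ _).trans hl
  have hlδ : 1 / δ ≤ l := (le_max_right _ _).trans hl
  set k := G + Real.log (4 * (D + 1)) + Λ + Real.log (2 * c) with hk
  have h3 : Real.exp (-(k * l)) ≤ Real.exp (-l) := by
    refine Real.exp_le_exp.2 (neg_le_neg (le_mul_of_one_le_left (by linarith) ?_))
    rw [hk]
    linarith
  refine ⟨?_, ?_, h3, ?_⟩
  · have h1 : Real.exp (-(k * l)) ^ 2 ≤ Real.exp (-(G * l)) * (4 * (D + 1))⁻¹ := by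
      rw [← Real.exp_log (show (0 : ℝ) < 4 * (D + 1) by linarith), ← Real.exp_neg, ← Real.exp_add,
        sq, ← Real.exp_add]
      refine Real.exp_le_exp.2 ?_
      have h2 : Real.log (4 * (D + 1)) * 1 ≤ Real.log (4 * (D + 1)) * l :=
        mul_le_mul_of_nonneg_left hl1 hL1
      have h4 : 0 ≤ Real.log (2 * c) * l := mul_nonneg hL2 (by linarith)
      have h5 : 0 ≤ G * l := mul_nonneg hG (by linarith)
      have h6 : 0 ≤ Λ * l := mul_nonneg (by linarith) (by linarith)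
      rw [hk]
      linarith
    calc D * Real.exp (G * l) * Real.exp (-(k * l)) ^ 2 ≤
          D * Real.exp (G * l) * (Real.exp (-(G * l)) * (4 * (D + 1))⁻¹) :=
          mul_le_mul_of_nonneg_left h1 (by positivity)
      _ = D / (4 * (D + 1)) * (Real.exp (G * l) * Real.exp (-(G * l))) := by
          field_simp
      _ = D / (4 * (D + 1)) := by rw [← Real.exp_add, add_neg_cancel, Real.exp_zero, mul_one]
      _ ≤ 1 / 4 := by
          rw [div_le_div_iff₀ (by linarith) (by norm_num)]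
          linarith
  · have h1 : Real.exp (-(k * l)) ≤ Real.exp (-(Λ * l)) * (2 * c)⁻¹ := by
      rw [← Real.exp_log (show (0 : ℝ) < 2 * c by linarith), ← Real.exp_neg, ← Real.exp_add]
      refine Real.exp_le_exp.2 ?_
      have h2 : Real.log (2 * c) * 1 ≤ Real.log (2 * c) * l :=
        mul_le_mul_of_nonneg_left hl1 hL2
      have h4 : 0 ≤ Real.log (4 * (D + 1)) * l := mul_nonneg hL1 (by linarith)
      have h5 : 0 ≤ G * l := mul_nonneg hG (by linarith)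
      rw [hk]
      linarith
    calc 2 * Real.exp (-(k * l)) ≤ 2 * (Real.exp (-(Λ * l)) * (2 * c)⁻¹) :=
          mul_le_mul_of_nonneg_left h1 (by norm_num)
      _ = _ := by field_simp
  · refine h3.trans ?_
    rw [Real.exp_neg]
    have h1 : 1 / δ ≤ Real.exp l := by
      have := Real.add_one_le_exp l
      linarith
    rw [div_le_iff₀ hδ] at h1
    rw [inv_le_iff_one_le_mul₀ (Real.exp_pos _)]
    linarith

/-- the product of the constants -/
theorem prod_eq (n : ℕ) {Cm g ε E Ch X CN : ℝ} (hg : g ≠ 0) (hε : ε ≠ 0) (hX : X ≠ 0) :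
    Cm / (ε / (2 * g)) ^ (2 * n) * ((2 * ε ^ 2) ^ (n + 1) * E *
      (Ch / X⁻¹ ^ 2 * ((4 / X⁻¹ ^ 2) ^ (n + 1) * CN))) =
    Cm * (2 * g) ^ (2 * n) * 2 ^ (n + 1) * E * Ch * 4 ^ (n + 1) * X ^ (2 * (n + 2)) * CN *
      ε ^ 2 := by
  have e1 : Ch / X⁻¹ ^ 2 = Ch * X ^ 2 := by
    field_simp
  have e2 : (4 / X⁻¹ ^ 2) ^ (n + 1) = 4 ^ (n + 1) * X ^ (2 * (n + 1)) := by
    have : 4 / X⁻¹ ^ 2 = 4 * X ^ 2 := by field_simp
    rw [this, mul_pow, ← pow_mul]
  have e3 : Cm / (ε / (2 * g)) ^ (2 * n) = Cm * (2 * g) ^ (2 * n) / ε ^ (2 * n) := by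
    rw [div_pow]
    field_simp
  have e4 : (2 * ε ^ 2) ^ (n + 1) = 2 ^ (n + 1) * (ε ^ (2 * n) * ε ^ 2) := by
    rw [mul_pow, ← pow_mul, ← pow_add]
    ring
  have e5 : X ^ (2 * (n + 2)) = X ^ 2 * X ^ (2 * (n + 1)) := by
    rw [← pow_add]
    ring_nf
  have hε' : ε ^ (2 * n) ≠ 0 := pow_ne_zero _ hε
  rw [e1, e2, e3, e4, e5]
  field_simp

section

variable {n N : ℕ} {M Z : Type} [MetricSpace M] [CompactSpace M] [MeasurableSpace M] [BorelSpace M]
  [MetricSpace Z] {κ P : Type} [Finite κ] [Finite P] {T : ℝ} (F : Semi n N M Z κ P T)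

/-- the statement `Semi.horm_cut` for the function `1` -/
def HormOne (μ : Measure M) : Prop := ∃ C c₀, 0 ≤ C ∧ 0 < c₀ ∧ ∀ t ∈ Ico 0 T, ∀ p, 0 ≤ p →
  p * (T - t) ≤ c₀ → ∀ (j : P) (a : Cn N) (r : ℝ) (W : Cn N → ℝ), nsq a ≤ 9 → 0 < r → r ≤ 1 →
  ContDiffOn ℝ ∞ W {y | nsq y < 100} → (∀ y, nsq y < 100 → ∀ u, 0 ≤ levz W u y) →
  ∃ (χ : M → ℝ) (h : M → ℂ), F.Hol j h ∧ (∀ x, 0 ≤ χ x ∧ χ x ≤ 1) ∧
    (∀ x, F.f x ∈ F.S j → nsq (F.y j x - a) ≤ r ^ 2 / 4 → χ x = 1) ∧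
    (∀ x, χ x ≠ 0 → F.f x ∈ F.S j ∧ nsq (F.y j x - a) < r ^ 2) ∧
    ∫⁻ x in F.V j, ENNReal.ofReal (‖(χ x : ℂ) - h x‖ ^ 2 *
      Real.exp (-(p * F.pK t j x + W (F.y j x)))) ∂μ ≤ ENNReal.ofReal (C / r ^ 2) *
      ∫⁻ x in {x | x ∈ F.V j ∧ r ^ 2 / 4 ≤ nsq (F.y j x - a) ∧ nsq (F.y j x - a) ≤ r ^ 2},
        ENNReal.ofReal (Real.exp (-(p * F.pK t j x + W (F.y j x)))) ∂μ

/-- the statement `Semi.tube` -/
def Tube (μ : Measure M) (Λ : ℝ) : Prop := ∃ C c₀ l₀, 0 ≤ C ∧ 0 < c₀ ∧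
    1 ≤ l₀ ∧ ∀ t ∈ Ico 0 T, ∀ c x l, l₀ ≤ l → x ∈ (F.e c).source → nsq (F.e c x) ≤ 9 →
    ∀ p, 0 ≤ p → (∀ x₁, dist x x₁ ≤ Real.exp (-l) → p * F.A t (F.f x₁) l ≤ c₀ * l) →
    ∫⁻ x' in {x' | dist (F.f x) (F.f x') ≤ Real.exp (-(Λ * l))},
      ENNReal.ofReal (Real.exp (p * (F.U t c l (F.e c x) - F.Phi t x'))) ∂μ ≤
        ENNReal.ofReal (Real.exp (C * l))

/-- the statement `Semi.mean_value` -/
def MeanV (μ : Measure M) : Prop :=
  ∃ C, 0 < C ∧ ∀ (c : κ) (x₀ : Cn n) (r : ℝ) (h : M → ℂ), 0 < r → r ≤ 1 →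
    nsq x₀ ≤ 16 → NF.HolC (fun x => h ((F.e c).symm x)) {x | nsq (x - x₀) < (2 * r) ^ 2} →
    ENNReal.ofReal (‖h ((F.e c).symm x₀)‖ ^ 2) ≤ ENNReal.ofReal (C / r ^ (2 * n)) *
      ∫⁻ p in (F.e c).symm '' {x | nsq (x - x₀) ≤ r ^ 2}, ENNReal.ofReal (‖h p‖ ^ 2) ∂μ

variable {F}

omit [CompactSpace M] [Finite κ] [Finite P] [MeasurableSpace M] [BorelSpace M] in
theorem isOpen_chartV (c : κ) (j : P) :
    IsOpen {x | x ∈ (F.e c).target ∧ (F.e c).symm x ∈ F.V j} :=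
  (F.e c).continuousOn_symm.isOpen_inter_preimage (F.e c).open_target (isOpen_V F j)

omit [CompactSpace M] [Finite κ] [Finite P] [MeasurableSpace M] [BorelSpace M] in
theorem hol_one_sub {j : P} {h : M → ℂ} (hh : F.Hol j h) (c : κ) {S : Set (Cn n)} 
    (hS : S ⊆ {x | x ∈ (F.e c).target ∧ (F.e c).symm x ∈ F.V j}) :
    NF.HolC (fun x => 1 - h ((F.e c).symm x)) S := by
  have hO := isOpen_chartV (F := F) c j
  have h1 := (NF.HolC.const (1 : ℂ) _).add hO ((NF.HolC.const (-1 : ℂ) _).mul hO (hh c))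
  have h2 : (fun z => (1 : ℂ) + (fun z => (-1 : ℂ) * h ((F.e c).symm z)) z) =
      fun x => 1 - h ((F.e c).symm x) := by
    funext x
    ring
  rw [h2] at h1
  exact ⟨h1.1.mono hS, fun z hz u => h1.2 z (hS hz) u⟩

omit [CompactSpace M] [Finite κ] [Finite P] [MeasurableSpace M] [BorelSpace M] in
theorem hol_const_mul {j : P} {h : M → ℂ} (hh : F.Hol j h) (w : ℂ) :
    F.Hol j fun x => w * h x := fun c =>
  (NF.HolC.const w _).mul (isOpen_chartV (F := F) c j) (hh c)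

/-- **peak functions** -/
theorem peak_of {μ : Measure M} (hU : UBound F) (hA : UAnti F) (hN : PhiNear F) (hS : Slope F)
    (hH : Harnack F) {Λ : ℝ} (hΛ : 1 ≤ Λ) (hT : Tube F μ Λ) (hC : HormOne F μ)
    (hM : MeanV F μ) : ∃ C c₀ l₀, 0 ≤ C ∧ 0 < c₀ ∧ 1 ≤ l₀ ∧
    ∀ t ∈ Ico 0 T, ∀ c x l, l₀ ≤ l → x ∈ (F.e c).source → nsq (F.e c x) ≤ 9 →
    ∀ p, 0 < p → (∀ x₁, dist x x₁ ≤ Real.exp (-l) → p * F.A t (F.f x₁) l ≤ c₀ * l) →
    ∀ j, F.f x ∈ F.S j → nsq (F.y j x) ≤ 4 →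
    ∃ h, F.Adm μ t p j h ∧ h x ≠ 0 ∧ F.U t c l (F.e c x) - C * l / p ≤ F.val p j h x := by
  obtain ⟨CT, cT, lT, hCT, hcT, hlT, hT⟩ := hT
  obtain ⟨Ch, cH, hCh, hcH, hC⟩ := hC
  obtain ⟨B₀, lB, hB₀, hlB, hB⟩ := phi_near hU hA hN hS hH
  obtain ⟨Cz, hCz, hz⟩ := geo_Z F
  obtain ⟨Cg, δ, hCg, hδ, hδ1, hg⟩ := geo_ball F
  obtain ⟨Cm, hCm, hM⟩ := hM
  obtain ⟨CK, hCK, hK⟩ := F.K_bound
  set B : ℝ := B₀ + CK with hBdef
  set G : ℝ := CT + 2 * (n + 2) * Λ with hG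
  set D : ℝ := Cm * (2 * Cg) ^ (2 * n) * 2 ^ (n + 1) * Real.exp (3 * B) * Ch * 4 ^ (n + 1) *
    (Cz + 1) ^ (2 * (n + 2)) with hD
  set D₂ : ℝ := Real.exp B * (2 * 200 ^ (n + 1) * Ch * 4 ^ (n + 1) *
    (Cz + 1) ^ (2 * (n + 2)) + 2) with hD₂
  have hG0 : 0 ≤ G := by positivity
  have hD0 : 0 ≤ D := by positivity
  have hD₂0 : 0 ≤ D₂ := by positivity
  obtain ⟨k, lk, hlk, hk, hkl⟩ := params (c := Cz + 1) hΛ hδ (by linarith) hD0 hG0
  refine ⟨G + D₂ + 2, min (min cT cH) 1, max (max lT lB) lk, by positivity,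
    lt_min (lt_min hcT hcH) one_pos, hlk.trans (le_max_right _ _), ?_⟩
  intro t ht c x l hl hc hxc p hp hpA j hj hy
  have hlT' : lT ≤ l := ((le_max_left _ _).trans (le_max_left _ _)).trans hl
  have hlB' : lB ≤ l := ((le_max_right _ _).trans (le_max_left _ _)).trans hl
  have hlk' : lk ≤ l := (le_max_right _ _).trans hl
  have hl1 : 1 ≤ l := hlk.trans hlk'
  obtain ⟨hk1, hk2, hk3, hk4⟩ := hkl l hlk'
  set c₀ : ℝ := min (min cT cH) 1 with hc₀
  have hc₀1 : c₀ ≤ 1 := min_le_right _ _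
  have hc₀T : c₀ ≤ cT := (min_le_left _ _).trans (min_le_left _ _)
  have hc₀H : c₀ ≤ cH := (min_le_left _ _).trans (min_le_right _ _)
  set ε : ℝ := Real.exp (-(k * l)) with hε
  set r : ℝ := Real.exp (-(Λ * l)) / (Cz + 1) with hr
  have hε0 : 0 < ε := Real.exp_pos _
  have hr0 : 0 < r := by positivity
  have hel : Real.exp (-l) ≤ 1 := Real.exp_le_one_iff.2 (by linarith)
  have hΛl : Real.exp (-(Λ * l)) ≤ Real.exp (-l) := Real.exp_le_exp.2
    (neg_le_neg (le_mul_of_one_le_left (by linarith) hΛ))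
  have hrl : r ≤ Real.exp (-l) := by
    rw [hr, div_le_iff₀ (by linarith)]
    exact hΛl.trans (le_mul_of_one_le_right (Real.exp_pos _).le (by linarith))
  have hr1 : r ≤ 1 := hrl.trans hel
  have hε1 : ε ≤ 1 := hk3.trans hel
  -- the bounds of p
  have hx0 := hpA x (by rw [dist_self]; exact (Real.exp_pos _).le)
  obtain ⟨hpT, hpe⟩ := p_bounds hU hA ht hl1 hp.le hx0
  have hpe1 : p * Real.exp (-l) ≤ 1 := hpe.trans hc₀1
  set u : ℝ := F.U t c l (F.e c x) with hu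
  set a : Cn N := F.y j x with ha
  obtain ⟨χ, h, hhol, hχ, hχ1, hχ0, hint⟩ := hC t ht p hp.le (hpT.trans hc₀H) j a r (Wt n a ε)
    (by linarith) hr0 hr1 (Wt_smooth n a hε0 _) (fun y _ v => Wt_psh n a hε0 y v)
  have hy81 : nsq a ≤ 81 := by linarith
  -- the set of the tube
  set Nn : Set M := {x' | dist (F.f x) (F.f x') ≤ Real.exp (-(Λ * l))} with hNn
  have hsq : ∀ x', nsq (F.y j x' - a) ≤ r ^ 2 → √(nsq (F.y j x' - a)) ≤ r := fun x' hx' =>
    (Real.sqrt_le_sqrt hx').trans_eq (Real.sqrt_sq hr0.le)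
  have hNsub : ∀ x' ∈ F.V j, nsq (F.y j x' - a) ≤ r ^ 2 → x' ∈ Nn := by
    intro x' hx' hxr
    change dist (F.f x) (F.f x') ≤ Real.exp (-(Λ * l))
    rw [dist_comm]
    refine (hz j x x' hj hy81 hx'.1 hx'.2.le).trans ?_
    refine (mul_le_mul_of_nonneg_left (hsq x' hxr) hCz.le).trans ?_
    rw [hr, mul_div_assoc', div_le_iff₀ (by linarith), mul_comm]
    exact mul_le_mul_of_nonneg_left (by linarith) (Real.exp_pos _).le
  have hKvar : ∀ x' ∈ F.V j, nsq (F.y j x' - a) ≤ r ^ 2 →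
      |p * F.K j (F.y j x') - p * F.K j a| ≤ B := by
    intro x' hx' hxr
    have h1 := (hK j (F.y j x') hx'.2.le).2.1 a hy81
    rw [← mul_sub, abs_mul, abs_of_pos hp]
    calc p * |F.K j (F.y j x') - F.K j a| ≤ p * (CK * √(nsq (F.y j x' - a))) :=
          mul_le_mul_of_nonneg_left h1 hp.le
      _ ≤ p * (CK * Real.exp (-l)) := by
          have := (hsq x' hxr).trans hrl
          gcongr
      _ = CK * (p * Real.exp (-l)) := by ring
      _ ≤ CK * 1 := mul_le_mul_of_nonneg_left hpe1 hCK.le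
      _ ≤ B := by rw [hBdef]; linarith
  have hI := hT t ht c x l hlT' hc hxc p hp.le fun x₁ hx₁ =>
    (hpA x₁ hx₁).trans (mul_le_mul_of_nonneg_right hc₀T (by linarith))
  -- the ball
  obtain ⟨c', hc', hxc', hball⟩ := hg j x hj (by linarith)
  set ρ : ℝ := ε / (2 * Cg) with hρ
  have hρ0 : 0 < ρ := by positivity
  have hρε : Cg * (2 * ρ) = ε := by
    rw [hρ]
    field_simp
  have h2ρ : 2 * ρ ≤ ε := by
    rw [← hρε]
    exact le_mul_of_one_le_left (by linarith) hCg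
  have hball' : ∀ v, nsq (v - F.e c' x) ≤ (2 * ρ) ^ 2 → v ∈ (F.e c').target ∧
      dist x ((F.e c').symm v) ≤ ε ∧ (F.e c').symm v ∈ F.V j ∧
        √(nsq (F.y j ((F.e c').symm v) - a)) ≤ ε := by
    intro v hv
    have h1 := hball (2 * ρ) (by linarith) (h2ρ.trans hk4) v hv
    rwa [hρε] at h1
  set Bl : Set M := (F.e c').symm '' {v | nsq (v - F.e c' x) ≤ ρ ^ 2} with hBl
  have hsubρ : ∀ v, nsq (v - F.e c' x) ≤ ρ ^ 2 → nsq (v - F.e c' x) ≤ (2 * ρ) ^ 2 :=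
    fun v hv => hv.trans (pow_le_pow_left₀ hρ0.le (by linarith) 2)
  have hBlm : MeasurableSet Bl := by
    refine (IsCompact.image_of_continuousOn (KRFX.RegK.isCompact_ball_sub _ _)
      ((F.e c').continuousOn_symm.mono fun v hv => ?_)).isClosed.measurableSet
    exact (hball' v (hsubρ v hv)).1
  have hBlp : ∀ x' ∈ Bl, x' ∈ F.V j ∧ nsq (F.y j x' - a) ≤ ε ^ 2 ∧
      p * F.Phi t x' ≤ p * u + B := by
    rintro x' ⟨v, hv, rfl⟩
    obtain ⟨h1, h2, h3, h4⟩ := hball' v (hsubρ v hv)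
    refine ⟨h3, ?_, ?_⟩
    · exact (Real.sqrt_le_left hε0.le).1 h4
    · have h5 := hB t ht c x l hlB' hc hxc p c₀ hp.le hx0 ((F.e c').symm v)
        (h2.trans (hk3.trans (by linarith [Real.exp_pos (-l)])))
      refine h5.trans ?_
      have h6 : B₀ * c₀ ≤ B₀ * 1 := mul_le_mul_of_nonneg_left hc₀1 hB₀
      rw [hBdef]
      linarith
  obtain ⟨hR1, hR2⟩ := core ht (by linarith) hr0 hε0 (by rw [hr]; exact hk2) hε1 hCh
    (Real.exp_pos (CT * l)).le hχ hχ1 hχ0 hint hNsub hKvar hI hBlm hBlp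
  -- the value at the centre
  have hmv := hM c' (F.e c' x) ρ (fun x => 1 - h x) hρ0 (by linarith) (by linarith)
    (hol_one_sub hhol c' fun v hv => ⟨(hball' v (le_of_lt hv)).1, (hball' v (le_of_lt hv)).2.2.1⟩)
  rw [(F.e c').left_inv hc'] at hmv
  have hval : ‖1 - h x‖ ^ 2 ≤ 1 / 4 := by
    have h1 := hmv.trans (mul_le_mul_right hR1 _)
    rw [← ENNReal.ofReal_mul (by positivity)] at h1
    have h2 := (ENNReal.ofReal_le_ofReal_iff (by positivity)).1 h1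
    refine h2.trans (le_trans (le_of_eq ?_) hk1)
    have e1 : Real.exp (G * l) = Real.exp (CT * l) * Real.exp (Λ * l) ^ (2 * (n + 2)) := by
      rw [← Real.exp_nat_mul, ← Real.exp_add, hG]
      push_cast
      ring_nf
    have e2 : r = (Real.exp (Λ * l) * (Cz + 1))⁻¹ := by
      rw [hr, Real.exp_neg]
      field_simp
    rw [e1, e2, hρ, prod_eq n (by positivity) hε0.ne' (by positivity), hD, mul_pow]
    generalize Cz + 1 = s
    ring
  have hhx : 1 / 4 ≤ ‖h x‖ ^ 2 := by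
    have h1 : ‖1 - h x‖ ≤ 1 / 2 := by
      refine abs_le_of_sq_le_sq' (a := ‖1 - h x‖) (b := 1 / 2) ?_ (by norm_num) |>.2
      exact hval.trans_eq (by norm_num)
    have h2 : ‖(1 : ℂ)‖ ≤ ‖1 - h x‖ + ‖h x‖ := by
      calc ‖(1 : ℂ)‖ = ‖(1 - h x) + h x‖ := by rw [sub_add_cancel]
        _ ≤ _ := norm_add_le _ _
    rw [norm_one] at h2
    have h3 : (1 / 2 : ℝ) ≤ ‖h x‖ := by linarith
    calc (1 / 4 : ℝ) = (1 / 2) ^ 2 := by norm_num
      _ ≤ ‖h x‖ ^ 2 := pow_le_pow_left₀ (by norm_num) h3 2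
  -- the norm
  set E : ℝ := p * (F.K j a + u) with hE
  have hnorm : ∫⁻ x in F.V j, ENNReal.ofReal (‖h x‖ ^ 2 * Real.exp (-(p * F.pK t j x))) ∂μ ≤
      ENNReal.ofReal (Real.exp ((G + D₂) * l - E)) := by
    refine hR2.trans (ENNReal.ofReal_le_ofReal ?_)
    have e2 : r = (Real.exp (Λ * l) * (Cz + 1))⁻¹ := by
      rw [hr, Real.exp_neg]
      field_simp
    have e3 : Ch / r ^ 2 * ((4 / r ^ 2) ^ (n + 1) * Real.exp (CT * l)) =
        Ch * 4 ^ (n + 1) * (Cz + 1) ^ (2 * (n + 2)) * Real.exp (G * l) := by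
      have e4 : Real.exp (G * l) = Real.exp (CT * l) * Real.exp (Λ * l) ^ (2 * (n + 2)) := by
        rw [← Real.exp_nat_mul, ← Real.exp_add, hG]
        push_cast
        ring_nf
      have h5 : (Real.exp (Λ * l) * (Cz + 1)) ≠ 0 := by positivity
      have e5 : Ch / r ^ 2 = Ch * (Real.exp (Λ * l) * (Cz + 1)) ^ 2 := by
        rw [e2]
        field_simp
      have e6 : (4 / r ^ 2) ^ (n + 1) =
          4 ^ (n + 1) * (Real.exp (Λ * l) * (Cz + 1)) ^ (2 * (n + 1)) := by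
        have : 4 / r ^ 2 = 4 * (Real.exp (Λ * l) * (Cz + 1)) ^ 2 := by
          rw [e2]
          field_simp
        rw [this, mul_pow, ← pow_mul]
      rw [e4, e5, e6, mul_pow, mul_pow]
      generalize Cz + 1 = s
      ring
    rw [e3]
    have h6 : Real.exp (CT * l) ≤ Real.exp (G * l) := by
      refine Real.exp_le_exp.2 (mul_le_mul_of_nonneg_right ?_ (by linarith))
      rw [hG]
      have : 0 ≤ 2 * ((n : ℝ) + 2) * Λ := by positivity
      linarith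
    have h7 : D₂ ≤ Real.exp (D₂ * l) := by
      have h8 := Real.add_one_le_exp (D₂ * l)
      have h9 : D₂ ≤ D₂ * l := le_mul_of_one_le_right hD₂0 hl1
      linarith
    calc Real.exp (B - E) * (2 * 200 ^ (n + 1) * (Ch * 4 ^ (n + 1) * (Cz + 1) ^ (2 * (n + 2)) *
          Real.exp (G * l)) + 2 * Real.exp (CT * l)) ≤
        Real.exp (B - E) * (2 * 200 ^ (n + 1) * (Ch * 4 ^ (n + 1) * (Cz + 1) ^ (2 * (n + 2)) *
          Real.exp (G * l)) + 2 * Real.exp (G * l)) := by gcongr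
      _ = D₂ * Real.exp (G * l) * Real.exp (-E) := by
          rw [sub_eq_add_neg, Real.exp_add, hD₂]
          ring
      _ ≤ Real.exp (D₂ * l) * Real.exp (G * l) * Real.exp (-E) := by gcongr
      _ = Real.exp ((G + D₂) * l - E) := by
          rw [← Real.exp_add, ← Real.exp_add]
          ring_nf
  -- the multiple
  set w : ℝ := Real.exp ((E - (G + D₂) * l) / 2) with hw
  have hw0 : 0 < w := Real.exp_pos _
  have hw2 : w ^ 2 = Real.exp (E - (G + D₂) * l) := by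
    rw [hw, ← Real.exp_nat_mul]
    push_cast
    ring_nf
  have hnw : ∀ x, ‖(w : ℂ) * h x‖ ^ 2 = w ^ 2 * ‖h x‖ ^ 2 := fun x => by
    rw [norm_mul, mul_pow, Complex.norm_real, Real.norm_eq_abs, sq_abs]
  refine ⟨fun x => (w : ℂ) * h x, ⟨hol_const_mul hhol _, ?_⟩, ?_, ?_⟩
  · calc ∫⁻ x in F.V j, ENNReal.ofReal (‖(w : ℂ) * h x‖ ^ 2 * Real.exp (-(p * F.pK t j x))) ∂μ =
          ∫⁻ x in F.V j, ENNReal.ofReal (w ^ 2) *
            ENNReal.ofReal (‖h x‖ ^ 2 * Real.exp (-(p * F.pK t j x))) ∂μ := by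
          congr 1
          funext x
          rw [hnw, ← ENNReal.ofReal_mul (by positivity), mul_assoc]
      _ = ENNReal.ofReal (w ^ 2) *
            ∫⁻ x in F.V j, ENNReal.ofReal (‖h x‖ ^ 2 * Real.exp (-(p * F.pK t j x))) ∂μ :=
          lintegral_const_mul' _ _ ENNReal.ofReal_ne_top
      _ ≤ ENNReal.ofReal (w ^ 2) * ENNReal.ofReal (Real.exp ((G + D₂) * l - E)) :=
          mul_le_mul_right hnorm _
      _ = 1 := by
          rw [← ENNReal.ofReal_mul (by positivity), hw2, ← Real.exp_add]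
          rw [show E - (G + D₂) * l + ((G + D₂) * l - E) = 0 by ring, Real.exp_zero,
            ENNReal.ofReal_one]
  · have h1 : h x ≠ 0 := by
      intro h0
      rw [h0, norm_zero] at hhx
      norm_num at hhx
    have h2 : (w : ℂ) ≠ 0 := by exact_mod_cast hw0.ne'
    exact mul_ne_zero h2 h1
  · unfold Semi.val
    simp only
    rw [hnw, Real.log_mul (by positivity) (by linarith), hw2, Real.log_exp]
    have h1 : Real.log (1 / 4) ≤ Real.log (‖h x‖ ^ 2) := Real.log_le_log (by norm_num) hhx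
    have h2 : -2 ≤ Real.log (1 / 4) := by
      have h3 : Real.log (1 / 4) = -(2 * Real.log 2) := by
        rw [one_div, Real.log_inv, show (4 : ℝ) = 2 ^ 2 by norm_num, Real.log_pow]
        push_cast
        ring
      have h4 := Real.log_two_lt_d9
      rw [h3]
      linarith
    have h5 : E - (G + D₂) * l - 2 * l ≤ E - (G + D₂) * l + Real.log (‖h x‖ ^ 2) := by linarith
    have h6 : 1 / p * (E - (G + D₂) * l - 2 * l) ≤
        1 / p * (E - (G + D₂) * l + Real.log (‖h x‖ ^ 2)) :=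
      mul_le_mul_of_nonneg_left h5 (by positivity)
    have h7 : 1 / p * (E - (G + D₂) * l - 2 * l) = F.K j a + u - (G + D₂ + 2) * l / p := by
      rw [hE]
      field_simp
      ring
    rw [h7] at h6
    linarith

end

end Peak

end Pool.Agent.KRFZ
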