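import Pool.Agent.Work.MP_a2bf38_gt.Z.PeakD
import Pool.Agent.Work.MP_a2bf38_gt.Z.HormCut
import Pool.Agent.Work.MP_a2bf38_gt.Z.ConstM
import Pool.Agent.Work.MP_a2bf38_gt.Z.Reg

/-!
# Peak functions, from the slope, the Harnack inequality and the integral estimate
-/

open scoped ContDiff ENNReal ComplexOrder Topology
open Set MeasureTheory Filter Pool.Agent.ToricKRF Pool.Agent.ToricKRF.G Pool.Agent.KRFS
  Pool.Agent.KRFF Pool.Agent.KRFG Pool.Agent.KRFE Pool.Agent.KRFX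

namespace Pool.Agent.KRFZ

namespace Peak

section

variable {n N : ℕ} {M Z : Type} [MetricSpace M] [CompactSpace M] [MeasurableSpace M] [BorelSpace M]
  [MetricSpace Z] {κ P : Type} [Finite κ] [Finite P] {T : ℝ} (F : Semi n N M Z κ P T)
  {μ : Measure M} (hμ : HasDens F.e F.Ω μ)

include hμ in
theorem hormOne : HormOne F μ := by
  obtain ⟨C, c₀, hC, hc₀, h⟩ := F.horm_cut hμ
  refine ⟨C, c₀, hC, hc₀, ?_⟩
  intro t ht p hp hpt j a r W ha hr hr1 hW hW0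
  obtain ⟨χ, h₁, h1, h2, h3, h4, h5⟩ := h t ht p hp hpt j a r W (fun _ => 1) ha hr hr1 hW hW0
    fun c => NF.HolC.const 1 _
  refine ⟨χ, h₁, h1, h2, h3, h4, ?_⟩
  simpa only [mul_one, norm_one, one_pow, one_mul] using h5

include hμ in
/-- the peak functions, from `Semi.slope`, `Semi.harnack`, `Semi.tube` -/
theorem peak_of' (hS : Slope F) (hH : Harnack F) {Λ : ℝ} (hΛ : 1 ≤ Λ) (hT : Tube F μ Λ) :
    ∃ C c₀ l₀, 0 ≤ C ∧ 0 < c₀ ∧ 1 ≤ l₀ ∧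
    ∀ t ∈ Ico 0 T, ∀ c x l, l₀ ≤ l → x ∈ (F.e c).source → nsq (F.e c x) ≤ 9 →
    ∀ p, 0 < p → (∀ x₁, dist x x₁ ≤ Real.exp (-l) → p * F.A t (F.f x₁) l ≤ c₀ * l) →
    ∀ j, F.f x ∈ F.S j → nsq (F.y j x) ≤ 4 →
    ∃ h, F.Adm μ t p j h ∧ h x ≠ 0 ∧ F.U t c l (F.e c x) - C * l / p ≤ F.val p j h x :=
  peak_of F.U_bound (fun _ ht _ _ hx _ _ hl h => F.U_anti ht hx hl h) F.Phi_le_U_near hS hH hΛ hT
    (hormOne F hμ) (F.mean_value hμ)

end

end Peak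

end Pool.Agent.KRFZ
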