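import Mathlib

/-!
# The iteration of a contraction along a geometric sequence of scales
-/

open Set Real

namespace Pool.Agent.KRFZ

/-- one iteration of `B ↦ κ B + e` along the scales `L ^ k * l₀` -/
theorem rec_iter {κ L l₀ R B₀ e : ℝ} (hκ : 0 ≤ κ) (hκ1 : κ < 1) (hL : 1 ≤ L) (hl : 0 ≤ l₀)
    (hB : 0 ≤ B₀) (he : 0 ≤ e) {P : ℝ → ℝ → Prop} (h0 : P l₀ B₀)
    (hmono : ∀ l B B', B ≤ B' → P l B → P l B')
    (hstep : ∀ l B, l₀ ≤ l → l ≤ R → 0 ≤ B → P l B → P (L * l) (κ * B + e)) :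
    ∀ k : ℕ, (∀ j < k, L ^ j * l₀ ≤ R) → P (L ^ k * l₀) (κ ^ k * B₀ + e / (1 - κ))
  | 0, _ => by
    simp only [pow_zero, one_mul]
    exact hmono _ _ _ (le_add_of_nonneg_right (div_nonneg he (sub_pos.2 hκ1).le)) h0
  | k + 1, hk => by
    have h1 := rec_iter hκ hκ1 hL hl hB he h0 hmono hstep k (fun j hj => hk j (by omega))
    have hk0 : 0 < 1 - κ := sub_pos.2 hκ1
    have h2 := hstep (L ^ k * l₀) (κ ^ k * B₀ + e / (1 - κ))
      (le_mul_of_one_le_left hl (one_le_pow₀ hL)) (hk k (by omega)) (by positivity) h1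
    have e1 : L * (L ^ k * l₀) = L ^ (k + 1) * l₀ := by ring
    have e2 : κ * (κ ^ k * B₀ + e / (1 - κ)) + e = κ ^ (k + 1) * B₀ + e / (1 - κ) := by
      field_simp
      ring
    rw [e1, e2] at h2
    exact h2

/-- `C log (1/d) ≤ d ^ (-b)` for small `d` -/
theorem log_small (C : ℝ) {b : ℝ} (hb : 0 < b) : ∃ δ > 0, ∀ d : ℝ, 0 < d → d < δ →
    C * log (1 / d) ≤ d ^ (-b) := by
  have h := (isLittleO_log_rpow_atTop hb).bound (show (0 : ℝ) < 1 / (|C| + 1) by positivity)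
  obtain ⟨U, hU⟩ := Filter.eventually_atTop.1 h
  refine ⟨1 / (max U 1), by positivity, fun d hd hdδ => ?_⟩
  have hU1 : max U 1 ≤ 1 / d := by
    rw [le_div_iff₀ hd]
    rw [lt_div_iff₀ (by positivity)] at hdδ
    nlinarith
  have h1 := hU (1 / d) ((le_max_left _ _).trans hU1)
  have h1d : 1 ≤ 1 / d := (le_max_right _ _).trans hU1
  have hlog : 0 ≤ log (1 / d) := log_nonneg h1d
  rw [norm_of_nonneg hlog, norm_of_nonneg (rpow_nonneg (by positivity) _)] at h1
  have e1 : (1 / d) ^ b = d ^ (-b) := by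
    rw [one_div, inv_rpow hd.le, rpow_neg hd.le]
  rw [e1] at h1
  have h2 : 0 ≤ d ^ (-b) := rpow_nonneg hd.le _
  calc C * log (1 / d) ≤ |C| * log (1 / d) := mul_le_mul_of_nonneg_right (le_abs_self C) hlog
    _ ≤ |C| * (1 / (|C| + 1) * d ^ (-b)) := mul_le_mul_of_nonneg_left h1 (abs_nonneg C)
    _ = |C| / (|C| + 1) * d ^ (-b) := by ring
    _ ≤ 1 * d ^ (-b) := by
      refine mul_le_mul_of_nonneg_right ?_ h2
      rw [div_le_one (by positivity)]
      linarith
    _ = d ^ (-b) := one_mul _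

/-- **The recursion, numerical part.** -/
theorem rec_num {κ L C₀ C₁ : ℝ} (hκ1 : κ < 1) (hL : 1 < L) (hC₀ : 0 < C₀)
    (hC₁ : 0 ≤ C₁) : ∃ a C d₀ : ℝ, 0 < a ∧ 0 ≤ C ∧ 0 < d₀ ∧ ∀ d : ℝ, 0 < d → d < d₀ →
      ∀ P : ℝ → ℝ → Prop, (∀ l B B', B ≤ B' → P l B → P l B') → P (C₀ * log (1 / d)) C₁ →
      (∀ l B, C₀ * log (1 / d) ≤ l → l ≤ d ^ (-(1 / 2) : ℝ) → 0 ≤ B → P l B →
        P (L * l) (κ * B + C₁ * √d)) →
      ∃ l, d ^ (-(1 / 4) : ℝ) ≤ l ∧ P l (C * d ^ a) := by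
  -- a positive contraction factor
  set q : ℝ := max κ (1 / 2) with hq
  have hq0 : 0 < q := lt_of_lt_of_le (by norm_num) (le_max_right _ _)
  have hq1 : q < 1 := max_lt hκ1 (by norm_num)
  have hlq : 0 < -log q := neg_pos.2 (log_neg hq0 hq1)
  have hlL : 0 < log L := log_pos hL
  set a' : ℝ := -log q / (4 * log L) with ha'
  have ha0 : 0 < a' := by positivity
  obtain ⟨δ₁, hδ₁, h1⟩ := log_small C₀ (b := 1 / 4) (by norm_num)
  set a : ℝ := min a' (1 / 2) with ha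
  have hapos : 0 < a := lt_min ha0 (by norm_num)
  refine ⟨a, C₁ / q + C₁ / (1 - q), min (min δ₁ (1 / 2)) ((1 / L) ^ 4), hapos,
    add_nonneg (by positivity) (div_nonneg hC₁ (sub_pos.2 hq1).le), by positivity,
    fun d hd hdd P hmono h0 hstep => ?_⟩
  have hdδ : d < δ₁ := hdd.trans_le ((min_le_left _ _).trans (min_le_left _ _))
  have hd1 : d < 1 := (hdd.trans_le ((min_le_left _ _).trans (min_le_right _ _))).trans (by norm_num)
  have hdL : d < (1 / L) ^ 4 := hdd.trans_le (min_le_right _ _)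
  have hlog : 0 < log (1 / d) := log_pos ((one_lt_div hd).2 hd1)
  set l₀ : ℝ := C₀ * log (1 / d) with hl₀
  have hl₀pos : 0 < l₀ := by positivity
  have hl₀le : l₀ ≤ d ^ (-(1 / 4) : ℝ) := h1 d hd hdδ
  set R : ℝ := d ^ (-(1 / 2) : ℝ) with hR
  have hR2 : R = d ^ (-(1 / 4) : ℝ) * d ^ (-(1 / 4) : ℝ) := by
    rw [hR, ← rpow_add hd]
    norm_num
  have hR4 : 0 < d ^ (-(1 / 4) : ℝ) := rpow_pos_of_pos hd _
  have hR41 : 1 ≤ d ^ (-(1 / 4) : ℝ) := by
    rw [rpow_neg hd.le]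
    exact (one_le_inv₀ (rpow_pos_of_pos hd _)).2 (rpow_le_one hd.le hd1.le (by norm_num))
  have hL4 : L ≤ d ^ (-(1 / 4) : ℝ) := by
    have h2 : d ^ (1 / 4 : ℝ) ≤ 1 / L := by
      have h3 : d ^ (1 / 4 : ℝ) ≤ ((1 / L) ^ 4) ^ (1 / 4 : ℝ) :=
        rpow_le_rpow hd.le hdL.le (by norm_num)
      rw [← rpow_natCast, ← rpow_mul (by positivity)] at h3
      have e1 : ((4 : ℕ) : ℝ) * (1 / 4) = 1 := by norm_num
      rwa [e1, rpow_one] at h3
    rw [rpow_neg hd.le, le_inv_comm₀ (by linarith) (rpow_pos_of_pos hd _), ← one_div L]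
    exact h2
  -- the number of steps
  have hx : 0 ≤ log (R / l₀) / log L := by
    refine div_nonneg (log_nonneg ?_) hlL.le
    rw [one_le_div hl₀pos]
    refine hl₀le.trans ?_
    rw [hR2]
    exact le_mul_of_one_le_left hR4.le hR41
  set N : ℕ := ⌊log (R / l₀) / log L⌋₊ with hN
  have hN1 : (N : ℝ) * log L ≤ log (R / l₀) := by
    rw [← le_div_iff₀ hlL]
    exact Nat.floor_le hx
  have hN2 : log (R / l₀) < (N + 1) * log L := by
    rw [← div_lt_iff₀ hlL]
    exact Nat.lt_floor_add_one _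
  have hRpos : 0 < R := rpow_pos_of_pos hd _
  have hj : ∀ j < N, L ^ j * l₀ ≤ R := fun j hj => by
    have h2 : log (L ^ j) ≤ log (R / l₀) := by
      rw [log_pow]
      refine le_trans ?_ hN1
      exact mul_le_mul_of_nonneg_right (by exact_mod_cast hj.le) hlL.le
    have h3 := (log_le_log_iff (by positivity) (by positivity)).1 h2
    rwa [le_div_iff₀ hl₀pos] at h3
  have hstep' : ∀ l B, l₀ ≤ l → l ≤ R → 0 ≤ B → P l B → P (L * l) (q * B + C₁ * √d) :=
    fun l B hl hlR hB hP => hmono _ _ _ (by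
      gcongr
      exact le_max_left _ _) (hstep l B hl hlR hB hP)
  have hP := rec_iter hq0.le hq1 hL.le hl₀pos.le hC₁ (by positivity) h0 hmono hstep' N hj
  refine ⟨L ^ N * l₀, ?_, hmono _ _ _ ?_ hP⟩
  · -- the last scale
    have h2 : log (R / l₀) < log (L ^ (N + 1)) := by
      rw [log_pow]
      push_cast
      exact hN2
    have h3 := (log_lt_log_iff (by positivity) (by positivity)).1 h2
    rw [div_lt_iff₀ hl₀pos, pow_succ] at h3
    rw [hR2] at h3
    have h4 : d ^ (-(1 / 4) : ℝ) * d ^ (-(1 / 4) : ℝ) < (L ^ N * l₀) * d ^ (-(1 / 4) : ℝ) := by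
      refine h3.trans_le ?_
      calc L ^ N * L * l₀ = (L ^ N * l₀) * L := by ring
        _ ≤ _ := mul_le_mul_of_nonneg_left hL4 (by positivity)
    exact (lt_of_mul_lt_mul_right h4 hR4.le).le
  · -- the bound
    have hda : d ^ a' ≤ d ^ a := rpow_le_rpow_of_exponent_ge hd hd1.le (min_le_left _ _)
    have hdh : √d ≤ d ^ a := by
      rw [sqrt_eq_rpow]
      exact rpow_le_rpow_of_exponent_ge hd hd1.le (min_le_right _ _)
    have hqN : q ^ N ≤ d ^ a' / q := by
      rw [le_div_iff₀ hq0, ← pow_succ]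
      refine (log_le_log_iff (by positivity) (rpow_pos_of_pos hd _)).1 ?_
      rw [log_pow, log_rpow hd]
      push_cast
      -- (N + 1) log q ≤ a' log d
      have h5 : 1 / 4 * log (1 / d) ≤ log (R / l₀) := by
        have h6 : d ^ (-(1 / 4) : ℝ) ≤ R / l₀ := by
          rw [le_div_iff₀ hl₀pos, hR2]
          exact mul_le_mul_of_nonneg_left hl₀le hR4.le
        have h7 := log_le_log hR4 h6
        rw [log_rpow hd] at h7
        have h8 : log (1 / d) = -log d := by rw [one_div, log_inv]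
        rw [h8]
        linarith
      have h6 : 1 / 4 * log (1 / d) < (N + 1) * log L := h5.trans_lt hN2
      have h7 : log (1 / d) = -log d := by rw [one_div, log_inv]
      rw [h7] at h6
      have h8 : (N + 1 : ℝ) * log q = -((N + 1) * (-log q)) := by ring
      rw [h8]
      have h9 : a' * log d = -(-log d * (-log q) / (4 * log L)) := by
        rw [ha']
        ring
      rw [h9, neg_le_neg_iff, div_le_iff₀ (by positivity)]
      nlinarith
    calc q ^ N * C₁ + C₁ * √d / (1 - q) ≤ (d ^ a / q) * C₁ + C₁ * d ^ a / (1 - q) := by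
          have h10 : 0 < 1 - q := sub_pos.2 hq1
          have h11 : q ^ N ≤ d ^ a / q := hqN.trans (by gcongr)
          gcongr
      _ = (C₁ / q + C₁ / (1 - q)) * d ^ a := by ring

end Pool.Agent.KRFZ
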