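import Pool.Agent.Work.MP_a2bf38_gt.Z.Setup
import Pool.Agent.Work.MP_a2bf38_gt.Z.RecNum
import Pool.Agent.Work.MP_a2bf38_gt.I.FBound

/-!
# The recursion and the drop estimate (semi-ample limit classes)
-/

open scoped ContDiff ENNReal ComplexOrder Topology
open Set MeasureTheory Filter Pool.Agent.ToricKRF Pool.Agent.ToricKRF.G Pool.Agent.KRFS
  Pool.Agent.KRFF Pool.Agent.KRFG Pool.Agent.KRFE

namespace Pool.Agent.KRFZ

section

variable {n N : ℕ} {M Z : Type} [MetricSpace M] [MetricSpace Z] {κ P : Type} {T : ℝ}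
  (F : Semi n N M Z κ P T)

/-- the values of the regularization at the points over `z` -/
def Rec.vals (t : ℝ) (z : Z) (l : ℝ) : Set ℝ :=
  {r | ∃ c p, p ∈ (F.e c).source ∧ nsq (F.e c p) ≤ 9 ∧ F.f p = z ∧ r = F.U t c l (F.e c p)}

theorem Rec.vals_nonempty (t : ℝ) (z : Z) (l : ℝ) : (Rec.vals F t z l).Nonempty := by
  obtain ⟨p, hp⟩ := F.emb.surj z
  obtain ⟨c, hc, hc1⟩ := F.cover p
  exact ⟨_, c, p, hc, hc1.trans (by norm_num), hp, rfl⟩

section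

variable {F} {Cu : ℝ} (hU : ∀ t ∈ Ico 0 T, ∀ c x l, nsq x ≤ 16 → 0 ≤ l → |F.U t c l x| ≤ Cu)
  {t : ℝ} (ht : t ∈ Ico 0 T)

include hU ht

theorem Rec.vals_le {z : Z} {l : ℝ} (hl : 0 ≤ l) : ∀ r ∈ Rec.vals F t z l, |r| ≤ Cu := by
  rintro r ⟨c, p, -, hp, -, rfl⟩
  exact hU t ht c _ l (hp.trans (by norm_num)) hl

theorem Rec.bdd {z : Z} {l : ℝ} (hl : 0 ≤ l) : BddAbove (Rec.vals F t z l) :=
  ⟨Cu, fun r hr => (abs_le.1 (Rec.vals_le hU ht hl r hr)).2⟩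

theorem Rec.le_mm {c : κ} {p : M} {l : ℝ} (hp : p ∈ (F.e c).source) (hp' : nsq (F.e c p) ≤ 9)
    (hl : 0 ≤ l) : F.U t c l (F.e c p) ≤ F.mm t (F.f p) l :=
  le_csSup (Rec.bdd hU ht hl) ⟨c, p, hp, hp', rfl, rfl⟩

theorem Rec.mm_abs {z : Z} {l : ℝ} (hl : 0 ≤ l) : |F.mm t z l| ≤ Cu := by
  obtain ⟨r, hr⟩ := Rec.vals_nonempty F t z l
  have h1 := Rec.vals_le hU ht (z := z) hl
  refine abs_le.2 ⟨(abs_le.1 (h1 r hr)).1.trans (le_csSup (Rec.bdd hU ht hl) hr),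
    csSup_le ⟨r, hr⟩ fun r' hr' => (abs_le.1 (h1 r' hr')).2⟩

end

variable {F}

theorem Rec.mm_le {t : ℝ} {z : Z} {l B : ℝ} (h : ∀ c p, p ∈ (F.e c).source →
    nsq (F.e c p) ≤ 9 → F.f p = z → F.U t c l (F.e c p) ≤ B) : F.mm t z l ≤ B := by
  refine csSup_le (Rec.vals_nonempty F t z l) ?_
  rintro r ⟨c, p, h1, h2, h3, rfl⟩
  exact h c p h1 h2 h3

theorem Rec.mm_anti {Cu : ℝ}
    (hU : ∀ t ∈ Ico 0 T, ∀ c x l, nsq x ≤ 16 → 0 ≤ l → |F.U t c l x| ≤ Cu)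
    (hUa : ∀ t ∈ Ico 0 T, ∀ c x, nsq x ≤ 16 → ∀ l l', 0 ≤ l → l ≤ l' →
      F.U t c l' x ≤ F.U t c l x) {t : ℝ} (ht : t ∈ Ico 0 T) (z : Z) {l l' : ℝ} (hl : 0 ≤ l)
    (h : l ≤ l') : F.mm t z l' ≤ F.mm t z l := by
  refine Rec.mm_le fun c p h1 h2 h3 => ?_
  subst h3
  exact (hUa t ht c _ (h2.trans (by norm_num)) l l' hl h).trans (Rec.le_mm hU ht h1 h2 hl)

end

section

variable {n N : ℕ} {M Z : Type} [MetricSpace M] [CompactSpace M] [MeasurableSpace M]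
  [MetricSpace Z] {κ P : Type} {T : ℝ} (F : Semi n N M Z κ P T) {μ : Measure M}

/-- `mm (f x'') l ≤ φ(s) x' + B` if `x'` and `x''` are at distance at most `exp (-l - 2)` -/
def Rec.Bd (t s l B : ℝ) : Prop := ∀ x' x'', dist x' x'' ≤ Real.exp (-(l + 2)) →
  F.mm t (F.f x'') l ≤ F.Phi s x' + B

/-- **One step of the recursion.** -/
theorem Rec.step
    (hUb : ∃ C, 0 ≤ C ∧ ∀ t ∈ Ico 0 T, ∀ c x l, nsq x ≤ 16 → 0 ≤ l → |F.U t c l x| ≤ C)
    (hUa : ∀ t ∈ Ico 0 T, ∀ c x, nsq x ≤ 16 → ∀ l l', 0 ≤ l → l ≤ l' →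
      F.U t c l' x ≤ F.U t c l x)
    (hUU : ∃ C a, 0 ≤ C ∧ 0 ≤ a ∧ ∀ t ∈ Ico 0 T, ∀ c c' p p' l,
      p ∈ (F.e c).source → p' ∈ (F.e c').source → nsq (F.e c p) ≤ 16 → nsq (F.e c' p') ≤ 16 →
      a ≤ l → dist p p' ≤ Real.exp (-l) →
      F.U t c l (F.e c p) ≤ F.U t c' (l - a) (F.e c' p') + C * Real.exp (-l))
    (hsl : ∀ t ∈ Ico 0 T, ∀ z l, 0 < l → ∀ c p, p ∈ (F.e c).source → nsq (F.e c p) ≤ 9 →
      F.f p = z → ∀ a, 0 ≤ a → a ≤ l / 2 →
      F.U t c (l - a) (F.e c p) ≤ F.U t c l (F.e c p) + 2 * a / l * F.G t z c l (F.e c p))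
    (hharn : ∃ C l₀, 0 ≤ C ∧ 1 ≤ l₀ ∧ ∀ t ∈ Ico 0 T, ∀ z l, l₀ ≤ l → ∀ c p,
      p ∈ (F.e c).source → nsq (F.e c p) ≤ 9 → F.f p = z →
      F.G t z c l (F.e c p) ≤ C * F.A t z l)
    (hpeak : ∃ C c₀ l₀, 0 ≤ C ∧ 0 < c₀ ∧ 1 ≤ l₀ ∧
      ∀ t ∈ Ico 0 T, ∀ c x l, l₀ ≤ l → x ∈ (F.e c).source → nsq (F.e c x) ≤ 9 →
      ∀ p, 0 < p → (∀ x₁, dist x x₁ ≤ Real.exp (-l) → p * F.A t (F.f x₁) l ≤ c₀ * l) →
      ∀ j, F.f x ∈ F.S j → nsq (F.y j x) ≤ 4 →
      ∃ h, F.Adm μ t p j h ∧ h x ≠ 0 ∧ F.U t c l (F.e c x) - C * l / p ≤ F.val p j h x)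
    (hdom : ∃ C c₀ d₀, 0 ≤ C ∧ 0 < c₀ ∧ 0 < d₀ ∧ ∀ t ∈ Ico 0 T, T - t ≤ d₀ → ∀ p,
      C * (1 + |Real.log (T - t)|) ≤ p → p * (T - t) ≤ c₀ → ∀ j h x, F.Adm μ t p j h →
      F.f x ∈ F.S j → nsq (F.y j x) ≤ 9 → h x ≠ 0 → ∀ s ∈ Ico t T,
      F.val p j h x ≤ F.Phi s x + C * (1 + |Real.log (T - t)|) / p) (S₀ : ℝ) :
    ∃ κ C₀ d₀ : ℝ, 0 ≤ κ ∧ κ < 1 ∧ 1 ≤ C₀ ∧ 0 < d₀ ∧ ∀ t ∈ Ico 0 T, T - t ≤ d₀ →
      ∀ s ∈ Ico t T, ∀ l, C₀ * (1 + |Real.log (T - t)|) ≤ l → (T - t) * l ≤ 1 → ∀ B, 0 ≤ B →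
      B ≤ S₀ → Rec.Bd F t s (l / 2) B →
      Rec.Bd F t s l (κ * B + ((T - t) * l + Real.exp (-(l / 2)))) := by
  obtain ⟨Cu, hCu, hU⟩ := hUb
  obtain ⟨C₁, a₀, hC₁, ha₀, hUU⟩ := hUU
  obtain ⟨Ch, lh, hCh, hlh, hharn⟩ := hharn
  obtain ⟨Cb, hCb, hΦ⟩ := F.toFlow.Phi_bound
  obtain ⟨Cp, cp, lp, hCp, hcp, hlp, hpeak⟩ := hpeak
  obtain ⟨Cd, cd, dd, hCd, hcd, hdd, hdom⟩ := hdom
  -- the constants
  set c : ℝ := min cp cd with hc
  have hc0 : 0 < c := lt_min hcp hcd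
  set C₂ : ℝ := 2 * (1 + Ch + C₁) with hC₂
  have hC₂2 : 2 ≤ C₂ := by rw [hC₂]; linarith
  have hC₂0 : 0 < C₂ := by linarith
  set D₀ : ℝ := |S₀| + Cu + Cb + 2 with hD₀
  have hD₀0 : 0 < D₀ := by positivity
  set C₃ : ℝ := Ch + Ch * C₂ + C₁ + (Cp + Cd) * C₂ / c with hC₃
  have hC₃0 : 0 ≤ C₃ := by positivity
  have hK1 : 0 ≤ C₂ * D₀ * Cd / c := by positivity
  have hK2 : 0 ≤ 4 * (a₀ + 1) * Ch := by positivity
  refine ⟨C₃ / (1 + C₃), C₂ * D₀ * Cd / c + 4 * (a₀ + 1) * Ch + 2 * (a₀ + 1) + lh + lp + 4, dd,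
    by positivity, by rw [div_lt_one (by positivity)]; linarith, by linarith, hdd,
    fun t ht htd s hs l hl hdl B hB hBS hBd => ?_⟩
  have hs' : s ∈ Ico 0 T := ⟨ht.1.trans hs.1, hs.2⟩
  set d : ℝ := T - t with hd
  have hd0 : 0 < d := sub_pos.2 ht.2
  set lg : ℝ := 1 + |Real.log d| with hlg
  have hlg1 : 1 ≤ lg := by rw [hlg]; linarith [abs_nonneg (Real.log d)]
  have hl1 : C₂ * D₀ * Cd / c * lg ≤ l := by
    refine le_trans ?_ hl
    refine mul_le_mul_of_nonneg_right ?_ (by linarith)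
    linarith
  have hl2 : C₂ * D₀ * Cd / c + 4 * (a₀ + 1) * Ch + 2 * (a₀ + 1) + lh + lp + 4 ≤ l :=
    (le_mul_of_one_le_right (by linarith) hlg1).trans hl
  have hl4 : 4 ≤ l := by linarith
  have hl0 : 0 < l := by linarith
  have hlgl : lg ≤ l := by
    refine le_trans ?_ hl
    exact le_mul_of_one_le_left (by linarith) (by linarith)
  have hlh' : lh ≤ l := by linarith
  have hlp' : lp ≤ l := by linarith
  have ha₀1 : a₀ + 1 ≤ l / 2 := by linarith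
  have haCh : 4 * (a₀ + 1) * Ch ≤ l := by linarith
  intro x' x'' hxx
  -- the quantities
  set z : Z := F.f x'' with hz
  set X : ℝ := F.mm t z l - F.Phi s x' with hX
  set er : ℝ := d * l + Real.exp (-(l / 2)) with her
  set D : ℝ := B - X + er with hD
  have hexp : 0 < Real.exp (-(l / 2)) := Real.exp_pos _
  have hdl0 : 0 < d * l := by positivity
  have hmanti : ∀ z', F.mm t z' l ≤ F.mm t z' (l / 2) := fun z' =>
    Rec.mm_anti hU hUa ht z' (by positivity) (by linarith)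
  have hAdef : ∀ z', F.A t z' l = F.mm t z' (l / 2) - F.mm t z' l + er := fun z' => by
    rw [her, ← add_assoc]
    rfl
  have hA_ge : ∀ z', er ≤ F.A t z' l := fun z' => by
    rw [hAdef]
    linarith [hmanti z']
  have hA_pos : ∀ z', 0 ≤ F.A t z' l := fun z' =>
    le_trans (by rw [her]; positivity) (hA_ge z')
  -- (1)
  have hAz : F.A t z l ≤ D := by
    have h1 : F.mm t z (l / 2) ≤ F.Phi s x' + B :=
      hBd x' x'' (hxx.trans (Real.exp_le_exp.2 (by linarith)))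
    rw [hAdef, hD, hX]
    linarith
  have herD : er ≤ D := (hA_ge z).trans hAz
  have hexpD : Real.exp (-(l / 2)) ≤ D := le_trans (by rw [her]; linarith) herD
  have hdlD : d * l ≤ D := le_trans (by rw [her]; linarith) herD
  have hD0 : 0 < D := hexp.trans_le hexpD
  have hDD₀ : D ≤ D₀ := by
    have h1 := (abs_le.1 (Rec.mm_abs hU ht (z := z) hl0.le)).1
    have h2 := (abs_le.1 (hΦ s hs' x')).2
    have h3 : Real.exp (-(l / 2)) ≤ 1 := Real.exp_le_one_iff.2 (by linarith)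
    have h4 : B ≤ |S₀| := hBS.trans (le_abs_self _)
    rw [hD, hX, her, hD₀]
    linarith
  have he1 : Real.exp (-(l - 1)) ≤ D := le_trans (Real.exp_le_exp.2 (by linarith)) hexpD
  have he2 : Real.exp (-l) ≤ D := le_trans (Real.exp_le_exp.2 (by linarith)) hexpD
  -- the chart at `x''`
  obtain ⟨c₂, hc₂, hc₂1⟩ := F.cover x''
  have hmz : F.mm t z l ≤ F.U t c₂ l (F.e c₂ x'') + Ch * D := by
    have h1 := hharn t ht z l hlh' c₂ x'' hc₂ (hc₂1.trans (by norm_num)) rfl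
    have h2 : F.G t z c₂ l (F.e c₂ x'') = F.A t z l + F.mm t z l - F.U t c₂ l (F.e c₂ x'') := rfl
    have h3 : Ch * F.A t z l ≤ Ch * D := mul_le_mul_of_nonneg_left hAz hCh
    have h4 := hA_pos z
    linarith
  -- (2)
  have hA₁ : ∀ x₁, dist x' x₁ ≤ Real.exp (-l) → F.A t (F.f x₁) l ≤ C₂ * D := fun x₁ hx₁ => by
    obtain ⟨c₁, hc₁, hc₁1⟩ := F.cover x₁
    have h1 : F.mm t (F.f x₁) (l / 2) ≤ F.Phi s x' + B :=
      hBd x' x₁ (hx₁.trans (Real.exp_le_exp.2 (by linarith)))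
    have h2 : dist x'' x₁ ≤ Real.exp (-(l - 1)) := by
      have h3 : dist x'' x₁ ≤ Real.exp (-l) + Real.exp (-l) := by
        refine (dist_triangle x'' x' x₁).trans (add_le_add ?_ hx₁)
        rw [dist_comm]
        exact hxx.trans (Real.exp_le_exp.2 (by linarith))
      have h4 : Real.exp (-(l - 1)) = Real.exp (-l) * Real.exp 1 := by
        rw [← Real.exp_add]
        congr 1
        ring
      have h5 : (2 : ℝ) ≤ Real.exp 1 := by
        have := Real.add_one_le_exp (1 : ℝ)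
        linarith
      have h6 : 0 < Real.exp (-l) := Real.exp_pos _
      rw [h4]
      have h7 := mul_le_mul_of_nonneg_left h5 h6.le
      linarith
    have h3 : F.U t c₂ l (F.e c₂ x'') ≤ F.U t c₂ (l - 1) (F.e c₂ x'') :=
      hUa t ht c₂ _ (hc₂1.trans (by norm_num)) (l - 1) l (by linarith) (by linarith)
    have h4 := hUU t ht c₂ c₁ x'' x₁ (l - 1) hc₂ hc₁ (hc₂1.trans (by norm_num))
      (hc₁1.trans (by norm_num)) (by linarith) h2
    have h5 := hsl t ht (F.f x₁) l hl0 c₁ x₁ hc₁ (hc₁1.trans (by norm_num)) rfl (a₀ + 1)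
      (by linarith) ha₀1
    have h6 : l - 1 - a₀ = l - (a₀ + 1) := by ring
    rw [h6] at h4
    have h7 := hharn t ht (F.f x₁) l hlh' c₁ x₁ hc₁ (hc₁1.trans (by norm_num)) rfl
    have h8 : 2 * (a₀ + 1) / l * F.G t (F.f x₁) c₁ l (F.e c₁ x₁) ≤ F.A t (F.f x₁) l / 2 := by
      calc 2 * (a₀ + 1) / l * F.G t (F.f x₁) c₁ l (F.e c₁ x₁)
          ≤ 2 * (a₀ + 1) / l * (Ch * F.A t (F.f x₁) l) :=
            mul_le_mul_of_nonneg_left h7 (by positivity)
        _ = (4 * (a₀ + 1) * Ch) / l * (F.A t (F.f x₁) l / 2) := by ring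
        _ ≤ 1 * (F.A t (F.f x₁) l / 2) := by
          refine mul_le_mul_of_nonneg_right ?_ (by linarith [hA_pos (F.f x₁)])
          rw [div_le_one hl0]
          exact haCh
        _ = F.A t (F.f x₁) l / 2 := one_mul _
    have h9 : F.U t c₁ l (F.e c₁ x₁) ≤ F.mm t (F.f x₁) l :=
      Rec.le_mm hU ht hc₁ (hc₁1.trans (by norm_num)) hl0.le
    have h10 : C₁ * Real.exp (-(l - 1)) ≤ C₁ * D := mul_le_mul_of_nonneg_left he1 hC₁
    have h11 := hAdef (F.f x₁)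
    have h12 : D = B - F.mm t z l + F.Phi s x' + er := by
      rw [hD, hX]
      ring
    have h13 : C₂ * D = 2 * (D + Ch * D + C₁ * D) := by
      rw [hC₂]
      ring
    rw [h13]
    linarith
  -- (3)
  clear_value D X er
  set p : ℝ := c * l / (C₂ * D) with hp
  have hp0 : 0 < p := by positivity
  have hpD : p * (C₂ * D) = c * l := by
    rw [hp]
    field_simp
  have hpd : p * d ≤ cd := by
    rw [hp, div_mul_eq_mul_div, div_le_iff₀ (by positivity)]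
    calc c * l * d = c * (d * l) := by ring
      _ ≤ cd * (C₂ * D) := by
        refine mul_le_mul (min_le_right _ _) ?_ (by positivity) hcd.le
        exact hdlD.trans (le_mul_of_one_le_left hD0.le (by linarith))
  have hpC : Cd * lg ≤ p := by
    rw [hp, le_div_iff₀ (by positivity)]
    have h4 := mul_le_mul_of_nonneg_left hl1 hc0.le
    calc Cd * lg * (C₂ * D) ≤ Cd * lg * (C₂ * D₀) := by gcongr
      _ = c * (C₂ * D₀ * Cd / c * lg) := by field_simp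
      _ ≤ c * l := h4
  clear_value p C₃ C₂ D₀
  obtain ⟨c₃, hc₃, hc₃1⟩ := F.cover x'
  obtain ⟨j, hj, hj1⟩ := F.emb.cover (F.f x')
  obtain ⟨h, hh, hhx, hval⟩ := hpeak t ht c₃ x' l hlp' hc₃ (hc₃1.trans (by norm_num)) p hp0
    (fun x₁ hx₁ => by
      calc p * F.A t (F.f x₁) l ≤ p * (C₂ * D) := mul_le_mul_of_nonneg_left (hA₁ x₁ hx₁) hp0.le
        _ = c * l := hpD
        _ ≤ cp * l := mul_le_mul_of_nonneg_right (min_le_left _ _) hl0.le)
    j hj (hj1.trans (by norm_num))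
  have hdom' := hdom t ht htd p hpC hpd j h x' hh hj (hj1.trans (by norm_num)) hhx s hs
  rw [← hlg] at hdom'
  clear_value lg
  have hlp1 : l / p = C₂ * D / c := by
    rw [div_eq_div_iff hp0.ne' hc0.ne']
    linarith
  have hUx' : F.U t c₃ l (F.e c₃ x') ≤ F.Phi s x' + (Cp + Cd) * C₂ / c * D := by
    have e1 : Cp * l / p = Cp * (C₂ * D / c) := by rw [mul_div_assoc, hlp1]
    have e2 : Cd * lg / p ≤ Cd * (C₂ * D / c) := by
      calc Cd * lg / p ≤ Cd * l / p := by gcongr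
        _ = Cd * (C₂ * D / c) := by rw [mul_div_assoc, hlp1]
    have e3 : (Cp + Cd) * C₂ / c * D = Cp * (C₂ * D / c) + Cd * (C₂ * D / c) := by ring
    rw [e3]
    rw [e1] at hval
    linarith
  -- (4)
  have hUx'' : F.U t c₂ l (F.e c₂ x'') ≤ F.U t c₃ l (F.e c₃ x') + Ch * C₂ * D + C₁ * D := by
    have h2 : dist x'' x' ≤ Real.exp (-l) := by
      rw [dist_comm]
      exact hxx.trans (Real.exp_le_exp.2 (by linarith))
    have h4 := hUU t ht c₂ c₃ x'' x' l hc₂ hc₃ (hc₂1.trans (by norm_num))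
      (hc₃1.trans (by norm_num)) (by linarith) h2
    have h5 := hsl t ht (F.f x') l hl0 c₃ x' hc₃ (hc₃1.trans (by norm_num)) rfl a₀ ha₀
      (by linarith)
    have h7 := hharn t ht (F.f x') l hlh' c₃ x' hc₃ (hc₃1.trans (by norm_num)) rfl
    have h6 : F.A t (F.f x') l ≤ C₂ * D := hA₁ x' (by simp [Real.exp_nonneg])
    have h8 : 2 * a₀ / l * F.G t (F.f x') c₃ l (F.e c₃ x') ≤ Ch * C₂ * D := by
      have h9 : F.G t (F.f x') c₃ l (F.e c₃ x') ≤ Ch * (C₂ * D) :=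
        h7.trans (mul_le_mul_of_nonneg_left h6 hCh)
      calc 2 * a₀ / l * F.G t (F.f x') c₃ l (F.e c₃ x') ≤ 2 * a₀ / l * (Ch * (C₂ * D)) :=
            mul_le_mul_of_nonneg_left h9 (by positivity)
        _ ≤ 1 * (Ch * (C₂ * D)) := by
          refine mul_le_mul_of_nonneg_right ?_ (by positivity)
          rw [div_le_one hl0]
          linarith
        _ = Ch * C₂ * D := by ring
    have h10 : C₁ * Real.exp (-l) ≤ C₁ * D := mul_le_mul_of_nonneg_left he2 hC₁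
    linarith
  have hXD : X ≤ C₃ * D := by
    have h1 : C₃ * D = Ch * D + Ch * C₂ * D + C₁ * D + (Cp + Cd) * C₂ / c * D := by
      rw [hC₃]
      ring
    rw [h1, hX]
    linarith
  -- the conclusion
  have h1 : X ≤ C₃ / (1 + C₃) * (B + er) := by
    rw [div_mul_eq_mul_div, le_div_iff₀ (by positivity)]
    have h2 : C₃ * D = C₃ * (B + er) - C₃ * X := by
      rw [hD]
      ring
    linarith
  have h2 : C₃ / (1 + C₃) * er ≤ er := by
    refine mul_le_of_le_one_left (by rw [her]; positivity) ?_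
    rw [div_le_one (by positivity)]
    linarith
  have h3 : F.mm t z l = X + F.Phi s x' := by
    rw [hX]
    ring
  rw [h3]
  have h4 : C₃ / (1 + C₃) * (B + er) = C₃ / (1 + C₃) * B + C₃ / (1 + C₃) * er := by ring
  linarith

/-- **The drop estimate.** -/
theorem Semi.drop_of
    (hUb : ∃ C, 0 ≤ C ∧ ∀ t ∈ Ico 0 T, ∀ c x l, nsq x ≤ 16 → 0 ≤ l → |F.U t c l x| ≤ C)
    (hUa : ∀ t ∈ Ico 0 T, ∀ c x, nsq x ≤ 16 → ∀ l l', 0 ≤ l → l ≤ l' →
      F.U t c l' x ≤ F.U t c l x)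
    (hPU : ∀ t ∈ Ico 0 T, ∀ c p, p ∈ (F.e c).source → nsq (F.e c p) ≤ 16 → ∀ l, 0 ≤ l →
      F.Phi t p ≤ F.U t c l (F.e c p))
    (hUU : ∃ C a, 0 ≤ C ∧ 0 ≤ a ∧ ∀ t ∈ Ico 0 T, ∀ c c' p p' l,
      p ∈ (F.e c).source → p' ∈ (F.e c').source → nsq (F.e c p) ≤ 16 → nsq (F.e c' p') ≤ 16 →
      a ≤ l → dist p p' ≤ Real.exp (-l) →
      F.U t c l (F.e c p) ≤ F.U t c' (l - a) (F.e c' p') + C * Real.exp (-l))
    (hsl : ∀ t ∈ Ico 0 T, ∀ z l, 0 < l → ∀ c p, p ∈ (F.e c).source → nsq (F.e c p) ≤ 9 →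
      F.f p = z → ∀ a, 0 ≤ a → a ≤ l / 2 →
      F.U t c (l - a) (F.e c p) ≤ F.U t c l (F.e c p) + 2 * a / l * F.G t z c l (F.e c p))
    (hharn : ∃ C l₀, 0 ≤ C ∧ 1 ≤ l₀ ∧ ∀ t ∈ Ico 0 T, ∀ z l, l₀ ≤ l → ∀ c p,
      p ∈ (F.e c).source → nsq (F.e c p) ≤ 9 → F.f p = z →
      F.G t z c l (F.e c p) ≤ C * F.A t z l)
    (hpeak : ∃ C c₀ l₀, 0 ≤ C ∧ 0 < c₀ ∧ 1 ≤ l₀ ∧
      ∀ t ∈ Ico 0 T, ∀ c x l, l₀ ≤ l → x ∈ (F.e c).source → nsq (F.e c x) ≤ 9 →
      ∀ p, 0 < p → (∀ x₁, dist x x₁ ≤ Real.exp (-l) → p * F.A t (F.f x₁) l ≤ c₀ * l) →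
      ∀ j, F.f x ∈ F.S j → nsq (F.y j x) ≤ 4 →
      ∃ h, F.Adm μ t p j h ∧ h x ≠ 0 ∧ F.U t c l (F.e c x) - C * l / p ≤ F.val p j h x)
    (hdom : ∃ C c₀ d₀, 0 ≤ C ∧ 0 < c₀ ∧ 0 < d₀ ∧ ∀ t ∈ Ico 0 T, T - t ≤ d₀ → ∀ p,
      C * (1 + |Real.log (T - t)|) ≤ p → p * (T - t) ≤ c₀ → ∀ j h x, F.Adm μ t p j h →
      F.f x ∈ F.S j → nsq (F.y j x) ≤ 9 → h x ≠ 0 → ∀ s ∈ Ico t T,
      F.val p j h x ≤ F.Phi s x + C * (1 + |Real.log (T - t)|) / p) :
    ∃ a, 0 < a ∧ a ≤ 1 ∧ F.toFlow.Drop a := by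
  obtain ⟨Cu, hCu, hU⟩ := id hUb
  obtain ⟨Cb, hCb, hΦ⟩ := F.toFlow.Phi_bound
  obtain ⟨κ', C₀, d₀, hκ0, hκ1, hC₀, hd₀, hstep⟩ := Rec.step F hUb hUa hUU hsl hharn hpeak hdom
    (Cu + Cb)
  obtain ⟨α, C', d₁, hα, hC', hd₁, hrec⟩ := rec_num (κ := κ') (L := 2) (C₀ := 2 * C₀)
    (C₁ := Cu + Cb + 3) hκ1 (by norm_num) (by linarith) (by positivity)
  set d₂ : ℝ := min (min d₀ d₁) (min (Real.exp (-1)) (1 / 4)) with hd₂
  have hd₂0 : 0 < d₂ := by positivity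
  -- the estimate for `t` near `T`
  have hmain : ∀ t ∈ Ico 0 T, T - t < d₂ → ∀ s ∈ Ico t T, ∀ p,
      F.Phi t p - F.Phi s p ≤ C' * (T - t) ^ α := by
    intro t ht htd s hs
    have hs' : s ∈ Ico 0 T := ⟨ht.1.trans hs.1, hs.2⟩
    set d : ℝ := T - t with hd
    have hd0 : 0 < d := sub_pos.2 ht.2
    have hdd₀ : d ≤ d₀ := htd.le.trans ((min_le_left _ _).trans (min_le_left _ _))
    have hdd₁ : d < d₁ := htd.trans_le ((min_le_left _ _).trans (min_le_right _ _))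
    have hde : d < Real.exp (-1) := htd.trans_le ((min_le_right _ _).trans (min_le_left _ _))
    have hd4 : d < 1 / 4 := htd.trans_le ((min_le_right _ _).trans (min_le_right _ _))
    have hlogd : Real.log d < -1 := by
      rw [← Real.log_exp (-1)]
      exact Real.log_lt_log hd0 hde
    have hlogd' : Real.log (1 / d) = -Real.log d := by rw [one_div, Real.log_inv]
    have hlog1 : 1 < Real.log (1 / d) := by rw [hlogd']; linarith
    have habs : |Real.log d| = Real.log (1 / d) := by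
      rw [hlogd', abs_of_neg (by linarith)]
    have hsq : √d * √d = d := Real.mul_self_sqrt hd0.le
    have hsq0 : 0 < √d := Real.sqrt_pos.2 hd0
    have hsqinv : d ^ (-(1 / 2) : ℝ) = (√d)⁻¹ := by
      rw [Real.rpow_neg hd0.le, Real.sqrt_eq_rpow]
    have hsq2 : √d ≤ 1 / 2 := by
      rw [show (1 / 2 : ℝ) = √(1 / 4) by
        rw [show (1 / 4 : ℝ) = (1 / 2) ^ 2 by norm_num, Real.sqrt_sq (by norm_num)]]
      exact Real.sqrt_le_sqrt hd4.le
    -- the trivial bound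
    have htriv : ∀ l, 0 ≤ l → Rec.Bd F t s l (Cu + Cb) := fun l hl x' x'' _ => by
      have h1 := (abs_le.1 (Rec.mm_abs hU ht (z := F.f x'') hl)).2
      have h2 := (abs_le.1 (hΦ s hs' x')).1
      linarith
    have hl0pos : 0 ≤ 2 * C₀ * Real.log (1 / d) := by positivity
    obtain ⟨l, hl, hXl⟩ := hrec d hd0 hdd₁ (fun l B => Rec.Bd F t s l B)
      (fun l B B' hB h x' x'' hx => (h x' x'' hx).trans (by linarith))
      (fun x' x'' hx => (htriv _ hl0pos x' x'' hx).trans (by linarith))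
      (fun l B hl hlR hB hP => by
        rw [hsqinv] at hlR
        have hlpos : 0 < l := lt_of_lt_of_le (by positivity) hl
        have hls : l * √d ≤ 1 := by rwa [← le_div_iff₀ hsq0, one_div]
        have e1 : d * (2 * l) ≤ 2 * √d := by
          calc d * (2 * l) = 2 * (l * √d) * √d := by linear_combination (-(2 * l)) * hsq
            _ ≤ 2 * 1 * √d := by gcongr
            _ = 2 * √d := by ring
        have e2 : Real.exp (-(2 * l / 2)) ≤ √d := by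
          have h4 : Real.log (1 / d) ≤ l := by
            refine le_trans ?_ hl
            exact le_mul_of_one_le_left (by linarith) (by linarith)
          have h5 : 2 * l / 2 = l := by ring
          rw [h5]
          calc Real.exp (-l) ≤ Real.exp (-Real.log (1 / d)) := Real.exp_le_exp.2 (neg_le_neg h4)
            _ = d := by rw [hlogd', neg_neg, Real.exp_log hd0]
            _ = √d * √d := hsq.symm
            _ ≤ 1 * √d := by gcongr; linarith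
            _ = √d := one_mul _
        have h1 : C₀ * (1 + |Real.log d|) ≤ 2 * l := by
          rw [habs]
          have h2 : C₀ * (1 + Real.log (1 / d)) ≤ C₀ * (2 * Real.log (1 / d)) := by
            gcongr
            linarith
          linarith
        have h2 : 2 * l / 2 = l := by ring
        have h3 := hstep t ht hdd₀ s hs (2 * l) h1 (e1.trans (by linarith)) (min B (Cu + Cb))
          (le_min hB (by positivity)) (min_le_right _ _) (by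
            rw [h2]
            rcases le_total B (Cu + Cb) with h | h
            · rwa [min_eq_left h]
            · rw [min_eq_right h]
              exact htriv l hlpos.le)
        intro x' x'' hx
        refine (h3 x' x'' hx).trans ?_
        have h4 : κ' * min B (Cu + Cb) ≤ κ' * B :=
          mul_le_mul_of_nonneg_left (min_le_left _ _) hκ0
        have h5 : 3 * √d ≤ (Cu + Cb + 3) * √d := by
          gcongr
          linarith
        linarith)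
    intro p
    obtain ⟨c₁, hc₁, hc₁1⟩ := F.cover p
    have hl0 : 0 ≤ l := le_trans (Real.rpow_nonneg hd0.le _) hl
    have h1 := hPU t ht c₁ p hc₁ (hc₁1.trans (by norm_num)) l hl0
    have h2 := Rec.le_mm hU ht hc₁ (hc₁1.trans (by norm_num)) hl0
    have h3 := hXl p p (by simp [Real.exp_nonneg])
    linarith
  -- all times
  set β : ℝ := min α 1 with hβ
  have hβ0 : 0 < β := lt_min hα one_pos
  have hd₂1 : d₂ < 1 := ((min_le_right _ _).trans (min_le_right _ _)).trans_lt (by norm_num)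
  have hpow : 0 < d₂ ^ β := Real.rpow_pos_of_pos hd₂0 _
  refine ⟨β, hβ0, min_le_right _ _, C' + 2 * Cb / d₂ ^ β, by positivity,
    fun t ht s hs p => ?_⟩
  have hd0 : 0 < T - t := sub_pos.2 ht.2
  have hdβ : 0 < (T - t) ^ β := Real.rpow_pos_of_pos hd0 _
  rcases lt_or_ge (T - t) d₂ with h | h
  · refine (hmain t ht h s hs p).trans ?_
    have h1 : (T - t) ^ α ≤ (T - t) ^ β :=
      Real.rpow_le_rpow_of_exponent_ge hd0 (h.le.trans hd₂1.le) (min_le_left _ _)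
    have h2 : C' ≤ C' + 2 * Cb / d₂ ^ β := le_add_of_nonneg_right (by positivity)
    exact mul_le_mul h2 h1 (Real.rpow_nonneg hd0.le _) (by positivity)
  · have h1 := (abs_le.1 (hΦ t ht p)).2
    have h2 := (abs_le.1 (hΦ s ⟨ht.1.trans hs.1, hs.2⟩ p)).1
    have h3 : d₂ ^ β ≤ (T - t) ^ β := Real.rpow_le_rpow hd₂0.le h hβ0.le
    have h4 : 2 * Cb ≤ 2 * Cb / d₂ ^ β * (T - t) ^ β := by
      rw [div_mul_eq_mul_div, le_div_iff₀ hpow]
      gcongr
    have h5 : 0 ≤ C' * (T - t) ^ β := by positivity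
    calc F.Phi t p - F.Phi s p ≤ 2 * Cb := by linarith
      _ ≤ (C' + 2 * Cb / d₂ ^ β) * (T - t) ^ β := by
        rw [add_mul]
        linarith

end

end Pool.Agent.KRFZ
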