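import Pool.Agent.Work.MP_a2bf38_gt.Z.Setup

/-!
# The modules (KRF VI), see note 6328 and the referees' notes 6335, 6341, 6346

Each owner proves his statements in the file named here, importing `Z/Setup.lean` (and the files of
the modules he uses, or private copies of their statements with `sorry` until they are on main).
-/

open scoped ContDiff ENNReal ComplexOrder Topology
open Set MeasureTheory Filter Pool.Agent.ToricKRF Pool.Agent.ToricKRF.G Pool.Agent.KRFS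
  Pool.Agent.KRFF Pool.Agent.KRFG Pool.Agent.KRFE

namespace Pool.Agent.KRFZ

section

variable {n N : ℕ} {M Z : Type} [MetricSpace M] [CompactSpace M] [MetricSpace Z] {κ P : Type}
  [Finite κ] [Finite P] {T : ℝ} (F : Semi n N M Z κ P T)

/-! ## 1. `Z/Reg.lean` (helper26) -/

theorem Semi.U_bound : ∃ C, 0 ≤ C ∧ ∀ t ∈ Ico 0 T, ∀ c x l, nsq x ≤ 16 → 0 ≤ l →
    |F.U t c l x| ≤ C := sorry

theorem Semi.U_anti {t : ℝ} (ht : t ∈ Ico 0 T) {c : κ} {x : Cn n} (hx : nsq x ≤ 16) {l l' : ℝ}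
    (hl : 0 ≤ l) (h : l ≤ l') : F.U t c l' x ≤ F.U t c l x := sorry

/-- Hadamard's three balls theorem (`X/RegHad.lean`) -/
theorem Semi.U_convex {t : ℝ} (ht : t ∈ Ico 0 T) {c : κ} {x : Cn n} (hx : nsq x ≤ 16)
    {l₁ l₂ lam : ℝ} (h₁ : 0 ≤ l₁) (h₂ : l₁ ≤ l₂) (hlam : lam ∈ Icc (0 : ℝ) 1) :
    F.U t c ((1 - lam) * l₁ + lam * l₂) x ≤ (1 - lam) * F.U t c l₁ x + lam * F.U t c l₂ x := sorry

theorem Semi.Phi_le_U {t : ℝ} (ht : t ∈ Ico 0 T) {c : κ} {p : M} (hp : p ∈ (F.e c).source)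
    (hx : nsq (F.e c p) ≤ 16) {l : ℝ} (hl : 0 ≤ l) : F.Phi t p ≤ F.U t c l (F.e c p) := sorry

theorem Semi.U_le_U : ∃ C a, 0 ≤ C ∧ 0 ≤ a ∧ ∀ t ∈ Ico 0 T, ∀ c c' p p' l,
    p ∈ (F.e c).source → p' ∈ (F.e c').source → nsq (F.e c p) ≤ 16 → nsq (F.e c' p') ≤ 16 →
    a ≤ l → dist p p' ≤ Real.exp (-l) →
    F.U t c l (F.e c p) ≤ F.U t c' (l - a) (F.e c' p') + C * Real.exp (-l) := sorry

theorem Semi.Phi_le_U_near : ∃ C a, 0 ≤ C ∧ 0 ≤ a ∧ ∀ t ∈ Ico 0 T, ∀ c p p' l,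
    p ∈ (F.e c).source → nsq (F.e c p) ≤ 16 → a ≤ l → dist p p' ≤ Real.exp (-l) →
    F.Phi t p' ≤ F.U t c (l - a) (F.e c p) + C * Real.exp (-l) := sorry

theorem Semi.U_cont {t : ℝ} (ht : t ∈ Ico 0 T) (c : κ) {l : ℝ} (hl : 0 ≤ l) :
    ContinuousOn (F.U t c l) {x | nsq x ≤ 16} := sorry

/-- along holomorphic discs in the fibres (the form `θ` vanishes there) -/
theorem Semi.U_disc {t : ℝ} (ht : t ∈ Ico 0 T) {c : κ} {l : ℝ} (hl : 0 ≤ l) {z : Z}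
    {g : ℂ → Cn n} {s : ℂ} {r₀ : ℝ} (hr₀ : 0 < r₀) (hg : HolD g (Metric.ball s r₀))
    (hgz : ∀ s' ∈ Metric.ball s r₀, nsq (g s') < 16 ∧ F.f ((F.e c).symm (g s')) = z) {ε : ℝ}
    (hε : 0 < ε) : ∀ᶠ r in 𝓝[>] (0 : ℝ), F.U t c l (g s) ≤
      cavg (fun ζ => F.U t c l (g (s + ζ))) r +
        ((1 - t / T) * lev (F.ψ c) (fderiv ℝ g s 1) (0, g s) + ε) * r ^ 2 := sorry

/-! ## 2. `Z/Log.lean` (helper86) -/

theorem Semi.slope {t : ℝ} (ht : t ∈ Ico 0 T) {z : Z} {l : ℝ} (hl : 0 < l) {c : κ} {p : M}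
    (hp : p ∈ (F.e c).source) (hx : nsq (F.e c p) ≤ 9) (hz : F.f p = z) :
    0 < F.A t z l ∧ F.A t z l ≤ F.G t z c l (F.e c p) ∧ ∀ a, 0 ≤ a → a ≤ l / 2 →
      F.U t c (l - a) (F.e c p) ≤ F.U t c l (F.e c p) + 2 * a / l * F.G t z c l (F.e c p) := sorry

theorem Semi.G_le_G : ∃ C l₀, 0 ≤ C ∧ 1 ≤ l₀ ∧ ∀ t ∈ Ico 0 T, ∀ z l, l₀ ≤ l → ∀ c c' p p',
    p ∈ (F.e c).source → p' ∈ (F.e c').source → nsq (F.e c p) ≤ 9 → nsq (F.e c' p') ≤ 9 →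
    F.f p = z → F.f p' = z → dist p p' ≤ Real.exp (-l) →
    F.G t z c' l (F.e c' p') ≤ (1 + C / l) * F.G t z c l (F.e c p) := sorry

/-- `v = - log G` up to `C / l` -/
theorem Semi.log_trick : ∃ C l₀, 0 < C ∧ 1 ≤ l₀ ∧ ∀ t ∈ Ico 0 T, ∀ z l, l₀ ≤ l → ∃ v : M → ℝ,
    ContinuousOn v (F.f ⁻¹' {z}) ∧
    (∀ c p, p ∈ (F.e c).source → nsq (F.e c p) ≤ 9 → F.f p = z →
      |v p + Real.log (F.G t z c l (F.e c p))| ≤ C / l) ∧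
    (∀ p p', F.f p = z → F.f p' = z → dist p p' ≤ Real.exp (-l) → |v p - v p'| ≤ C / l) ∧
    ∀ (c : κ) (g : ℂ → Cn n) (s : ℂ) (r₀ : ℝ), 0 < r₀ → HolD g (Metric.ball s r₀) →
      (∀ s' ∈ Metric.ball s r₀, g s' ∈ (F.e c).target ∧ F.f ((F.e c).symm (g s')) = z) →
      ∀ ε > 0, ∀ᶠ r in 𝓝[>] (0 : ℝ), v ((F.e c).symm (g s)) ≤
        cavg (fun ζ => v ((F.e c).symm (g (s + ζ)))) r +
          (C / l * lev (F.ψ c) (fderiv ℝ g s 1) (0, g s) + ε) * r ^ 2 := sorry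

end

/-! ## 3. `Z/Curve.lean` (helper46), landed: `curve_gap`, `osc_le` -/

section

variable {n N : ℕ} {M Z : Type} [MetricSpace M] [CompactSpace M] [MetricSpace Z] {κ P : Type}
  [Finite κ] [Finite P] {T : ℝ} (F : Semi n N M Z κ P T)

/-! ## 4. `Z/Harn.lean` (helper61) -/

theorem Semi.harnack : ∃ C l₀, 0 ≤ C ∧ 1 ≤ l₀ ∧ ∀ t ∈ Ico 0 T, ∀ z l, l₀ ≤ l → ∀ c p,
    p ∈ (F.e c).source → nsq (F.e c p) ≤ 9 → F.f p = z →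
    F.G t z c l (F.e c p) ≤ C * F.A t z l := sorry

end

/-! ## 5. `Z/JN.lean` (helper52) -/

theorem jn (n : ℕ) : ∃ C c, 0 < C ∧ 0 < c ∧ ∀ (u : Cn n → ℝ) (V : Set (Cn n)) (x₀ : Cn n)
    (R A p : ℝ), IsOpen V → PshC u V → 0 < R → 0 < A → 0 ≤ p → p * A ≤ c →
    {x | nsq (x - x₀) ≤ R ^ 2} ⊆ V → (∀ x, nsq (x - x₀) ≤ R ^ 2 → u x ≤ u x₀ + A) →
    ∫⁻ x in {x | nsq (x - x₀) ≤ (R / 2) ^ 2}, ENNReal.ofReal (Real.exp (p * (u x₀ - u x))) ≤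
      ENNReal.ofReal (C * R ^ (2 * n)) := sorry

section

variable {n N : ℕ} {M Z : Type} [MetricSpace M] [CompactSpace M] [MeasurableSpace M] [BorelSpace M]
  [MetricSpace Z] {κ P : Type} [Finite κ] [Finite P] {T : ℝ} (F : Semi n N M Z κ P T)
  {μ : Measure M} (hμ : HasDens F.e F.Ω μ)

/-! ## 6. `Z/Tube.lean` (helper52) -/

include hμ in
/-- `x` is any point, `A t (f x₁) l` for the fibres `F_{f x₁}` which pass near `x` -/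
theorem Semi.tube {Λ : ℝ} (hΛ : 1 ≤ Λ) (hloj : LojAt F.f Λ) : ∃ C c₀ l₀, 0 ≤ C ∧ 0 < c₀ ∧
    1 ≤ l₀ ∧ ∀ t ∈ Ico 0 T, ∀ c x l, l₀ ≤ l → x ∈ (F.e c).source → nsq (F.e c x) ≤ 9 →
    ∀ p, 0 ≤ p → (∀ x₁, dist x x₁ ≤ Real.exp (-l) → p * F.A t (F.f x₁) l ≤ c₀ * l) →
    ∫⁻ x' in {x' | dist (F.f x) (F.f x') ≤ Real.exp (-(Λ * l))},
      ENNReal.ofReal (Real.exp (p * (F.U t c l (F.e c x) - F.Phi t x'))) ∂μ ≤
        ENNReal.ofReal (Real.exp (C * l)) := sorry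

/-! ## 7. `Z/Horm.lean` (helper20): Theorem G on `V j` -/

include hμ in
theorem Semi.horm : ∃ C c₀, 0 ≤ C ∧ 0 < c₀ ∧ ∀ t ∈ Ico 0 T, ∀ p, 0 ≤ p → p * (T - t) ≤ c₀ →
    ∀ (j : P) (W : Cn N → ℝ) (χ : M → ℂ) (Q : M → ℝ), ContDiffOn ℝ ∞ W {y | nsq y < 100} →
    (∀ y, nsq y < 100 → ∀ u, 0 ≤ levz W u y) →
    (∀ c, ContDiffOn ℝ ∞ (fun x => χ ((F.e c).symm x)) (F.e c).target) →
    (∃ R < 81, ∀ x, χ x ≠ 0 → F.f x ∈ F.S j ∧ nsq (F.y j x) ≤ R) →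
    Continuous Q → (∀ x, 0 ≤ Q x) →
    (∀ c, ∀ x ∈ (F.e c).target, ∀ u, ‖dbv (fun x => χ ((F.e c).symm x)) u x‖ ^ 2 ≤
      Q ((F.e c).symm x) * lev (F.ψ c) u (0, x)) →
    ∃ h, F.Hol j h ∧
      ∫⁻ x in F.V j, ENNReal.ofReal (‖χ x - h x‖ ^ 2 *
        Real.exp (-(p * F.pK t j x + W (F.y j x)))) ∂μ ≤
      ENNReal.ofReal C * ∫⁻ x in F.V j, ENNReal.ofReal (Q x *
        Real.exp (-(p * F.pK t j x + W (F.y j x)))) ∂μ := sorry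

/-! ## 8. `Z/Peak.lean` (helper53) -/

include hμ in
/-- Peak functions.  The weight is `W = (n + 1) log (|y - F_j(x)|^2 + ε^2)`, `ε = exp (-C' l)`, the
cut-off is at `|y - F_j(x)| = exp (-Λ l) / C'`. -/
theorem Semi.peak : ∃ C c₀ l₀, 0 ≤ C ∧ 0 < c₀ ∧ 1 ≤ l₀ ∧
    ∀ t ∈ Ico 0 T, ∀ c x l, l₀ ≤ l → x ∈ (F.e c).source → nsq (F.e c x) ≤ 9 →
    ∀ p, 0 < p → (∀ x₁, dist x x₁ ≤ Real.exp (-l) → p * F.A t (F.f x₁) l ≤ c₀ * l) →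
    ∀ j, F.f x ∈ F.S j → nsq (F.y j x) ≤ 4 →
    ∃ h, F.Adm μ t p j h ∧ h x ≠ 0 ∧ F.U t c l (F.e c x) - C * l / p ≤ F.val p j h x := sorry

/-! ## 9. `Z/Transfer.lean` (helper51) -/

include hμ in
theorem Semi.transfer : ∃ C c₀, 0 ≤ C ∧ 0 < c₀ ∧ ∀ t ∈ Ico 0 T, ∀ p, 1 ≤ p → p * (T - t) ≤ c₀ →
    ∀ j h x, F.Adm μ t p j h → F.f x ∈ F.S j → nsq (F.y j x) ≤ 9 → h x ≠ 0 →
    ∃ i h', F.Adm μ t p i h' ∧ F.f x ∈ F.S i ∧ nsq (F.y i x) ≤ 1 ∧ h' x ≠ 0 ∧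
      F.val p j h x - C / p ≤ F.val p i h' x := sorry

/-! ## 10. `Z/DomA.lean` (helper89), `Z/DomB.lean` (helper93) -/

/-- a set of pairs `(j, h)` which is closed under the transfer to the middle of the charts, for the
functions `τ val - b |F_j|^2` -/
def Semi.IsFam (τ b p : ℝ) (𝓕 : Set (P × (M → ℂ))) : Prop :=
  (∀ j h, (j, h) ∈ 𝓕 → F.Hol j h) ∧
  ∀ j h x, (j, h) ∈ 𝓕 → F.f x ∈ F.S j → 4 ≤ nsq (F.y j x) → nsq (F.y j x) ≤ 9 → h x ≠ 0 →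
    ∃ i h', (i, h') ∈ 𝓕 ∧ F.f x ∈ F.S i ∧ nsq (F.y i x) ≤ 1 ∧ h' x ≠ 0 ∧
      τ * F.val p j h x - b * nsq (F.y j x) + 2 * b ≤ τ * F.val p i h' x - b * nsq (F.y i x)

/-- `w ≤ φ(s) + B` for all functions of the family -/
def Semi.Below (τ b p : ℝ) (𝓕 : Set (P × (M → ℂ))) (s B : ℝ) : Prop :=
  ∀ j h x, (j, h) ∈ 𝓕 → F.f x ∈ F.S j → nsq (F.y j x) ≤ 9 → h x ≠ 0 →
    τ * F.val p j h x - b * nsq (F.y j x) ≤ F.Phi s x + B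

include hμ in
theorem Semi.adm_bound : ∃ C, 0 ≤ C ∧ ∀ t ∈ Ico 0 T, ∀ p, 1 ≤ p → ∀ j h x,
    F.Adm μ t p j h → F.f x ∈ F.S j → nsq (F.y j x) ≤ 9 → h x ≠ 0 → F.val p j h x ≤ C := sorry

include hμ in
/-- ABP in a small ball around a near-maximum, and Chebyshev -/
theorem Semi.domA : ∃ C, 0 < C ∧ ∀ t ∈ Ico 0 T, ∀ τ b p 𝓕, 1 ≤ p → 0 < b → 1 / 2 ≤ τ →
    τ ≤ t / T - C * b → F.IsFam τ b p 𝓕 → (∀ j h, (j, h) ∈ 𝓕 → F.Adm μ t p j h) →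
    F.Below τ b p 𝓕 t (C * (1 - τ + (1 + |Real.log (T - t)|) / p)) := sorry

omit [MeasurableSpace M] [BorelSpace M] in
/-- the minimum principle -/
theorem Semi.domB : ∃ C, 0 < C ∧ ∀ t ∈ Ico 0 T, ∀ τ b p 𝓕 B, 0 < p → 0 < τ →
    τ ≤ t / T - C * b → C * ((T - t) * (1 + |Real.log (T - t)|)) ≤ b → F.IsFam τ b p 𝓕 →
    F.Below τ b p 𝓕 t B → ∀ s ∈ Ico t T,
    F.Below τ b p 𝓕 s (B + C * ((T - t) * (1 + |Real.log (T - t)|))) := sorry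

include hμ in
/-- `Z/Dom.lean` (helper93), from the previous ones -/
theorem Semi.dom : ∃ C c₀ d₀, 0 ≤ C ∧ 0 < c₀ ∧ 0 < d₀ ∧ ∀ t ∈ Ico 0 T, T - t ≤ d₀ → ∀ p,
    C * (1 + |Real.log (T - t)|) ≤ p → p * (T - t) ≤ c₀ → ∀ j h x, F.Adm μ t p j h →
    F.f x ∈ F.S j → nsq (F.y j x) ≤ 9 → h x ≠ 0 → ∀ s ∈ Ico t T,
    F.val p j h x ≤ F.Phi s x + C * (1 + |Real.log (T - t)|) / p := sorry

end

section

variable {n N : ℕ} {M Z : Type} [MetricSpace M] [CompactSpace M] [MetricSpace Z] {κ P : Type}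
  [Finite κ] [Finite P] {T : ℝ} (F : Semi n N M Z κ P T)

/-! ## 11. `Z/Rec.lean` (helper78)

`Bd l B`: for all `x, x', x''` with `f x = f x''`, `dist x' x'' ≤ exp (-l - 2)`: `U l x ≤ φ(s) x' + B`.
Claim: `Bd (l/2) B → Bd l (κ B + C (d l + exp (-l/2)))` for `C (1 + |log d|) ≤ l`, `κ < 1`.  Let
`X = mm (f x) l - φ(s) x'`, `z = f x`.  (1) `A z l ≤ B - X + err` (`mm z (l/2) ≤ φ(s) x' + B`).
(2) For `x₁` with `dist x' x₁ ≤ exp (-l)`, `z₁ = f x₁`: `mm z₁ (l/2) ≤ φ(s) x' + B`, and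
`mm z₁ l ≥ U l x₁ ≥ U l x'' - (C/l) A z₁ l - C exp (-l) ≥ mm z l - C A z l - (C/l) A z₁ l - C exp (-l)`
by `harnack` on the fibre over `z`; so `A z₁ l ≤ 2 (1 + C) (B - X) + err =: A*`.  (3) `peak` at `x'`
with `p = c₀ l / A*`, then `dom`: `U l x' - φ(s) x' ≤ C l / p + C (1 + |log d|) / p ≤ C A*`.
(4) `mm z l ≤ U l x'' + C A z l ≤ U l x' + C A* + err`.  So `X ≤ C (B - X) + err`. -/

theorem Semi.drop : ∃ a, 0 < a ∧ a ≤ 1 ∧ F.toFlow.Drop a := sorry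

end

end Pool.Agent.KRFZ
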