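import Pool.Agent.Work.MP_a2bf38_gt.Z.Const
import Pool.Agent.Work.MP_a2bf38_gt.Z.Const2
import Pool.Agent.Work.MP_a2bf38_gt.Z.HolMean
import Pool.Agent.Work.MP_a2bf38_gt.Z.PoleW
import Pool.Agent.Work.MP_a2bf38_gt.K.Fib

/-!
# The differences of the local potentials on balls of uniform radius
-/

open scoped ContDiff ENNReal ComplexOrder Topology
open Set MeasureTheory Filter Pool.Agent.ToricKRF Pool.Agent.ToricKRF.G Pool.Agent.KRFS
  Pool.Agent.KRFF Pool.Agent.KRFG Pool.Agent.KRFE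

namespace Pool.Agent.KRFZ

open ZC

section

variable {n N : ℕ} {M Z : Type} [MetricSpace M] [CompactSpace M] [MetricSpace Z] {κ P : Type}
  [Finite κ] [Finite P] {T : ℝ} (F : Semi n N M Z κ P T)

omit [CompactSpace M] [Finite κ] [Finite P] in
theorem HolC_mono {h : Cn n → ℂ} {S S' : Set (Cn n)} (hh : NF.HolC h S) (hs : S' ⊆ S) :
    NF.HolC h S' := ⟨hh.1.mono hs, fun z hz u => hh.2 z (hs hz) u⟩

omit [CompactSpace M] [Finite κ] [Finite P] in
theorem nsq_two_le {a b : Cn N} {r : ℝ} (hr : 0 ≤ r) (ha : nsq a ≤ 1) (hab : nsq (b - a) ≤ r ^ 2) :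
    nsq b ≤ (1 + r) ^ 2 := by
  have h1 := nsq_add_le (a := a) (b := b - a) zero_le_one hr (by simpa using ha) hab
  simpa using h1

/-- the domain of the functions `G` -/
def Semi.domG (c : κ) (i : P) (a : Cn N) (r : ℝ) : Set (Cn n) :=
  {x | x ∈ (F.e c).target ∧ F.f ((F.e c).symm x) ∈ F.S i ∧
    nsq (F.y i ((F.e c).symm x) - a) < r ^ 2}

omit [CompactSpace M] [Finite κ] [Finite P] in
theorem Semi.isOpen_domG (c : κ) (i : P) (a : Cn N) (r : ℝ) : IsOpen (F.domG c i a r) := by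
  have h1 : ContinuousOn (fun x => nsq (F.y i ((F.e c).symm x) - a)) (F.domF c i) :=
    KRFH.BallM.continuous_nsq.comp_continuousOn
      ((F.hol_y c i).1.continuousOn.sub continuousOn_const)
  have h2 := h1.isOpen_inter_preimage (F.isOpen_domF c i) (isOpen_Iio (a := r ^ 2))
  convert h2 using 1
  ext x
  simp only [Semi.domG, Semi.domF, mem_ofPred_eq, mem_inter_iff, mem_preimage, mem_Iio]
  tauto

/-- The differences of the local potentials are real parts of holomorphic functions on balls of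
uniform radius. -/
theorem Semi.exists_G : ∃ r, 0 < r ∧ r ≤ 1 ∧ ∀ i j z, z ∈ F.S i → nsq (F.q i z) ≤ 1 →
    z ∈ F.S j → nsq (F.q j z) ≤ 9 → ∃ G : Z → ℂ,
      (∀ z' ∈ F.S i, nsq (F.q i z' - F.q i z) ≤ r ^ 2 → z' ∈ F.S j ∧ nsq (F.q j z') < 81 ∧
        F.K i (F.q i z') - F.K j (F.q j z') = (G z').re) ∧
      ∀ c, NF.HolC (fun x => G (F.f ((F.e c).symm x))) (F.domG c i (F.q i z) r) := by
  obtain ⟨C, hC, hdist⟩ := F.dist_Z
  obtain ⟨δ', hδ', hnear⟩ := F.near_Z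
  -- the Lebesgue number for each pair
  have key : ∀ ij : P × P, ∃ δ, 0 < δ ∧ ∀ z, z ∈ F.S ij.1 → nsq (F.q ij.1 z) ≤ 1 →
      z ∈ F.S ij.2 → nsq (F.q ij.2 z) ≤ 9 → ∃ (U : Set Z) (G : Z → ℂ), Metric.ball z δ ⊆ U ∧
        U ⊆ F.S ij.1 ∩ F.S ij.2 ∧
        (∀ c, NF.HolC (fun x => G (F.f ((F.e c).symm x)))
          {x | x ∈ (F.e c).target ∧ F.f ((F.e c).symm x) ∈ U}) ∧
        ∀ z' ∈ U, F.K ij.1 (F.q ij.1 z') - F.K ij.2 (F.q ij.2 z') = (G z').re := by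
    rintro ⟨i, j⟩
    set A : Set Z := {z | z ∈ F.S i ∧ nsq (F.q i z) ≤ 1} ∩ {z | z ∈ F.S j ∧ nsq (F.q j z) ≤ 9}
      with hA
    have hAc : IsCompact A := (F.emb.compact i 1 (by norm_num)).inter
      (F.emb.compact j 9 (by norm_num))
    have h1 : ∀ z : A, ∃ (U : Set Z) (G : Z → ℂ), IsOpen U ∧ (z : Z) ∈ U ∧
        U ⊆ F.S i ∩ F.S j ∧
        (∀ c, NF.HolC (fun x => G (F.f ((F.e c).symm x)))
          {x | x ∈ (F.e c).target ∧ F.f ((F.e c).symm x) ∈ U}) ∧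
        ∀ z' ∈ U, F.K i (F.q i z') - F.K j (F.q j z') = (G z').re := fun z =>
      F.pull.compat i j z z.2.1.1 z.2.2.1
    choose U G hU hzU hUS hGhol hG using h1
    obtain ⟨δ, hδ, hleb⟩ := lebesgue_number_lemma_of_metric hAc hU
      (fun z hz => mem_iUnion.2 ⟨⟨z, hz⟩, hzU ⟨z, hz⟩⟩)
    refine ⟨δ, hδ, fun z hzi hqi hzj hqj => ?_⟩
    obtain ⟨w, hw⟩ := hleb z ⟨⟨hzi, hqi⟩, ⟨hzj, hqj⟩⟩
    exact ⟨U w, G w, hw, hUS w, hGhol w, hG w⟩
  obtain ⟨δ, hδ, hall⟩ := exists_unif' (ι := P × P) (p := fun ij δ => ∀ z, z ∈ F.S ij.1 →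
      nsq (F.q ij.1 z) ≤ 1 → z ∈ F.S ij.2 → nsq (F.q ij.2 z) ≤ 9 →
      ∃ (U : Set Z) (G : Z → ℂ), Metric.ball z δ ⊆ U ∧
        U ⊆ F.S ij.1 ∩ F.S ij.2 ∧
        (∀ c, NF.HolC (fun x => G (F.f ((F.e c).symm x)))
          {x | x ∈ (F.e c).target ∧ F.f ((F.e c).symm x) ∈ U}) ∧
        ∀ z' ∈ U, F.K ij.1 (F.q ij.1 z') - F.K ij.2 (F.q ij.2 z') = (G z').re)
    (fun ij a b hab h z h1 h2 h3 h4 => by
      obtain ⟨U, G, hb, h5⟩ := h z h1 h2 h3 h4
      exact ⟨U, G, (Metric.ball_subset_ball hab).trans hb, h5⟩) key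
  set r : ℝ := min 1 (min δ δ' / (2 * C)) with hr
  have hm : 0 < min δ δ' := lt_min hδ hδ'
  have hr0 : 0 < r := lt_min one_pos (by positivity)
  have hCr : C * r < min δ δ' := by
    have h1 : r ≤ min δ δ' / (2 * C) := min_le_right _ _
    have h2 : C * r ≤ C * (min δ δ' / (2 * C)) := mul_le_mul_of_nonneg_left h1 hC.le
    have h3 : C * (min δ δ' / (2 * C)) = min δ δ' / 2 := by
      field_simp
    linarith
  refine ⟨r, hr0, min_le_left _ _, fun i j z hzi hqi hzj hqj => ?_⟩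
  obtain ⟨U, G, hb, hUS, hhol, hG⟩ := hall (i, j) z hzi hqi hzj hqj
  have hd : ∀ z' ∈ F.S i, nsq (F.q i z' - F.q i z) ≤ r ^ 2 → dist z z' < min δ δ' := by
    intro z' hz' hle
    have h1 : nsq (F.q i z') ≤ 81 := by
      have h2 := nsq_two_le hr0.le hqi hle
      have h3 : r ≤ 1 := min_le_left _ _
      nlinarith
    have h2 := (hdist i z z' hzi hz' (hqi.trans (by norm_num)) h1).1
    have h3 : √(nsq (F.q i z - F.q i z')) ≤ r := by
      rw [nsq_sub_comm]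
      exact (Real.sqrt_le_sqrt hle).trans (by rw [Real.sqrt_sq hr0.le])
    have h4 : C * √(nsq (F.q i z - F.q i z')) ≤ C * r := mul_le_mul_of_nonneg_left h3 hC.le
    linarith
  have hmemU : ∀ z' ∈ F.S i, nsq (F.q i z' - F.q i z) ≤ r ^ 2 → z' ∈ U := by
    intro z' hz' hle
    refine hb ?_
    rw [Metric.mem_ball, dist_comm]
    exact (hd z' hz' hle).trans_le (min_le_left _ _)
  refine ⟨G, fun z' hz' hle => ?_, fun c => ?_⟩
  · have hzU := hmemU z' hz' hle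
    refine ⟨(hUS hzU).2, ?_, hG z' hzU⟩
    have h1 := hnear j z z' 3 hzj (by norm_num) (by norm_num) (by linarith)
      ((hd z' hz' hle).le.trans (min_le_right _ _))
    have h2 := h1.2
    norm_num at h2
    linarith
  · refine HolC_mono (hhol c) ?_
    rintro x ⟨hx, hxS, hxr⟩
    exact ⟨hx, hmemU _ hxS hxr.le⟩

end

end Pool.Agent.KRFZ
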