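import Pool.Agent.Work.MP_a2bf38_gt.Z.TransferA
import Pool.Agent.Work.MP_a2bf38_gt.Z.HormDens

/-!
# Transfer: the norm of the solution
-/

open scoped ContDiff ENNReal ComplexOrder Topology
open Set MeasureTheory Filter Pool.Agent.ToricKRF Pool.Agent.ToricKRF.G Pool.Agent.KRFS
  Pool.Agent.KRFF Pool.Agent.KRFG Pool.Agent.KRFE

namespace Pool.Agent.KRFZ

open ZC

section

variable {n N : ℕ} {M Z : Type} [MetricSpace M] [MetricSpace Z] {κ P : Type} {T : ℝ}
  (F : Semi n N M Z κ P T)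

theorem Semi.continuousOn_y (j : P) : ContinuousOn (F.y j) {p | F.f p ∈ F.S j} :=
  (F.emb.qcont j).comp F.emb.cont.continuousOn fun _ hp => hp

theorem Semi.isOpen_fS (j : P) : IsOpen {p | F.f p ∈ F.S j} :=
  (F.emb.isOpen j).preimage F.emb.cont

theorem Semi.isOpen_V (j : P) : IsOpen (F.V j) := by
  have h1 : ContinuousOn (fun p => nsq (F.y j p)) {p | F.f p ∈ F.S j} :=
    KRFH.BallM.continuous_nsq.comp_continuousOn (F.continuousOn_y j)
  exact h1.isOpen_inter_preimage (F.isOpen_fS j) (isOpen_Iio (a := (81 : ℝ)))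

/-- the points over the open ball of radius `r` -/
def Semi.B (i : P) (a : Cn N) (r : ℝ) : Set M := {p | F.f p ∈ F.S i ∧ nsq (F.y i p - a) < r ^ 2}

theorem Semi.isOpen_B (i : P) (a : Cn N) (r : ℝ) : IsOpen (F.B i a r) := by
  have h1 : ContinuousOn (fun p => nsq (F.y i p - a)) {p | F.f p ∈ F.S i} :=
    KRFH.BallM.continuous_nsq.comp_continuousOn ((F.continuousOn_y i).sub continuousOn_const)
  exact h1.isOpen_inter_preimage (F.isOpen_fS i) (isOpen_Iio (a := r ^ 2))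

theorem Semi.Phi_cont {t : ℝ} (ht : t ∈ Ico 0 T) : Continuous (F.Phi t) :=
  F.Phi_continuousOn.comp_continuous (Continuous.prodMk_right t) fun p => ⟨ht, mem_univ p⟩

theorem Semi.continuousOn_pK {t : ℝ} (ht : t ∈ Ico 0 T) (j : P) :
    ContinuousOn (F.pK t j) (F.V j) := by
  refine (F.Phi_cont ht).continuousOn.add ?_
  have h1 : ContinuousOn (F.K j) {y | nsq y < 100} := (F.pull.smooth j).continuousOn
  refine h1.comp ((F.continuousOn_y j).mono fun p hp => hp.1) fun p hp => ?_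
  exact hp.2.trans (by norm_num)

/-- a function which is continuous in the charts is continuous -/
theorem Semi.continuousOn_of_charts {A : Type*} [TopologicalSpace A] {h : M → A} {O : Set M}
    (hO : IsOpen O)
    (hh : ∀ c, ContinuousOn (fun x => h ((F.e c).symm x))
      {x | x ∈ (F.e c).target ∧ (F.e c).symm x ∈ O}) : ContinuousOn h O := by
  intro p hp
  obtain ⟨c, hc, -⟩ := F.cover p
  have hS : IsOpen {x | x ∈ (F.e c).target ∧ (F.e c).symm x ∈ O} :=
    (F.e c).symm.isOpen_inter_preimage hO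
  have hx : F.e c p ∈ {x | x ∈ (F.e c).target ∧ (F.e c).symm x ∈ O} :=
    ⟨(F.e c).map_source hc, by rwa [(F.e c).left_inv hc]⟩
  have h1 : ContinuousAt (fun x => h ((F.e c).symm x)) (F.e c p) :=
    (hh c).continuousAt (hS.mem_nhds hx)
  have h2 : ContinuousAt (fun q => h ((F.e c).symm (F.e c q))) p :=
    ContinuousAt.comp (g := fun x => h ((F.e c).symm x)) (f := F.e c) h1
      ((F.e c).continuousAt hc)
  refine (h2.congr ?_).continuousWithinAt
  filter_upwards [(F.e c).open_source.mem_nhds hc] with q hq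
  rw [(F.e c).left_inv hq]

theorem Semi.Hol.continuousOn {j : P} {h : M → ℂ} (hh : F.Hol j h) : ContinuousOn h (F.V j) :=
  F.continuousOn_of_charts (F.isOpen_V j) fun c => (hh c).1.continuousOn

theorem Semi.V_nsq {i : P} {a : Cn N} (ha : nsq a ≤ 1) {p : M} (hp : p ∈ F.V i) :
    nsq (F.y i p - a) ≤ 100 := by
  have h1 : nsq (F.y i p) ≤ 9 ^ 2 := by
    have := hp.2
    norm_num
    linarith
  have h2 : nsq (-a) ≤ 1 ^ 2 := by
    have h3 : nsq (-a) = nsq a := by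
      simp [nsq]
    rw [h3]
    linarith
  have h3 := nsq_add_le (by norm_num : (0 : ℝ) ≤ 9) zero_le_one h1 h2
  rw [← sub_eq_add_neg] at h3
  norm_num at h3
  linarith

variable [MeasurableSpace M] [BorelSpace M] {μ : Measure M}

/-- The norm of the solution. -/
theorem Semi.norm_sol {t p : ℝ} (ht : t ∈ Ico 0 T) {i j : P} {h : M → ℂ}
    (hadm : F.Adm μ t p j h) {a : Cn N} (ha : nsq a ≤ 1) {r ε : ℝ} (hε : 0 < ε) (hε1 : ε ≤ 1)
    {G : Z → ℂ} (hG : ∀ p', p' ∈ F.B i a r → p' ∈ F.V j ∧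
      F.K i (F.y i p') - F.K j (F.y j p') = (G (F.f p')).re)
    {χ : M → ℝ} {h₁ : M → ℂ} (hχ : ∀ x, 0 ≤ χ x ∧ χ x ≤ 1) (hχ0 : ∀ x, χ x ≠ 0 → x ∈ F.B i a r)
    {I₀ : ℝ} (hI₀ : 0 ≤ I₀)
    (hint : ∫⁻ x in F.V i, ENNReal.ofReal (‖(χ x : ℂ) * (h x *
      Complex.exp ((p : ℂ) * G (F.f x) / 2)) - h₁ x‖ ^ 2 *
      Real.exp (-(p * F.pK t i x + (n + 1) * Pole.W0 a ε (F.y i x)))) ∂μ ≤ ENNReal.ofReal I₀) :
    ∫⁻ x in F.V i, ENNReal.ofReal (‖h₁ x‖ ^ 2 * Real.exp (-(p * F.pK t i x))) ∂μ ≤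
      ENNReal.ofReal (2 * 101 ^ (n + 1) * I₀ + 2) := by
  set Bs : Set M := F.B i a r with hBs
  set H : M → ℂ := fun x => h x * Complex.exp ((p : ℂ) * G (F.f x) / 2) with hH
  -- the norm of `H`
  have hHn : ∀ x ∈ Bs, ‖H x‖ ^ 2 * Real.exp (-(p * F.pK t i x)) =
      ‖h x‖ ^ 2 * Real.exp (-(p * F.pK t j x)) := by
    intro x hx
    have h1 := (hG x hx).2
    have h2 : ‖Complex.exp ((p : ℂ) * G (F.f x) / 2)‖ ^ 2 = Real.exp (p * (G (F.f x)).re) := by
      rw [Complex.norm_exp, ← Real.exp_nat_mul]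
      congr 1
      have h3 : ((p : ℂ) * G (F.f x) / 2).re = p * (G (F.f x)).re / 2 := by
        rw [show (p : ℂ) * G (F.f x) / 2 = ((p / 2 : ℝ) : ℂ) * G (F.f x) by push_cast; ring,
          Complex.re_ofReal_mul]
        ring
      rw [h3]
      push_cast
      ring
    rw [hH]
    simp only
    rw [norm_mul, mul_pow, h2, mul_assoc, ← Real.exp_add]
    congr 2
    rw [← h1]
    simp only [Semi.pK]
    ring
  -- the pointwise bound
  set f₁ : M → ℝ≥0∞ := fun x => ENNReal.ofReal (2 * 101 ^ (n + 1)) *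
    ENNReal.ofReal (‖(χ x : ℂ) * H x - h₁ x‖ ^ 2 *
      Real.exp (-(p * F.pK t i x + (n + 1) * Pole.W0 a ε (F.y i x)))) with hf₁
  set f₂ : M → ℝ≥0∞ := Bs.indicator fun x => ENNReal.ofReal 2 *
    ENNReal.ofReal (‖h x‖ ^ 2 * Real.exp (-(p * F.pK t j x))) with hf₂
  have hpt : ∀ x ∈ F.V i, ENNReal.ofReal (‖h₁ x‖ ^ 2 * Real.exp (-(p * F.pK t i x))) ≤
      f₁ x + f₂ x := by
    intro x hx
    have h1 : ‖h₁ x‖ ^ 2 ≤ 2 * ‖(χ x : ℂ) * H x - h₁ x‖ ^ 2 + 2 * ‖(χ x : ℂ) * H x‖ ^ 2 := by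
      have h2 : ‖h₁ x‖ ≤ ‖(χ x : ℂ) * H x - h₁ x‖ + ‖(χ x : ℂ) * H x‖ := by
        have h3 := norm_sub_norm_le (h₁ x) ((χ x : ℂ) * H x)
        rw [norm_sub_rev] at h3
        linarith
      nlinarith [sq_nonneg (‖(χ x : ℂ) * H x - h₁ x‖ - ‖(χ x : ℂ) * H x‖), norm_nonneg (h₁ x)]
    have hq : nsq (F.y i x - a) + ε ^ 2 ≤ 101 := by
      have h2 := F.V_nsq ha hx
      nlinarith
    have hq0 : 0 < nsq (F.y i x - a) + ε ^ 2 := HM.pos_pole a hε.ne' _
    have hq1 : Real.exp (-(p * F.pK t i x)) ≤ 101 ^ (n + 1) *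
        Real.exp (-(p * F.pK t i x + (n + 1) * Pole.W0 a ε (F.y i x))) := by
      have h2 : Real.exp ((n + 1) * Pole.W0 a ε (F.y i x)) ≤ 101 ^ (n + 1) := by
        rw [show ((n : ℝ) + 1) = ((n + 1 : ℕ) : ℝ) by push_cast; ring, Real.exp_nat_mul]
        unfold Pole.W0
        rw [Real.exp_log hq0]
        exact pow_le_pow_left₀ hq0.le hq _
      calc Real.exp (-(p * F.pK t i x)) = Real.exp ((n + 1) * Pole.W0 a ε (F.y i x)) *
            Real.exp (-(p * F.pK t i x + (n + 1) * Pole.W0 a ε (F.y i x))) := by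
            rw [← Real.exp_add]
            congr 1
            ring
        _ ≤ _ := mul_le_mul_of_nonneg_right h2 (Real.exp_pos _).le
    have h5 : ENNReal.ofReal (2 * ‖(χ x : ℂ) * H x‖ ^ 2 * Real.exp (-(p * F.pK t i x))) ≤
        f₂ x := by
      by_cases hx0 : χ x = 0
      · rw [hx0]
        simp
      · have hxB := hχ0 x hx0
        rw [hf₂, indicator_of_mem hxB, ← ENNReal.ofReal_mul zero_le_two, ← hHn x hxB]
        refine ENNReal.ofReal_le_ofReal ?_
        rw [norm_mul, mul_pow, Complex.norm_real, Real.norm_eq_abs, sq_abs]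
        have h6 : χ x ^ 2 ≤ 1 := by
          have h7 := hχ x
          nlinarith [h7.1, h7.2]
        have h8 : 0 ≤ ‖H x‖ ^ 2 * Real.exp (-(p * F.pK t i x)) := by positivity
        nlinarith
    calc ENNReal.ofReal (‖h₁ x‖ ^ 2 * Real.exp (-(p * F.pK t i x))) ≤
        ENNReal.ofReal (2 * 101 ^ (n + 1) * (‖(χ x : ℂ) * H x - h₁ x‖ ^ 2 *
          Real.exp (-(p * F.pK t i x + (n + 1) * Pole.W0 a ε (F.y i x)))) +
          2 * ‖(χ x : ℂ) * H x‖ ^ 2 * Real.exp (-(p * F.pK t i x))) := by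
          refine ENNReal.ofReal_le_ofReal ?_
          have h6 : 0 ≤ ‖(χ x : ℂ) * H x - h₁ x‖ ^ 2 := by positivity
          calc ‖h₁ x‖ ^ 2 * Real.exp (-(p * F.pK t i x)) ≤
              (2 * ‖(χ x : ℂ) * H x - h₁ x‖ ^ 2 + 2 * ‖(χ x : ℂ) * H x‖ ^ 2) *
                Real.exp (-(p * F.pK t i x)) :=
                mul_le_mul_of_nonneg_right h1 (Real.exp_pos _).le
            _ = 2 * ‖(χ x : ℂ) * H x - h₁ x‖ ^ 2 * Real.exp (-(p * F.pK t i x)) +
                2 * ‖(χ x : ℂ) * H x‖ ^ 2 * Real.exp (-(p * F.pK t i x)) := by ring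
            _ ≤ 2 * ‖(χ x : ℂ) * H x - h₁ x‖ ^ 2 * (101 ^ (n + 1) *
                Real.exp (-(p * F.pK t i x + (n + 1) * Pole.W0 a ε (F.y i x)))) +
                2 * ‖(χ x : ℂ) * H x‖ ^ 2 * Real.exp (-(p * F.pK t i x)) := by gcongr
            _ = _ := by ring
      _ = f₁ x + ENNReal.ofReal (2 * ‖(χ x : ℂ) * H x‖ ^ 2 * Real.exp (-(p * F.pK t i x))) := by
          rw [ENNReal.ofReal_add (by positivity) (by positivity), hf₁]
          simp only
          rw [← ENNReal.ofReal_mul (by positivity)]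
      _ ≤ f₁ x + f₂ x := add_le_add le_rfl h5
  have hVm : MeasurableSet (F.V i) := (F.isOpen_V i).measurableSet
  have hBm : MeasurableSet Bs := (F.isOpen_B i a r).measurableSet
  have hBV : Bs ⊆ F.V j := fun x hx => (hG x hx).1
  have hcont : ContinuousOn (fun x => ‖h x‖ ^ 2 * Real.exp (-(p * F.pK t j x))) (F.V j) :=
    (hadm.1.continuousOn.norm.pow 2).mul
      ((F.continuousOn_pK ht j).const_mul p).neg.rexp
  have hf₂m : AEMeasurable f₂ (μ.restrict (F.V i)) := by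
    rw [hf₂, aemeasurable_indicator_iff hBm]
    refine AEMeasurable.const_mul ?_ _
    refine ENNReal.measurable_ofReal.comp_aemeasurable ?_
    have h1 : AEMeasurable (fun x => ‖h x‖ ^ 2 * Real.exp (-(p * F.pK t j x)))
        (μ.restrict Bs) := (hcont.mono hBV).aemeasurable hBm
    exact h1.mono_measure (Measure.restrict_mono_measure Measure.restrict_le_self _)
  have hf₂i : ∫⁻ x in F.V i, f₂ x ∂μ ≤ ENNReal.ofReal 2 := by
    rw [hf₂, lintegral_indicator hBm, lintegral_const_mul' _ _ ENNReal.ofReal_ne_top]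
    calc ENNReal.ofReal 2 * ∫⁻ x, ENNReal.ofReal (‖h x‖ ^ 2 * Real.exp (-(p * F.pK t j x)))
          ∂(μ.restrict (F.V i)).restrict Bs
        ≤ ENNReal.ofReal 2 * ∫⁻ x in F.V j,
          ENNReal.ofReal (‖h x‖ ^ 2 * Real.exp (-(p * F.pK t j x))) ∂μ := by
          refine mul_le_mul_right (lintegral_mono' ?_ le_rfl) _
          exact (Measure.restrict_mono_measure Measure.restrict_le_self _).trans
            (Measure.restrict_mono hBV le_rfl)
      _ ≤ ENNReal.ofReal 2 * 1 := mul_le_mul_right hadm.2 _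
      _ = ENNReal.ofReal 2 := mul_one _
  calc ∫⁻ x in F.V i, ENNReal.ofReal (‖h₁ x‖ ^ 2 * Real.exp (-(p * F.pK t i x))) ∂μ
      ≤ ∫⁻ x in F.V i, (f₁ x + f₂ x) ∂μ := setLIntegral_mono' hVm hpt
    _ = (∫⁻ x in F.V i, f₁ x ∂μ) + ∫⁻ x in F.V i, f₂ x ∂μ := lintegral_add_right' _ hf₂m
    _ ≤ ENNReal.ofReal (2 * 101 ^ (n + 1)) * ENNReal.ofReal I₀ + ENNReal.ofReal 2 := by
        refine add_le_add ?_ hf₂i
        rw [hf₁, lintegral_const_mul' _ _ ENNReal.ofReal_ne_top]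
        exact mul_le_mul_right hint _
    _ = ENNReal.ofReal (2 * 101 ^ (n + 1) * I₀ + 2) := by
        rw [← ENNReal.ofReal_mul (by positivity), ← ENNReal.ofReal_add (by positivity)
          (by norm_num)]

end

end Pool.Agent.KRFZ
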