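import Pool.Agent.Work.MP_a2bf38_gt.Z.TransferB

/-!
# Transfer: the integral over the shell, and the value at the centre
-/

open scoped ContDiff ENNReal ComplexOrder Topology
open Set MeasureTheory Filter Pool.Agent.ToricKRF Pool.Agent.ToricKRF.G Pool.Agent.KRFS
  Pool.Agent.KRFF Pool.Agent.KRFG Pool.Agent.KRFE

namespace Pool.Agent.KRFZ

open ZC

section

variable {n N : ℕ} {M Z : Type} [MetricSpace M] [MetricSpace Z] {κ P : Type} {T : ℝ}
  (F : Semi n N M Z κ P T)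

theorem Semi.norm_H {t p : ℝ} {i j : P} {h : M → ℂ} {G : Z → ℂ} {x : M}
    (hG : F.K i (F.y i x) - F.K j (F.y j x) = (G (F.f x)).re) :
    ‖h x * Complex.exp ((p : ℂ) * G (F.f x) / 2)‖ ^ 2 * Real.exp (-(p * F.pK t i x)) =
      ‖h x‖ ^ 2 * Real.exp (-(p * F.pK t j x)) := by
  have h2 : ‖Complex.exp ((p : ℂ) * G (F.f x) / 2)‖ ^ 2 = Real.exp (p * (G (F.f x)).re) := by
    rw [Complex.norm_exp, ← Real.exp_nat_mul]
    congr 1
    have h3 : ((p : ℂ) * G (F.f x) / 2).re = p * (G (F.f x)).re / 2 := by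
      rw [show (p : ℂ) * G (F.f x) / 2 = ((p / 2 : ℝ) : ℂ) * G (F.f x) by push_cast; ring,
        Complex.re_ofReal_mul]
      ring
    rw [h3]
    push_cast
    ring
  rw [norm_mul, mul_pow, h2, mul_assoc, ← Real.exp_add]
  congr 2
  rw [← hG]
  simp only [Semi.pK]
  ring

/-- the shell -/
def Semi.Sh (i : P) (a : Cn N) (r : ℝ) : Set M :=
  {x | x ∈ F.V i ∧ r ^ 2 / 4 ≤ nsq (F.y i x - a) ∧ nsq (F.y i x - a) ≤ r ^ 2}

theorem Semi.measurableSet_Sh [MeasurableSpace M] [BorelSpace M] (i : P) (a : Cn N) (r : ℝ) :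
    MeasurableSet (F.Sh i a r) := by
  have h1 : ContinuousOn (fun p => nsq (F.y i p - a)) (F.V i) :=
    (KRFH.BallM.continuous_nsq.comp_continuousOn
      ((F.continuousOn_y i).sub continuousOn_const)).mono fun p hp => hp.1
  have h2 : F.Sh i a r = F.V i \ ((F.V i ∩ (fun p => nsq (F.y i p - a)) ⁻¹' Iio (r ^ 2 / 4)) ∪
      (F.V i ∩ (fun p => nsq (F.y i p - a)) ⁻¹' Ioi (r ^ 2))) := by
    ext x
    simp only [Semi.Sh, mem_ofPred_eq, Set.mem_sdiff, mem_union, mem_inter_iff, mem_preimage, mem_Iio,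
      mem_Ioi, not_or, not_and, not_lt]
    constructor
    · rintro ⟨h3, h4, h5⟩
      exact ⟨h3, fun _ => h4, fun _ => h5⟩
    · rintro ⟨h3, h4, h5⟩
      exact ⟨h3, h4 h3, h5 h3⟩
  rw [h2]
  exact (F.isOpen_V i).measurableSet.diff
    ((h1.isOpen_inter_preimage (F.isOpen_V i) isOpen_Iio).measurableSet.union
      (h1.isOpen_inter_preimage (F.isOpen_V i) isOpen_Ioi).measurableSet)

variable [MeasurableSpace M] [BorelSpace M] {μ : Measure M}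

/-- The integral over the shell. -/
theorem Semi.shell_bound {t p : ℝ} {i j : P} {h : M → ℂ}
    (hadm : F.Adm μ t p j h) {a : Cn N} {r ε : ℝ} (hr : 0 < r) (hε : 0 < ε)
    {G : Z → ℂ} (hG : ∀ p', F.f p' ∈ F.S i → nsq (F.y i p' - a) ≤ r ^ 2 → p' ∈ F.V j ∧
      F.K i (F.y i p') - F.K j (F.y j p') = (G (F.f p')).re) :
    ∫⁻ x in F.Sh i a r, ENNReal.ofReal (‖h x * Complex.exp ((p : ℂ) * G (F.f x) / 2)‖ ^ 2 *
      Real.exp (-(p * F.pK t i x + (n + 1) * Pole.W0 a ε (F.y i x)))) ∂μ ≤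
      ENNReal.ofReal ((4 / r ^ 2) ^ (n + 1)) := by
  have hr2 : 0 < r ^ 2 / 4 := by positivity
  have hSV : F.Sh i a r ⊆ F.V j := fun x hx => (hG x hx.1.1 hx.2.2).1
  calc ∫⁻ x in F.Sh i a r, ENNReal.ofReal (‖h x * Complex.exp ((p : ℂ) * G (F.f x) / 2)‖ ^ 2 *
        Real.exp (-(p * F.pK t i x + (n + 1) * Pole.W0 a ε (F.y i x)))) ∂μ ≤
      ∫⁻ x in F.Sh i a r, ENNReal.ofReal ((4 / r ^ 2) ^ (n + 1)) *
        ENNReal.ofReal (‖h x‖ ^ 2 * Real.exp (-(p * F.pK t j x))) ∂μ := by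
        refine setLIntegral_mono' (F.measurableSet_Sh i a r) fun x hx => ?_
        rw [← ENNReal.ofReal_mul (by positivity)]
        refine ENNReal.ofReal_le_ofReal ?_
        rw [← F.norm_H (hG x hx.1.1 hx.2.2).2]
        have hq : r ^ 2 / 4 ≤ nsq (F.y i x - a) + ε ^ 2 := by
          have := hx.2.1
          nlinarith [sq_nonneg ε]
        have hq0 : 0 < nsq (F.y i x - a) + ε ^ 2 := HM.pos_pole a hε.ne' _
        have h3 : Real.exp (-((n + 1) * Pole.W0 a ε (F.y i x))) ≤ (4 / r ^ 2) ^ (n + 1) := by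
          rw [Real.exp_neg, show ((n : ℝ) + 1) = ((n + 1 : ℕ) : ℝ) by push_cast; ring,
            Real.exp_nat_mul]
          unfold Pole.W0
          rw [Real.exp_log hq0, ← inv_pow]
          refine pow_le_pow_left₀ (inv_nonneg.2 hq0.le) ?_ _
          rw [show 4 / r ^ 2 = (r ^ 2 / 4)⁻¹ by rw [inv_div]]
          exact inv_anti₀ hr2 hq
        rw [neg_add, Real.exp_add]
        have h4 : 0 ≤ ‖h x * Complex.exp ((p : ℂ) * G (F.f x) / 2)‖ ^ 2 *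
            Real.exp (-(p * F.pK t i x)) := by positivity
        nlinarith
    _ = ENNReal.ofReal ((4 / r ^ 2) ^ (n + 1)) * ∫⁻ x in F.Sh i a r,
        ENNReal.ofReal (‖h x‖ ^ 2 * Real.exp (-(p * F.pK t j x))) ∂μ :=
        lintegral_const_mul' _ _ ENNReal.ofReal_ne_top
    _ ≤ ENNReal.ofReal ((4 / r ^ 2) ^ (n + 1)) * 1 := by
        refine mul_le_mul_right ((lintegral_mono_set hSV).trans hadm.2) _
    _ = _ := mul_one _

/-- Constants for the value at `x`, which do not depend on `ε`. -/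
theorem Semi.value_const {t p : ℝ} (ht : t ∈ Ico 0 T) {i j : P} {h : M → ℂ}
    (hh : F.Hol j h) {x : M} (hxi : F.f x ∈ F.S i) (hxi1 : nsq (F.y i x) ≤ 1) {r : ℝ} (hr : 0 < r)
    {G : Z → ℂ} (hBV : F.B i (F.y i x) r ⊆ F.V j)
    (hGh : ∀ c, NF.HolC (fun x => G (F.f ((F.e c).symm x))) (F.domG c i (F.y i x) r))
    (hμ : HasDens F.e F.Ω μ) {I₀ : ℝ} (hI₀ : 0 ≤ I₀) :
    ∃ C ε₀, 0 ≤ C ∧ 0 < ε₀ ∧ ∀ ε, 0 < ε → ε ≤ ε₀ → ∀ (χ : M → ℝ) (h₁ : M → ℂ), F.Hol i h₁ →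
      (∀ x', F.f x' ∈ F.S i → nsq (F.y i x' - F.y i x) ≤ r ^ 2 / 4 → χ x' = 1) →
      ∫⁻ x' in F.V i, ENNReal.ofReal (‖(χ x' : ℂ) * (h x' *
        Complex.exp ((p : ℂ) * G (F.f x') / 2)) - h₁ x'‖ ^ 2 *
        Real.exp (-(p * F.pK t i x' + (n + 1) * Pole.W0 (F.y i x) ε (F.y i x')))) ∂μ ≤
        ENNReal.ofReal I₀ →
      ‖h x * Complex.exp ((p : ℂ) * G (F.f x) / 2) - h₁ x‖ ^ 2 ≤ C * ε ^ 2 := by
  obtain ⟨c, hc, -⟩ := F.cover x
  set z₀ : Cn n := F.e c x with hz₀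
  set H : M → ℂ := fun x' => h x' * Complex.exp ((p : ℂ) * G (F.f x') / 2) with hH
  set Fi : Cn n → Cn N := fun w => F.y i ((F.e c).symm w) with hFi
  have hz₀t : z₀ ∈ (F.e c).target := (F.e c).map_source hc
  have hz₀x : (F.e c).symm z₀ = x := (F.e c).left_inv hc
  -- the open set
  set V' : Set (Cn n) := F.domG c i (F.y i x) (r / 2) with hV'
  have hV'o : IsOpen V' := F.isOpen_domG c i _ _
  have hz₀V : z₀ ∈ V' := by
    refine ⟨hz₀t, by rwa [hz₀x], ?_⟩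
    rw [hz₀x, sub_self, nsq_zero]
    positivity
  have hV'sub : V' ⊆ F.domG c i (F.y i x) r := by
    rintro w ⟨h1, h2, h3⟩
    refine ⟨h1, h2, h3.trans_le ?_⟩
    nlinarith
  -- the set of the points of `V'` over `V i`
  set O' : Set (Cn n) := {w | w ∈ (F.e c).target ∧ (F.e c).symm w ∈ F.V i} with hO'
  have hO'o : IsOpen O' := (F.e c).symm.isOpen_inter_preimage (F.isOpen_V i)
  have hz₀O : z₀ ∈ O' := ⟨hz₀t, by
    rw [hz₀x]
    exact ⟨hxi, hxi1.trans_lt (by norm_num)⟩⟩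
  have hΩc : ContinuousOn (F.Ω c) (F.e c).target := (F.vol.smooth c).continuousOn
  have hΩ0 : 0 < F.Ω c z₀ := F.vol.pos c z₀ hz₀t
  set W₁ : Cn n → ℝ := fun w => p * F.pK t i ((F.e c).symm w) with hW₁
  have hW₁c : ContinuousOn W₁ O' := ((F.continuousOn_pK ht i).comp
    ((F.e c).symm.continuousOn.mono fun w hw => hw.1) fun w hw => hw.2).const_mul p
  -- the Lipschitz constant
  have hFs : ContDiffAt ℝ ∞ Fi z₀ :=
    (F.hol_y c i).1.contDiffAt ((F.isOpen_domF c i).mem_nhds ⟨hz₀t, by rwa [hz₀x]⟩)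
  obtain ⟨K, U, hU, hlip⟩ := (hFs.of_le (by exact_mod_cast le_top) :
    ContDiffAt ℝ 1 Fi z₀).exists_lipschitzOnWith
  set L : ℝ := √(2 * N) * K with hL
  have hev : ∀ᶠ w in 𝓝 z₀, w ∈ V' ∧ w ∈ O' ∧ nsq (Fi w - Fi z₀) ≤ L ^ 2 * nsq (w - z₀) ∧
      W₁ w ≤ W₁ z₀ + 1 ∧ F.Ω c z₀ / 2 ≤ F.Ω c w := by
    have e1 : ∀ᶠ w in 𝓝 z₀, W₁ w < W₁ z₀ + 1 :=
      (hW₁c.continuousAt (hO'o.mem_nhds hz₀O)).eventually_lt_const (by linarith)
    have e2 : ∀ᶠ w in 𝓝 z₀, F.Ω c z₀ / 2 < F.Ω c w :=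
      (hΩc.continuousAt ((F.e c).open_target.mem_nhds hz₀t)).eventually_const_lt (by linarith)
    filter_upwards [hV'o.mem_nhds hz₀V, hO'o.mem_nhds hz₀O, hU, e1, e2] with w h1 h2 h3 h4 h5
    refine ⟨h1, h2, ?_, h4.le, h5.le⟩
    have h6 : ‖Fi w - Fi z₀‖ ≤ K * ‖w - z₀‖ := by
      have := hlip.dist_le_mul w h3 z₀ (mem_of_mem_nhds hU)
      rwa [dist_eq_norm, dist_eq_norm] at this
    have h7 := nsq_le_norm (Fi w - Fi z₀)
    have h8 := norm_sq_le (w - z₀)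
    have h9 : ‖Fi w - Fi z₀‖ ^ 2 ≤ (K : ℝ) ^ 2 * nsq (w - z₀) := by
      calc ‖Fi w - Fi z₀‖ ^ 2 ≤ (K * ‖w - z₀‖) ^ 2 := by gcongr
        _ = (K : ℝ) ^ 2 * ‖w - z₀‖ ^ 2 := by ring
        _ ≤ _ := by gcongr
    have h10 : L ^ 2 = 2 * N * (K : ℝ) ^ 2 := by
      rw [hL, mul_pow, Real.sq_sqrt (by positivity)]
    rw [h10]
    calc nsq (Fi w - Fi z₀) ≤ 2 * N * ‖Fi w - Fi z₀‖ ^ 2 := h7
      _ ≤ 2 * N * ((K : ℝ) ^ 2 * nsq (w - z₀)) := by gcongr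
      _ = _ := by ring
  obtain ⟨ε₀, hε₀, hball⟩ := Metric.eventually_nhds_iff_ball.1 hev
  have hin : ∀ ε, 0 < ε → ε ≤ ε₀ / 2 → ∀ w, nsq (w - z₀) ≤ ε ^ 2 → w ∈ Metric.ball z₀ ε₀ := by
    intro ε hε hle w hw
    rw [mem_ball_iff_norm]
    have h1 : ‖w - z₀‖ ^ 2 ≤ ε ^ 2 := (norm_sq_le _).trans hw
    have h2 : ‖w - z₀‖ ≤ ε := abs_le_of_sq_le_sq' h1 hε.le |>.2
    linarith
  set v : ℝ := (volume {w : Cn n | nsq w ≤ 1}).toReal with hv
  have hvp : 0 < v := Pole.volume_unit_pos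
  refine ⟨Real.exp (W₁ z₀ + 1) * (L ^ 2 + 1) ^ (n + 1) / (F.Ω c z₀ / 2 * v) * I₀, ε₀ / 2,
    by positivity, by positivity, fun ε hε hle χ h₁ hh₁ hχ hint => ?_⟩
  set g : Cn n → ℂ := fun w => H ((F.e c).symm w) - h₁ ((F.e c).symm w) with hg
  set S₁ : Set (Cn n) := V' ∩ O' with hS₁
  have hS₁o : IsOpen S₁ := hV'o.inter hO'o
  have hgh : NF.HolC g S₁ := by
    have e1 : NF.HolC (fun w => h ((F.e c).symm w)) S₁ := HolC_mono (hh c) fun w hw =>
      ⟨hw.1.1, hBV ⟨hw.1.2.1, hw.1.2.2.trans_le (by nlinarith)⟩⟩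
    have e2 : NF.HolC (fun w => G (F.f ((F.e c).symm w))) S₁ :=
      HolC_mono (hGh c) fun w hw => hV'sub hw.1
    have e3 : NF.HolC (fun w => ((p / 2 : ℝ) : ℂ) * G (F.f ((F.e c).symm w))) S₁ :=
      (NF.HolC.const _ S₁).mul hS₁o e2
    have e4 := e1.mul hS₁o (Fb.holC_exp hS₁o e3)
    have e5 : NF.HolC (fun w => (-1 : ℂ) * h₁ ((F.e c).symm w)) S₁ :=
      (NF.HolC.const _ S₁).mul hS₁o (HolC_mono (hh₁ c) fun w hw => ⟨hw.2.1, hw.2.2⟩)
    have e6 := e4.add hS₁o e5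
    have e7 : g = fun w => h ((F.e c).symm w) * Complex.exp (((p / 2 : ℝ) : ℂ) *
        G (F.f ((F.e c).symm w))) + (-1 : ℂ) * h₁ ((F.e c).symm w) := by
      funext w
      simp only [hg, hH]
      rw [show (p : ℂ) * G (F.f ((F.e c).symm w)) / 2 =
        ((p / 2 : ℝ) : ℂ) * G (F.f ((F.e c).symm w)) by push_cast; ring]
      ring
    rw [e7]
    exact e6
  set Bl : Set (Cn n) := {w | nsq (w - z₀) ≤ ε ^ 2} with hBl
  have hBlc : IsCompact Bl := HM.isCompact_ball z₀ ε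
  have hBlS : Bl ⊆ S₁ := fun w hw =>
    ⟨(hball w (hin ε hε hle w hw)).1, (hball w (hin ε hε hle w hw)).2.1⟩
  have hBlt : Bl ⊆ (F.e c).target := fun w hw => (hBlS hw).2.1
  set X : Set M := (F.e c).symm '' Bl with hX
  have hXc : IsCompact X := hBlc.image_of_continuousOn ((F.e c).symm.continuousOn.mono hBlt)
  have hXm : MeasurableSet X := hXc.isClosed.measurableSet
  have hXs : X ⊆ (F.e c).source := by
    rintro _ ⟨w, hw, rfl⟩
    exact (F.e c).map_target (hBlt hw)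
  have hXV : X ⊆ F.V i := by
    rintro _ ⟨w, hw, rfl⟩
    exact (hBlS hw).2.2
  have hXB : X ⊆ F.B i (F.y i x) r := by
    rintro _ ⟨w, hw, rfl⟩
    have h1 := hV'sub (hBlS hw).1
    exact ⟨h1.2.1, h1.2.2⟩
  have hXχ : ∀ x' ∈ X, χ x' = 1 := by
    rintro _ ⟨w, hw, rfl⟩
    have h1 := (hBlS hw).1
    refine hχ _ h1.2.1 (h1.2.2.le.trans (le_of_eq ?_))
    ring
  set E : M → ℝ := fun x' =>
    Real.exp (-(p * F.pK t i x' + (n + 1) * Pole.W0 (F.y i x) ε (F.y i x'))) with hE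
  set f' : M → ℝ≥0∞ := fun x' => ENNReal.ofReal (‖H x' - h₁ x'‖ ^ 2 * E x') with hf'
  have hf'm : AEMeasurable f' (μ.restrict X) := by
    refine ENNReal.measurable_ofReal.comp_aemeasurable (ContinuousOn.aemeasurable ?_ hXm)
    have c1 : ContinuousOn H X := by
      have c2 : ContinuousOn h X := hh.continuousOn.mono (hXB.trans hBV)
      have c3 : ContinuousOn (fun x' => G (F.f x')) (F.B i (F.y i x) r) :=
        F.continuousOn_of_charts (F.isOpen_B i _ r) fun c' => (hGh c').1.continuousOn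
      exact c2.mul (((c3.mono hXB).const_mul _).div_const _).cexp
    have c4 : ContinuousOn h₁ X := hh₁.continuousOn.mono hXV
    have c5 : ContinuousOn (F.pK t i) X := (F.continuousOn_pK ht i).mono hXV
    have c6 : ContinuousOn (fun x' => Pole.W0 (F.y i x) ε (F.y i x')) X :=
      (Pole.W0_smooth (F.y i x) hε).continuous.comp_continuousOn
        ((F.continuousOn_y i).mono fun x' hx' => (hXV hx').1)
    exact ((c1.sub c4).norm.pow 2).mul ((c5.const_mul p).add (c6.const_mul _)).neg.rexp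
  have hμ' : KRFQ.IsDens F.e F.Ω μ := ⟨hμ⟩
  have hch := KRFQ.lintegral_chart hμ' hΩc hXm hXs hf'm
  have hI : ∫⁻ w in Bl, ENNReal.ofReal (‖g w‖ ^ 2 * Real.exp (-(W₁ w + (n + 1) *
      Real.log (nsq (Fi w - Fi z₀) + ε ^ 2))) * F.Ω c w) ≤ ENNReal.ofReal I₀ := by
    calc ∫⁻ w in Bl, ENNReal.ofReal (‖g w‖ ^ 2 * Real.exp (-(W₁ w + (n + 1) *
          Real.log (nsq (Fi w - Fi z₀) + ε ^ 2))) * F.Ω c w)
        = ∫⁻ w in Bl, ENNReal.ofReal (F.Ω c w) * X.indicator f' ((F.e c).symm w) := by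
          refine setLIntegral_congr_fun hBlc.isClosed.measurableSet fun w hw => ?_
          have hwX : (F.e c).symm w ∈ X := ⟨w, hw, rfl⟩
          have hΩw : 0 ≤ F.Ω c w := (F.vol.pos c w (hBlt hw)).le
          rw [indicator_of_mem hwX, hf', ← ENNReal.ofReal_mul hΩw]
          congr 1
          simp only [hE, Pole.W0, hg, hFi, hW₁, hz₀x]
          ring
      _ ≤ ∫⁻ w in (F.e c).target, ENNReal.ofReal (F.Ω c w) * X.indicator f' ((F.e c).symm w) :=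
          lintegral_mono_set hBlt
      _ = ∫⁻ x' in X, f' x' ∂μ := hch.symm
      _ = ∫⁻ x' in X, ENNReal.ofReal (‖(χ x' : ℂ) * H x' - h₁ x'‖ ^ 2 * E x') ∂μ := by
          refine setLIntegral_congr_fun hXm fun x' hx' => ?_
          simp only [hf', hXχ x' hx', Complex.ofReal_one, one_mul]
      _ ≤ ∫⁻ x' in F.V i, ENNReal.ofReal (‖(χ x' : ℂ) * H x' - h₁ x'‖ ^ 2 * E x') ∂μ :=
          lintegral_mono_set hXV
      _ ≤ ENNReal.ofReal I₀ := hint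
  have hfin := HM.pole (F := Fi) (W₁ := W₁) (Ω := F.Ω c) (z₀ := z₀) (ε := ε) (L := L)
    (B := W₁ z₀ + 1) (o := F.Ω c z₀ / 2) hε (by positivity)
    (fun w hw => (hball w (hin ε hε hle w hw)).2.2.1)
    (fun w hw => (hball w (hin ε hε hle w hw)).2.2.2.1)
    (fun w hw => (hball w (hin ε hε hle w hw)).2.2.2.2) hS₁o hgh hBlS hI₀ hI
  have hgz : g z₀ = H x - h₁ x := by simp only [hg, hz₀x]
  rw [hgz] at hfin
  refine hfin.trans (le_of_eq ?_)
  rw [← hv]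
  ring

end

end Pool.Agent.KRFZ
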