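import Pool.Agent.Work.MP_a2bf38_gt.Z.JN

/-!
# The integral over a neighbourhood of a set (helper52)

`tube`: the integral of `exp (-p (φ - m))` over the `ρ`-neighbourhood of a set `P` is at most
`K exp (p E)` if the psh functions `φ + Θ` have maxima over the balls of radius `ρ` and `28 ρ`
around the points of `P` which differ by at most `A`, `p ≤ c / A`.
-/

open scoped ContDiff ENNReal ComplexOrder Topology
open Set MeasureTheory Filter Pool.Agent.ToricKRF Pool.Agent.ToricKRF.G Pool.Agent.KRFS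
  Pool.Agent.KRFF Pool.Agent.KRFG Pool.Agent.KRFH

namespace Pool.Agent.KRFZ.JN

variable {n : ℕ}

theorem nsq_tri {x y : Cn n} {a b : ℝ} (ha : 0 ≤ a) (hb : 0 ≤ b) (hx : nsq x ≤ a ^ 2)
    (hy : nsq y ≤ b ^ 2) : nsq (x + y) ≤ (a + b) ^ 2 := by
  have e : nsq (x + y) = nsq x + 2 * ∑ i, (x.1 i * y.1 i + x.2 i * y.2 i) + nsq y := by
    simp only [nsq, dotProduct, ← Finset.sum_add_distrib, Finset.mul_sum]
    apply Finset.sum_congr rfl
    intro i _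
    simp
    ring
  have cs : (∑ i, (x.1 i * y.1 i + x.2 i * y.2 i)) ^ 2 ≤ nsq x * nsq y := by
    have k1 := Finset.sum_mul_sq_le_sq_mul_sq (Finset.univ : Finset (Fin n ⊕ Fin n))
      (Sum.elim x.1 x.2) (Sum.elim y.1 y.2)
    simp only [Fintype.sum_sum_type, Sum.elim_inl, Sum.elim_inr] at k1
    simp only [nsq, dotProduct, Finset.sum_add_distrib]
    simpa only [pow_two] using k1
  have h1 : ∑ i, (x.1 i * y.1 i + x.2 i * y.2 i) ≤ a * b := by
    refine (abs_le_of_sq_le_sq' ?_ (mul_nonneg ha hb)).2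
    refine cs.trans ?_
    rw [mul_pow]
    exact mul_le_mul hx hy (Decay.nsq_nonneg y) (by positivity)
  rw [e]
  nlinarith

theorem nsq_comm (x y : Cn n) : nsq (x - y) = nsq (y - x) := by
  rw [← neg_sub, ← neg_one_smul ℝ, nsq_smul]
  norm_num

/-- three points -/
theorem nsq_three {x y z : Cn n} {a b : ℝ} (ha : 0 ≤ a) (hb : 0 ≤ b) (hx : nsq (x - y) ≤ a ^ 2)
    (hy : nsq (y - z) ≤ b ^ 2) : nsq (x - z) ≤ (a + b) ^ 2 := by
  have h := nsq_tri ha hb hx hy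
  rwa [sub_add_sub_cancel] at h

/-- `main` for a point near which the function is large -/
theorem two_scale (n : ℕ) : ∃ (c : ℝ) (K : ℝ≥0∞), 0 < c ∧ K ≠ ⊤ ∧ ∀ (u : Cn n → ℝ) (q : Cn n)
    (ρ M₀ A p : ℝ), 0 < ρ → 0 < A → 0 ≤ p → p ≤ c / A →
    ContDiffOn ℝ ∞ u {x | nsq (x - q) < (29 * ρ) ^ 2} →
    (∀ x, nsq (x - q) < (29 * ρ) ^ 2 → ∀ v, 0 ≤ levz u v x) →
    (∀ x, nsq (x - q) < (29 * ρ) ^ 2 → u x ≤ M₀) →
    (∃ x₀, nsq (x₀ - q) ≤ ρ ^ 2 ∧ M₀ - A ≤ u x₀) →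
    ∫⁻ x in Ba q (2 * ρ), ENNReal.ofReal (Real.exp (-p * (u x - M₀))) ≤
      K * ENNReal.ofReal (ρ ^ (2 * n)) := by
  obtain ⟨c, K, hc, hK, h⟩ := main n
  refine ⟨c, K * ENNReal.ofReal (3 ^ (2 * n)), hc, ENNReal.mul_ne_top hK ENNReal.ofReal_ne_top, ?_⟩
  intro u q ρ M₀ A p hρ hA hp hpA hu hpsh hle ⟨x₀, hx₀, hux⟩
  have hsub : ∀ x, nsq (x - x₀) < (9 * (3 * ρ)) ^ 2 → nsq (x - q) < (29 * ρ) ^ 2 := by
    intro x hx
    have h1 := nsq_three (x := x) (y := x₀) (z := q) (a := 9 * (3 * ρ)) (b := ρ) (by positivity)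
      hρ.le hx.le hx₀
    refine lt_of_le_of_lt h1 ?_
    nlinarith [pow_pos hρ 2]
  have h1 := h u x₀ (3 * ρ) M₀ A p (by positivity) hA hp hpA (hu.mono fun x hx => hsub x hx)
    (fun x hx => hpsh x (hsub x hx)) (fun x hx => hle x (hsub x hx)) hux
  have h2 : Ba q (2 * ρ) ⊆ Ba x₀ (3 * ρ) := by
    intro x hx
    have h3 := nsq_three (x := x) (y := q) (z := x₀) (a := 2 * ρ) (b := ρ) (by positivity)
      hρ.le hx (by rwa [nsq_comm])
    show nsq (x - x₀) ≤ (3 * ρ) ^ 2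
    refine h3.trans_eq ?_
    ring
  refine (lintegral_mono_set h2).trans (h1.trans_eq ?_)
  rw [mul_assoc, ← ENNReal.ofReal_mul (by positivity), mul_pow]

/-- the open neighbourhood of radius `ρ` -/
def Nb (P : Set (Cn n)) (ρ : ℝ) : Set (Cn n) := {x | ∃ q ∈ P, nsq (x - q) < ρ ^ 2}

theorem isOpen_Nb (P : Set (Cn n)) (ρ : ℝ) : IsOpen (Nb P ρ) := by
  have h : Nb P ρ = ⋃ q ∈ P, {x | nsq (x - q) < ρ ^ 2} := by
    ext x
    simp [Nb]
  rw [h]
  exact isOpen_biUnion fun q _ => isOpen_lt (BallM.continuous_nsq.comp (by fun_prop))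
    continuous_const

/-- **the integral over a neighbourhood** -/
theorem tube (n : ℕ) (R : ℝ) (hR : 0 ≤ R) : ∃ (c : ℝ) (K : ℝ≥0∞), 0 < c ∧ K ≠ ⊤ ∧
    ∀ (φ Θ : Cn n → ℝ) (P : Set (Cn n)) (ρ m A E p : ℝ), 0 < ρ → ρ ≤ 1 → 0 < A → 0 ≤ p →
    p ≤ c / A → (∀ q ∈ P, nsq q ≤ R ^ 2) →
    (∀ q ∈ P, ContDiffOn ℝ ∞ φ {x | nsq (x - q) < (29 * ρ) ^ 2} ∧
      ContDiffOn ℝ ∞ (fun x => φ x + Θ x) {x | nsq (x - q) < (29 * ρ) ^ 2} ∧
      (∀ x, nsq (x - q) < (29 * ρ) ^ 2 → ∀ v, 0 ≤ levz (fun x => φ x + Θ x) v x) ∧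
      ∃ M₀, (∀ x, nsq (x - q) < (29 * ρ) ^ 2 → φ x + Θ x ≤ M₀) ∧
        (∃ x₀, nsq (x₀ - q) ≤ ρ ^ 2 ∧ M₀ - A ≤ φ x₀ + Θ x₀) ∧
        ∀ x, nsq (x - q) ≤ (2 * ρ) ^ 2 → Θ x - M₀ + m ≤ E) →
    ∫⁻ x in Nb P ρ, ENNReal.ofReal (Real.exp (-p * (φ x - m))) ≤
      K * ENNReal.ofReal (Real.exp (p * E)) := by
  obtain ⟨c, K, hc, hK, h⟩ := two_scale n
  set V₁ : ℝ≥0∞ := volume (Bl n 1) with hV₁
  set V₂ : ℝ≥0∞ := volume (Bl n (R + 2)) with hV₂
  have hV1 : V₁ ≠ ⊤ := volume_Bl_ne_top n 1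
  have hV2 : V₂ ≠ ⊤ := volume_Bl_ne_top n _
  have hV0 : V₁ ≠ 0 := by
    have h1 : IsOpen {w : Cn n | nsq w < 1 ^ 2} := isOpen_lt BallM.continuous_nsq continuous_const
    have h2 : {w : Cn n | nsq w < 1 ^ 2} ⊆ Bl n 1 := fun w hw => by
      have h3 : nsq w < 1 ^ 2 := hw
      exact h3.le
    have hinv : (volume : Measure (Cn n)).IsAddHaarMeasure := haar_Cn n
    refine (lt_of_lt_of_le (h1.measure_pos volume ⟨0, ?_⟩) (measure_mono h2)).ne'
    show nsq (0 : Cn n) < 1 ^ 2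
    simp [nsq]
  refine ⟨c, K * ENNReal.ofReal (2 ^ (2 * n)) * V₂ / V₁, hc,
    ENNReal.div_ne_top (ENNReal.mul_ne_top (ENNReal.mul_ne_top hK ENNReal.ofReal_ne_top) hV2) hV0,
    ?_⟩
  intro φ Θ P ρ m A E p hρ hρ1 hA hp hpA hPR hP
  set F : Cn n → ℝ≥0∞ := fun x => ENNReal.ofReal (Real.exp (-p * (φ x - m))) with hF
  have hSo := isOpen_Nb P ρ
  have hFm : AEMeasurable F (volume.restrict (Nb P ρ)) := by
    refine ContinuousOn.aemeasurable ?_ hSo.measurableSet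
    refine ENNReal.continuous_ofReal.comp_continuousOn ?_
    refine Real.continuous_exp.comp_continuousOn ?_
    refine continuousOn_const.mul (ContinuousOn.sub ?_ continuousOn_const)
    rintro x ⟨q, hq, hxq⟩
    have hx29 : nsq (x - q) < (29 * ρ) ^ 2 := by nlinarith [pow_pos hρ 2]
    exact ((hP q hq).1.continuousOn.continuousAt ((isOpen_lt (BallM.continuous_nsq.comp
      (by fun_prop)) continuous_const).mem_nhds hx29)).continuousWithinAt
  -- one ball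
  have hball : ∀ q ∈ P, ∫⁻ x in Ba q (2 * ρ), F x ≤
      K * ENNReal.ofReal (ρ ^ (2 * n)) * ENNReal.ofReal (Real.exp (p * E)) := by
    intro q hq
    obtain ⟨-, hs, hpsh, M₀, hM₀, hx₀, hE⟩ := hP q hq
    have h1 := h (fun x => φ x + Θ x) q ρ M₀ A p hρ hA hp hpA hs hpsh hM₀ hx₀
    calc ∫⁻ x in Ba q (2 * ρ), F x
        ≤ ∫⁻ x in Ba q (2 * ρ), ENNReal.ofReal (Real.exp (-p * (φ x + Θ x - M₀))) *
            ENNReal.ofReal (Real.exp (p * E)) := by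
          refine setLIntegral_mono' (measurableSet_Ba q _) fun x hx => ?_
          rw [← ENNReal.ofReal_mul (Real.exp_pos _).le, ← Real.exp_add]
          refine ENNReal.ofReal_le_ofReal (Real.exp_le_exp.2 ?_)
          have h2 := mul_le_mul_of_nonneg_left (hE x hx) hp
          linarith
      _ = (∫⁻ x in Ba q (2 * ρ), ENNReal.ofReal (Real.exp (-p * (φ x + Θ x - M₀)))) *
            ENNReal.ofReal (Real.exp (p * E)) := lintegral_mul_const' _ _ ENNReal.ofReal_ne_top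
      _ ≤ _ := mul_le_mul_left h1 _
  -- all balls
  have h1 := lintegral_le_of_local (S := Nb P ρ) (T := Bl n (R + 2)) hSo.measurableSet hFm
    (r := ρ / 2) (by positivity)
    (K := K * ENNReal.ofReal (ρ ^ (2 * n)) * ENNReal.ofReal (Real.exp (p * E)))
    (by
      rintro x ⟨q, hq, hxq⟩ y hxy
      have h2 := nsq_three (x := y) (y := x) (z := q) (a := ρ / 2) (b := ρ) (by positivity) hρ.le
        (by rwa [nsq_comm]) hxq.le
      have h3 := nsq_tri (x := y - q) (y := q) (a := ρ / 2 + ρ) (b := R) (by positivity) hR h2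
        (hPR q hq)
      rw [sub_add_cancel] at h3
      show nsq y ≤ (R + 2) ^ 2
      refine h3.trans (pow_le_pow_left₀ (by positivity) ?_ 2)
      linarith)
    (by
      intro y _
      by_cases hne : (Nb P ρ ∩ Ba y (ρ / 2)).Nonempty
      · obtain ⟨x, ⟨q, hq, hxq⟩, hxy⟩ := hne
        have hxy' : nsq (x - y) ≤ (ρ / 2) ^ 2 := hxy
        refine (lintegral_mono_set ?_).trans (hball q hq)
        rintro x' ⟨-, hx'⟩
        have hx'y : nsq (x' - y) ≤ (ρ / 2) ^ 2 := hx'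
        have h2 := nsq_three (x := x') (y := y) (z := x) (a := ρ / 2) (b := ρ / 2) (by positivity)
          (by positivity) hx'y (by rwa [nsq_comm])
        have h3 := nsq_three (x := x') (y := x) (z := q) (a := ρ / 2 + ρ / 2) (b := ρ)
          (by positivity) hρ.le h2 hxq.le
        show nsq (x' - q) ≤ (2 * ρ) ^ 2
        refine h3.trans_eq ?_
        ring
      · rw [not_nonempty_iff_eq_empty.1 hne, Measure.restrict_empty, lintegral_zero_measure]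
        exact zero_le)
  have h2 : ENNReal.ofReal ((ρ / 2) ^ (2 * n)) * ENNReal.ofReal (2 ^ (2 * n)) =
      ENNReal.ofReal (ρ ^ (2 * n)) := by
    rw [← ENNReal.ofReal_mul (by positivity), ← mul_pow, div_mul_cancel₀ _ two_ne_zero]
  have hr0 : ENNReal.ofReal ((ρ / 2) ^ (2 * n)) ≠ 0 := by
    rw [ne_eq, ENNReal.ofReal_eq_zero, not_le]
    positivity
  rw [ENNReal.div_eq_inv_mul, mul_assoc, mul_comm V₁⁻¹, ← div_eq_mul_inv] 
  rw [ENNReal.le_div_iff_mul_le (Or.inl hV0) (Or.inl hV1)]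
  rw [← ENNReal.mul_le_mul_iff_right hr0 ENNReal.ofReal_ne_top]
  calc _ = ENNReal.ofReal ((ρ / 2) ^ (2 * n)) * V₁ * ∫⁻ x in Nb P ρ, F x := by ring
    _ ≤ K * ENNReal.ofReal (ρ ^ (2 * n)) * ENNReal.ofReal (Real.exp (p * E)) * V₂ := h1
    _ = _ := by
      rw [← h2]
      ring

end Pool.Agent.KRFZ.JN
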