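import Pool.Agent.Work.MP_a2bf38_gt.Z.Setup

/-!
# Statements used in `Z/Tube.lean` until `Z/Reg.lean`, `Z/Log.lean`, `Z/Harn.lean` are there
-/

open scoped ContDiff ENNReal ComplexOrder Topology
open Set MeasureTheory Filter Pool.Agent.ToricKRF Pool.Agent.ToricKRF.G Pool.Agent.KRFS
  Pool.Agent.KRFF Pool.Agent.KRFG Pool.Agent.KRFE

namespace Pool.Agent.KRFZ

section

variable {n N : ℕ} {M Z : Type} [MetricSpace M] [CompactSpace M] [MetricSpace Z] {κ P : Type}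
  [Finite κ] [Finite P] {T : ℝ} (F : Semi n N M Z κ P T)

theorem Semi.U_bound : ∃ C, 0 ≤ C ∧ ∀ t ∈ Ico 0 T, ∀ c x l, nsq x ≤ 16 → 0 ≤ l →
    |F.U t c l x| ≤ C := sorry

theorem Semi.U_anti {t : ℝ} (ht : t ∈ Ico 0 T) {c : κ} {x : Cn n} (hx : nsq x ≤ 16) {l l' : ℝ}
    (hl : 0 ≤ l) (h : l ≤ l') : F.U t c l' x ≤ F.U t c l x := sorry

theorem Semi.U_le_U : ∃ C a, 0 ≤ C ∧ 0 ≤ a ∧ ∀ t ∈ Ico 0 T, ∀ c c' p p' l,
    p ∈ (F.e c).source → p' ∈ (F.e c').source → nsq (F.e c p) ≤ 16 → nsq (F.e c' p') ≤ 16 →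
    a ≤ l → dist p p' ≤ Real.exp (-l) →
    F.U t c l (F.e c p) ≤ F.U t c' (l - a) (F.e c' p') + C * Real.exp (-l) := sorry

theorem Semi.slope {t : ℝ} (ht : t ∈ Ico 0 T) {z : Z} {l : ℝ} (hl : 0 < l) {c : κ} {p : M}
    (hp : p ∈ (F.e c).source) (hx : nsq (F.e c p) ≤ 9) (hz : F.f p = z) :
    0 < F.A t z l ∧ F.A t z l ≤ F.G t z c l (F.e c p) ∧ ∀ a, 0 ≤ a → a ≤ l / 2 →
      F.U t c (l - a) (F.e c p) ≤ F.U t c l (F.e c p) + 2 * a / l * F.G t z c l (F.e c p) := sorry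

theorem Semi.harnack : ∃ C l₀, 0 ≤ C ∧ 1 ≤ l₀ ∧ ∀ t ∈ Ico 0 T, ∀ z l, l₀ ≤ l → ∀ c p,
    p ∈ (F.e c).source → nsq (F.e c p) ≤ 9 → F.f p = z →
    F.G t z c l (F.e c p) ≤ C * F.A t z l := sorry

end

end Pool.Agent.KRFZ
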